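import Pool.Agent.GT.Val

/-!
# Fields of definition of points over `Om k`
-/

set_option autoImplicit false

noncomputable section

namespace Pool.Agent.GT

open Pool.Agent.ZCyc Pool.Agent.Dess Pool.Agent.TInc
open Pool.Agent.VFP (Om tt)
open scoped Classical LinearAlgebra.Projectivization

variable {k : Type} [Field k] {m : ℕ} {X : Set (MvPolynomial (Fin (m + 1)) k)}

private theorem fld_transc : Transcendental k (tt k) := by
  have h : Transcendental k (RatFunc.X : RatFunc k) := RatFunc.transcendental_X
  have h2 := (transcendental_algebraMap_iff (R := k) (S := RatFunc k) (A := Om k)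
    (algebraMap (RatFunc k) (Om k)).injective (a := RatFunc.X)).2 h
  exact h2

/-- a field generated by finitely many elements, which contains `tt k`, is the function field of a
curve -/
private theorem fld_isCurve [IsAlgClosed k] [CharZero k] (S : Set (Om k)) (hS : S.Finite)
    (ht : tt k ∈ IntermediateField.adjoin k S) : IsCurve k (IntermediateField.adjoin k S) := by
  set K : IntermediateField k (Om k) := IntermediateField.adjoin k S with hKdef
  let t : K := ⟨tt k, ht⟩
  have htK : Transcendental k t := by
    intro h
    apply fld_transc (k := k)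
    exact h.algHom K.val
  refine ⟨t, htK, ?_⟩
  have hess : Algebra.EssFiniteType k K := by
    rw [IntermediateField.essFiniteType_iff]
    exact IntermediateField.fg_adjoin_of_finite hS
  have hess2 : Algebra.EssFiniteType (IntermediateField.adjoin k {t}) K :=
    Algebra.EssFiniteType.of_comp k _ K
  have halg : Algebra.IsAlgebraic (IntermediateField.adjoin k {t}) K := by
    refine ⟨fun z => ?_⟩
    have h1 : IsAlgebraic (IntermediateField.adjoin k {tt k}) (K.val z) :=
      (alg_adjoin (fld_transc (k := k))).isAlgebraic _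
    have hmap : (IntermediateField.adjoin k {t}).map K.val =
        IntermediateField.adjoin k {tt k} := by
      rw [IntermediateField.adjoin_map, Set.image_singleton]
      rfl
    have hmem : ∀ e : IntermediateField.adjoin k {t},
        ((K.val : K →+* Om k).comp (algebraMap (IntermediateField.adjoin k {t}) K)) e ∈
          IntermediateField.adjoin k {tt k} := by
      intro e
      rw [← hmap]
      exact ⟨e.1, e.2, rfl⟩
    let f : IntermediateField.adjoin k {t} →+* IntermediateField.adjoin k {tt k} :=
      ((K.val : K →+* Om k).comp (algebraMap (IntermediateField.adjoin k {t}) K)).codRestrict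
        (IntermediateField.adjoin k {tt k}).toSubfield hmem
    refine h1.of_ringHom_of_comp_eq (f := f) (g := (K.val : K →+* Om k)) ?_ ?_ ?_
    · rintro ⟨y, hy⟩
      have hy' := hy
      rw [← hmap] at hy'
      obtain ⟨e, he, rfl⟩ := hy'
      exact ⟨⟨e, he⟩, rfl⟩
    · exact (K.val : K →+* Om k).injective
    · ext x
      rfl
  exact Algebra.finite_of_essFiniteType_of_isAlgebraic

/-- a finite number of points over `Om k` is defined over the function field `K` of a curve, which
contains a given finite set: take `K = k(tt, the set, the ratios of the coordinates)`; it is finite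
over `k(tt)`. -/
theorem exists_field [IsAlgClosed k] [CharZero k] (hX : Hom X) (Γ : Finset (Om k)) {J : Type}
    [Finite J] (x : J → Pt X (Om k)) :
    ∃ (K : IntermediateField k (Om k)) (y : J → Pt X K), IsCurve k K ∧ ↑Γ ⊆ (K : Set (Om k)) ∧
      tt k ∈ K ∧ ∀ j, (y j).map K.val hX = x j := by
  have hex : ∀ j, ∃ i, (x j).1.rep i ≠ 0 := by
    intro j
    by_contra hcon
    push Not at hcon
    exact (x j).1.rep_nonzero (funext hcon)
  choose i0 hi0 using hex
  set r : J → Fin (m + 1) → Om k := fun j i => ((x j).1.rep (i0 j))⁻¹ * (x j).1.rep i with hr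
  set S : Set (Om k) := insert (tt k) ((Γ : Set (Om k)) ∪ Set.range fun p : J × Fin (m + 1) =>
    r p.1 p.2) with hSdef
  have hSfin : S.Finite := (Γ.finite_toSet.union (Set.finite_range _)).insert _
  have htK : tt k ∈ IntermediateField.adjoin k S :=
    IntermediateField.subset_adjoin k S (Set.mem_insert _ _)
  have hΓ : ↑Γ ⊆ (IntermediateField.adjoin k S : Set (Om k)) := fun z hz =>
    IntermediateField.subset_adjoin k S (Set.mem_insert_of_mem _ (Or.inl hz))
  have hrK : ∀ j i, r j i ∈ IntermediateField.adjoin k S := fun j i =>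
    IntermediateField.subset_adjoin k S (Set.mem_insert_of_mem _ (Or.inr ⟨(j, i), rfl⟩))
  have hcurve := fld_isCurve S hSfin htK
  generalize IntermediateField.adjoin k S = K at htK hΓ hrK hcurve
  have hne : ∀ j, (fun i => (⟨r j i, hrK j i⟩ : K)) ≠ 0 := by
    intro j h
    have h1 := congrArg Subtype.val (congrFun h (i0 j))
    have h2 : r j (i0 j) = 1 := by
      rw [hr]
      exact inv_mul_cancel₀ (hi0 j)
    change r j (i0 j) = 0 at h1
    rw [h2] at h1
    exact one_ne_zero h1
  have heq : ∀ j, ∀ f ∈ X, MvPolynomial.aeval (fun i => (⟨r j i, hrK j i⟩ : K)) f = 0 := by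
    intro j f hf
    refine (map_eq_zero K.val).1 ?_
    have h1 : K.val (MvPolynomial.aeval (fun i => (⟨r j i, hrK j i⟩ : K)) f) =
        MvPolynomial.aeval (fun i => r j i) f :=
      DFunLike.congr_fun (MvPolynomial.comp_aeval (fun i => (⟨r j i, hrK j i⟩ : K)) K.val) f
    rw [h1]
    obtain ⟨d, hd⟩ := hX f hf
    rw [hr]
    dsimp only
    rw [aeval_smul_homog hd, (x j).2 f hf, mul_zero]
  refine ⟨K, fun j => mkPt hX (fun i => ⟨r j i, hrK j i⟩) (hne j) (heq j), hcurve, hΓ, htK,
    fun j => ?_⟩
  apply Subtype.ext
  obtain ⟨c, hc⟩ := Projectivization.exists_smul_eq_mk_rep K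
    (fun i => (⟨r j i, hrK j i⟩ : K)) (hne j)
  conv_rhs => rw [← Projectivization.mk_rep (x j).1]
  unfold Pt.map mkPt
  dsimp only
  rw [Projectivization.mk_eq_mk_iff']
  refine ⟨K.val (c : K) * ((x j).1.rep (i0 j))⁻¹, ?_⟩
  funext i
  have h1 := congrFun hc i
  rw [← h1]
  change K.val (c : K) * ((x j).1.rep (i0 j))⁻¹ * (x j).1.rep i =
    K.val ((c : K) * (⟨r j i, hrK j i⟩ : K))
  rw [map_mul, mul_assoc]
  rfl

end Pool.Agent.GT
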