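import Pool.Agent.TInc.Ord
import Pool.Agent.Dess.CRT

/-!
# Functions with prescribed orders
-/

set_option autoImplicit false

noncomputable section

namespace Pool.Agent.GT

open Pool.Agent.ZCyc Pool.Agent.Dess Pool.Agent.TInc
open scoped Classical

variable {k : Type} [Field k] [IsAlgClosed k] [CharZero k]

omit [CharZero k] in
/-- a transcendental function which is regular at finitely many given places -/
private theorem presc_regular {K : Type} [Field K] [Algebra k K] (hK : IsCurve k K)
    (S : Finset (Place k K)) : ∃ w : K, Transcendental k w ∧ ∀ u ∈ S, w ∈ u.ring := by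
  obtain ⟨t, ht, -⟩ := hK
  -- the finite set of values of `t`
  let val : Place k K → k := fun u => if h : ∃ c, u.At t c then h.choose else 0
  obtain ⟨c, hc⟩ := Infinite.exists_notMem_finset (S.image val)
  refine ⟨(t - algebraMap k K c)⁻¹, ?_, fun u hu => ?_⟩
  · intro h
    apply ht
    have h1 : IsAlgebraic k (t - algebraMap k K c) := by
      have := h.inv
      rwa [inv_inv] at this
    have h2 := h1.add (isAlgebraic_algebraMap (A := K) c)
    rwa [sub_add_cancel] at h2
  · by_contra h
    have h1 : u.Vanishes (t - algebraMap k K c) := (u.vanishes_iff_or _).2 (Or.inr h)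
    apply hc
    rw [Finset.mem_image]
    refine ⟨u, hu, ?_⟩
    have h2 : ∃ c, u.At t c := ⟨c, h1⟩
    have h3 : val u = h2.choose := dif_pos h2
    rw [h3]
    exact h2.choose_spec.unique h1

/-- `f` with the order one at `v₀`, and the order zero at the other places of a finite set:
`Dess.crt` for a function `w` which is regular at all these places (compare `exists_regular` in
`Dess/Galois.lean`). -/
theorem exists_prescribed {K : Type} [Field K] [Algebra k K] (hK : IsCurve k K) (v₀ : Place k K)
    (S : Finset (Place k K)) : ∃ f : K, f ≠ 0 ∧ ord v₀ f = 1 ∧ ∀ v ∈ S, v ≠ v₀ → ord v f = 0 := by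
  obtain ⟨π₀, hπ₀⟩ := exists_unif hK v₀
  obtain ⟨w, hw, hreg⟩ := presc_regular hK (insert v₀ S)
  obtain ⟨b, -, hb⟩ := crt hK hw (insert v₀ S) hreg 2 (fun v => if v = v₀ then π₀ else 1) (by
    intro v _
    by_cases h : v = v₀
    · simp only [h, if_true]
      exact hπ₀.2.1.mem
    · simp only [h, if_false]
      exact v.ring.one_mem)
  have h0 := hb v₀ (Finset.mem_insert_self _ _) π₀ hπ₀
  rw [if_pos rfl] at h0
  have hπ0 := hπ₀.1
  have h1 : v₀.At (b / π₀) 1 := by
    unfold Place.At
    have h2 := Place.Vanishes.mul v₀ hπ₀.2.1 h0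
    rw [_root_.map_one]
    convert h2 using 1
    field_simp
  have hne : b / π₀ ≠ 0 := by
    intro h
    rw [h] at h1
    exact one_ne_zero (h1.unique (by simpa using Place.at_const (v := v₀) (0 : k)))
  have hbe : b = π₀ * (b / π₀) := by field_simp
  have hb0 : b ≠ 0 := by
    intro h
    apply hne
    rw [h, zero_div]
  refine ⟨b, hb0, ?_, ?_⟩
  · rw [hbe, ord_mul hK v₀ hπ0 hne, ord_unif hK hπ₀, ord_of_at hK h1 one_ne_zero, add_zero]
  · intro v hv hvv
    obtain ⟨π, hπ⟩ := exists_unif hK v
    have h3 := hb v (Finset.mem_insert_of_mem hv) π hπ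
    rw [if_neg hvv] at h3
    have h4 : v.At b 1 := by
      unfold Place.At
      have h5 := Place.Vanishes.mul v (hπ.2.1.pow v (n := 2) (by norm_num)) h3
      rw [_root_.map_one]
      rwa [mul_div_cancel₀ _ (pow_ne_zero 2 hπ.1)] at h5
    exact ord_of_at hK h4 one_ne_zero

end Pool.Agent.GT
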