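import Pool.Agent.GT.Lim
import Pool.Agent.GT.Fld
import Pool.Agent.GT.Presc

/-!
# The moving lemma and the comparison of two values of the parameter
-/

set_option autoImplicit false

noncomputable section

namespace Pool.Agent.GT

open Pool.Agent.ZCyc Pool.Agent.Dess Pool.Agent.TInc
open Pool.Agent.VFP (Om tt)
open scoped Classical LinearAlgebra.Projectivization

variable {k : Type} [Field k] [IsAlgClosed k] [CharZero k] {m : ℕ}
  {X : Set (MvPolynomial (Fin (m + 1)) k)} {ι : Type}

private theorem mov_field (hX : Hom X) (z : (ι → Pt X (Om k)) →₀ ℚ) (Γ : Finset (Om k))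
    [Finite ι] : ∃ (K : IntermediateField k (Om k)) (z' : (ι → Pt X K) →₀ ℚ), IsCurve k K ∧
      ↑Γ ⊆ (K : Set (Om k)) ∧ tt k ∈ K ∧
      Finsupp.mapDomain (fun x j => (x j).map K.val hX) z' = z := by
  obtain ⟨K, y, hK, hΓ, htt, hy⟩ := exists_field hX Γ (J := z.support × ι) (fun p => p.1.1 p.2)
  refine ⟨K, ∑ x : z.support, Finsupp.single (fun j => y (x, j)) (z x), hK, hΓ, htt, ?_⟩
  rw [Finsupp.mapDomain_finsetSum]
  have h1 : ∀ x : z.support, Finsupp.mapDomain (fun (x : ι → Pt X K) j => (x j).map K.val hX)
      (Finsupp.single (fun j => y (x, j)) (z x)) = Finsupp.single (x : ι → Pt X (Om k)) (z x) := by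
    intro x
    rw [Finsupp.mapDomain_single]
    congr 1
    funext j
    exact hy (x, j)
  rw [Finset.sum_congr rfl fun x _ => h1 x]
  rw [Finset.sum_coe_sort z.support fun x => Finsupp.single x (z x)]
  exact Finsupp.sum_single z

omit [IsAlgClosed k] [CharZero k] in
private theorem mov_vanishes {K : IntermediateField k (Om k)} {V : Place k (Om k)}
    {c : Place k K} (h : V.ring.comap (K.val : K →+* Om k) = c.ring) (f : K) :
    V.Vanishes (f : Om k) ↔ c.Vanishes f := by
  rw [Place.vanishes_iff_or, Place.vanishes_iff_or, ← h, ValuationSubring.mem_comap]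
  constructor
  · rintro (h1 | h1)
    · left
      exact Subtype.ext h1
    · right
      exact h1
  · rintro (h1 | h1)
    · left
      rw [h1]
      rfl
    · right
      exact h1

/-- The moving lemma: if the limits are zero at almost all places then at all places. Here almost
all means: at all places where the elements of the finite set `Γ` are units.
Proof: `exists_field` for `Γ` and the points in `z`: a function field `K` in `Om k` and a cycle
`z'` over `K`. Let `v₀` be a place of `Om k`, `c₀` the place of `K` below (`exists_below`). At all but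
finitely many places `c` of `K` the elements of `Γ` are units (`finite_ord`). Take `f` with the
order one at `c₀` and zero at the other exceptional places (`exists_prescribed`). In `sum_lim` for
`f` and `z'` all terms with `c ≠ c₀` are zero: the order is zero, or `c` is not exceptional; take a
place `v` of `Om k` above `c` (`exists_above`), the elements of `Γ` are units at `v`, and
`lim c z' = lim v z = 0` (`lim_map`). -/
theorem moving (hX : Hom X) (z : (ι → Pt X (Om k)) →₀ ℚ) (Γ : Finset (Om k)) (hΓ : (0 : Om k) ∉ Γ)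
    [Finite ι]
    (h : ∀ v : Place k (Om k), (∀ g ∈ Γ, g ∈ v.ring ∧ g⁻¹ ∈ v.ring) → lim hX v z = 0)
    (v : Place k (Om k)) : lim hX v z = 0 := by
  obtain ⟨K, z', hK, hΓK, htt, hz⟩ := mov_field hX z Γ
  have : HasRes k K := hasRes_of_isCurve hK
  obtain ⟨c₀, hc₀⟩ := exists_below hK v K.val
  have hlim : ∀ (V : Place k (Om k)) (c : Place k K),
      V.ring.comap (K.val : K →+* Om k) = c.ring → lim hX V z = lim hX c z' := by
    intro V c hV
    rw [← hz]
    exact lim_map hX (φ := K.val) hV z'
  rw [hlim v c₀ hc₀]
  let T : Finset (Place k K) := Γ.attach.biUnion fun g =>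
    (finite_ord hK (⟨g.1, hΓK g.2⟩ : K)).toFinset
  obtain ⟨f, hf, hf1, hf0⟩ := exists_prescribed hK c₀ T
  have hsum := sum_lim hX hK z' hf (dv hK f) fun c => ord_hasOrd hK c hf
  have key : ∀ c, c ≠ c₀ → ord c f ≠ 0 → lim hX c z' = 0 := by
    intro c hc hcf
    have hcT : c ∉ T := fun h => hcf (hf0 c h hc)
    obtain ⟨V, hV⟩ := exists_above hK c K.val
    rw [← hlim V c hV]
    apply h
    intro g hg
    have h1 : ord c (⟨g, hΓK hg⟩ : K) = 0 := by
      by_contra hne
      apply hcT
      rw [Finset.mem_biUnion]
      exact ⟨⟨g, hg⟩, Finset.mem_attach _ _, (Set.Finite.mem_toFinset _).2 hne⟩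
    have h2 : (⟨g, hΓK hg⟩ : K) ≠ 0 := by
      intro h3
      apply hΓ
      have h4 := congrArg Subtype.val h3
      change g = 0 at h4
      rw [← h4]
      exact hg
    rw [ord_eq_zero_iff hK h2, ← hV, ValuationSubring.mem_comap, ValuationSubring.mem_comap] at h1
    exact h1
  rw [Finsupp.sum, Finset.sum_eq_single c₀] at hsum
  · rw [dv_apply, hf1] at hsum
    simpa using hsum
  · intro c hc hne
    rw [Finsupp.mem_support_iff, dv_apply] at hc
    rw [key c hne hc, smul_zero]
  · intro hc
    rw [Finsupp.notMem_support_iff, dv_apply, hf1] at hc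
    exact absurd hc one_ne_zero

/-- If all limits above `t = c₀` are `C₀`, and all limits above `t = c₁` are `C₁` then `C₀ = C₁`:
`exists_field`, `K ∋ t`, and `sum_lim` for the function `(t - c₀) / (t - c₁)`; by `deg_zeros'` the
sum over the zeros of `t - c₀` is `[K : k(t)] C₀`. -/
theorem bridge (hX : Hom X) (z : (ι → Pt X (Om k)) →₀ ℚ) [Finite ι] {c₀ c₁ : k} {C₀ C₁ : CH X ι}
    (h₀ : ∀ v : Place k (Om k), v.At (tt k) c₀ → lim hX v z = C₀)
    (h₁ : ∀ v : Place k (Om k), v.At (tt k) c₁ → lim hX v z = C₁) : C₀ = C₁ := by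
  obtain ⟨K, z', hK, -, htt, hz⟩ := mov_field hX z ∅
  have : HasRes k K := hasRes_of_isCurve hK
  have hlim : ∀ (V : Place k (Om k)) (c : Place k K),
      V.ring.comap (K.val : K →+* Om k) = c.ring → lim hX V z = lim hX c z' := by
    intro V c hV
    rw [← hz]
    exact lim_map hX (φ := K.val) hV z'
  set τ : K := ⟨tt k, htt⟩ with hτ
  have hτt : Transcendental k τ := by
    intro h
    apply Pool.Agent.VFP.tt_transc (k := k)
    have h1 := (isAlgebraic_algHom_iff K.val (K.val : K →+* Om k).injective).2 h
    exact h1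
  -- the two functions
  let f : k → K := fun c => τ - algebraMap k K c
  have hft : ∀ c, Transcendental k (f c) := by
    intro c h
    apply hτt
    have h1 : τ = f c + algebraMap k K c := by
      change τ = τ - algebraMap k K c + algebraMap k K c
      ring
    rw [h1]
    exact h.add (isAlgebraic_algebraMap c)
  have hf0 : ∀ c, f c ≠ 0 := by
    intro c h
    apply hft c
    rw [h]
    exact isAlgebraic_zero
  have hadj : ∀ c, IntermediateField.adjoin k {f c} = IntermediateField.adjoin k {τ} := by
    intro c
    apply le_antisymm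
    · rw [IntermediateField.adjoin_simple_le_iff]
      exact sub_mem (IntermediateField.mem_adjoin_simple_self k τ)
        (IntermediateField.algebraMap_mem _ c)
    · rw [IntermediateField.adjoin_simple_le_iff]
      have h1 : τ = f c + algebraMap k K c := by
        change τ = τ - algebraMap k K c + algebraMap k K c
        ring
      have h2 : f c + algebraMap k K c ∈ IntermediateField.adjoin k {f c} :=
        add_mem (IntermediateField.mem_adjoin_simple_self k (f c))
          (IntermediateField.algebraMap_mem _ c)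
      rw [← h1] at h2
      exact h2
  set d : ℕ := Module.finrank (IntermediateField.adjoin k {τ}) K with hd
  have hdpos : 0 < d := by
    have := fin_adjoin hK hτt
    exact Module.finrank_pos
  let S : k → Finset (Place k K) := fun c =>
    (finite_ord hK (f c)).toFinset.filter fun v => v.Vanishes (f c)
  have hS : ∀ c v, v ∈ S c ↔ v.Vanishes (f c) := by
    intro c v
    rw [Finset.mem_filter, Set.Finite.mem_toFinset]
    constructor
    · exact fun h => h.2
    · intro h
      have h1 := (vanishes_iff_ord hK (hf0 c)).1 h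
      exact ⟨ne_of_gt h1, h⟩
  have hdeg : ∀ c, ∑ v ∈ S c, ord v (f c) = d := by
    intro c
    rw [deg_zeros' hK (hft c) (S c) (hS c), hadj c]
  -- the limits at the zeros
  have hlimS : ∀ (c : k) (C : CH X ι), (∀ v : Place k (Om k), v.At (tt k) c → lim hX v z = C) →
      ∀ v, v.Vanishes (f c) → lim hX v z' = C := by
    intro c C hC v hv
    obtain ⟨V, hV⟩ := exists_above hK v K.val
    rw [← hlim V v hV]
    apply hC
    have h1 := (mov_vanishes hV (f c)).2 hv
    exact h1
  -- the orders at the poles agree
  have hpole : ∀ (a b : k) (v : Place k K), ord v (f a) < 0 → ord v (f b) = ord v (f a) := by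
    intro a b v hv
    have h1 : f b = f a + algebraMap k K (a - b) := by
      change τ - algebraMap k K b = τ - algebraMap k K a + algebraMap k K (a - b)
      rw [map_sub]
      ring
    rw [h1]
    refine (ord_add_eq hK (hf0 a) fun _ => ?_).2
    rw [ord_const hK]
    exact hv
  let D : k → (Place k K →₀ ℤ) := fun c => dv hK (f c)
  let T : Finset (Place k K) := (D c₀).support ∪ (D c₁).support
  have hsum : ∀ c, (D c).support ⊆ T → ∑ v ∈ T, ((ord v (f c) : ℤ) : ℚ) • lim hX v z' = 0 := by
    intro c hc
    have h1 := sum_lim hX hK z' (hf0 c) (D c) fun v => ord_hasOrd hK v (hf0 c)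
    rw [Finsupp.sum_of_support_subset _ hc] at h1
    · exact h1
    · intro v _
      simp
  have hmax : ∀ c, (D c).support ⊆ T → ∑ v ∈ T, max (ord v (f c)) 0 = d := by
    intro c hc
    rw [← hdeg c]
    symm
    have hsub : S c ⊆ T := by
      intro v hv
      apply hc
      rw [Finsupp.mem_support_iff]
      have h1 := (vanishes_iff_ord hK (hf0 c)).1 ((hS c v).1 hv)
      exact ne_of_gt h1
    rw [← Finset.sum_subset hsub]
    · refine Finset.sum_congr rfl fun v hv => ?_
      have h1 := (vanishes_iff_ord hK (hf0 c)).1 ((hS c v).1 hv)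
      exact (max_eq_left h1.le).symm
    · intro v _ hv
      rw [hS, vanishes_iff_ord hK (hf0 c)] at hv
      exact max_eq_right (not_lt.1 hv)
  have hs0 := hsum c₀ Finset.subset_union_left
  have hs1 := hsum c₁ Finset.subset_union_right
  have hm0 := hmax c₀ Finset.subset_union_left
  have hm1 := hmax c₁ Finset.subset_union_right
  have hterm : ∀ v, ((ord v (f c₀) : ℤ) : ℚ) • lim hX v z' - ((ord v (f c₁) : ℤ) : ℚ) • lim hX v z' =
      ((max (ord v (f c₀)) 0 : ℤ) : ℚ) • C₀ - ((max (ord v (f c₁)) 0 : ℤ) : ℚ) • C₁ := by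
    intro v
    have e : ∀ (c : k) (C : CH X ι),
        (∀ v : Place k (Om k), v.At (tt k) c → lim hX v z = C) →
        ((max (ord v (f c)) 0 : ℤ) : ℚ) • C = ((max (ord v (f c)) 0 : ℤ) : ℚ) • lim hX v z' := by
      intro c C hC
      by_cases hv : v.Vanishes (f c)
      · rw [hlimS c C hC v hv]
      · rw [vanishes_iff_ord hK (hf0 c)] at hv
        rw [max_eq_right (not_lt.1 hv)]
        simp
    rw [e c₀ C₀ h₀, e c₁ C₁ h₁, ← sub_smul, ← sub_smul]
    congr 1
    have h1 := hpole c₀ c₁ v
    have h2 := hpole c₁ c₀ v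
    have h3 : ord v (f c₀) - ord v (f c₁) = max (ord v (f c₀)) 0 - max (ord v (f c₁)) 0 := by
      rcases lt_or_ge (ord v (f c₀)) 0 with h | h
      · rw [h1 h]
        simp
      · rcases lt_or_ge (ord v (f c₁)) 0 with h' | h'
        · rw [h2 h'] at h
          omega
        · rw [max_eq_left h, max_eq_left h']
    exact_mod_cast h3
  have hfin : (d : ℚ) • C₀ - (d : ℚ) • C₁ = 0 := by
    have h1 : ∑ v ∈ T, (((ord v (f c₀) : ℤ) : ℚ) • lim hX v z' -
        ((ord v (f c₁) : ℤ) : ℚ) • lim hX v z') = 0 := by
      rw [Finset.sum_sub_distrib, hs0, hs1, sub_zero]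
    rw [Finset.sum_congr rfl fun v _ => hterm v, Finset.sum_sub_distrib, ← Finset.sum_smul,
      ← Finset.sum_smul, ← Int.cast_sum, ← Int.cast_sum, hm0, hm1] at h1
    exact_mod_cast h1
  rw [← smul_sub] at hfin
  rcases smul_eq_zero.1 hfin with h | h
  · exfalso
    have : d = 0 := by exact_mod_cast h
    omega
  · exact sub_eq_zero.1 h

end Pool.Agent.GT
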