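import Pool.Agent.GT.Val

/-!
# Limits of zero-cycles at places
-/

set_option autoImplicit false

noncomputable section

namespace Pool.Agent.GT

open Pool.Agent.ZCyc Pool.Agent.Dess Pool.Agent.TInc
open Pool.Agent.VFP (Om tt)
open scoped Classical LinearAlgebra.Projectivization

variable {k : Type} [Field k] {m : ℕ} {X : Set (MvPolynomial (Fin (m + 1)) k)}
  {ι : Type}

/-- the value of a point at a place -/
def pv {K : Type} [Field K] [Algebra k K] [HasRes k K] (hX : Hom X) (v : Place k K)
    (x : Pt X K) : Pt X k := (exists_isVal hX v x).choose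

theorem pv_spec {K : Type} [Field K] [Algebra k K] [HasRes k K] (hX : Hom X) (v : Place k K)
    (x : Pt X K) : IsVal v x (pv hX v x) := (exists_isVal hX v x).choose_spec

theorem pv_eq {K : Type} [Field K] [Algebra k K] [HasRes k K] {hX : Hom X} {v : Place k K}
    {x : Pt X K} {y : Pt X k} (h : IsVal v x y) : pv hX v x = y :=
  isVal_unique (pv_spec hX v x) h

/-- the class of the value of a zero-cycle at a place -/
def lim {K : Type} [Field K] [Algebra k K] [HasRes k K] (hX : Hom X) (v : Place k K) :
    ((ι → Pt X K) →₀ ℚ) →ₗ[ℚ] CH X ι :=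
  (Rat X ι).mkQ.comp (Finsupp.lmapDomain ℚ ℚ fun x j => pv hX v (x j))

theorem lim_single {K : Type} [Field K] [Algebra k K] [HasRes k K] (hX : Hom X) (v : Place k K)
    (x : ι → Pt X K) (a : ℚ) : lim hX v (Finsupp.single x a) =
      Submodule.Quotient.mk (Finsupp.single (fun j => pv hX v (x j)) a) := by
  simp [lim, Finsupp.mapDomain_single]

/-- places above each other -/
theorem lim_map {K K' : Type} [Field K] [Algebra k K] [HasRes k K] [Field K'] [Algebra k K']
    [HasRes k K'] (hX : Hom X) {φ : K →ₐ[k] K'} {V : Place k K'} {v : Place k K}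
    (hV : V.ring.comap (φ : K →+* K') = v.ring) (z : (ι → Pt X K) →₀ ℚ) :
    lim hX V (Finsupp.mapDomain (fun x j => (x j).map φ hX) z) = lim hX v z := by
  induction z using Finsupp.induction_linear with
  | zero => rw [Finsupp.mapDomain_zero, map_zero, map_zero]
  | add z z' hz hz' => rw [Finsupp.mapDomain_add, map_add, map_add, hz, hz']
  | single x a =>
    rw [Finsupp.mapDomain_single, lim_single, lim_single]
    have h : ∀ j, pv hX V ((x j).map φ hX) = pv hX v (x j) := fun j =>
      pv_eq ((isVal_map hV).2 (pv_spec hX v (x j)))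
    simp only [h]

variable [IsAlgClosed k] [CharZero k]

/-- The divisors of functions: for a point (`z = single x 1`) this is the definition of `Rat`; the
statement is linear in `z`. -/
theorem sum_lim {K : Type} [Field K] [Algebra k K] [HasRes k K] (hX : Hom X) (hK : IsCurve k K)
    (z : (ι → Pt X K) →₀ ℚ) {f : K} (hf : f ≠ 0) (D : Place k K →₀ ℤ)
    (hD : ∀ v, HasOrd v f (D v)) : (D.sum fun v a => (a : ℚ) • lim hX v z) = 0 := by
  induction z using Finsupp.induction_linear with
  | zero =>
    simp only [map_zero, smul_zero]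
    exact Finset.sum_const_zero
  | add z z' hz hz' =>
    simp only [map_add, smul_add]
    rw [Finsupp.sum_add, hz, hz', add_zero]
  | single x a =>
    have h1 : (D.sum fun v n => (n : ℚ) • lim hX v (Finsupp.single x a)) =
        (Rat X ι).mkQ (a • D.sum fun v n =>
          Finsupp.single (fun j => pv hX v (x j)) (n : ℚ)) := by
      rw [Finsupp.sum, Finsupp.sum, Finset.smul_sum, map_sum]
      refine Finset.sum_congr rfl fun v _ => ?_
      rw [lim_single, ← Submodule.mkQ_apply, ← map_smul, Finsupp.smul_single,
        Finsupp.smul_single, smul_eq_mul, smul_eq_mul, mul_comm]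
    rw [h1, Submodule.mkQ_apply, Submodule.Quotient.mk_eq_zero]
    refine Submodule.smul_mem _ _ (Submodule.subset_span ?_)
    exact ⟨K, inferInstance, inferInstance, hK, x, fun v j => pv hX v (x j), f, D, hf, hD,
      fun v j => pv_spec hX v (x j), rfl⟩

end Pool.Agent.GT
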