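import Pool.Agent.GT.Defs

/-!
# Exterior products of finitely supported functions
-/

set_option autoImplicit false

noncomputable section

namespace Pool.Agent.GT

open scoped Classical

private theorem ext_apply {T : Type} {n : ℕ} (z : Fin n → (T →₀ ℚ)) (x : Fin n → T) :
    ext z x = ∏ j, z j (x j) := by
  unfold ext
  rw [Finsupp.finsetSum_apply]
  simp only [Finsupp.single_apply]
  rw [Finset.sum_ite_eq' (Fintype.piFinset fun j => (z j).support) x (fun x => ∏ j, z j (x j))]
  split_ifs with h
  · rfl
  · rw [Fintype.mem_piFinset] at h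
    push Not at h
    obtain ⟨j, hj⟩ := h
    have h0 : z j (x j) = 0 := Finsupp.notMem_support_iff.1 hj
    exact (Finset.prod_eq_zero (Finset.mem_univ j) h0).symm

/-- the exterior product of zero-cycles as a multilinear map -/
theorem ext_linear (T : Type) (n : ℕ) : ∃ F : MultilinearMap ℚ (fun _ : Fin n => T →₀ ℚ)
    ((Fin n → T) →₀ ℚ), ∀ z, F z = ext z := by
  have key : ∀ (z : Fin n → (T →₀ ℚ)) (i : Fin n) (a : T →₀ ℚ) (x : Fin n → T),
      ext (Function.update z i a) x = a (x i) * ∏ j ∈ Finset.univ.erase i, z j (x j) := by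
    intro z i a x
    rw [ext_apply, ← Finset.mul_prod_erase Finset.univ _ (Finset.mem_univ i)]
    congr 1
    · simp
    · refine Finset.prod_congr rfl fun j hj => ?_
      rw [Function.update_of_ne (Finset.ne_of_mem_erase hj)]
  refine ⟨MultilinearMap.mk' ext ?_ ?_, fun z => rfl⟩
  · intro z i a b
    refine Finsupp.ext fun x => ?_
    rw [Finsupp.add_apply, key, key, key, Finsupp.add_apply, add_mul]
  · intro z i c a
    refine Finsupp.ext fun x => ?_
    rw [Finsupp.smul_apply, key, key, Finsupp.smul_apply, smul_eq_mul, smul_eq_mul, mul_assoc]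

theorem ext_single {T : Type} {n : ℕ} (x : Fin n → T) (a : Fin n → ℚ) :
    ext (fun j => Finsupp.single (x j) (a j)) = Finsupp.single x (∏ j, a j) := by
  refine Finsupp.ext fun y => ?_
  rw [ext_apply]
  by_cases h : x = y
  · subst h
    simp
  · rw [Finsupp.single_eq_of_ne (Ne.symm h)]
    obtain ⟨j, hj⟩ := Function.ne_iff.1 h
    exact Finset.prod_eq_zero (Finset.mem_univ j) (Finsupp.single_eq_of_ne (Ne.symm hj))

theorem ext_mapDomain {T T' : Type} {n : ℕ} (g : T → T') (z : Fin n → (T →₀ ℚ)) :
    ext (fun j => Finsupp.mapDomain g (z j)) = Finsupp.mapDomain (fun x j => g (x j)) (ext z) := by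
  obtain ⟨F, hF⟩ := ext_linear T' n
  have h1 : (fun j => Finsupp.mapDomain g (z j)) =
      fun j => ∑ t ∈ (z j).support, Finsupp.single (g t) (z j t) := by
    funext j
    rfl
  rw [← hF, h1, MultilinearMap.map_sum_finset]
  unfold ext
  rw [Finsupp.mapDomain_finsetSum]
  refine Finset.sum_congr rfl fun r _ => ?_
  rw [hF, ext_single (fun j => g (r j)) (fun j => z j (r j)), Finsupp.mapDomain_single]

/-- permuting the factors -/
theorem ext_perm {T : Type} {n : ℕ} (z : Fin n → (T →₀ ℚ)) (π : Equiv.Perm (Fin n)) :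
    ext (fun j => z (π j)) = Finsupp.mapDomain (fun x j => x (π j)) (ext z) := by
  refine Finsupp.ext fun y => ?_
  have hinj : Function.Injective (fun (x : Fin n → T) (j : Fin n) => x (π j)) := by
    intro a b hab
    funext j
    have := congrFun hab (π.symm j)
    simpa using this
  have hy : y = (fun (x : Fin n → T) (j : Fin n) => x (π j)) (fun j => y (π.symm j)) := by
    funext j
    simp
  have h2 : Finsupp.mapDomain (fun (x : Fin n → T) (j : Fin n) => x (π j)) (ext z) y =
      ext z (fun j => y (π.symm j)) := by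
    conv_lhs => rw [hy]
    exact Finsupp.mapDomain_apply hinj (ext z) (fun j => y (π.symm j))
  rw [h2, ext_apply, ext_apply]
  rw [← Equiv.prod_comp π (fun j => z j (y (π.symm j)))]
  simp

end Pool.Agent.GT
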