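import Pool.Agent.GT.Lim
import Pool.Agent.GT.ExtA

/-!
# Exterior products of classes of zero-cycles
-/

set_option autoImplicit false

noncomputable section

namespace Pool.Agent.GT

open Pool.Agent.ZCyc Pool.Agent.Dess Pool.Agent.TInc
open Pool.Agent.VFP (Om tt)
open scoped Classical LinearAlgebra.Projectivization

variable {k : Type} [Field k] {m : ℕ} {X : Set (MvPolynomial (Fin (m + 1)) k)}

/-- the class of a cycle on the variety itself -/
def cl1 (X : Set (MvPolynomial (Fin (m + 1)) k)) : (Pt X k →₀ ℚ) →ₗ[ℚ] CH X Unit :=
  (Rat X Unit).mkQ.comp (Finsupp.lmapDomain ℚ ℚ fun x _ => x)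

/-- the class of the limit of a cycle on the variety itself -/
def lim1 {K : Type} [Field K] [Algebra k K] [HasRes k K] (hX : Hom X) (v : Place k K) :
    (Pt X K →₀ ℚ) →ₗ[ℚ] CH X Unit :=
  (lim hX v).comp (Finsupp.lmapDomain ℚ ℚ fun x _ => x)

/-- the factor `j` is rationally equivalent to zero, the other factors are points -/
private theorem Ext_base (hX : Hom X) {n : ℕ}
    (F : MultilinearMap ℚ (fun _ : Fin n => Pt X k →₀ ℚ) ((Fin n → Pt X k) →₀ ℚ))
    (hF : ∀ z, F z = ext z) (j : Fin n) (x : Fin n → Pt X k) (w : (Unit → Pt X k) →₀ ℚ)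
    (hw : w ∈ Rat X Unit) :
    F (Function.update (fun i => Finsupp.single (x i) 1) j
      (Finsupp.mapDomain (fun x => x ()) w)) ∈ Rat X (Fin n) := by
  let L : ((Unit → Pt X k) →₀ ℚ) →ₗ[ℚ] ((Fin n → Pt X k) →₀ ℚ) :=
    (F.toLinearMap (fun i => Finsupp.single (x i) 1) j).comp
      (Finsupp.lmapDomain ℚ ℚ fun x : Unit → Pt X k => x ())
  have hL : ∀ (p : Unit → Pt X k) (a : ℚ),
      L (Finsupp.single p a) = Finsupp.single (Function.update x j (p ())) a := by
    intro p a
    have h1 : L (Finsupp.single p a) = F (Function.update (fun i => Finsupp.single (x i) 1) j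
        (Finsupp.single (p ()) a)) := by
      change F (Function.update (fun i => Finsupp.single (x i) 1) j
        (Finsupp.mapDomain (fun x : Unit → Pt X k => x ()) (Finsupp.single p a))) = _
      rw [Finsupp.mapDomain_single]
    have h2 : Function.update (fun i => Finsupp.single (x i) (1 : ℚ)) j
        (Finsupp.single (p ()) a) = fun i => Finsupp.single (Function.update x j (p ()) i)
          (Function.update (fun _ => (1 : ℚ)) j a i) := by
      funext i
      by_cases h : i = j
      · subst h
        simp
      · simp [Function.update_of_ne h]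
    rw [h1, h2, hF, ext_single, Finset.prod_update_of_mem (Finset.mem_univ j)]
    simp
  have hle : Rat X Unit ≤ Submodule.comap L (Rat X (Fin n)) := by
    refine Submodule.span_le.2 ?_
    rintro _ ⟨K, i1, i2, i3, xK, y, f, D, hf, hD, hval, rfl⟩
    change L _ ∈ Rat X (Fin n)
    rw [map_finsuppSum]
    refine Submodule.subset_span ⟨K, i1, i2, i3, Function.update
      (fun i => (x i).map (Algebra.ofId k K) hX) j (xK ()),
      fun v => Function.update x j (y v ()), f, D, hf, hD, fun v i => ?_, ?_⟩
    · by_cases h : i = j
      · subst h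
        simpa using hval v ()
      · simp only [Function.update_of_ne h]
        exact isVal_const
    · exact Finsupp.sum_congr fun v _ => hL _ _
  exact hle hw

private theorem Ext_step (hX : Hom X) {n : ℕ}
    (F : MultilinearMap ℚ (fun _ : Fin n => Pt X k →₀ ℚ) ((Fin n → Pt X k) →₀ ℚ))
    (hF : ∀ z, F z = ext z) (j : Fin n) (w : (Unit → Pt X k) →₀ ℚ)
    (hw : w ∈ Rat X Unit) (T : Finset (Fin n)) :
    ∀ z : Fin n → (Pt X k →₀ ℚ), (∀ i ∉ T, i ≠ j → ∃ x, z i = Finsupp.single x 1) →
      F (Function.update z j (Finsupp.mapDomain (fun x => x ()) w)) ∈ Rat X (Fin n) := by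
  induction T using Finset.induction_on with
  | empty =>
    intro z hz
    by_cases hne : Nonempty (Pt X k)
    · obtain ⟨p⟩ := hne
      have h1 : ∀ i, ∃ x, i ≠ j → z i = Finsupp.single x 1 := by
        intro i
        by_cases h : i = j
        · exact ⟨p, fun h' => absurd h h'⟩
        · obtain ⟨x, hx⟩ := hz i (Finset.notMem_empty i) h
          exact ⟨x, fun _ => hx⟩
      choose x hx using h1
      have h2 : Function.update z j (Finsupp.mapDomain (fun x => x ()) w) =
          Function.update (fun i => Finsupp.single (x i) 1) j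
            (Finsupp.mapDomain (fun x => x ()) w) := by
        funext i
        by_cases h : i = j
        · subst h
          simp
        · simp [Function.update_of_ne h, hx i h]
      rw [h2]
      exact Ext_base hX F hF j x w hw
    · have h3 : Finsupp.mapDomain (fun x : Unit → Pt X k => x ()) w = 0 := by
        ext q
        exact absurd ⟨q⟩ hne
      rw [h3, F.map_update_zero]
      exact Submodule.zero_mem _
  | insert a T _ ih =>
    intro z hz
    by_cases haj : a = j
    · subst haj
      refine ih z fun i hi hij => hz i (fun h => ?_) hij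
      rcases Finset.mem_insert.1 h with h | h
      · exact hij h
      · exact hi h
    · have key : ∀ u : Pt X k →₀ ℚ, F (Function.update (Function.update z j
          (Finsupp.mapDomain (fun x => x ()) w)) a u) ∈ Rat X (Fin n) := by
        intro u
        induction u using Finsupp.induction_linear with
        | zero =>
          rw [F.map_update_zero]
          exact Submodule.zero_mem _
        | add u u' hu hu' =>
          rw [F.map_update_add]
          exact Submodule.add_mem _ hu hu'
        | single p c =>
          have h1 : Finsupp.single p c = c • Finsupp.single p (1 : ℚ) := by simp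
          rw [h1, F.map_update_smul]
          refine Submodule.smul_mem _ _ ?_
          rw [Function.update_comm (Ne.symm haj)]
          refine ih _ fun i hi hij => ?_
          by_cases hia : i = a
          · subst hia
            exact ⟨p, by simp⟩
          · rw [Function.update_of_ne hia]
            exact hz i (fun h => (Finset.mem_insert.1 h).elim hia hi) hij
      have h2 := key (z a)
      have h3 : Function.update (Function.update z j (Finsupp.mapDomain (fun x => x ()) w)) a
          (z a) = Function.update z j (Finsupp.mapDomain (fun x => x ()) w) := by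
        rw [Function.update_comm (Ne.symm haj), Function.update_eq_self]
      rwa [h3] at h2

/-- If one factor is rationally equivalent to zero on the variety then the product is rationally
equivalent to zero: for a generator `∑ a_v [y v]` (function field `K`, point `x` over `K`) take the
same `K`, and the points `x` and constant points (`isVal_const`) for the other factors; both sides
are linear in the other factors. -/
theorem ext_rat [IsAlgClosed k] [CharZero k] (hX : Hom X) {n : ℕ} (z : Fin n → (Pt X k →₀ ℚ))
    (j : Fin n) (h : cl1 X (z j) = 0) : ext z ∈ Rat X (Fin n) := by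
  obtain ⟨F, hF⟩ := ext_linear (Pt X k) n
  have h1 : Finsupp.mapDomain (fun x _ => x) (z j) ∈ Rat X Unit :=
    (Submodule.Quotient.mk_eq_zero _).1 h
  have h2 := Ext_step hX F hF j _ h1 Finset.univ z fun i hi => absurd (Finset.mem_univ i) hi
  rw [← Finsupp.mapDomain_comp] at h2
  have h3 : ((fun x : Unit → Pt X k => x ()) ∘ fun (x : Pt X k) (_ : Unit) => x) = id := rfl
  rw [h3, Finsupp.mapDomain_id, Function.update_eq_self, hF] at h2
  exact h2

private theorem Ext_surj : Function.Surjective (cl1 X) := by
  intro c
  obtain ⟨w, rfl⟩ := Submodule.Quotient.mk_surjective _ c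
  refine ⟨Finsupp.mapDomain (fun x => x ()) w, ?_⟩
  change Submodule.Quotient.mk (Finsupp.mapDomain (fun x _ => x)
    (Finsupp.mapDomain (fun x => x ()) w)) = _
  rw [← Finsupp.mapDomain_comp]
  have h3 : ((fun (x : Pt X k) (_ : Unit) => x) ∘ fun x : Unit → Pt X k => x ()) = id := rfl
  rw [h3, Finsupp.mapDomain_id]

private theorem Ext_congr [IsAlgClosed k] [CharZero k] (hX : Hom X) {n : ℕ}
    (F : MultilinearMap ℚ (fun _ : Fin n => Pt X k →₀ ℚ) ((Fin n → Pt X k) →₀ ℚ))
    (hF : ∀ z, F z = ext z) (z z' : Fin n → (Pt X k →₀ ℚ))
    (h : ∀ j, cl1 X (z' j) = cl1 X (z j)) (T : Finset (Fin n)) :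
    (Submodule.Quotient.mk (F (T.piecewise z' z)) : CH X (Fin n)) =
      Submodule.Quotient.mk (F z) := by
  induction T using Finset.induction_on with
  | empty => rw [Finset.piecewise_empty]
  | insert a T haT ih =>
    rw [← ih, Finset.piecewise_insert]
    have h1 : T.piecewise z' z = Function.update (T.piecewise z' z) a (z a) := by
      rw [← Finset.piecewise_eq_of_notMem T z' z haT, Function.update_eq_self]
    have h2 : F (Function.update (T.piecewise z' z) a (z' a)) - F (T.piecewise z' z) =
        F (Function.update (T.piecewise z' z) a (z' a - z a)) := by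
      rw [F.map_update_sub, ← h1]
    rw [Submodule.Quotient.eq, h2, hF]
    refine ext_rat hX _ a ?_
    rw [Function.update_self, map_sub, h, sub_self]

/-- The exterior product of classes: a multilinear map from `CH X Unit` to `CH X (Fin n)`
(`ext_linear`, `ext_rat`; choose representatives, `cl1` is surjective). -/
theorem exists_Ext [IsAlgClosed k] [CharZero k] (hX : Hom X) (n : ℕ) :
    ∃ E : MultilinearMap ℚ (fun _ : Fin n => CH X Unit) (CH X (Fin n)),
      ∀ z : Fin n → (Pt X k →₀ ℚ), E (fun j => cl1 X (z j)) = Submodule.Quotient.mk (ext z) := by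
  obtain ⟨F, hF⟩ := ext_linear (Pt X k) n
  obtain ⟨s, hs⟩ := (cl1 X).exists_rightInverse_of_surjective
    (LinearMap.range_eq_top.2 Ext_surj)
  refine ⟨(Rat X (Fin n)).mkQ.compMultilinearMap (F.compLinearMap fun _ => s), fun z => ?_⟩
  have h1 := Ext_congr hX F hF z (fun j => s (cl1 X (z j)))
    (fun j => LinearMap.congr_fun hs (cl1 X (z j))) Finset.univ
  rw [Finset.piecewise_univ, hF z] at h1
  exact h1

/-- the exterior product of classes -/
def Ext [IsAlgClosed k] [CharZero k] (hX : Hom X) (n : ℕ) :
    MultilinearMap ℚ (fun _ : Fin n => CH X Unit) (CH X (Fin n)) := (exists_Ext hX n).choose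

theorem Ext_cl [IsAlgClosed k] [CharZero k] (hX : Hom X) {n : ℕ} (z : Fin n → (Pt X k →₀ ℚ)) :
    Ext hX n (fun j => cl1 X (z j)) = Submodule.Quotient.mk (ext z) :=
  (exists_Ext hX n).choose_spec z

/-- the limit of a product is the product of the limits (`ext_mapDomain`, `Ext_cl`) -/
theorem lim_ext [IsAlgClosed k] [CharZero k] {K : Type} [Field K] [Algebra k K] [HasRes k K]
    (hX : Hom X) (v : Place k K) {n : ℕ} (z : Fin n → (Pt X K →₀ ℚ)) :
    lim hX v (ext z) = Ext hX n (fun j => lim1 hX v (z j)) := by
  have h1 : ∀ j, lim1 hX v (z j) = cl1 X (Finsupp.mapDomain (pv hX v) (z j)) := by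
    intro j
    change Submodule.Quotient.mk (Finsupp.mapDomain (fun x i => pv hX v (x i))
      (Finsupp.mapDomain (fun x _ => x) (z j))) = Submodule.Quotient.mk
        (Finsupp.mapDomain (fun x _ => x) (Finsupp.mapDomain (pv hX v) (z j)))
    rw [← Finsupp.mapDomain_comp, ← Finsupp.mapDomain_comp]
    rfl
  have h2 : (fun j => lim1 hX v (z j)) = fun j => cl1 X (Finsupp.mapDomain (pv hX v) (z j)) :=
    funext h1
  rw [h2, Ext_cl hX fun j => Finsupp.mapDomain (pv hX v) (z j), ext_mapDomain]
  rfl

end Pool.Agent.GT
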