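import Pool.Agent.GT.Defs
import Pool.Agent.TInc.EmbA
import Pool.Agent.DCI57.At

/-!
# Values of points at places
-/

set_option autoImplicit false

noncomputable section

namespace Pool.Agent.GT

open Pool.Agent.ZCyc Pool.Agent.Dess
open Pool.Agent.VFP (Om tt)
open scoped Classical LinearAlgebra.Projectivization

variable {k : Type} [Field k] {m : ℕ} {X : Set (MvPolynomial (Fin (m + 1)) k)}

/-- the residue fields of all places are `k` -/
class HasRes (k K : Type) [Field k] [Field K] [Algebra k K] : Prop where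
  res : ∀ (v : Place k K) (f : K), f ∈ v.ring → ∃ c : k, v.At f c

instance [IsAlgClosed k] : HasRes k (Om k) := ⟨fun v _ hf => DCI57.exists_at v hf⟩

theorem hasRes_of_isCurve [IsAlgClosed k] [CharZero k] {K : Type} [Field K] [Algebra k K]
    (hK : IsCurve k K) : HasRes k K := ⟨fun v _ hf => exists_at hK v hf⟩

/-- homogeneous polynomials -/
theorem aeval_smul_homog {K : Type} [Field K] [Algebra k K] {ι : Type}
    {f : MvPolynomial ι k} {d : ℕ} (hf : f.IsHomogeneous d) (c : K) (a : ι → K) :
    MvPolynomial.aeval (fun i => c * a i) f = c ^ d * MvPolynomial.aeval a f := by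
  rw [MvPolynomial.aeval_def, MvPolynomial.aeval_def, MvPolynomial.eval₂_eq, MvPolynomial.eval₂_eq,
    Finset.mul_sum]
  refine Finset.sum_congr rfl fun e he => ?_
  have h1 : ∑ i ∈ e.support, e i = d := by
    have h2 := hf (MvPolynomial.mem_support_iff.1 he)
    rw [Finsupp.weight_apply, Finsupp.sum] at h2
    simpa using h2
  simp only [mul_pow]
  rw [Finset.prod_mul_distrib, Finset.prod_pow_eq_pow_sum, h1]
  ring

section Vec

variable {K : Type} [Field K] [Algebra k K]

/-- a nonzero vector can be multiplied such that all coordinates have values, not all zero: divide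
by a coordinate `x i` such that all `x j / x i` are in the ring (the valuation ring is totally
ordered by divisibility) -/
theorem exists_scale [HasRes k K] (v : Place k K) {ι : Type} [Finite ι] (x : ι → K)
    (hx : x ≠ 0) : ∃ (l : K) (y : ι → k), l ≠ 0 ∧ y ≠ 0 ∧ ∀ i, v.At (l * x i) (y i) := by
  obtain ⟨i₀, hi₀⟩ : ∃ i, x i ≠ 0 := by
    by_contra h
    push Not at h
    exact hx (funext h)
  have : Nonempty ι := ⟨i₀⟩
  obtain ⟨i, hi⟩ := Finite.exists_max fun i => v.ring.valuation (x i)
  have hxi : x i ≠ 0 := by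
    intro h
    have h1 := hi i₀
    rw [h, map_zero] at h1
    exact hi₀ ((map_eq_zero v.ring.valuation).1 (le_antisymm h1 zero_le))
  have hmem : ∀ j, (x i)⁻¹ * x j ∈ v.ring := by
    intro j
    rw [← v.ring.valuation_le_one_iff, map_mul, map_inv₀]
    have h0 : v.ring.valuation (x i) ≠ 0 := (map_ne_zero v.ring.valuation).2 hxi
    calc (v.ring.valuation (x i))⁻¹ * v.ring.valuation (x j)
        ≤ (v.ring.valuation (x i))⁻¹ * v.ring.valuation (x i) := mul_le_mul_right (hi j) _
      _ = 1 := inv_mul_cancel₀ h0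
  choose y hy using fun j => HasRes.res v _ (hmem j)
  refine ⟨(x i)⁻¹, y, inv_ne_zero hxi, ?_, hy⟩
  intro h
  have h1 := hy i
  rw [inv_mul_cancel₀ hxi, h] at h1
  have h2 := Place.at_const (v := v) (1 : k)
  rw [map_one] at h2
  exact zero_ne_one (Place.At.unique h1 h2)

/-- two values of a nonzero vector are proportional -/
theorem scale_unique {v : Place k K} {ι : Type} {x : ι → K} {l l' : K} {y y' : ι → k}
    (hy : y ≠ 0) (hy' : y' ≠ 0) (h : ∀ i, v.At (l * x i) (y i))
    (h' : ∀ i, v.At (l' * x i) (y' i)) : ∃ c : k, c ≠ 0 ∧ y' = c • y := by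
  obtain ⟨i, hi⟩ : ∃ i, y i ≠ 0 := by
    by_contra h
    push Not at h
    exact hy (funext h)
  have hne : l * x i ≠ 0 := by
    intro h0
    have h1 := h i
    rw [h0] at h1
    have h2 := Place.at_const (v := v) (0 : k)
    rw [map_zero] at h2
    exact hi (Place.At.unique h1 h2)
  have hl : l ≠ 0 := left_ne_zero_of_mul hne
  have hxi : x i ≠ 0 := right_ne_zero_of_mul hne
  have h1 : v.At (l' * x i / (l * x i)) (y' i / y i) := (h' i).div (h i) hi
  have h2 : ∀ j, y' j = y' i / y i * y j := by
    intro j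
    have h3 := h1.mul (h j)
    have h4 : l' * x i / (l * x i) * (l * x j) = l' * x j := by
      field_simp
    rw [h4] at h3
    exact Place.At.unique (h' j) h3
  refine ⟨y' i / y i, ?_, funext h2⟩
  intro h0
  apply hy'
  funext j
  rw [h2 j, h0, zero_mul]
  rfl

private theorem val_mv {v : Place k K} {ι : Type} {x : ι → K} {y : ι → k}
    (h : ∀ i, v.At (x i) (y i)) (f : MvPolynomial ι k) :
    v.At (MvPolynomial.aeval x f) (MvPolynomial.aeval y f) := by
  induction f using MvPolynomial.induction_on with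
  | C a =>
    rw [MvPolynomial.algHom_C, MvPolynomial.algHom_C]
    exact Place.at_const a
  | add f g hf hg =>
    rw [map_add, map_add]
    exact hf.add hg
  | mul_X f i hf =>
    rw [map_mul, map_mul, MvPolynomial.aeval_X, MvPolynomial.aeval_X]
    exact hf.mul (h i)

/-- `IsVal` for representatives -/
theorem isVal_iff {v : Place k K} {x : Pt X K} {y : Pt X k} {a : Fin (m + 1) → K}
    {b : Fin (m + 1) → k} (ha : a ≠ 0) (hb : b ≠ 0) (hx : x.1 = Projectivization.mk K a ha)
    (hy : y.1 = Projectivization.mk k b hb) :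
    IsVal v x y ↔ ∃ l : K, ∀ i, v.At (l * a i) (b i) := by
  obtain ⟨c, hc⟩ := Projectivization.exists_smul_eq_mk_rep K a ha
  obtain ⟨d, hd⟩ := Projectivization.exists_smul_eq_mk_rep k b hb
  unfold IsVal
  rw [hx, hy, ← hc, ← hd]
  have hc' : ∀ i, (c • a) i = (c : K) * a i := fun _ => rfl
  have hd' : ∀ i, (d • b) i = (d : k) * b i := fun _ => rfl
  simp only [hc', hd']
  constructor
  · rintro ⟨l, hl⟩
    refine ⟨algebraMap k K ((d : k)⁻¹) * l * c, fun i => ?_⟩
    have h1 := (Place.at_const (v := v) ((d : k)⁻¹)).mul (hl i)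
    have h2 : algebraMap k K ((d : k)⁻¹) * l * (c : K) * a i =
        algebraMap k K ((d : k)⁻¹) * (l * ((c : K) * a i)) := by ring
    rw [h2]
    rwa [inv_mul_cancel_left₀ d.ne_zero] at h1
  · rintro ⟨l, hl⟩
    refine ⟨algebraMap k K (d : k) * l * (c : K)⁻¹, fun i => ?_⟩
    have h1 := (Place.at_const (v := v) (d : k)).mul (hl i)
    have h2 : algebraMap k K (d : k) * l * (c : K)⁻¹ * ((c : K) * a i) =
        algebraMap k K (d : k) * (l * a i) := by
      have := c.ne_zero
      field_simp
    rwa [h2]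

/-- the value of a point is unique -/
theorem isVal_unique {v : Place k K} {x : Pt X K} {y y' : Pt X k} (h : IsVal v x y)
    (h' : IsVal v x y') : y = y' := by
  obtain ⟨l, hl⟩ := h
  obtain ⟨l', hl'⟩ := h'
  obtain ⟨c, hc, hcy⟩ := scale_unique y.1.rep_nonzero y'.1.rep_nonzero hl hl'
  apply Subtype.ext
  rw [← Projectivization.mk_rep y.1, ← Projectivization.mk_rep y'.1,
    Projectivization.mk_eq_mk_iff]
  refine ⟨(Units.mk0 c hc)⁻¹, ?_⟩
  rw [hcy, inv_smul_eq_iff]
  rfl

/-- the point with given homogeneous coordinates -/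
def mkPt (hX : Hom X) (a : Fin (m + 1) → K) (ha : a ≠ 0)
    (h : ∀ f ∈ X, MvPolynomial.aeval a f = 0) : Pt X K :=
  ⟨Projectivization.mk K a ha, fun f hf => by
    obtain ⟨c, hc⟩ := Projectivization.exists_smul_eq_mk_rep K a ha
    obtain ⟨d, hd⟩ := hX f hf
    rw [← hc]
    have h1 : c • a = fun i => (c : K) * a i := rfl
    rw [h1, aeval_smul_homog hd, h f hf, mul_zero]⟩

/-- every point has a value: `exists_scale`; the equations hold for the value, because
`f (l x) = l ^ d f(x) = 0` for a homogeneous polynomial `f`. -/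
theorem exists_isVal [HasRes k K] (hX : Hom X) (v : Place k K) (x : Pt X K) :
    ∃ y : Pt X k, IsVal v x y := by
  obtain ⟨l, y, hl, hy, h⟩ := exists_scale v x.1.rep x.1.rep_nonzero
  have h1 : ∀ f ∈ X, MvPolynomial.aeval y f = 0 := by
    intro f hf
    obtain ⟨d, hd⟩ := hX f hf
    have h2 := val_mv h f
    rw [aeval_smul_homog hd, x.2 f hf, mul_zero] at h2
    have h3 := Place.at_const (v := v) (0 : k)
    rw [map_zero] at h3
    exact Place.At.unique h2 h3
  exact ⟨mkPt hX y hy h1, (isVal_iff x.1.rep_nonzero hy (Projectivization.mk_rep x.1).symm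
    rfl).2 ⟨l, h⟩⟩

/-- the value of a point given by coordinates -/
theorem isVal_mkPt {hX : Hom X} {v : Place k K} {a : Fin (m + 1) → K} {ha : a ≠ 0}
    {h : ∀ f ∈ X, MvPolynomial.aeval a f = 0} {b : Fin (m + 1) → k} {hb : b ≠ 0}
    {h' : ∀ f ∈ X, MvPolynomial.aeval b f = 0} {l : K} (hl : ∀ i, v.At (l * a i) (b i)) :
    IsVal v (mkPt hX a ha h) (mkPt hX b hb h') :=
  (isVal_iff ha hb rfl rfl).2 ⟨l, hl⟩

/-- the image of a point under an extension of fields -/
def Pt.map {K' : Type} [Field K'] [Algebra k K'] (φ : K →ₐ[k] K') (hX : Hom X) (x : Pt X K) :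
    Pt X K' :=
  mkPt hX (fun i => φ (x.1.rep i)) (by
    intro h
    apply x.1.rep_nonzero
    funext i
    have := congrFun h i
    exact (map_eq_zero φ).1 this) (by
    intro f hf
    have h1 := x.2 f hf
    have h2 := congrArg φ h1
    rw [map_zero] at h2
    rw [← h2]
    exact (DFunLike.congr_fun (MvPolynomial.comp_aeval x.1.rep φ) f).symm)

/-- values and extensions of fields: `V` lies above `v` -/
theorem isVal_map {K' : Type} [Field K'] [Algebra k K'] {φ : K →ₐ[k] K'} {hX : Hom X}
    {V : Place k K'} {v : Place k K} (hV : V.ring.comap (φ : K →+* K') = v.ring) {x : Pt X K}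
    {y : Pt X k} : IsVal V (x.map φ hX) y ↔ IsVal v x y := by
  have hmem : ∀ f : K, φ f ∈ V.ring ↔ f ∈ v.ring := by
    intro f
    rw [← hV, ValuationSubring.mem_comap]
    rfl
  have hAt : ∀ (f : K) (c : k), V.At (φ f) c ↔ v.At f c := by
    intro f c
    unfold Place.At
    rw [Place.vanishes_iff_or, Place.vanishes_iff_or, ← φ.commutes c, ← map_sub, ← map_inv₀,
      hmem, map_eq_zero]
  have hne : (fun i => φ (x.1.rep i)) ≠ 0 := by
    intro h
    apply x.1.rep_nonzero
    funext i
    exact (map_eq_zero φ).1 (congrFun h i)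
  have h0 : IsVal V (x.map φ hX) y ↔ ∃ l : K', ∀ i, V.At (l * φ (x.1.rep i)) (y.1.rep i) :=
    isVal_iff hne y.1.rep_nonzero rfl (Projectivization.mk_rep y.1).symm
  rw [h0]
  unfold IsVal
  constructor
  · rintro ⟨l, hl⟩
    obtain ⟨i, hi⟩ : ∃ i, y.1.rep i ≠ 0 := by
      by_contra h
      push Not at h
      exact y.1.rep_nonzero (funext h)
    have hne' : l * φ (x.1.rep i) ≠ 0 := by
      intro h0
      have h1 := hl i
      rw [h0] at h1
      have h2 := Place.at_const (v := V) (0 : k)
      rw [map_zero] at h2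
      exact hi (Place.At.unique h1 h2)
    have hl0 : l ≠ 0 := left_ne_zero_of_mul hne'
    have hx0 : φ (x.1.rep i) ≠ 0 := right_ne_zero_of_mul hne'
    refine ⟨algebraMap k K (y.1.rep i) * (x.1.rep i)⁻¹, fun j => ?_⟩
    rw [← hAt]
    have h1 := (Place.at_const (v := V) (y.1.rep i)).mul ((hl j).div (hl i) hi)
    rw [mul_div_cancel₀ _ hi] at h1
    have h2 : φ (algebraMap k K (y.1.rep i) * (x.1.rep i)⁻¹ * x.1.rep j) =
        algebraMap k K' (y.1.rep i) * (l * φ (x.1.rep j) / (l * φ (x.1.rep i))) := by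
      rw [map_mul, map_mul, map_inv₀, φ.commutes]
      field_simp
    rwa [h2]
  · rintro ⟨l, hl⟩
    refine ⟨φ l, fun i => ?_⟩
    rw [← map_mul, hAt]
    exact hl i

/-- a constant point has a constant value -/
theorem isVal_const {hX : Hom X} {v : Place k K} {x : Pt X k} :
    IsVal v (x.map (Algebra.ofId k K) hX) x := by
  have hne : (fun i => Algebra.ofId k K (x.1.rep i)) ≠ 0 := by
    intro h
    apply x.1.rep_nonzero
    funext i
    exact (map_eq_zero (algebraMap k K)).1 (congrFun h i)
  refine (isVal_iff (a := fun i => Algebra.ofId k K (x.1.rep i)) hne x.1.rep_nonzero rfl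
    (Projectivization.mk_rep x.1).symm).2 ⟨1, fun i => ?_⟩
  rw [one_mul]
  exact Place.at_const _

end Vec

end Pool.Agent.GT
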