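import Pool.Agent.GT.Tr
import Pool.Agent.TInc.Main

/-!
# Functions which are regular on an open set of the curve
-/

set_option autoImplicit false

noncomputable section

namespace Pool.Agent.GT

open Pool.Agent.ZCyc Pool.Agent.Dess Polynomial
open Pool.Agent.VFP (Om tt)
open scoped Classical LinearAlgebra.Projectivization

open Pool.Agent.TInc

variable {k L : Type} [Field k] [Field L] [Algebra k L]

/-- the functions which are regular at all places in `U` -/
def regU (U : Set (Place k L)) : Subalgebra k L where
  carrier := {f | ∀ c ∈ U, f ∈ c.ring}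
  mul_mem' := fun ha hb c hc => mul_mem (ha c hc) (hb c hc)
  add_mem' := fun ha hb c hc => add_mem (ha c hc) (hb c hc)
  algebraMap_mem' := fun a c _ => c.const_mem a

variable [IsAlgClosed k] [CharZero k]

/-- the value at a place in `U` -/
def evk (hL : IsCurve k L) {U : Set (Place k L)} (c : U) : regU U →ₐ[k] k where
  toFun := fun f => val c.1 (f : L)
  map_one' := val_eq (by simpa using Place.at_const (v := c.1) (1 : k))
  map_mul' := fun f g => val_eq ((at_val hL (f.2 c.1 c.2)).mul (at_val hL (g.2 c.1 c.2)))
  map_zero' := val_eq (by simpa using Place.at_const (v := c.1) (0 : k))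
  map_add' := fun f g => val_eq ((at_val hL (f.2 c.1 c.2)).add (at_val hL (g.2 c.1 c.2)))
  commutes' := fun a => val_eq (Place.at_const a)

/-- the value at a point over `Om k` -/
def evS (hL : IsCurve k L) {U : Set (Place k L)} (S : (L →ₐ[k] Om k) ⊕ U) : regU U →ₐ[k] Om k :=
  match S with
  | Sum.inl σ => σ.comp (regU U).val
  | Sum.inr c => (Algebra.ofId k (Om k)).comp (evk hL c)

theorem evS_eq (hL : IsCurve k L) {U : Set (Place k L)} (S : (L →ₐ[k] Om k) ⊕ U) (f : regU U) :
    evS hL S f = evO S (f : L) := by
  rcases S with σ | c <;> rfl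

theorem over_ev (hL : IsCurve k L) {U : Set (Place k L)} {v : Place k (Om k)}
    {S : (L →ₐ[k] Om k) ⊕ U} {c : U} (h : Over v S c.1) (f : regU U) :
    v.At (evS hL S f) (evk hL c f) := by
  rw [evS_eq]
  exact over_at hL h (f.2 c.1 c.2)

end Pool.Agent.GT
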