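import Pool.Agent.GT.RedPol
import Pool.Agent.GT.Reg

/-!
# From the function field to an open set of the curve
-/

set_option autoImplicit false

noncomputable section

namespace Pool.Agent.GT

open Pool.Agent.ZCyc Pool.Agent.Dess Polynomial
open Pool.Agent.VFP (Om tt)
open scoped Classical LinearAlgebra.Projectivization

variable {k L : Type} [Field k] [Field L] [Algebra k L] {m : ℕ}
  {X : Set (MvPolynomial (Fin (m + 1)) k)}

/-- the image of the data under a homomorphism -/
def GD.map {A A' : Type} [CommRing A] [CommRing A'] (φ : A →+* A') (d : GD A m) : GD A' m :=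
  ⟨φ d.α, φ d.B, d.h.map φ, fun i => (d.G i).map (Polynomial.mapRingHom φ),
    fun i => (d.H i).map (Polynomial.mapRingHom φ)⟩

theorem mp_map {A A' : Type} [CommRing A] [CommRing A'] (φ : A →+* A') (d : GD A m) {K : Type}
    [Field K] (S : A' →+* K) (θ : K) : (d.map φ).mp S θ = d.mp (S.comp φ) θ := by
  unfold GD.mp GD.map
  have h1 : (Polynomial.eval₂RingHom S θ).comp (Polynomial.mapRingHom φ) =
      Polynomial.eval₂RingHom (S.comp φ) θ := by
    refine Polynomial.ringHom_ext ?_ ?_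
    · intro a
      simp
    · simp
  simp only [Polynomial.map_map, h1]

theorem rts_map {A A' : Type} [CommRing A] [CommRing A'] (φ : A →+* A') (d : GD A m) {K : Type}
    [Field K] (S : A' →+* K) : (d.map φ).rts S = d.rts (S.comp φ) := by
  unfold GD.rts GD.map
  rw [Polynomial.map_map]

/-! ### Lifts of polynomials to a subalgebra -/

private theorem spr_lift (R : Subalgebra k L) (p : L[X]) (h : ∀ n, p.coeff n ∈ R) :
    ∃ q : R[X], q.map (R.val : R →+* L) = p := by
  have h1 : p ∈ Polynomial.lifts (R.val : R →+* L) := by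
    rw [Polynomial.lifts_iff_coeff_lifts]
    intro n
    exact ⟨⟨p.coeff n, h n⟩, rfl⟩
  exact (Polynomial.mem_lifts _).1 h1

private theorem spr_lift2 (R : Subalgebra k L) (p : L[X][X])
    (h : ∀ n j, (p.coeff n).coeff j ∈ R) :
    ∃ q : R[X][X], q.map (Polynomial.mapRingHom (R.val : R →+* L)) = p := by
  have h1 : p ∈ Polynomial.lifts (Polynomial.mapRingHom (R.val : R →+* L)) := by
    rw [Polynomial.lifts_iff_coeff_lifts]
    intro n
    obtain ⟨q, hq⟩ := spr_lift R (p.coeff n) (h n)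
    exact ⟨q, hq⟩
  exact (Polynomial.mem_lifts _).1 h1

private theorem spr_inj (R : Subalgebra k L) :
    Function.Injective (Polynomial.map (R.val : R →+* L)) :=
  Polynomial.map_injective _ Subtype.val_injective

private theorem spr_inj2 (R : Subalgebra k L) :
    Function.Injective (Polynomial.map (Polynomial.mapRingHom (R.val : R →+* L))) :=
  Polynomial.map_injective _ (spr_inj R)

/-- the coefficients -/
private def cf (p : L[X]) : Finset L := (Finset.range (p.natDegree + 1)).image p.coeff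

private theorem cf_mem {R : Subalgebra k L} {p : L[X]} (h : ↑(cf p) ⊆ (R : Set L)) (n : ℕ) :
    p.coeff n ∈ R := by
  by_cases hn : n ≤ p.natDegree
  · apply h
    rw [Finset.mem_coe, cf, Finset.mem_image]
    exact ⟨n, Finset.mem_range.2 (Nat.lt_succ_of_le hn), rfl⟩
  · rw [Polynomial.coeff_eq_zero_of_natDegree_lt (not_le.1 hn)]
    exact R.zero_mem

/-- the coefficients of the coefficients -/
private def cf2 (p : L[X][X]) : Finset L :=
  (Finset.range (p.natDegree + 1)).biUnion fun n => cf (p.coeff n)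

private theorem cf2_mem {R : Subalgebra k L} {p : L[X][X]} (h : ↑(cf2 p) ⊆ (R : Set L))
    (n j : ℕ) : (p.coeff n).coeff j ∈ R := by
  by_cases hn : n ≤ p.natDegree
  · apply cf_mem
    intro z hz
    apply h
    rw [Finset.mem_coe, cf2, Finset.mem_biUnion]
    exact ⟨n, Finset.mem_range.2 (Nat.lt_succ_of_le hn), hz⟩
  · rw [Polynomial.coeff_eq_zero_of_natDegree_lt (not_le.1 hn), Polynomial.coeff_zero]
    exact R.zero_mem

/-- the generators -/
private def gens {A : Type} [CommRing A] (d : GD A m) : Set A[X] :=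
  {d.h} ∪ {c | ∃ i j, c = (d.G i).coeff j ∨ c = (d.H i).coeff j}

private theorem gens_map {R : Subalgebra k L} {d : GD L m} {d' : GD R m}
    (hd' : d'.map (R.val : R →+* L) = d) {p : L[X]} (hp : p ∈ gens d) {q : R[X]}
    (hq : q.map (R.val : R →+* L) = p) : q ∈ gens d' := by
  subst hd'
  rcases hp with hp | ⟨i, j, hp⟩
  · left
    rw [Set.mem_singleton_iff] at hp ⊢
    apply spr_inj R
    rw [hq, hp]
    rfl
  · right
    refine ⟨i, j, ?_⟩
    rcases hp with hp | hp
    · left
      apply spr_inj R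
      rw [hq, hp]
      simp [GD.map]
    · right
      apply spr_inj R
      rw [hq, hp]
      simp [GD.map]

/-- the elements of the ideal -/
private theorem spr_ne {d : GD L m} (p : L[X]) (hp : p ∈ Ideal.span (gens d)) :
    ∃ Γ : Finset L, ∀ (R : Subalgebra k L) (d' : GD R m), d'.map (R.val : R →+* L) = d →
      ↑Γ ⊆ (R : Set L) → ∀ q : R[X], q.map (R.val : R →+* L) = p →
        q ∈ Ideal.span (gens d') := by
  refine Submodule.span_induction (p := fun p _ => ∃ Γ : Finset L, ∀ (R : Subalgebra k L)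
    (d' : GD R m), d'.map (R.val : R →+* L) = d → ↑Γ ⊆ (R : Set L) → ∀ q : R[X],
    q.map (R.val : R →+* L) = p → q ∈ Ideal.span (gens d')) ?_ ?_ ?_ ?_ hp
  · intro p hp
    exact ⟨∅, fun R d' hd' _ q hq => Ideal.subset_span (gens_map hd' hp hq)⟩
  · refine ⟨∅, fun R d' hd' _ q hq => ?_⟩
    have h1 : q = 0 := by
      apply spr_inj R
      rw [hq, Polynomial.map_zero]
    rw [h1]
    exact Ideal.zero_mem _
  · rintro x y - - ⟨Γ₁, h₁⟩ ⟨Γ₂, h₂⟩
    refine ⟨Γ₁ ∪ Γ₂ ∪ cf x ∪ cf y, fun R d' hd' hΓ q hq => ?_⟩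
    simp only [Finset.coe_union, Set.union_subset_iff] at hΓ
    obtain ⟨⟨⟨g1, g2⟩, g3⟩, g4⟩ := hΓ
    obtain ⟨q1, hq1⟩ := spr_lift R x (cf_mem g3)
    obtain ⟨q2, hq2⟩ := spr_lift R y (cf_mem g4)
    have h3 : q = q1 + q2 := by
      apply spr_inj R
      rw [hq, Polynomial.map_add, hq1, hq2]
    rw [h3]
    exact Ideal.add_mem _ (h₁ R d' hd' g1 q1 hq1) (h₂ R d' hd' g2 q2 hq2)
  · rintro a x - ⟨Γ, h⟩
    refine ⟨Γ ∪ cf a ∪ cf x, fun R d' hd' hΓ q hq => ?_⟩
    simp only [Finset.coe_union, Set.union_subset_iff] at hΓ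
    obtain ⟨⟨g1, g2⟩, g3⟩ := hΓ
    obtain ⟨q1, hq1⟩ := spr_lift R a (cf_mem g2)
    obtain ⟨q2, hq2⟩ := spr_lift R x (cf_mem g3)
    have h3 : q = q1 * q2 := by
      apply spr_inj R
      rw [hq, Polynomial.map_mul, hq1, hq2, smul_eq_mul]
    rw [h3]
    exact Ideal.mul_mem_left _ _ (h R d' hd' g1 q2 hq2)

/-- the equations of the image -/
private theorem spr_onX {d : GD L m} (hd : d.Ok X) {R : Subalgebra k L} {d' : GD R m}
    (hd' : d'.map (R.val : R →+* L) = d) (hm : d'.h.Monic) (K : Type) [Field K] [Algebra k K]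
    (S : R →ₐ[k] K) (θ : K) (hθ : θ ∈ d'.rts (S : R →+* K)) (x y : K)
    (hxy : y ^ 2 = x ^ 3 - 3 * S d'.α * x + S d'.B) {f : MvPolynomial (Fin (m + 1)) k}
    (hf : f ∈ X) : MvPolynomial.aeval ((d'.mp (S : R →+* K) θ).co x y) f = 0 := by
  obtain ⟨a, b, hab⟩ := exists_ab d' f
  let Ω : Type := AlgebraicClosure L
  let j : L →ₐ[k] Ω := IsScalarTower.toAlgHom k L Ω
  let S₀ : R →ₐ[k] Ω := j.comp R.val
  have hS₀ : (S₀ : R →+* Ω) = (j : L →+* Ω).comp (R.val : R →+* L) := rfl
  have hα : d.α = (d'.α : L) := by rw [← hd']; rfl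
  have hB : d.B = (d'.B : L) := by rw [← hd']; rfl
  -- all coefficients vanish at the roots
  have hroot : ∀ θ : Ω, (d'.h.map ((j : L →+* Ω).comp (R.val : R →+* L))).eval θ = 0 →
      a.map (Polynomial.eval₂RingHom (S₀ : R →+* Ω) θ) = 0 ∧
        b.map (Polynomial.eval₂RingHom (S₀ : R →+* Ω) θ) = 0 := by
    intro θ hθ
    refine ab_zero (S₀ d'.α) (S₀ d'.B) _ _ fun x y hxy => ?_
    have h1 := hab Ω S₀ θ x y hxy
    have h2 : θ ∈ d.rts (j : L →+* Ω) := by
      rw [← hd', rts_map, GD.rts, Multiset.mem_toFinset, Polynomial.mem_roots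
        (hm.map _).ne_zero]
      exact hθ
    have h3 := hd.onX Ω j θ h2 x y (by rw [hα, hB]; exact hxy) f hf
    rw [← hd', mp_map, ← hS₀, h1] at h3
    exact h3
  have hsep : (d'.h.map (R.val : R →+* L)).Separable := by
    obtain ⟨u, w, huw⟩ := hd.sep
    have h1 : d'.h.map (R.val : R →+* L) = d.h := by rw [← hd']; rfl
    rw [h1]
    exact ⟨u, w, huw⟩
  have hdvd : ∀ n, d'.h ∣ a.coeff n ∧ d'.h ∣ b.coeff n := by
    intro n
    constructor
    · refine dvd_of_roots (R.val : R →+* L) Subtype.val_injective (j : L →+* Ω) hm hsep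
        fun θ hθ => ?_
      have h1 := congrArg (fun p => Polynomial.coeff p n) (hroot θ hθ).1
      simp only [Polynomial.coeff_map, Polynomial.coeff_zero, Polynomial.coe_eval₂RingHom] at h1
      rw [Polynomial.eval_map]
      exact h1
    · refine dvd_of_roots (R.val : R →+* L) Subtype.val_injective (j : L →+* Ω) hm hsep
        fun θ hθ => ?_
      have h1 := congrArg (fun p => Polynomial.coeff p n) (hroot θ hθ).2
      simp only [Polynomial.coeff_map, Polynomial.coeff_zero, Polynomial.coe_eval₂RingHom] at h1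
      rw [Polynomial.eval_map]
      exact h1
  have hθ0 : Polynomial.eval₂ (S : R →+* K) θ d'.h = 0 := by
    rw [GD.rts, Multiset.mem_toFinset, Polynomial.mem_roots (hm.map _).ne_zero,
      Polynomial.IsRoot.def, Polynomial.eval_map] at hθ
    exact hθ
  have hzero : ∀ c : R[X][X], (∀ n, d'.h ∣ c.coeff n) → ev2 (S : R →+* K) θ x c = 0 := by
    intro c hc
    have h1 : c.map (Polynomial.eval₂RingHom (S : R →+* K) θ) = 0 := by
      ext n
      rw [Polynomial.coeff_map, Polynomial.coeff_zero]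
      obtain ⟨e, he⟩ := hc n
      rw [he, map_mul]
      have h2 : (Polynomial.eval₂RingHom (S : R →+* K) θ) d'.h = 0 := hθ0
      rw [h2, zero_mul]
    unfold ev2
    rw [h1, Polynomial.eval_zero]
  rw [hab K S θ x y hxy, hzero a fun n => (hdvd n).1, hzero b fun n => (hdvd n).2, zero_mul,
    add_zero]

/-- The set `F` contains `F₀`, `α`, `B`, the inverse of the discriminant, all coefficients of `h`,
`G_i`, `H_i`, of the polynomials `u`, `w` in `sep`, and of the multipliers in an expression of `1`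
as a combination of the generators of the ideal in `ne`. So the data and all these identities are
over the ring of functions which are regular at all places where the elements of `F` are. `onX`:
`exists_ab` for the new data, all coefficients of `a` and `b` (polynomials in `T`) vanish at the
roots of `h` in an algebraic closure `Ω` of `L` (`hd.onX`, `ab_zero`), so they are multiples of `h`
(`dvd_of_roots`), so they vanish at all roots under all homomorphisms. -/
theorem spread [IsAlgClosed k] [CharZero k] {d : GD L m} (hd : d.Ok X) (F₀ : Finset L) :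
    ∃ F : Finset L, F₀ ⊆ F ∧ ∃ d' : GD (regU {c : Place k L | ∀ f ∈ F, f ∈ c.ring}) m,
      d'.Ok X ∧ d'.map ((regU {c : Place k L | ∀ f ∈ F, f ∈ c.ring}).val :
        regU {c : Place k L | ∀ f ∈ F, f ∈ c.ring} →+* L) = d := by
  obtain ⟨u, w, huw⟩ := hd.sep
  obtain ⟨Γ, hΓ⟩ := spr_ne (k := k) (d := d) 1 (by
    have h1 : Ideal.span (gens d) = ⊤ := hd.ne
    rw [h1]
    trivial)
  let F : Finset L := F₀ ∪ {d.α, d.B, (d.B ^ 2 - 4 * d.α ^ 3)⁻¹} ∪ cf d.h ∪
    (Finset.univ.biUnion fun i => cf2 (d.G i)) ∪ (Finset.univ.biUnion fun i => cf2 (d.H i)) ∪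
    cf u ∪ cf w ∪ Γ
  have key : ∀ R : Subalgebra k L, ↑F ⊆ (R : Set L) → ∃ d' : GD R m, d'.Ok X ∧
      d'.map (R.val : R →+* L) = d := by
    intro R hR
    simp only [F, Finset.coe_union, Set.union_subset_iff] at hR
    obtain ⟨⟨⟨⟨⟨⟨⟨-, g0⟩, g1⟩, g2⟩, g3⟩, g4⟩, g5⟩, g6⟩ := hR
    have m1 : d.α ∈ R := g0 (by simp)
    have m2 : d.B ∈ R := g0 (by simp)
    have m3 : (d.B ^ 2 - 4 * d.α ^ 3)⁻¹ ∈ R := g0 (by simp)
    obtain ⟨h', hh'⟩ := spr_lift R d.h (cf_mem g1)
    have hG : ∀ i, ∃ q : R[X][X], q.map (Polynomial.mapRingHom (R.val : R →+* L)) = d.G i :=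
      fun i => spr_lift2 R (d.G i) (cf2_mem fun z hz => g2 (by
        rw [Finset.mem_coe, Finset.mem_biUnion]
        exact ⟨i, Finset.mem_univ i, hz⟩))
    have hH : ∀ i, ∃ q : R[X][X], q.map (Polynomial.mapRingHom (R.val : R →+* L)) = d.H i :=
      fun i => spr_lift2 R (d.H i) (cf2_mem fun z hz => g3 (by
        rw [Finset.mem_coe, Finset.mem_biUnion]
        exact ⟨i, Finset.mem_univ i, hz⟩))
    choose G' hG' using hG
    choose H' hH' using hH
    obtain ⟨u', hu'⟩ := spr_lift R u (cf_mem g4)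
    obtain ⟨w', hw'⟩ := spr_lift R w (cf_mem g5)
    let d' : GD R m := ⟨⟨d.α, m1⟩, ⟨d.B, m2⟩, h', G', H'⟩
    have hd' : d'.map (R.val : R →+* L) = d := by
      have e1 : d'.map (R.val : R →+* L) = ⟨d.α, d.B, h'.map (R.val : R →+* L),
        fun i => (G' i).map (Polynomial.mapRingHom (R.val : R →+* L)),
        fun i => (H' i).map (Polynomial.mapRingHom (R.val : R →+* L))⟩ := rfl
      rw [e1, hh', funext hG', funext hH']
    have hm : d'.h.Monic := by
      have h1 : (h'.map (R.val : R →+* L)).Monic := by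
        rw [hh']
        exact hd.monic
      exact Polynomial.monic_of_injective Subtype.val_injective h1
    refine ⟨d', ⟨hm, ⟨u', w', ?_⟩, ?_, ?_, ?_⟩, hd'⟩
    · apply spr_inj R
      have e1 : d'.h = h' := rfl
      rw [e1, Polynomial.map_add, Polynomial.map_mul, Polynomial.map_mul, hu', hw', hh',
        ← Polynomial.derivative_map, hh', huw, Polynomial.map_one]
    · refine IsUnit.of_mul_eq_one ⟨(d.B ^ 2 - 4 * d.α ^ 3)⁻¹, m3⟩ (Subtype.ext ?_)
      exact mul_inv_cancel₀ hd.disc.ne_zero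
    · rw [Ideal.eq_top_iff_one]
      exact hΓ R d' hd' g6 1 (Polynomial.map_one _)
    · intro K _ _ S θ hθ x y hxy f hf
      exact spr_onX hd hd' hm K S θ hθ x y hxy hf
  refine ⟨F, fun z hz => by simp [F, hz], ?_⟩
  exact key (regU {c : Place k L | ∀ f ∈ F, f ∈ c.ring}) fun f hf c hc => hc f hf

end Pool.Agent.GT
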