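import Pool.Agent.GT.Tr

/-!
# The sums over all roots as limits of one cycle
-/

set_option autoImplicit false

noncomputable section

namespace Pool.Agent.GT

open Pool.Agent.ZCyc Pool.Agent.Dess Polynomial
open Pool.Agent.VFP (Om tt)
open scoped Classical LinearAlgebra.Projectivization

variable {k : Type} [Field k] [IsAlgClosed k] [CharZero k] {m : ℕ}
  {X : Set (MvPolynomial (Fin (m + 1)) k)} {A : Type} [CommRing A] [Algebra k A]

omit [IsAlgClosed k] [CharZero k] in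
/-- a good auxiliary point -/
private theorem TrC_aux {K : Type} [Field K] [IsAlgClosed K] [CharZero K] [Algebra k K]
    {α B : K} {M : Mp K m} (hM : M.Ok α B X) (P : (Ec α B).Point) :
    ∃ Q : (Ec α B).Point, M.Ns Q ∧ M.Ns (P + Q) := by
  have := infinite_points hM.disc
  have h0 : {Q : (Ec α B).Point | ¬ M.Ns Q}.Finite := finite_bad hM.ne
  have h1 := h0.union (h0.preimage (f := fun Q => P + Q) (add_right_injective P).injOn)
  obtain ⟨Q, hQ⟩ := h1.exists_notMem
  refine ⟨Q, ?_, ?_⟩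
  · by_contra hc
    exact hQ (Or.inl hc)
  · by_contra hc
    exact hQ (Or.inr hc)

/-- The sum of the limit homomorphisms at a point is the limit of one cycle, which does not depend on
the place: `∑ φ_θ(P + Q) - φ_θ(Q)` with a point `Q` which is good for all roots. -/
theorem exists_cycle (hX : Hom X) {d : GD A m} (hd : d.Ok X) (S : A →ₐ[k] Om k)
    (P : (Ec (S d.α) (S d.B)).Point) :
    ∃ z : Pt X (Om k) →₀ ℚ, ∀ v : Place k (Om k), lim1 hX v z = TV hX hd S v P := by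
  choose Q h₁ h₂ using fun θ : {θ // θ ∈ d.rts (S : A →+* Om k)} =>
    TrC_aux (hd.mp_ok S θ.2) P
  refine ⟨∑ θ : {θ // θ ∈ d.rts (S : A →+* Om k)}, (cyc hX (hd.mp_ok S θ.2) (P + Q θ) -
    cyc hX (hd.mp_ok S θ.2) (Q θ)), fun v => ?_⟩
  unfold TV
  rw [map_sum, AddMonoidHom.finsetSum_apply]
  refine Finset.sum_congr rfl fun θ _ => ?_
  rw [map_sub]
  exact hV_spec hX (hd.mp_ok S θ.2) v (h₁ θ) (h₂ θ)

/-- the same over `k` -/
theorem exists_cycleK (hX : Hom X) {d : GD A m} (hd : d.Ok X) (s : A →ₐ[k] k)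
    (p : (Ec (s d.α) (s d.B)).Point) :
    ∃ z : Pt X k →₀ ℚ, cl1 X z = TK hX hd s p := by
  choose Q h₁ h₂ using fun θ : {θ // θ ∈ d.rts (s : A →+* k)} =>
    TrC_aux (hd.mp_ok s θ.2) p
  refine ⟨∑ θ : {θ // θ ∈ d.rts (s : A →+* k)}, (cyc hX (hd.mp_ok s θ.2) (p + Q θ) -
    cyc hX (hd.mp_ok s θ.2) (Q θ)), ?_⟩
  unfold TK
  rw [map_sum, AddMonoidHom.finsetSum_apply]
  refine Finset.sum_congr rfl fun θ _ => ?_
  rw [map_sub]
  exact hK_spec hX (hd.mp_ok s θ.2) (h₁ θ) (h₂ θ)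

end Pool.Agent.GT
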