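import Pool.Agent.GT.Sys

/-!
# General tuples of points
-/

set_option autoImplicit false

noncomputable section

namespace Pool.Agent.GT

open Pool.Agent.ZCyc Pool.Agent.Dess Polynomial
open Pool.Agent.VFP (Om tt)
open scoped Classical LinearAlgebra.Projectivization

open Pool.Agent.TInc Pool.Agent.KFam Pool.Agent.TInf

variable {k L : Type} [Field k] [IsAlgClosed k] [CharZero k] [Field L] [Algebra k L] {m : ℕ}
  {X : Set (MvPolynomial (Fin (m + 1)) k)} {U : Set (Place k L)} {n : ℕ}

omit [IsAlgClosed k] [CharZero k] in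
private theorem gz_scl (D : Place k L →₀ ℤ) : scl (fun _ : Place k L => (1 : kˣ)) D = 1 := by
  unfold scl Finsupp.prod
  refine Finset.prod_eq_one fun q _ => ?_
  simp

omit [IsAlgClosed k] [CharZero k] in
private theorem gz_deg (D : Place k L →₀ ℤ) : deg (D + D) = 2 * deg D := by
  unfold deg
  rw [Finsupp.sum_add_index' (fun _ => rfl) (fun _ _ _ => rfl)]
  ring

/-- The alternating sum is zero for points over different places with different `B ² / α ³` (or
`B ² / α ³` constant): `exists_sys`, `TInc.zero_base` (with `n₀ = deg D`, the divisor `D + D`,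
`base_gen`) for the tuple with trivial scalings, and the points of `exists_uns` (`scl 1 D = 1`). -/
theorem alt_zero_gen (hX : Hom X) (hL : IsCurve k L) {d : GD (regU U) m} (hd : d.Ok X)
    {D : Place k L →₀ ℤ} {n₀ : ℕ} (hD : deg D = n₀) (hn₀ : 0 < n₀) (hα0 : (d.α : L) ≠ 0)
    (hB0 : (d.B : L) ≠ 0) (hα : ∀ v, 0 ≤ ord v (d.α : L) + 4 * D v)
    (hB : ∀ v, 0 ≤ ord v (d.B : L) + 6 * D v) {g : ℕ} (hg : Riemann hL g) (hn : n₀ + g ≤ n)
    (hU : ∀ c ∈ U, (cub d D).Good c) {δ : Place k L} (hδ : BadAt δ (d.α : L) (d.B : L))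
    (hδU : δ ∉ U) (c : Fin n → U) (hc : Function.Injective c)
    (hJ : (∃ a : k, (d.B : L) ^ 2 = algebraMap k L a * (d.α : L) ^ 3) ∨
      ∀ j j', j ≠ j' → val (c j).1 ((d.B : L) ^ 2 / (d.α : L) ^ 3) ≠
        val (c j').1 ((d.B : L) ^ 2 / (d.α : L) ^ 3))
    (p : ∀ j, (Ec (evk hL (c j) d.α) (evk hL (c j) d.B)).Point) :
    Alt (Ext hX n) (fun j => TK hX hd (evk hL (c j)) (p j)) = 0 := by
  have hOk : (cub d D).Ok fun _ => 2 * n₀ := by
    refine ⟨fun _ => hα0, fun _ => hB0, fun _ => ?_, fun _ v => ?_, fun _ v => ?_, fun _ => ?_⟩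
    · intro h
      have h1 := hd.disc.map (regU U).val
      have h2 : (regU U).val (d.B ^ 2 - 4 * d.α ^ 3) = (d.B : L) ^ 2 - 4 * (d.α : L) ^ 3 := by
        rw [map_sub, map_mul, map_pow, map_pow, map_ofNat]
        rfl
      rw [h2] at h1
      exact h1.ne_zero h
    · have h1 := hα v
      change 0 ≤ ord v (d.α : L) + 2 * (D + D) v
      rw [Finsupp.add_apply]
      linarith
    · have h1 := hB v
      change 0 ≤ ord v (d.B : L) + 3 * (D + D) v
      rw [Finsupp.add_apply]
      linarith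
    · change deg (D + D) = ((2 * n₀ : ℕ) : ℤ)
      rw [gz_deg, hD]
      push_cast
      rfl
  obtain ⟨Y, hY⟩ := exists_sys hX hL hd D hU {δ} (fun δ' h => by
    rw [Set.mem_singleton_iff.1 h]
    exact hδ) (fun δ' h => by
    rw [Set.mem_singleton_iff.1 h]
    exact hδU) n
  choose p' hp1 hp2 using fun j => exists_uns (disc_ne hd (evk hL (c j))) (p j)
  let s : Fin n → ((cub d D).base hL U hU fun _ => {δ}).P := fun j => (c j, fun _ => 1)
  have hgen : ((cub d D).base hL U hU fun _ => {δ}).Gen s :=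
    base_gen (cub d D) hL hOk hU _ s fun _ => hJ
  have h0 := zero_base (cub d D) hL hOk hU (fun _ => {δ}) hg (n₀ := n₀)
    (by rw [Finset.sum_const, Finset.card_univ, Fintype.card_fin, one_smul]) hn₀ hn Y s hgen hc
    (fun _ _ => rfl) (i₀ := 0) (Set.mem_singleton δ) hδU fun _ => p'
  have hon : ((cub d D).base hL U hU fun _ => {δ}).On s fun _ => p' := by
    intro i j
    have ea : ((cub d D).base hL U hU fun _ => {δ}).ea s i j = evk hL (c j) d.α := by
      change scl (fun _ => 1) (D + D) ^ 2 * val (c j).1 (d.α : L) = val (c j).1 (d.α : L)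
      rw [gz_scl, one_pow, one_mul]
    have eb : ((cub d D).base hL U hU fun _ => {δ}).eb s i j = evk hL (c j) d.B := by
      change scl (fun _ => 1) (D + D) ^ 3 * val (c j).1 (d.B : L) = val (c j).1 (d.B : L)
      rw [gz_scl, one_pow, one_mul]
    rw [ea, eb]
    exact hp1 j
  rw [hY s _ hon] at h0
  rw [← h0, clF]
  congr 1
  funext j
  have h1 : scl (s j).2 D = 1 := gz_scl D
  rw [h1]
  exact congrArg (TK hX hd (evk hL (c j))) (hp2 j).symm

end Pool.Agent.GT
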