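import Pool.Agent.GT.Ext
import Pool.Agent.GT.Mov

/-!
# Alternating sums of exterior products
-/

set_option autoImplicit false

noncomputable section

namespace Pool.Agent.GT

open Pool.Agent.ZCyc Pool.Agent.Dess Polynomial
open Pool.Agent.VFP (Om tt)
open scoped Classical LinearAlgebra.Projectivization

/-- the alternating sum of a multilinear map over the permutations of the arguments -/
def Alt {n : ℕ} {V W : Type} [AddCommGroup V] [Module ℚ V] [AddCommGroup W] [Module ℚ W]
    (E : MultilinearMap ℚ (fun _ : Fin n => V) W) : MultilinearMap ℚ (fun _ : Fin n => V) W :=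
  ∑ π : Equiv.Perm (Fin n), ((Equiv.Perm.sign π : ℤˣ) : ℤ) • E.domDomCongr π⁻¹

variable {n : ℕ} {V W : Type} [AddCommGroup V] [Module ℚ V] [AddCommGroup W] [Module ℚ W]
  (E : MultilinearMap ℚ (fun _ : Fin n => V) W)

theorem Alt_apply (w : Fin n → V) :
    Alt E w = ∑ π : Equiv.Perm (Fin n), ((Equiv.Perm.sign π : ℤˣ) : ℤ) • E (fun j => w (π j)) := by
  unfold Alt
  rw [sum_apply, ← Equiv.sum_comp (Equiv.inv (Equiv.Perm (Fin n)))]
  refine Finset.sum_congr rfl fun π _ => ?_
  rw [smul_apply, MultilinearMap.domDomCongr_apply]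
  simp only [Equiv.inv_apply, Equiv.Perm.sign_inv, inv_inv]

theorem Alt_perm (w : Fin n → V) (π : Equiv.Perm (Fin n)) :
    Alt E (fun j => w (π j)) = ((Equiv.Perm.sign π : ℤˣ) : ℤ) • Alt E w := by
  rw [Alt_apply, Alt_apply, Finset.smul_sum]
  refine Fintype.sum_equiv (Equiv.mulLeft π) _ _ fun σ => ?_
  simp only [Equiv.coe_mulLeft, Equiv.Perm.sign_mul, Units.val_mul, Equiv.Perm.coe_mul,
    Function.comp_apply]
  rw [smul_smul, ← mul_assoc, ← Units.val_mul, Int.units_mul_self, Units.val_one, one_mul]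

theorem Alt_zero (w : Fin n → V) (j : Fin n) (h : w j = 0) : Alt E w = 0 :=
  (Alt E).map_coord_zero j h

theorem Alt_neg (w : Fin n → V) (j : Fin n) :
    Alt E (Function.update w j (-w j)) = -Alt E w := by
  rw [MultilinearMap.map_update_neg, Function.update_eq_self]

variable {k : Type} [Field k] [IsAlgClosed k] [CharZero k] {m : ℕ}
  {X : Set (MvPolynomial (Fin (m + 1)) k)}

/-- alternating sums of cycles over `Om k` and their limits: `lim_ext` -/
theorem lim_alt (hX : Hom X) (v : Place k (Om k)) (z : Fin n → (Pt X (Om k) →₀ ℚ)) :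
    lim hX v (∑ π : Equiv.Perm (Fin n), ((Equiv.Perm.sign π : ℤˣ) : ℤ) • ext (fun j => z (π j))) =
      Alt (Ext hX n) (fun j => lim1 hX v (z j)) := by
  rw [Alt_apply, map_sum]
  refine Finset.sum_congr rfl fun π _ => ?_
  rw [map_zsmul, lim_ext]

/-- the same over `k` -/
theorem cl_alt (hX : Hom X) (z : Fin n → (Pt X k →₀ ℚ)) :
    (Submodule.Quotient.mk (∑ π : Equiv.Perm (Fin n), ((Equiv.Perm.sign π : ℤˣ) : ℤ) •
      ext (fun j => z (π j))) : CH X (Fin n)) = Alt (Ext hX n) (fun j => cl1 X (z j)) := by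
  rw [Alt_apply, ← Submodule.mkQ_apply, map_sum]
  refine Finset.sum_congr rfl fun π _ => ?_
  rw [map_zsmul, Submodule.mkQ_apply, Ext_cl hX fun j => z (π j)]

omit [IsAlgClosed k] [CharZero k] in
private theorem Alt_surj : Function.Surjective (cl1 X) := by
  intro c
  obtain ⟨w, rfl⟩ := Submodule.Quotient.mk_surjective _ c
  refine ⟨Finsupp.mapDomain (fun x => x ()) w, ?_⟩
  change Submodule.Quotient.mk (Finsupp.mapDomain (fun x _ => x)
    (Finsupp.mapDomain (fun x => x ()) w)) = _
  rw [← Finsupp.mapDomain_comp]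
  have h3 : ((fun (x : Pt X k) (_ : Unit) => x) ∘ fun x : Unit → Pt X k => x ()) = id := rfl
  rw [h3, Finsupp.mapDomain_id]

omit [CharZero k] in
private theorem lim1_const (hX : Hom X) (v : Place k (Om k)) (z : Pt X k →₀ ℚ) :
    lim1 hX v (Finsupp.mapDomain (fun x => x.map (Algebra.ofId k (Om k)) hX) z) = cl1 X z := by
  change Submodule.Quotient.mk (Finsupp.mapDomain (fun x i => pv hX v (x i))
      (Finsupp.mapDomain (fun x _ => x) (Finsupp.mapDomain
        (fun x => x.map (Algebra.ofId k (Om k)) hX) z))) = Submodule.Quotient.mk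
        (Finsupp.mapDomain (fun x _ => x) z)
  rw [← Finsupp.mapDomain_comp, ← Finsupp.mapDomain_comp]
  congr 2
  funext x i
  change pv hX v (x.map (Algebra.ofId k (Om k)) hX) = x
  exact pv_eq isVal_const

/-- Moving one factor: if the alternating sum is zero for almost all limits of a cycle (the other
factors are constant classes) then it is zero for all limits. Proof: `moving` for the alternating sum
of the exterior products of the cycle `z` with constant cycles (`Pt.map`, `isVal_const`). -/
theorem alt_moving (hX : Hom X) (w : Fin n → CH X Unit) (j : Fin n) (z : Pt X (Om k) →₀ ℚ)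
    (Γ : Finset (Om k)) (hΓ : (0 : Om k) ∉ Γ)
    (h : ∀ v : Place k (Om k), (∀ g ∈ Γ, g ∈ v.ring ∧ g⁻¹ ∈ v.ring) →
      Alt (Ext hX n) (Function.update w j (lim1 hX v z)) = 0) (v : Place k (Om k)) :
    Alt (Ext hX n) (Function.update w j (lim1 hX v z)) = 0 := by
  choose wr hwr using fun i => Alt_surj (w i)
  let y : Fin n → (Pt X (Om k) →₀ ℚ) := Function.update
    (fun i => Finsupp.mapDomain (fun x => x.map (Algebra.ofId k (Om k)) hX) (wr i)) j z
  have hy : ∀ v : Place k (Om k),
      (fun i => lim1 hX v (y i)) = Function.update w j (lim1 hX v z) := by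
    intro v
    funext i
    by_cases hi : i = j
    · subst hi
      simp [y]
    · rw [Function.update_of_ne hi]
      have h1 : y i = Finsupp.mapDomain (fun x => x.map (Algebra.ofId k (Om k)) hX) (wr i) :=
        Function.update_of_ne hi _ _
      rw [h1, lim1_const, hwr]
  rw [← hy, ← lim_alt]
  refine moving hX _ Γ hΓ (fun v hv => ?_) v
  rw [lim_alt, hy]
  exact h v hv

end Pool.Agent.GT
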