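import Pool.Agent.GT.Reg
import Pool.Agent.GT.Alt
import Pool.Agent.GT.TrB
import Pool.Agent.GT.TrC

/-!
# Moving to general points
-/

set_option autoImplicit false

noncomputable section

namespace Pool.Agent.GT

open Pool.Agent.ZCyc Pool.Agent.Dess Polynomial
open Pool.Agent.VFP (Om tt)
open scoped Classical LinearAlgebra.Projectivization

open Pool.Agent.TInc

variable {k L : Type} [Field k] [IsAlgClosed k] [CharZero k] [Field L] [Algebra k L] {m : ℕ}
  {X : Set (MvPolynomial (Fin (m + 1)) k)} {U : Set (Place k L)} {n : ℕ}

/-- For almost all places `v` of `Om k` the place `c` below is in `U`, it is different from finitely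
many given places, and the value of the function `J` is different from finitely many given values if
`J` is not constant. `U` contains all places where the elements of the finite set `F` are regular.
`Γ` contains the images of the nonzero elements of `F`, of uniformizers of the places to be avoided
(`exists_unif`; if `σ π` is a unit at `v` then `π` is a unit at `c`), of `J` and of `J - a` for the
values to be avoided (if `J - a` and `J` are units at `c` then `val c J ≠ a`). -/
theorem almost_all (hL : IsCurve k L) (F : Finset L)
    (hU : ∀ c : Place k L, (∀ f ∈ F, f ∈ c.ring) → c ∈ U) (σ : L →ₐ[k] Om k)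
    (T : Finset (Place k L)) {J : L} (hJ : ∀ a : k, J ≠ algebraMap k L a) (V : Finset k) :
    ∃ Γ : Finset (Om k), (0 : Om k) ∉ Γ ∧
      ∀ v : Place k (Om k), (∀ g ∈ Γ, g ∈ v.ring ∧ g⁻¹ ∈ v.ring) →
        ∃ c : Place k L, v.ring.comap (σ : L →+* Om k) = c.ring ∧ c ∈ U ∧ c ∉ T ∧ val c J ∉ V := by
  choose π hπ using fun c : Place k L => exists_unif hL c
  have hJV : ∀ a : k, J - algebraMap k L a ≠ 0 := fun a h => hJ a (sub_eq_zero.1 h)
  have hJ0 : J ≠ 0 := by
    intro h
    apply hJ 0
    rw [map_zero]
    exact h
  have hσ : ∀ {x : L}, x ≠ 0 → σ x ≠ 0 := fun {x} hx h => hx ((map_eq_zero σ).1 h)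
  refine ⟨((F.erase 0).image σ ∪ T.image (fun c => σ (π c))) ∪
    (V.image (fun a => σ (J - algebraMap k L a)) ∪ {σ J}), ?_, fun v hv => ?_⟩
  · simp only [Finset.mem_union, Finset.mem_image, Finset.mem_singleton, not_or]
    refine ⟨⟨?_, ?_⟩, ?_, ?_⟩
    · rintro ⟨f, hf, h0⟩
      exact hσ (Finset.ne_of_mem_erase hf) h0
    · rintro ⟨c, -, h0⟩
      exact hσ (hπ c).1 h0
    · rintro ⟨a, -, h0⟩
      exact hσ (hJV a) h0
    · intro h0
      exact hσ hJ0 h0.symm
  · obtain ⟨c, hc⟩ := exists_below hL v σ
    have hmem : ∀ x : L, x ∈ c.ring ↔ σ x ∈ v.ring := fun x => by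
      rw [← hc]
      exact ValuationSubring.mem_comap
    have hunit : ∀ x : L, σ x ∈ ((F.erase 0).image σ ∪ T.image (fun c => σ (π c))) ∪
        (V.image (fun a => σ (J - algebraMap k L a)) ∪ {σ J}) → x ∈ c.ring ∧ x⁻¹ ∈ c.ring := by
      intro x hx
      have h1 := hv _ hx
      rw [hmem, hmem, map_inv₀]
      exact h1
    have hnv : ∀ x : L, x ≠ 0 → x⁻¹ ∈ c.ring → ¬ c.Vanishes x := by
      intro x hx hx' h
      rw [Place.vanishes_iff_or] at h
      rcases h with h | h
      · exact hx h
      · exact h hx'
    refine ⟨c, hc, hU c fun f hf => ?_, fun hcT => ?_, fun hcV => ?_⟩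
    · by_cases h0 : f = 0
      · rw [h0]
        exact zero_mem _
      · exact (hunit f (Finset.mem_union_left _ (Finset.mem_union_left _
          (Finset.mem_image_of_mem _ (Finset.mem_erase.2 ⟨h0, hf⟩))))).1
    · have h1 := hunit (π c) (Finset.mem_union_left _ (Finset.mem_union_right _
        (Finset.mem_image.2 ⟨c, hcT, rfl⟩)))
      exact hnv (π c) (hπ c).1 h1.2 (hπ c).2.1
    · have h1 := hunit J (Finset.mem_union_right _ (Finset.mem_union_right _
        (Finset.mem_singleton_self _)))
      have h2 := hunit (J - algebraMap k L (val c J)) (Finset.mem_union_right _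
        (Finset.mem_union_left _ (Finset.mem_image.2 ⟨val c J, hcV, rfl⟩)))
      exact hnv _ (hJV _) h2.2 (at_val hL h1.1)

/-- All tuples of limits. Suppose that the alternating sum is zero for all points over different
places `c j ∈ U`, with different values of `J`, or `J` constant. Then it is zero for all limits.
Proof: by induction on the number `i` of the last factors which are limits, the first factors are
points over general places: move the first one of the limits (`alt_moving`, `exists_cycle`,
`almost_all`, with `J` or, if `J` is constant, any function which is not constant); for almost all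
`v` it is a point over a general place (`TV_eq_TK`, `over_ev`, `exists_pred`). -/
theorem alt_zero_all (hX : Hom X) (hL : IsCurve k L) {d : GD (regU U) m} (hd : d.Ok X)
    (F : Finset L) (hU : ∀ c : Place k L, (∀ f ∈ F, f ∈ c.ring) → c ∈ U) (J : L)
    (h : ∀ c : Fin n → U, Function.Injective c → ((∃ a : k, J = algebraMap k L a) ∨
        ∀ j j', j ≠ j' → val (c j).1 J ≠ val (c j').1 J) →
      ∀ p : ∀ j, (Ec (evk hL (c j) d.α) (evk hL (c j) d.B)).Point,
        Alt (Ext hX n) (fun j => TK hX hd (evk hL (c j)) (p j)) = 0)
    (σ : Fin n → L →ₐ[k] Om k) (v : Fin n → Place k (Om k))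
    (P : ∀ j, (Ec ((σ j).comp (regU U).val d.α) ((σ j).comp (regU U).val d.B)).Point) :
    Alt (Ext hX n) (fun j => TV hX hd ((σ j).comp (regU U).val) (v j) (P j)) = 0 := by
  obtain ⟨t, ht, -⟩ := id hL
  have htc : ∀ a : k, t ≠ algebraMap k L a := by
    rintro a rfl
    exact ht (isAlgebraic_algebraMap a)
  -- the induction
  have key : ∀ (r : ℕ) (A : Finset (Fin n)), (Finset.univ \ A).card = r →
      ∀ q : Fin n → Place k L, (∀ j ∈ A, ∀ j' ∈ A, j ≠ j' → q j ≠ q j') →
      ((∃ a : k, J = algebraMap k L a) ∨
        ∀ j ∈ A, ∀ j' ∈ A, j ≠ j' → val (q j) J ≠ val (q j') J) →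
      ∀ w : Fin n → CH X Unit,
      (∀ j ∈ A, ∃ (hq : q j ∈ U)
        (p : (Ec (evk hL ⟨q j, hq⟩ d.α) (evk hL ⟨q j, hq⟩ d.B)).Point),
          w j = TK hX hd (evk hL ⟨q j, hq⟩) p) →
      (∀ j, j ∉ A → ∃ (σ : L →ₐ[k] Om k) (v : Place k (Om k))
        (P : (Ec (σ.comp (regU U).val d.α) (σ.comp (regU U).val d.B)).Point),
          w j = TV hX hd (σ.comp (regU U).val) v P) → Alt (Ext hX n) w = 0 := by
    intro r
    induction r with
    | zero =>
      intro A hA q hq hJ w hw _
      have hA' : ∀ j, j ∈ A := by
        intro j
        by_contra hj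
        rw [Finset.card_eq_zero] at hA
        have h1 : j ∈ Finset.univ \ A := Finset.mem_sdiff.2 ⟨Finset.mem_univ _, hj⟩
        rw [hA] at h1
        exact absurd h1 (Finset.notMem_empty _)
      choose hqU p hp using fun j => hw j (hA' j)
      have h1 := h (fun j => ⟨q j, hqU j⟩) (fun j j' hjj => by
        by_contra hne
        exact hq j (hA' j) j' (hA' j') hne (congrArg Subtype.val hjj))
        (hJ.imp id fun h2 j j' hne => h2 j (hA' j) j' (hA' j') hne) p
      rw [← h1]
      congr 1
      funext j
      exact hp j
    | succ r ih =>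
      intro A hA q hq hJ w hw hw'
      have hne : (Finset.univ \ A).Nonempty := by
        rw [← Finset.card_pos, hA]
        exact Nat.succ_pos r
      obtain ⟨j₀, hj₀⟩ := hne
      have hj₀A : j₀ ∉ A := (Finset.mem_sdiff.1 hj₀).2
      obtain ⟨σ, v, P, hP⟩ := hw' j₀ hj₀A
      obtain ⟨z, hz⟩ := exists_cycle hX hd (σ.comp (regU U).val) P
      -- the function for the moving
      have hfun : ∃ (J' : L) (V : Finset k), (∀ a : k, J' ≠ algebraMap k L a) ∧
          ((∃ a : k, J = algebraMap k L a) ∨
            (J' = J ∧ ∀ j ∈ A, val (q j) J ∈ V)) := by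
        by_cases hc : ∃ a : k, J = algebraMap k L a
        · exact ⟨t, ∅, htc, Or.inl hc⟩
        · refine ⟨J, A.image fun j => val (q j) J, fun a ha => hc ⟨a, ha⟩,
            Or.inr ⟨rfl, fun j hj => Finset.mem_image.2 ⟨j, hj, rfl⟩⟩⟩
      obtain ⟨J', V, hJ', hJV⟩ := hfun
      obtain ⟨Γ, hΓ, hall⟩ := almost_all hL F hU σ (A.image q) hJ' V
      have hmain := alt_moving hX w j₀ z Γ hΓ (fun v' hv' => by
        obtain ⟨c, hc, hcU, hcT, hcV⟩ := hall v' hv'
        have hval : ∀ a : regU U, v'.At ((σ.comp (regU U).val) a) (evk hL ⟨c, hcU⟩ a) :=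
          fun a => over_ev hL (S := Sum.inl σ) (c := ⟨c, hcU⟩) hc a
        have hdisc : (evk hL ⟨c, hcU⟩ d.B) ^ 2 ≠ 4 * (evk hL ⟨c, hcU⟩ d.α) ^ 3 := by
          intro h0
          have h1 := hd.disc.map (evk hL ⟨c, hcU⟩)
          rw [map_sub, map_mul, map_pow, map_pow, map_ofNat] at h1
          rw [h0, sub_self] at h1
          exact not_isUnit_zero h1
        obtain ⟨p, hp⟩ := exists_pred (hval d.α) (hval d.B) hdisc P
        have hTV := TV_eq_TK hX hd hval hp
        refine ih (insert j₀ A) ?_ (Function.update q j₀ c) ?_ ?_ _ ?_ ?_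
        · have h1 : Finset.univ \ A = insert j₀ (Finset.univ \ insert j₀ A) := by
            ext i
            simp only [Finset.mem_sdiff, Finset.mem_univ, true_and, Finset.mem_insert, not_or]
            constructor
            · intro hi
              by_cases hij : i = j₀
              · exact Or.inl hij
              · exact Or.inr ⟨hij, hi⟩
            · rintro (rfl | ⟨-, hi⟩)
              · exact hj₀A
              · exact hi
          rw [h1, Finset.card_insert_of_notMem (by simp)] at hA
          exact Nat.succ_injective hA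
        · intro j hj j' hj' hjj
          rcases Finset.mem_insert.1 hj with rfl | hjA <;>
            rcases Finset.mem_insert.1 hj' with rfl | hjA'
          · exact absurd rfl hjj
          · rw [Function.update_self, Function.update_of_ne (Ne.symm hjj)]
            intro h0
            exact hcT (Finset.mem_image.2 ⟨j', hjA', h0.symm⟩)
          · rw [Function.update_self, Function.update_of_ne hjj]
            intro h0
            exact hcT (Finset.mem_image.2 ⟨j, hjA, h0⟩)
          · have h1 : j ≠ j₀ := fun h => hj₀A (h ▸ hjA)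
            have h2 : j' ≠ j₀ := fun h => hj₀A (h ▸ hjA')
            rw [Function.update_of_ne h1, Function.update_of_ne h2]
            exact hq j hjA j' hjA' hjj
        · rcases hJV with hJV | ⟨rfl, hJV⟩
          · exact Or.inl hJV
          · rcases hJ with hJ | hJ
            · exact Or.inl hJ
            · right
              intro j hj j' hj' hjj
              rcases Finset.mem_insert.1 hj with rfl | hjA <;>
                rcases Finset.mem_insert.1 hj' with rfl | hjA'
              · exact absurd rfl hjj
              · rw [Function.update_self, Function.update_of_ne (Ne.symm hjj)]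
                intro h0
                exact hcV (h0 ▸ hJV j' hjA')
              · rw [Function.update_self, Function.update_of_ne hjj]
                intro h0
                exact hcV (h0 ▸ hJV j hjA)
              · have h1 : j ≠ j₀ := fun h => hj₀A (h ▸ hjA)
                have h2 : j' ≠ j₀ := fun h => hj₀A (h ▸ hjA')
                rw [Function.update_of_ne h1, Function.update_of_ne h2]
                exact hJ j hjA j' hjA' hjj
        · intro j hj
          rcases Finset.mem_insert.1 hj with rfl | hjA
          · rw [Function.update_self, Function.update_self]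
            exact ⟨hcU, p, (hz v').trans hTV⟩
          · have h1 : j ≠ j₀ := fun h => hj₀A (h ▸ hjA)
            rw [Function.update_of_ne h1, Function.update_of_ne h1]
            exact hw j hjA
        · intro j hj
          have h1 : j ≠ j₀ := fun h => hj (h ▸ Finset.mem_insert_self _ _)
          rw [Function.update_of_ne h1]
          exact hw' j fun h => hj (Finset.mem_insert_of_mem h)) v
      rw [hz v, ← hP, Function.update_eq_self] at hmain
      exact hmain
  obtain ⟨c₀, -⟩ : ∃ c : Fin n → Place k L, True := by
    refine ⟨fun j => (exists_below hL (v j) (σ j)).choose, trivial⟩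
  exact key _ ∅ rfl c₀ (fun j hj => absurd hj (Finset.notMem_empty _))
    (Or.inr fun j hj => absurd hj (Finset.notMem_empty _)) _
    (fun j hj => absurd hj (Finset.notMem_empty _)) fun j _ => ⟨σ j, v j, P j, rfl⟩

end Pool.Agent.GT
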