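import Pool.Agent.GT.OddC
import Pool.Agent.GT.GenZ
import Pool.Agent.GT.MovA

/-!
# The theorem
-/

set_option autoImplicit false

noncomputable section

namespace Pool.Agent.GT

open Pool.Agent.ZCyc Pool.Agent.Dess Polynomial
open Pool.Agent.VFP (Om tt)
open scoped Classical LinearAlgebra.Projectivization

open Pool.Agent.TInc

variable {k L : Type} [Field k] [IsAlgClosed k] [CharZero k] [Field L] [Algebra k L] {m : ℕ}
  {X : Set (MvPolynomial (Fin (m + 1)) k)} {n : ℕ}

/-- A multilinear map which vanishes on generators vanishes on their span. -/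
private theorem fn_span {V W : Type} [AddCommGroup V] [Module ℚ V] [AddCommGroup W] [Module ℚ W]
    (E : MultilinearMap ℚ (fun _ : Fin n => V) W) (S : Set V)
    (h : ∀ z : Fin n → V, (∀ j, z j ∈ S) → E z = 0) (T : Finset (Fin n)) :
    ∀ z : Fin n → V, (∀ j ∈ T, z j ∈ Submodule.span ℚ S) → (∀ j ∉ T, z j ∈ S) → E z = 0 := by
  induction T using Finset.induction_on with
  | empty => exact fun z _ hz => h z fun j => hz j (Finset.notMem_empty j)
  | insert a T ha ih =>
    intro z hz hz'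
    have key : ∀ u ∈ Submodule.span ℚ S, E (Function.update z a u) = 0 := by
      intro u hu
      induction hu using Submodule.span_induction with
      | mem u hu =>
        refine ih _ (fun j hj => ?_) (fun j hj => ?_)
        · have hja : j ≠ a := fun h0 => ha (h0 ▸ hj)
          rw [Function.update_of_ne hja]
          exact hz j (Finset.mem_insert_of_mem hj)
        · by_cases hja : j = a
          · subst hja
            rw [Function.update_self]
            exact hu
          · rw [Function.update_of_ne hja]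
            exact hz' j fun h0 => (Finset.mem_insert.1 h0).elim hja hj
      | zero => exact E.map_update_zero _ _
      | add u w _ _ hu hw => rw [E.map_update_add, hu, hw, add_zero]
      | smul c u _ hu => rw [E.map_update_smul, hu, smul_zero]
    have h1 := key (z a) (hz a (Finset.mem_insert_self a T))
    rwa [Function.update_eq_self] at h1

/-- Proof. `spread` with `F₀` = the elements `α`, `α⁻¹`, `B`, `B⁻¹`, the inverse of the discriminant,
and the inverses of uniformizers at the places in the support of `D` (so that `D c = 0` for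
`c ∈ U`); `U` = the places where the elements of `F` are regular; `δ` is not in `U` (otherwise
`u = 1` contradicts `BadAt`). Both sides are multilinear in the `z j` (`cl_alt`), so we may assume
`z j ∈ OddGen d X` (`Submodule.span_induction` for every `j`, or
`MultilinearMap` and `Submodule.span`). Now `odd_class`, `alt_zero_all` with
`J = B ² / α ³`, and `alt_zero_gen`. -/
theorem main (hX : Hom X) (hL : IsCurve k L) {d : GD L m} (hd : d.Ok X)
    {D : Place k L →₀ ℤ} {n₀ : ℕ} (hD : deg D = n₀) (hn₀ : 0 < n₀) (hα0 : d.α ≠ 0)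
    (hB0 : d.B ≠ 0) (hα : ∀ v, 0 ≤ ord v d.α + 4 * D v) (hB : ∀ v, 0 ≤ ord v d.B + 6 * D v)
    {g : ℕ} (hg : Riemann hL g) (hn : n₀ + g ≤ n) {δ : Place k L} (hδ : BadAt δ d.α d.B)
    (z : Fin n → (Pt X k →₀ ℚ)) (hz : ∀ j, z j ∈ Submodule.span ℚ (OddGen d X)) :
    ∑ π : Equiv.Perm (Fin n), ((Equiv.Perm.sign π : ℤˣ) : ℤ) • ext (fun j => z (π j)) ∈
      Rat X (Fin n) := by
  obtain ⟨π, hπ⟩ : ∃ π : Place k L → L, ∀ v, IsUnif v (π v) :=
    ⟨fun v => (exists_unif hL v).choose, fun v => (exists_unif hL v).choose_spec⟩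
  let F₀ : Finset L := {d.α, d.α⁻¹, d.B, d.B⁻¹, (d.B ^ 2 - 4 * d.α ^ 3)⁻¹} ∪
    D.support.image fun v => (π v)⁻¹
  obtain ⟨F, hF₀, d', hd', hmap⟩ := spread hd F₀
  have eα : (d'.α : L) = d.α := congrArg GD.α hmap
  have eB : (d'.B : L) = d.B := congrArg GD.B hmap
  have hmem : ∀ c : Place k L, (∀ f ∈ F, f ∈ c.ring) → d.α ∈ c.ring ∧ d.α⁻¹ ∈ c.ring ∧
      d.B ∈ c.ring ∧ d.B⁻¹ ∈ c.ring ∧ (d.B ^ 2 - 4 * d.α ^ 3)⁻¹ ∈ c.ring ∧ D c = 0 := by
    intro c hc
    have h1 : ∀ f ∈ F₀, f ∈ c.ring := fun f hf => hc f (hF₀ hf)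
    refine ⟨h1 _ (by simp [F₀]), h1 _ (by simp [F₀]), h1 _ (by simp [F₀]), h1 _ (by simp [F₀]),
      h1 _ (by simp [F₀]), ?_⟩
    by_contra hDc
    have h2 : (π c)⁻¹ ∈ c.ring := h1 _ (Finset.mem_union_right _
      (Finset.mem_image_of_mem _ (Finsupp.mem_support_iff.2 hDc)))
    obtain ⟨h3, h4, -⟩ := hπ c
    rcases (c.vanishes_iff_or (π c)).1 h4 with h5 | h5
    · exact h3 h5
    · exact h5 h2
  have hU : ∀ c ∈ {c : Place k L | ∀ f ∈ F, f ∈ c.ring}, (cub d' D).Good c := by
    intro c hc i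
    obtain ⟨h1, h2, h3, h4, h5, h6⟩ := hmem c hc
    show ((d'.α : L) ∈ c.ring ∧ (d'.α : L)⁻¹ ∈ c.ring) ∧
      ((d'.B : L) ∈ c.ring ∧ (d'.B : L)⁻¹ ∈ c.ring) ∧
      ((d'.B : L) ^ 2 - 4 * (d'.α : L) ^ 3)⁻¹ ∈ c.ring ∧ (D + D) c = 0
    rw [eα, eB]
    refine ⟨⟨h1, h2⟩, ⟨h3, h4⟩, h5, ?_⟩
    rw [Finsupp.add_apply, h6, add_zero]
  have hδU : δ ∉ {c : Place k L | ∀ f ∈ F, f ∈ c.ring} := by
    intro hc
    obtain ⟨h1, h2, h3, h4, h5, h6⟩ := hmem δ hc
    refine hδ 1 one_ne_zero ⟨?_, ?_, ?_⟩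
    · rwa [one_pow, one_mul]
    · rwa [one_pow, one_mul]
    · rwa [one_pow, one_mul]
  have hgen : ∀ z : Fin n → (Pt X k →₀ ℚ), (∀ j, z j ∈ OddGen d X) →
      Alt (Ext hX n) (fun j => cl1 X (z j)) = 0 := by
    intro z hz
    choose σ v P hP using fun j => odd_class hX hd' hmap (hz j)
    have e1 : (fun j => cl1 X (z j)) =
        fun j => TV hX hd' ((σ j).comp (regU {c : Place k L | ∀ f ∈ F, f ∈ c.ring}).val) (v j)
          (P j) := funext hP
    rw [e1]
    refine alt_zero_all hX hL hd' F (fun c hc => hc) (d.B ^ 2 / d.α ^ 3) ?_ σ v P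
    intro c hc hJ p
    refine alt_zero_gen hX hL hd' hD hn₀ (by rw [eα]; exact hα0) (by rw [eB]; exact hB0)
      (by rw [eα]; exact hα) (by rw [eB]; exact hB) hg hn hU (δ := δ) (by rw [eα, eB]; exact hδ)
      hδU c hc ?_ p
    rw [eα, eB]
    refine hJ.imp (fun h1 => ?_) id
    obtain ⟨a, ha⟩ := h1
    refine ⟨a, ?_⟩
    rw [← ha, div_mul_cancel₀ _ (pow_ne_zero 3 hα0)]
  rw [← Submodule.Quotient.mk_eq_zero, cl_alt]
  have h1 := fn_span ((Alt (Ext hX n)).compLinearMap fun _ => cl1 X) (OddGen d X)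
    (fun z hz => hgen z hz) Finset.univ z (fun j _ => hz j)
    (fun j hj => absurd (Finset.mem_univ j) hj)
  exact h1

end Pool.Agent.GT
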