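import Pool.Agent.GT.DiffC
import Pool.Agent.GT.Fin
import Pool.Agent.KIso.Inc

/-!
# The theorem without conditions on the coefficients

The coefficients `α` and `B` may be zero, and the cycles are the differences of the images of two
points of a fibre.
-/

set_option autoImplicit false

noncomputable section

namespace Pool.Agent.GT

open Pool.Agent.ZCyc Pool.Agent.Dess Polynomial
open Pool.Agent.VFP (Om tt)
open scoped Classical LinearAlgebra.Projectivization

open Pool.Agent.TInc Pool.Agent.KFam Pool.Agent.TInf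

variable {k L : Type} [Field k] [IsAlgClosed k] [CharZero k] [Field L] [Algebra k L] {m : ℕ}
  {X : Set (MvPolynomial (Fin (m + 1)) k)} {n : ℕ}

omit [IsAlgClosed k] [CharZero k] in
private theorem gzi_scl (D : Place k L →₀ ℤ) : scl (fun _ : Place k L => (1 : kˣ)) D = 1 := by
  unfold scl Finsupp.prod
  refine Finset.prod_eq_one fun q _ => ?_
  simp

omit [IsAlgClosed k] [CharZero k] in
private theorem gzi_deg (D : Place k L →₀ ℤ) : deg (D + D) = 2 * deg D := by
  unfold deg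
  rw [Finsupp.sum_add_index' (fun _ => rfl) (fun _ _ _ => rfl)]
  ring

/-- The alternating sum is zero for points over different places with different `B ² / α ³` (or
`B ² / α ³` constant, or `α = 0`, or `B = 0`). -/
theorem alt_zero_genI {U : Set (Place k L)} (hX : Hom X) (hL : IsCurve k L) {d : GD (regU U) m}
    (hd : d.Ok X) {D : Place k L →₀ ℤ} {n₀ : ℕ} (hD : deg D = n₀) (hn₀ : 0 < n₀)
    (hα : (d.α : L) ≠ 0 → ∀ v, 0 ≤ ord v (d.α : L) + 4 * D v)
    (hB : (d.B : L) ≠ 0 → ∀ v, 0 ≤ ord v (d.B : L) + 6 * D v) {g : ℕ} (hg : Riemann hL g)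
    (hn : n₀ + g ≤ n) (hU : ∀ c ∈ U, (cub d D).Good c) {δ : Place k L}
    (hδ : BadAt δ (d.α : L) (d.B : L)) (hδU : δ ∉ U) (c : Fin n → U) (hc : Function.Injective c)
    (hJ : (d.α : L) = 0 ∨ (∃ a : k, (d.B : L) ^ 2 = algebraMap k L a * (d.α : L) ^ 3) ∨
      ∀ j j', j ≠ j' → val (c j).1 ((d.B : L) ^ 2 / (d.α : L) ^ 3) ≠
        val (c j').1 ((d.B : L) ^ 2 / (d.α : L) ^ 3))
    (p : ∀ j, (Ec (evk hL (c j) d.α) (evk hL (c j) d.B)).Point) :
    Alt (Ext hX n) (fun j => TK hX hd (evk hL (c j)) (p j)) = 0 := by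
  have hOk : (cub d D).OkZ fun _ => 2 * n₀ := by
    refine ⟨fun _ => ?_, fun _ h0 v => ?_, fun _ h0 v => ?_, fun _ => ?_⟩
    · intro h
      have h1 := hd.disc.map (regU U).val
      have h2 : (regU U).val (d.B ^ 2 - 4 * d.α ^ 3) = (d.B : L) ^ 2 - 4 * (d.α : L) ^ 3 := by
        rw [map_sub, map_mul, map_pow, map_pow, map_ofNat]
        rfl
      rw [h2] at h1
      exact h1.ne_zero h
    · have h1 := hα h0 v
      change 0 ≤ ord v (d.α : L) + 2 * (D + D) v
      rw [Finsupp.add_apply]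
      linarith
    · have h1 := hB h0 v
      change 0 ≤ ord v (d.B : L) + 3 * (D + D) v
      rw [Finsupp.add_apply]
      linarith
    · change deg (D + D) = ((2 * n₀ : ℕ) : ℤ)
      rw [gzi_deg, hD]
      push_cast
      rfl
  obtain ⟨Y, hY⟩ := exists_sys hX hL hd D hU {δ} (fun δ' h => by
    rw [Set.mem_singleton_iff.1 h]
    exact hδ) (fun δ' h => by
    rw [Set.mem_singleton_iff.1 h]
    exact hδU) n
  choose p' hp1 hp2 using fun j => exists_uns (disc_ne hd (evk hL (c j))) (p j)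
  let s : Fin n → ((cub d D).base hL U hU fun _ => {δ}).P := fun j => (c j, fun _ => 1)
  have hgen : Iso.GenI ((cub d D).base hL U hU fun _ => {δ}) s := by
    refine Iso.base_genI (cub d D) hL hOk hU _ s fun _ => ?_
    rcases hJ with h1 | h1 | h1
    · exact Or.inl h1
    · exact Or.inr (Or.inr (Or.inl h1))
    · exact Or.inr (Or.inr (Or.inr h1))
  have h0 := Iso.zero_baseI (cub d D) hL hOk hU (fun _ => {δ}) hg (n₀ := n₀)
    (by rw [Finset.sum_const, Finset.card_univ, Fintype.card_fin, one_smul]) hn₀ hn Y s hgen hc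
    (fun _ _ => rfl) (i₀ := 0) (Set.mem_singleton δ) hδU fun _ => p'
  have hon : ((cub d D).base hL U hU fun _ => {δ}).On s fun _ => p' := by
    intro i j
    have ea : ((cub d D).base hL U hU fun _ => {δ}).ea s i j = evk hL (c j) d.α := by
      change scl (fun _ => 1) (D + D) ^ 2 * val (c j).1 (d.α : L) = val (c j).1 (d.α : L)
      rw [gzi_scl, one_pow, one_mul]
    have eb : ((cub d D).base hL U hU fun _ => {δ}).eb s i j = evk hL (c j) d.B := by
      change scl (fun _ => 1) (D + D) ^ 3 * val (c j).1 (d.B : L) = val (c j).1 (d.B : L)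
      rw [gzi_scl, one_pow, one_mul]
    rw [ea, eb]
    exact hp1 j
  rw [hY s _ hon] at h0
  rw [← h0, clF]
  congr 1
  funext j
  have h1 : scl (s j).2 D = 1 := gzi_scl D
  rw [h1]
  exact congrArg (TK hX hd (evk hL (c j))) (hp2 j).symm

/-- A multilinear map which vanishes on generators vanishes on their span. -/
private theorem fni_span {V W : Type} [AddCommGroup V] [Module ℚ V] [AddCommGroup W] [Module ℚ W]
    (E : MultilinearMap ℚ (fun _ : Fin n => V) W) (S : Set V)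
    (h : ∀ z : Fin n → V, (∀ j, z j ∈ S) → E z = 0) (T : Finset (Fin n)) :
    ∀ z : Fin n → V, (∀ j ∈ T, z j ∈ Submodule.span ℚ S) → (∀ j ∉ T, z j ∈ S) → E z = 0 := by
  induction T using Finset.induction_on with
  | empty => exact fun z _ hz => h z fun j => hz j (Finset.notMem_empty j)
  | insert a T ha ih =>
    intro z hz hz'
    have key : ∀ u ∈ Submodule.span ℚ S, E (Function.update z a u) = 0 := by
      intro u hu
      induction hu using Submodule.span_induction with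
      | mem u hu =>
        refine ih _ (fun j hj => ?_) (fun j hj => ?_)
        · have hja : j ≠ a := fun h0 => ha (h0 ▸ hj)
          rw [Function.update_of_ne hja]
          exact hz j (Finset.mem_insert_of_mem hj)
        · by_cases hja : j = a
          · subst hja
            rw [Function.update_self]
            exact hu
          · rw [Function.update_of_ne hja]
            exact hz' j fun h0 => (Finset.mem_insert.1 h0).elim hja hj
      | zero => exact E.map_update_zero _ _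
      | add u w _ _ hu hw => rw [E.map_update_add, hu, hw, add_zero]
      | smul c u _ hu => rw [E.map_update_smul, hu, smul_zero]
    have h1 := key (z a) (hz a (Finset.mem_insert_self a T))
    rwa [Function.update_eq_self] at h1

/-- The theorem in terms of classes: the classes `w j` are in the span of a set `S` of classes which
are values of `TV`, for every way to spread out the family. -/
theorem mainC (hX : Hom X) (hL : IsCurve k L) {d : GD L m} (hd : d.Ok X)
    {D : Place k L →₀ ℤ} {n₀ : ℕ} (hD : deg D = n₀) (hn₀ : 0 < n₀)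
    (hα : d.α ≠ 0 → ∀ v, 0 ≤ ord v d.α + 4 * D v) (hB : d.B ≠ 0 → ∀ v, 0 ≤ ord v d.B + 6 * D v)
    {g : ℕ} (hg : Riemann hL g) (hn : n₀ + g ≤ n) {δ : Place k L} (hδ : BadAt δ d.α d.B)
    (S : Set (CH X Unit))
    (hS : ∀ {U : Set (Place k L)} {d' : GD (regU U) m} (hd' : d'.Ok X),
      d'.map ((regU U).val : regU U →+* L) = d → ∀ w ∈ S,
      ∃ (σ : L →ₐ[k] Om k) (v : Place k (Om k))
        (P : (Ec (σ.comp (regU U).val d'.α) (σ.comp (regU U).val d'.B)).Point),
        w = TV hX hd' (σ.comp (regU U).val) v P)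
    (w : Fin n → CH X Unit) (hw : ∀ j, w j ∈ Submodule.span ℚ S) :
    Alt (Ext hX n) w = 0 := by
  obtain ⟨π, hπ⟩ : ∃ π : Place k L → L, ∀ v, IsUnif v (π v) :=
    ⟨fun v => (exists_unif hL v).choose, fun v => (exists_unif hL v).choose_spec⟩
  let F₀ : Finset L := {d.α, d.α⁻¹, d.B, d.B⁻¹, (d.B ^ 2 - 4 * d.α ^ 3)⁻¹} ∪
    D.support.image fun v => (π v)⁻¹
  obtain ⟨F, hF₀, d', hd', hmap⟩ := spread hd F₀
  have eα : (d'.α : L) = d.α := congrArg GD.α hmap
  have eB : (d'.B : L) = d.B := congrArg GD.B hmap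
  have hmem : ∀ c : Place k L, (∀ f ∈ F, f ∈ c.ring) → d.α ∈ c.ring ∧ d.α⁻¹ ∈ c.ring ∧
      d.B ∈ c.ring ∧ d.B⁻¹ ∈ c.ring ∧ (d.B ^ 2 - 4 * d.α ^ 3)⁻¹ ∈ c.ring ∧ D c = 0 := by
    intro c hc
    have h1 : ∀ f ∈ F₀, f ∈ c.ring := fun f hf => hc f (hF₀ hf)
    refine ⟨h1 _ (by simp [F₀]), h1 _ (by simp [F₀]), h1 _ (by simp [F₀]), h1 _ (by simp [F₀]),
      h1 _ (by simp [F₀]), ?_⟩
    by_contra hDc
    have h2 : (π c)⁻¹ ∈ c.ring := h1 _ (Finset.mem_union_right _
      (Finset.mem_image_of_mem _ (Finsupp.mem_support_iff.2 hDc)))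
    obtain ⟨h3, h4, -⟩ := hπ c
    rcases (c.vanishes_iff_or (π c)).1 h4 with h5 | h5
    · exact h3 h5
    · exact h5 h2
  have hU : ∀ c ∈ {c : Place k L | ∀ f ∈ F, f ∈ c.ring}, (cub d' D).Good c := by
    intro c hc i
    obtain ⟨h1, h2, h3, h4, h5, h6⟩ := hmem c hc
    show ((d'.α : L) ∈ c.ring ∧ (d'.α : L)⁻¹ ∈ c.ring) ∧
      ((d'.B : L) ∈ c.ring ∧ (d'.B : L)⁻¹ ∈ c.ring) ∧
      ((d'.B : L) ^ 2 - 4 * (d'.α : L) ^ 3)⁻¹ ∈ c.ring ∧ (D + D) c = 0
    rw [eα, eB]
    refine ⟨⟨h1, h2⟩, ⟨h3, h4⟩, h5, ?_⟩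
    rw [Finsupp.add_apply, h6, add_zero]
  have hδU : δ ∉ {c : Place k L | ∀ f ∈ F, f ∈ c.ring} := by
    intro hc
    obtain ⟨h1, h2, h3, h4, h5, h6⟩ := hmem δ hc
    refine hδ 1 one_ne_zero ⟨?_, ?_, ?_⟩
    · rwa [one_pow, one_mul]
    · rwa [one_pow, one_mul]
    · rwa [one_pow, one_mul]
  have hgen : ∀ w : Fin n → CH X Unit, (∀ j, w j ∈ S) → Alt (Ext hX n) w = 0 := by
    intro w hw
    choose σ v P hP using fun j => hS hd' hmap (w j) (hw j)
    have e1 : w = fun j => TV hX hd'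
        ((σ j).comp (regU {c : Place k L | ∀ f ∈ F, f ∈ c.ring}).val) (v j) (P j) := funext hP
    rw [e1]
    refine alt_zero_all hX hL hd' F (fun c hc => hc) (d.B ^ 2 / d.α ^ 3) ?_ σ v P
    intro c hc hJ p
    refine alt_zero_genI hX hL hd' hD hn₀ (by rw [eα]; exact hα) (by rw [eB]; exact hB) hg hn hU
      (δ := δ) (by rw [eα, eB]; exact hδ) hδU c hc ?_ p
    rw [eα, eB]
    by_cases hα0 : d.α = 0
    · exact Or.inl hα0
    refine Or.inr (hJ.imp (fun h1 => ?_) id)
    obtain ⟨a, ha⟩ := h1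
    refine ⟨a, ?_⟩
    rw [← ha, div_mul_cancel₀ _ (pow_ne_zero 3 hα0)]
  exact fni_span (Alt (Ext hX n)) S (fun z hz => hgen z hz) Finset.univ w (fun j _ => hw j)
    (fun j hj => absurd (Finset.mem_univ j) hj)

/-- The theorem for the differences of the images of two points of a fibre. -/
theorem mainD (hX : Hom X) (hL : IsCurve k L) {d : GD L m} (hd : d.Ok X)
    {D : Place k L →₀ ℤ} {n₀ : ℕ} (hD : deg D = n₀) (hn₀ : 0 < n₀)
    (hα : d.α ≠ 0 → ∀ v, 0 ≤ ord v d.α + 4 * D v) (hB : d.B ≠ 0 → ∀ v, 0 ≤ ord v d.B + 6 * D v)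
    {g : ℕ} (hg : Riemann hL g) (hn : n₀ + g ≤ n) {δ : Place k L} (hδ : BadAt δ d.α d.B)
    (z : Fin n → (Pt X k →₀ ℚ)) (hz : ∀ j, z j ∈ Submodule.span ℚ (DiffGen d X)) :
    ∑ π : Equiv.Perm (Fin n), ((Equiv.Perm.sign π : ℤˣ) : ℤ) • ext (fun j => z (π j)) ∈
      Rat X (Fin n) := by
  rw [← Submodule.Quotient.mk_eq_zero, cl_alt]
  refine mainC hX hL hd hD hn₀ hα hB hg hn hδ (cl1 X '' DiffGen d X) ?_ (fun j => cl1 X (z j))
    fun j => ?_
  · rintro U d' hd' hmap _ ⟨z, hz, rfl⟩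
    exact diff_class hX hd' hmap hz
  · rw [← Submodule.map_span]
    exact Submodule.mem_map_of_mem (hz j)

end Pool.Agent.GT
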