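import Pool.Agent.GT.IsoD
import Pool.Agent.GT.Spread
import Pool.Agent.GT.FinI
import Pool.Agent.TInc.Riem

/-!
# Constant elliptic curves: the theorem for one map over `Om k`
-/

set_option autoImplicit false

noncomputable section

namespace Pool.Agent.GT

open Pool.Agent.ZCyc Pool.Agent.Dess Polynomial
open Pool.Agent.VFP (Om tt)
open scoped Classical LinearAlgebra.Projectivization

open Pool.Agent.TInc

/-! ### One map as data -/

section Gd1

variable {A : Type} [CommRing A] {m : ℕ}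

/-- one map as data: `h = T` -/
def gd1 (α B : A) (G H : Fin (m + 1) → A[X]) : GD A m :=
  ⟨α, B, Polynomial.X, fun i => (G i).map Polynomial.C, fun i => (H i).map Polynomial.C⟩

theorem gd1_mp (α B : A) (G H : Fin (m + 1) → A[X]) {K : Type} [Field K] (S : A →+* K) (θ : K) :
    (gd1 α B G H).mp S θ = ⟨fun i => (G i).map S, fun i => (H i).map S⟩ := by
  have h1 : (Polynomial.eval₂RingHom S θ).comp Polynomial.C = S := by
    ext a
    simp
  unfold GD.mp gd1
  simp only [Polynomial.map_map, h1]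

theorem gd1_rts (α B : A) (G H : Fin (m + 1) → A[X]) {K : Type} [Field K] (S : A →+* K) :
    (gd1 α B G H).rts S = {0} := by
  unfold GD.rts gd1
  simp

theorem gd1_map {A' : Type} [CommRing A'] (φ : A →+* A') (α B : A) (G H : Fin (m + 1) → A[X]) :
    (gd1 α B G H).map φ = gd1 (φ α) (φ B) (fun i => (G i).map φ) (fun i => (H i).map φ) := by
  have h1 : (Polynomial.mapRingHom φ).comp Polynomial.C = Polynomial.C.comp φ := by
    ext a
    simp
  unfold GD.map gd1
  simp only [Polynomial.map_map, h1, Polynomial.map_X]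

variable {k L : Type} [Field k] [Field L] [Algebra k L] {X : Set (MvPolynomial (Fin (m + 1)) k)}

theorem gd1_ok {Ω : Type} [Field Ω] [Algebra k Ω] [IsAlgClosed Ω] (j : L →ₐ[k] Ω) {α B : L}
    {G H : Fin (m + 1) → L[X]}
    (hM : (⟨fun i => (G i).map (j : L →+* Ω), fun i => (H i).map (j : L →+* Ω)⟩ : Mp Ω m).Ok
      (j α) (j B) X) : (gd1 α B G H).Ok X := by
  refine ⟨Polynomial.monic_X, ⟨0, 1, ?_⟩, ?_, ?_, ?_⟩
  · change (0 : L[X]) * Polynomial.X + 1 * Polynomial.derivative Polynomial.X = 1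
    rw [Polynomial.derivative_X]
    ring
  · rw [isUnit_iff_ne_zero]
    intro h
    apply hM.disc
    have h1 := congrArg j h
    change j (B ^ 2 - 4 * α ^ 3) = j 0 at h1
    rw [map_sub, map_mul, map_pow, map_pow, map_ofNat, map_zero] at h1
    exact sub_eq_zero.1 h1
  · obtain ⟨i, hi⟩ := hM.ne
    have key : ∀ q : L[X], q.map (j : L →+* Ω) ≠ 0 → ∃ n, q.coeff n ≠ 0 := by
      intro q hq
      by_contra hcon
      push Not at hcon
      apply hq
      have : q = 0 := by
        ext n
        rw [hcon, Polynomial.coeff_zero]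
      rw [this, Polynomial.map_zero]
    have h2 : ∃ (n : ℕ) (c : L), c ≠ 0 ∧ (Polynomial.C c : L[X]) ∈
        ({(gd1 α B G H).h} ∪ {c | ∃ i j, c = ((gd1 α B G H).G i).coeff j ∨
          c = ((gd1 α B G H).H i).coeff j} : Set L[X]) := by
      rcases hi with hi | hi
      · obtain ⟨n, hn⟩ := key _ hi
        refine ⟨n, (G i).coeff n, hn, Or.inr ⟨i, n, Or.inl ?_⟩⟩
        change Polynomial.C ((G i).coeff n) = ((G i).map Polynomial.C).coeff n
        rw [Polynomial.coeff_map]
      · obtain ⟨n, hn⟩ := key _ hi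
        refine ⟨n, (H i).coeff n, hn, Or.inr ⟨i, n, Or.inr ?_⟩⟩
        change Polynomial.C ((H i).coeff n) = ((H i).map Polynomial.C).coeff n
        rw [Polynomial.coeff_map]
    obtain ⟨n, c, hc, hmem⟩ := h2
    refine Ideal.eq_top_of_isUnit_mem _ (Ideal.subset_span hmem) ?_
    exact Polynomial.isUnit_C.2 (isUnit_iff_ne_zero.2 hc)
  · intro K _ _ S θ hθ x y hxy f hf
    obtain ⟨a, b, hab⟩ := exists_ab (gd1 α B G H) f
    have hθ0 : θ = 0 := by
      rw [gd1_rts, Finset.mem_singleton] at hθ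
      exact hθ
    subst hθ0
    have hz : a.map (Polynomial.eval₂RingHom (j : L →+* Ω) 0) = 0 ∧
        b.map (Polynomial.eval₂RingHom (j : L →+* Ω) 0) = 0 := by
      refine ab_zero (j α) (j B) _ _ fun x y hxy => ?_
      have h1 := hab Ω j 0 x y hxy
      rw [gd1_mp] at h1
      have h2 := hM.onX f hf x y hxy
      rw [h2] at h1
      exact h1.symm
    have hinj : ∀ c : L[X][X], c.map (Polynomial.eval₂RingHom (j : L →+* Ω) 0) = 0 →
        ev2 (S : L →+* K) 0 x c = 0 := by
      intro c hc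
      have h0 : ∀ {K' : Type} [Field K'] (T : L →+* K'), Polynomial.eval₂RingHom T 0 =
          T.comp (Polynomial.evalRingHom (0 : L)) := by
        intro K' _ T
        refine Polynomial.ringHom_ext ?_ ?_
        · intro a
          simp
        · simp
      rw [h0, ← Polynomial.map_map] at hc
      have h1 : c.map (Polynomial.evalRingHom (0 : L)) = 0 :=
        Polynomial.map_injective _ (j : L →+* Ω).injective (by rw [hc, Polynomial.map_zero])
      unfold ev2
      rw [h0, ← Polynomial.map_map, h1, Polynomial.map_zero, Polynomial.eval_zero]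
    rw [hab K S 0 x y hxy, hinj a hz.1, hinj b hz.2, zero_mul, add_zero]

end Gd1

variable {k : Type} [Field k] [IsAlgClosed k] [CharZero k] {m : ℕ}
  {X : Set (MvPolynomial (Fin (m + 1)) k)}

/-- there is a place where finitely many functions are regular -/
theorem exists_reg {L : Type} [Field L] [Algebra k L] (hL : IsCurve k L) (F : Finset L) :
    ∃ c : Place k L, ∀ f ∈ F, f ∈ c.ring := by
  obtain ⟨t, ht, -⟩ := id hL
  choose c hc using fun a : k => ZCyc.exists_place ht a
  have hinj : Function.Injective c := by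
    intro a a' h
    have h1 := hc a
    rw [h] at h1
    exact h1.unique (hc a')
  have hinf : (Set.range c).Infinite := Set.infinite_range_of_injective hinj
  have hfin : (⋃ f ∈ F, {v : Place k L | ord v f ≠ 0}).Finite :=
    Set.Finite.biUnion F.finite_toSet fun f _ => finite_ord hL f
  obtain ⟨v, -, hv⟩ := hinf.exists_notMem_finite hfin
  refine ⟨v, fun f hf => ?_⟩
  by_cases h0 : f = 0
  · rw [h0]
    exact zero_mem _
  · rw [mem_iff_ord hL h0]
    by_contra hcon
    apply hv
    simp only [Set.mem_iUnion]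
    refine ⟨f, hf, ?_⟩
    intro h
    exact hcon h.ge

/-- transport of the limit homomorphism along equalities -/
theorem hV_cast (hX : Hom X) {α B α' B' : Om k} {M M' : Mp (Om k) m} (hM : M.Ok α B X)
    (hM' : M'.Ok α' B' X) (hα : α = α') (hB : B = B') (h : M = M') (v : Place k (Om k))
    (P : (Ec α B).Point) : hV hX hM v P = hV hX hM' v (castE hα hB P) := by
  subst hα hB h
  rfl

omit [IsAlgClosed k] [CharZero k] in
private theorem isot_lift {K : IntermediateField k (Om k)} (p : (Om k)[X])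
    (h : ↑p.coeffs ⊆ (K : Set (Om k))) : ∃ q : K[X], q.map (K.val : K →+* Om k) = p := by
  have h1 : p ∈ Polynomial.lifts (K.val : K →+* Om k) := by
    rw [Polynomial.lifts_iff_coeff_lifts]
    intro n
    by_cases hn : p.coeff n = 0
    · exact ⟨0, by rw [hn, map_zero]⟩
    · exact ⟨⟨p.coeff n, h (Polynomial.coeff_mem_coeffs hn)⟩, rfl⟩
  exact (Polynomial.mem_lifts _).1 h1

/-- **Constant elliptic curves.** For a map `M` over `Om k` from a constant elliptic curve to the
variety, the alternating products of `n` differences of the limits at two places of the images of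
constant points are zero, for all large `n`. -/
theorem isoT_all (hX : Hom X) {a b : k} {M : Mp (Om k) m}
    (hM : M.Ok (algebraMap k (Om k) a) (algebraMap k (Om k) b) X) :
    ∃ N : ℕ, ∀ n, N ≤ n → ∀ w : Fin n → CH X Unit,
      (∀ j, w j ∈ Submodule.span ℚ {c | ∃ (v v' : Place k (Om k)) (p : (Ec a b).Point),
        c = hV hX hM v (cst p) - hV hX hM v' (cst p)}) → Alt (Ext hX n) w = 0 := by
  let Γ : Finset (Om k) := (Finset.univ.biUnion fun i => (M.G i).coeffs) ∪
    (Finset.univ.biUnion fun i => (M.H i).coeffs)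
  obtain ⟨K, -, hK, hΓ, -, -⟩ := exists_field hX Γ (J := Fin 0) fun j => j.elim0
  have hG : ∀ i, ∃ q : K[X], q.map (K.val : K →+* Om k) = M.G i := fun i =>
    isot_lift _ fun z hz => hΓ (by
      rw [Finset.mem_coe, Finset.mem_union, Finset.mem_biUnion]
      exact Or.inl ⟨i, Finset.mem_univ i, hz⟩)
  have hH : ∀ i, ∃ q : K[X], q.map (K.val : K →+* Om k) = M.H i := fun i =>
    isot_lift _ fun z hz => hΓ (by
      rw [Finset.mem_coe, Finset.mem_union, Finset.mem_biUnion, Finset.mem_biUnion]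
      exact Or.inr ⟨i, Finset.mem_univ i, hz⟩)
  choose G hG using hG
  choose H hH using hH
  have hMG : (⟨fun i => (G i).map (K.val : K →+* Om k), fun i => (H i).map (K.val : K →+* Om k)⟩ :
      Mp (Om k) m) = M := by
    rw [funext hG, funext hH]
  have hd : (gd1 (algebraMap k K a) (algebraMap k K b) G H).Ok X := by
    refine gd1_ok K.val ?_
    rw [hMG]
    exact hM
  obtain ⟨F, -, d', hd', hmap⟩ := spread hd ∅
  have ha : d'.α = algebraMap k _ a := Subtype.ext (congrArg GD.α hmap)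
  have hb : d'.B = algebraMap k _ b := Subtype.ext (congrArg GD.B hmap)
  obtain ⟨g, hg⟩ := exists_genus hK
  obtain ⟨c₀, hc₀⟩ := exists_reg hK F
  have hTS : ∀ (v : Place k (Om k)) (p : (Ec a b).Point),
      TS hX hK hd' ha hb (Sum.inl K.val) v p = hV hX hM v (cst p) := by
    intro v p
    have hS : ((evS hK (Sum.inl K.val) : regU {c : Place k K | ∀ f ∈ F, f ∈ c.ring} →ₐ[k] Om k) :
        regU {c : Place k K | ∀ f ∈ F, f ∈ c.ring} →+* Om k) = (K.val : K →+* Om k).comp
        ((regU {c : Place k K | ∀ f ∈ F, f ∈ c.ring}).val :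
          regU {c : Place k K | ∀ f ∈ F, f ∈ c.ring} →+* K) := rfl
    have hr : d'.rts ((evS hK (Sum.inl K.val) :
        regU {c : Place k K | ∀ f ∈ F, f ∈ c.ring} →ₐ[k] Om k) :
        regU {c : Place k K | ∀ f ∈ F, f ∈ c.ring} →+* Om k) = {0} := by
      rw [hS, ← rts_map, hmap, gd1_rts]
    have hmp : d'.mp ((evS hK (Sum.inl K.val) :
        regU {c : Place k K | ∀ f ∈ F, f ∈ c.ring} →ₐ[k] Om k) :
        regU {c : Place k K | ∀ f ∈ F, f ∈ c.ring} →+* Om k) 0 = M := by
      rw [hS, ← mp_map, hmap, gd1_mp, hMG]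
    have h0 : (0 : Om k) ∈ d'.rts ((evS hK (Sum.inl K.val) :
        regU {c : Place k K | ∀ f ∈ F, f ∈ c.ring} →ₐ[k] Om k) :
        regU {c : Place k K | ∀ f ∈ F, f ∈ c.ring} →+* Om k) := by
      rw [hr]
      exact Finset.mem_singleton_self _
    unfold TS TVc TV
    rw [AddMonoidHom.comp_apply, AddMonoidHom.comp_apply, AddMonoidHom.finsetSum_apply,
      Finset.sum_eq_single ⟨0, h0⟩]
    · exact (hV_cast hX hM (hd'.mp_ok _ h0) _ _ hmp.symm v (cst p)).symm
    · intro θ _ hθ
      exfalso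
      apply hθ
      apply Subtype.ext
      have h1 : θ.1 ∈ ({0} : Finset (Om k)) := hr.le θ.2
      exact Finset.mem_singleton.1 h1
    · intro h
      exact absurd (Finset.mem_univ _) h
  refine ⟨1 + g, fun n hn w hw => ?_⟩
  refine alt_span (Alt (Ext hX n))
    {c | ∃ (v : Place k (Om k)) (p : (Ec a b).Point), c =
      (TS hX hK hd' ha hb (Sum.inl K.val) v - Tc hX hK hd' ha hb ⟨c₀, hc₀⟩) p} ?_ w fun j => ?_
  · intro z hz
    refine alt_iso_all hX hK hd' ha hb hg hn F (fun c hc => hc) ⟨c₀, hc₀⟩ z fun j => ?_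
    obtain ⟨v, p, h⟩ := hz j
    exact ⟨K.val, v, p, h⟩
  · refine Submodule.span_le.2 ?_ (hw j)
    rintro _ ⟨v, v', p, rfl⟩
    have h1 : hV hX hM v (cst p) - hV hX hM v' (cst p) =
        (TS hX hK hd' ha hb (Sum.inl K.val) v - Tc hX hK hd' ha hb ⟨c₀, hc₀⟩) p -
        (TS hX hK hd' ha hb (Sum.inl K.val) v' - Tc hX hK hd' ha hb ⟨c₀, hc₀⟩) p := by
      rw [AddMonoidHom.sub_apply, AddMonoidHom.sub_apply, hTS, hTS, sub_sub_sub_cancel_right]
    rw [h1]
    exact Submodule.sub_mem _ (Submodule.subset_span ⟨v, p, rfl⟩)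
      (Submodule.subset_span ⟨v', p, rfl⟩)

theorem isoT (hX : Hom X) {a b : k} {M : Mp (Om k) m}
    (hM : M.Ok (algebraMap k (Om k) a) (algebraMap k (Om k) b) X) :
    ∃ N : ℕ, 0 < N ∧ ∀ w : Fin N → CH X Unit,
      (∀ j, w j ∈ Submodule.span ℚ {c | ∃ (v v' : Place k (Om k)) (p : (Ec a b).Point),
        c = hV hX hM v (cst p) - hV hX hM v' (cst p)}) → Alt (Ext hX N) w = 0 := by
  obtain ⟨N, h⟩ := isoT_all hX hM
  exact ⟨N + 1, N.succ_pos, h (N + 1) N.le_succ⟩

omit [CharZero k] in
/-- the limit of the image of a point -/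
private theorem isot_lmp (hX : Hom X) {α B : Om k} {M : Mp (Om k) m} (hM : M.Ok α B X)
    {v : Place k (Om k)} {x y : Om k} (hxy : (Ec α B).Nonsingular x y) {Y : Pt X k} {l : Om k}
    (h : ∀ i, v.At (l * M.co x y i) (Y.1.rep i)) :
    M.Ns (.some x y hxy : (Ec α B).Point) ∧
      lmp hX hM v (.some x y hxy) = cl1 X (Finsupp.single Y 1) := by
  have hne : M.co x y ≠ 0 := by
    intro h0
    apply Y.1.rep_nonzero
    funext i
    have h1 := h i
    rw [h0, Pi.zero_apply, mul_zero] at h1
    have h2 := Place.at_const (v := v) (0 : k)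
    rw [map_zero] at h2
    exact Place.At.unique h1 h2
  have hN : M.Ns (.some x y hxy : (Ec α B).Point) := hne
  refine ⟨hN, ?_⟩
  have h5 : pv hX v (phi hX hM (.some x y hxy) hN) = Y :=
    pv_eq ((isVal_iff hne Y.1.rep_nonzero rfl (Projectivization.mk_rep Y.1).symm).2 ⟨l, h⟩)
  have h6 : cyc hX hM (.some x y hxy) =
      Finsupp.single (phi hX hM (.some x y hxy) hN) 1 := dif_pos hN
  change lim1 hX v _ = cl1 X _
  rw [h6]
  change Submodule.Quotient.mk (Finsupp.mapDomain _ (Finsupp.mapDomain _ _)) =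
    Submodule.Quotient.mk (Finsupp.mapDomain _ _)
  rw [Finsupp.mapDomain_single, Finsupp.mapDomain_single, Finsupp.mapDomain_single]
  change Submodule.Quotient.mk (Finsupp.single
    (fun _ : Unit => pv hX v (phi hX hM (.some x y hxy) hN)) 1) = _
  rw [h5]

/-- The cycles `(P - P') - (Q - Q')` for two constant points `(x, y)`, `(x', y')` of the elliptic curve
`y ² = x ³ - 3 a x + b`: `P`, `P'` are the values of their images under the map `M` at a place of
`Om k`, and `Q`, `Q'` are their values at another place. -/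
def CstGen (M : Mp (Om k) m) (a b : k) (X : Set (MvPolynomial (Fin (m + 1)) k)) :
    Set (Pt X k →₀ ℚ) :=
  {z | ∃ (v v' : Place k (Om k)) (x y x' y' : k) (P P' Q Q' : Pt X k),
    y ^ 2 = x ^ 3 - 3 * a * x + b ∧ y' ^ 2 = x' ^ 3 - 3 * a * x' + b ∧
    (∃ l : Om k, ∀ i, v.At (l * M.co (algebraMap k (Om k) x) (algebraMap k (Om k) y) i)
      (P.1.rep i)) ∧
    (∃ l : Om k, ∀ i, v.At (l * M.co (algebraMap k (Om k) x') (algebraMap k (Om k) y') i)
      (P'.1.rep i)) ∧
    (∃ l : Om k, ∀ i, v'.At (l * M.co (algebraMap k (Om k) x) (algebraMap k (Om k) y) i)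
      (Q.1.rep i)) ∧
    (∃ l : Om k, ∀ i, v'.At (l * M.co (algebraMap k (Om k) x') (algebraMap k (Om k) y') i)
      (Q'.1.rep i)) ∧
    z = (Finsupp.single P 1 - Finsupp.single P' 1) - (Finsupp.single Q 1 - Finsupp.single Q' 1)}

private theorem isot_diff (hX : Hom X) {a b : k} {M : Mp (Om k) m}
    (hM : M.Ok (algebraMap k (Om k) a) (algebraMap k (Om k) b) X) {v : Place k (Om k)}
    {x y x' y' : k} (h : (Ec a b).Nonsingular x y) (h' : (Ec a b).Nonsingular x' y')
    {P P' : Pt X k}
    (hP : ∃ l : Om k, ∀ i, v.At (l * M.co (algebraMap k (Om k) x) (algebraMap k (Om k) y) i)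
      (P.1.rep i))
    (hP' : ∃ l : Om k, ∀ i, v.At (l * M.co (algebraMap k (Om k) x') (algebraMap k (Om k) y') i)
      (P'.1.rep i)) :
    cl1 X (Finsupp.single P 1 - Finsupp.single P' 1) =
      hV hX hM v (cst ((.some x y h : (Ec a b).Point) - .some x' y' h')) := by
  obtain ⟨l, hl⟩ := hP
  obtain ⟨l', hl'⟩ := hP'
  obtain ⟨h1, e1⟩ := cst_some x y h
  obtain ⟨h2, e2⟩ := cst_some x' y' h'
  obtain ⟨n1, l1⟩ := isot_lmp hX hM h1 hl
  obtain ⟨n2, l2⟩ := isot_lmp hX hM h2 hl'
  rw [map_sub, map_sub, e1, e2, ← l1, ← l2]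
  have h3 := hV_spec hX hM v (P := (.some (algebraMap k (Om k) x) (algebraMap k (Om k) y) h1 :
    (Ec (algebraMap k (Om k) a) (algebraMap k (Om k) b)).Point) -
    .some (algebraMap k (Om k) x') (algebraMap k (Om k) y') h2) n2 (by rwa [sub_add_cancel])
  rw [sub_add_cancel] at h3
  exact h3

/-- **Constant elliptic curves, cycles.** -/
theorem isoT_cyc (hX : Hom X) {a b : k} {M : Mp (Om k) m}
    (hM : M.Ok (algebraMap k (Om k) a) (algebraMap k (Om k) b) X) :
    ∃ N : ℕ, 0 < N ∧ ∀ z : Fin N → (Pt X k →₀ ℚ),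
      (∀ j, z j ∈ Submodule.span ℚ (CstGen M a b X)) →
      ∑ π : Equiv.Perm (Fin N), ((Equiv.Perm.sign π : ℤˣ) : ℤ) • ext (fun j => z (π j)) ∈
        Rat X (Fin N) := by
  obtain ⟨N, hN, h⟩ := isoT hX hM
  refine ⟨N, hN, fun z hz => ?_⟩
  rw [← Submodule.Quotient.mk_eq_zero, cl_alt]
  refine h _ fun j => ?_
  have h1 : Submodule.span ℚ (CstGen M a b X) ≤ (Submodule.span ℚ
      {c | ∃ (v v' : Place k (Om k)) (p : (Ec a b).Point),
        c = hV hX hM v (cst p) - hV hX hM v' (cst p)}).comap (cl1 X) := by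
    rw [Submodule.span_le]
    rintro _ ⟨v, v', x, y, x', y', P, P', Q, Q', hxy, hxy', hP, hP', hQ, hQ', rfl⟩
    have hab : b ^ 2 ≠ 4 * a ^ 3 := by
      intro h
      apply hM.disc
      have h1 := congrArg (algebraMap k (Om k)) h
      simpa only [map_pow, map_mul, map_ofNat] using h1
    rw [SetLike.mem_coe, Submodule.mem_comap]
    refine Submodule.subset_span ⟨v, v', (.some x y (nonsing hab hxy) : (Ec a b).Point) -
      .some x' y' (nonsing hab hxy'), ?_⟩
    rw [map_sub, isot_diff hX hM (nonsing hab hxy) (nonsing hab hxy') hP hP',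
      isot_diff hX hM (nonsing hab hxy) (nonsing hab hxy') hQ hQ']
  exact h1 (hz j)

end Pool.Agent.GT
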