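import Pool.Agent.GT.RedB

/-!
# Good reduction is a homomorphism
-/

set_option autoImplicit false

noncomputable section

namespace Pool.Agent.GT

open Pool.Agent.ZCyc Pool.Agent.Dess Polynomial
open Pool.Agent.VFP (Om tt)
open scoped Classical LinearAlgebra.Projectivization

variable {k : Type} [Field k] {m : ℕ}

variable [IsAlgClosed k] [CharZero k] {v : Place k (Om k)} {α B : Om k} {a b : k}

/-- two finite points whose values have different `x`-coordinates -/
private theorem rc_chord {P Q : (Ec α B).Point} {p q : (Ec a b).Point} (hP : PRed v P p)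
    (hQ : PRed v Q q) (hp : p ≠ 0) (hq : q ≠ 0) (h1 : p ≠ q) (h2 : p ≠ -q) :
    PRed v (P + Q) (p + q) := by
  cases p with
  | zero => exact absurd rfl hp
  | some x₁' y₁' h₁' =>
  cases q with
  | zero => exact absurd rfl hq
  | some x₂' y₂' h₂' =>
  cases P with
  | zero => exact hP.elim
  | some x₁ y₁ h₁ =>
  cases Q with
  | zero => exact hQ.elim
  | some x₂ y₂ h₂ =>
  have hx : x₁' ≠ x₂' := fun h => (WeierstrassCurve.Affine.Point.X_eq_iff.1 h).elim h1 h2
  obtain ⟨x₃, y₃, h₃, he, hx₃, hy₃⟩ := add_chord (h₁ := h₁) (h₂ := h₂) hP.1 hP.2 hQ.1 hQ.2 hx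
  rw [he, WeierstrassCurve.Affine.Point.add_of_X_ne hx]
  refine ⟨?_, ?_⟩
  · have : (Ec a b).addX x₁' x₂' ((Ec a b).slope x₁' x₂' y₁' y₂') =
        ((y₁' - y₂') / (x₁' - x₂')) ^ 2 - x₁' - x₂' := by
      rw [WeierstrassCurve.Affine.slope_of_X_ne hx, WeierstrassCurve.Affine.addX]
      simp only
      ring
    rw [this]
    exact hx₃
  · have : (Ec a b).addY x₁' x₂' y₁' ((Ec a b).slope x₁' x₂' y₁' y₂') =
        -(y₁' + (y₁' - y₂') / (x₁' - x₂') *
        ((((y₁' - y₂') / (x₁' - x₂')) ^ 2 - x₁' - x₂') - x₁')) := by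
      rw [WeierstrassCurve.Affine.slope_of_X_ne hx, WeierstrassCurve.Affine.addY,
        WeierstrassCurve.Affine.negY, WeierstrassCurve.Affine.negAddY,
        WeierstrassCurve.Affine.addX]
      simp only
      ring
    rw [this]
    exact hy₃

/-- one point tends to zero, the other one does not -/
private theorem rc_inf (hα : v.At α a) (hB : v.At B b) {P Q : (Ec α B).Point}
    {q : (Ec a b).Point} (hP : PRed v P (0 : (Ec a b).Point)) (hQ : PRed v Q q) (hq : q ≠ 0) :
    PRed v (P + Q) q := by
  cases q with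
  | zero => exact absurd rfl hq
  | some x₂' y₂' h₂' =>
  cases Q with
  | zero => exact hQ.elim
  | some x₂ y₂ h₂ =>
  cases P with
  | zero =>
    rw [← WeierstrassCurve.Affine.Point.zero_def, zero_add]
    exact hQ
  | some x₁ y₁ h₁ =>
    have hP' : x₁ ∉ v.ring := hP
    have hne : x₁ ≠ x₂ := fun h => hP' (h ▸ hQ.1.mem)
    rw [WeierstrassCurve.Affine.Point.add_of_X_ne hne]
    exact add_infinite (hP := h₁) (hQ := h₂) hα hB hP' hQ.1 hQ.2
      (WeierstrassCurve.Affine.Point.add_of_X_ne hne)

/-- one point tends to zero -/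
private theorem rc_zero (hα : v.At α a) (hB : v.At B b) (hd : b ^ 2 ≠ 4 * a ^ 3)
    {P Q : (Ec α B).Point} {q : (Ec a b).Point} (hP : PRed v P (0 : (Ec a b).Point))
    (hQ : PRed v Q q) : PRed v (P + Q) q := by
  by_cases hq : q = 0
  · subst hq
    obtain ⟨r, hr⟩ := exists_pred hα hB hd (P + Q)
    by_cases h : r = 0
    · rwa [h] at hr
    · have h0 : PRed v (-P) (0 : (Ec a b).Point) := by
        have := pred_neg hP
        rwa [neg_zero] at this
      have h1 := rc_inf hα hB h0 hr h
      rw [neg_add_cancel_left] at h1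
      exact absurd (pred_unique h1 hQ) h
  · exact rc_inf hα hB hP hQ hq

/-- Good reduction is a homomorphism. Cases (`P → p`, `Q → q`): (1) `p = 0`, `q ≠ 0` or vice versa:
`add_infinite` (`P + Q ≠ 0` because `q ≠ -p`; the `x`-coordinates are different). (2) `p = q = 0`: if
`P + Q` tends to a finite point then by (1) for `P + Q` and `-P` the point `Q` does, contradiction.
(3) `p`, `q` finite with different `x`: `add_chord`. (4) `p`, `q` finite: take a general point `t`
and a point `T` over it, then `(P + T) + Q` tends to `(p + t) + q` by (3) and `(P + Q) + T` tends to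
`r + t` by (1) or (3), if `P + Q` tends to `r`. -/
theorem pred_add (hα : v.At α a) (hB : v.At B b) (hd : b ^ 2 ≠ 4 * a ^ 3)
    {P Q : (Ec α B).Point} {p q : (Ec a b).Point} (hP : PRed v P p) (hQ : PRed v Q q) :
    PRed v (P + Q) (p + q) := by
  by_cases hp : p = 0
  · subst hp
    rw [zero_add]
    exact rc_zero hα hB hd hP hQ
  by_cases hq : q = 0
  · subst hq
    rw [add_zero, add_comm]
    exact rc_zero hα hB hd hQ hP
  obtain ⟨r, hr⟩ := exists_pred hα hB hd (P + Q)
  have := infinite_points hd
  obtain ⟨t, ht⟩ := Infinite.exists_notMem_finset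
    ({0, p, -p, q - p, -q - p, r, -r} : Finset (Ec a b).Point)
  simp only [Finset.mem_insert, Finset.mem_singleton, not_or] at ht
  obtain ⟨t0, t1, t2, t3, t4, t5, t6⟩ := ht
  obtain ⟨T, hT⟩ := exists_lift hα hB hd t
  have h1 : PRed v (P + T) (p + t) := rc_chord hP hT hp t0 (fun h => t1 h.symm) (fun h => t2 (by
    rw [h, neg_neg]))
  have h2 : PRed v (P + T + Q) (p + t + q) := rc_chord h1 hQ
    (fun h => t2 (eq_neg_of_add_eq_zero_right h)) hq
    (fun h => t3 (by rw [← h]; abel)) (fun h => t4 (by rw [← h]; abel))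
  have h3 : PRed v (P + Q + T) (r + t) := by
    by_cases h : r = 0
    · subst h
      rw [zero_add]
      exact rc_zero hα hB hd hr hT
    · exact rc_chord hr hT h t0 (fun h => t5 h.symm) (fun h => t6 (by rw [h, neg_neg]))
  rw [add_right_comm] at h2
  have h4 := pred_unique h3 h2
  have h5 : r = p + q := by
    have h6 : r + t = p + q + t := by
      rw [h4]
      abel
    exact add_right_cancel h6
  rwa [h5] at hr

end Pool.Agent.GT
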