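import Pool.Agent.GT.Curve

/-!
# Automorphisms of elliptic curves and homomorphisms to rational vector spaces
-/

set_option autoImplicit false

noncomputable section

namespace Pool.Agent.GT

open Pool.Agent.ZCyc Pool.Agent.Dess Polynomial
open Pool.Agent.VFP (Om tt)
open scoped Classical LinearAlgebra.Projectivization

variable {k : Type} [Field k] [IsAlgClosed k] [CharZero k] {a b : k} {W : Type} [AddCommGroup W]
  [Module ℚ W]

omit [IsAlgClosed k] [CharZero k] in
private theorem au_congr {x y x' y' : k} (h : (Ec a b).Nonsingular x y)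
    (h' : (Ec a b).Nonsingular x' y') (hx : x = x') (hy : y = y') :
    (WeierstrassCurve.Affine.Point.some x y h : (Ec a b).Point) = .some x' y' h' := by
  subst hx hy
  rfl

omit [IsAlgClosed k] [CharZero k] in
private theorem au_negY (x y : k) : (Ec a b).negY x y = -y := by
  simp [WeierstrassCurve.Affine.negY]

omit [IsAlgClosed k] [CharZero k] in
/-- points on a horizontal line -/
private theorem au_hor {x₁ x₂ y : k} (h₁ : (Ec a b).Nonsingular x₁ y)
    (h₂ : (Ec a b).Nonsingular x₂ y) (h₃ : (Ec a b).Nonsingular (-x₁ - x₂) y)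
    (hne : ¬ (x₁ = x₂ ∧ y = (Ec a b).negY x₂ y)) (hs : (Ec a b).slope x₁ x₂ y y = 0) :
    (WeierstrassCurve.Affine.Point.some x₁ y h₁ : (Ec a b).Point) + .some x₂ y h₂ +
      .some (-x₁ - x₂) y h₃ = 0 := by
  rw [WeierstrassCurve.Affine.Point.add_some hne, ← eq_neg_iff_add_eq_zero,
    WeierstrassCurve.Affine.Point.neg_some]
  refine au_congr _ _ ?_ ?_
  · rw [hs]
    simp [WeierstrassCurve.Affine.addX]
  · rw [hs]
    simp [WeierstrassCurve.Affine.addY, WeierstrassCurve.Affine.negAddY,
      WeierstrassCurve.Affine.negY]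

omit [IsAlgClosed k] [Module ℚ W] in
private theorem au_iter (hd : b ^ 2 ≠ 4 * a ^ 3) {ζ : k}
    (ha : ζ ^ 4 * a = a) (hb : ζ ^ 6 * b = b) (T : (Ec a b).Point →+ W)
    (hT : ∀ (x y : k) (h : (Ec a b).Nonsingular x y)
      (h' : (Ec a b).Nonsingular (ζ ^ 2 * x) (ζ ^ 3 * y)),
      T (.some (ζ ^ 2 * x) (ζ ^ 3 * y) h') = T (.some x y h)) (j : ℕ) :
    ∀ (x y : k) (h : (Ec a b).Nonsingular x y)
      (h' : (Ec a b).Nonsingular ((ζ ^ j) ^ 2 * x) ((ζ ^ j) ^ 3 * y)),
      T (.some ((ζ ^ j) ^ 2 * x) ((ζ ^ j) ^ 3 * y) h') = T (.some x y h) := by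
  induction j with
  | zero =>
    intro x y h h'
    congr 1
    exact au_congr _ _ (by ring) (by ring)
  | succ j ih =>
    intro x y h h'
    have e0 := eqn_iff.1 h.1
    have h1 : (Ec a b).Nonsingular (ζ ^ 2 * x) (ζ ^ 3 * y) := by
      refine nonsing hd ?_
      linear_combination ζ ^ 6 * e0 - 3 * ζ ^ 2 * x * ha + hb
    have h2 : (Ec a b).Nonsingular ((ζ ^ j) ^ 2 * (ζ ^ 2 * x)) ((ζ ^ j) ^ 3 * (ζ ^ 3 * y)) := by
      have e1 : (ζ ^ (j + 1)) ^ 2 * x = (ζ ^ j) ^ 2 * (ζ ^ 2 * x) := by ring
      have e2 : (ζ ^ (j + 1)) ^ 3 * y = (ζ ^ j) ^ 3 * (ζ ^ 3 * y) := by ring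
      rwa [e1, e2] at h'
    rw [← hT x y h h1, ← ih _ _ h1 h2]
    congr 1
    exact au_congr _ _ (by ring) (by ring)

/-- A homomorphism to a rational vector space which is invariant under the automorphism
`(x, y) ↦ (ζ ² x, ζ ³ y)`, `ζ ≠ 1`, `ζ ^ 12 = 1`, is zero. Proof: if a power `ζ ^ j` is `-1`
then `T (-p) = T p`, so `T p = 0`. Otherwise the order of `ζ` is odd, so `ζ ³ = 1`, and
`a = ζ ⁴ a = ζ a` gives `a = 0`; the points `(x, y)`, `(ζ ² x, y)`, `(ζ x, y)` with `x ≠ 0` are on the
line with constant `y`, so their sum is zero, and `3 T p = 0`; the points with `x = 0` are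
differences of such points (or: `3 p = 0` for them). -/
theorem aut_zero (hd : b ^ 2 ≠ 4 * a ^ 3) {ζ : k} (h1 : ζ ≠ 1) (h12 : ζ ^ 12 = 1)
    (ha : ζ ^ 4 * a = a) (hb : ζ ^ 6 * b = b) (T : (Ec a b).Point →+ W)
    (hT : ∀ (x y : k) (h : (Ec a b).Nonsingular x y)
      (h' : (Ec a b).Nonsingular (ζ ^ 2 * x) (ζ ^ 3 * y)),
      T (.some (ζ ^ 2 * x) (ζ ^ 3 * y) h') = T (.some x y h)) (p : (Ec a b).Point) : T p = 0 := by
  have hit := au_iter hd ha hb T hT
  have hneg : ∀ j, ζ ^ j = -1 → T p = 0 := by
    intro j hj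
    rcases p with _ | ⟨x, y, h⟩
    · exact map_zero T
    · have e0 := eqn_iff.1 h.1
      have h2 : (Ec a b).Nonsingular ((ζ ^ j) ^ 2 * x) ((ζ ^ j) ^ 3 * y) := by
        rw [hj]
        refine nonsing hd ?_
        linear_combination e0
      have h3 := hit j x y h h2
      have h4 : (WeierstrassCurve.Affine.Point.some ((ζ ^ j) ^ 2 * x) ((ζ ^ j) ^ 3 * y) h2 :
          (Ec a b).Point) = -.some x y h := by
        rw [WeierstrassCurve.Affine.Point.neg_some]
        refine au_congr _ _ ?_ ?_
        · rw [hj]; ring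
        · rw [hj, au_negY]; ring
      rw [h4, map_neg] at h3
      have h5 : (2 : ℚ) • T (.some x y h) = 0 := by
        rw [two_smul]
        nth_rewrite 1 [← h3]
        exact neg_add_cancel _
      exact (smul_eq_zero.1 h5).resolve_left two_ne_zero
  have h6 : (ζ ^ 6) ^ 2 = 1 := by rw [← pow_mul]; exact h12
  rcases mul_self_eq_one_iff.1 (by rw [← sq]; exact h6 : ζ ^ 6 * ζ ^ 6 = 1) with h7 | h7
  · have h8 : (ζ ^ 3) ^ 2 = 1 := by rw [← pow_mul]; exact h7
    rcases mul_self_eq_one_iff.1 (by rw [← sq]; exact h8 : ζ ^ 3 * ζ ^ 3 = 1) with h9 | h9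
    · -- order three
      have ha0 : a = 0 := by
        have e1 : (ζ - 1) * a = 0 := by
          linear_combination ha - ζ * a * h9
        exact (mul_eq_zero.1 e1).resolve_left (sub_ne_zero.2 h1)
      have hz : 1 + ζ + ζ ^ 2 = 0 := by
        have e1 : (ζ - 1) * (1 + ζ + ζ ^ 2) = 0 := by linear_combination h9
        exact (mul_eq_zero.1 e1).resolve_left (sub_ne_zero.2 h1)
      have hζ0 : ζ ≠ 0 := by
        rintro rfl
        simp at h9
      have hb0 : b ≠ 0 := by
        rintro rfl
        apply hd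
        rw [ha0]
        ring
      rcases p with _ | ⟨x, y, h⟩
      · exact map_zero T
      · have e0 := eqn_iff.1 h.1
        rw [ha0] at e0
        have n1 : (Ec a b).Nonsingular ((ζ ^ 1) ^ 2 * x) ((ζ ^ 1) ^ 3 * y) := by
          refine nonsing hd ?_
          rw [ha0]
          linear_combination e0 + (y ^ 2 - x ^ 3) * (ζ ^ 3 + 1) * h9
        have n2 : (Ec a b).Nonsingular ((ζ ^ 2) ^ 2 * x) ((ζ ^ 2) ^ 3 * y) := by
          refine nonsing hd ?_
          rw [ha0]
          linear_combination e0 + (y ^ 2 - x ^ 3) * (ζ ^ 9 + ζ ^ 6 + ζ ^ 3 + 1) * h9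
        have n1' : (Ec a b).Nonsingular (ζ ^ 2 * x) y := by
          have e1 : (ζ ^ 1) ^ 2 * x = ζ ^ 2 * x := by ring
          have e2 : (ζ ^ 1) ^ 3 * y = y := by rw [pow_one, h9, one_mul]
          rwa [e1, e2] at n1
        have n2' : (Ec a b).Nonsingular (-x - ζ ^ 2 * x) y := by
          have e1 : (ζ ^ 2) ^ 2 * x = -x - ζ ^ 2 * x := by
            linear_combination ζ * x * h9 + x * hz
          have e2 : (ζ ^ 2) ^ 3 * y = y := by
            linear_combination (ζ ^ 3 + 1) * y * h9
          rwa [e1, e2] at n2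
        have hT1 : T (.some (ζ ^ 2 * x) y n1') = T (.some x y h) := by
          rw [← hit 1 x y h n1]
          congr 1
          exact au_congr _ _ (by ring) (by rw [pow_one, h9, one_mul])
        have hT2 : T (.some (-x - ζ ^ 2 * x) y n2') = T (.some x y h) := by
          rw [← hit 2 x y h n2]
          congr 1
          refine au_congr _ _ ?_ ?_
          · linear_combination -(ζ * x * h9) - x * hz
          · linear_combination -((ζ ^ 3 + 1) * y * h9)
        have hζ2 : ζ ^ 2 ≠ 1 := by
          intro h10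
          apply h1
          have : ζ ^ 3 = ζ := by rw [pow_succ, h10, one_mul]
          rw [← this, h9]
        have hsum := au_hor h n1' n2' (by
          rintro ⟨h10, h11⟩
          rw [au_negY] at h11
          have hx0 : x = 0 := by
            have e1 : (ζ ^ 2 - 1) * x = 0 := by linear_combination -h10
            exact (mul_eq_zero.1 e1).resolve_left (sub_ne_zero.2 hζ2)
          have hy0 : y = 0 := by
            have e2 : (2 : k) * y = 0 := by linear_combination h11
            exact (mul_eq_zero.1 e2).resolve_left two_ne_zero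
          rw [hx0, hy0] at e0
          apply hb0
          linear_combination -e0) (by
          by_cases hx : x = ζ ^ 2 * x
          · have hx0 : x = 0 := by
              have e1 : (ζ ^ 2 - 1) * x = 0 := by linear_combination -hx
              exact (mul_eq_zero.1 e1).resolve_left (sub_ne_zero.2 hζ2)
            have hy : y ≠ (Ec a b).negY (ζ ^ 2 * x) y := by
              rw [au_negY]
              intro h11
              have hy0 : y = 0 := by
                have e2 : (2 : k) * y = 0 := by linear_combination h11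
                exact (mul_eq_zero.1 e2).resolve_left two_ne_zero
              rw [hx0, hy0] at e0
              apply hb0
              linear_combination -e0
            rw [WeierstrassCurve.Affine.slope_of_Y_ne hx hy]
            simp [hx0, ha0]
          · rw [WeierstrassCurve.Affine.slope_of_X_ne hx, sub_self, zero_div])
        have h10 := congrArg T hsum
        rw [map_add, map_add, map_zero, hT1, hT2] at h10
        have h11 : (3 : ℚ) • T (.some x y h) = 0 := by
          have e3 : (3 : ℚ) = 1 + 1 + 1 := by norm_num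
          rw [e3, add_smul, add_smul, one_smul]
          exact h10
        exact (smul_eq_zero.1 h11).resolve_left three_ne_zero
    · exact hneg 3 h9
  · exact hneg 6 h7

end Pool.Agent.GT
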