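import Pool.Agent.GT.NodC

/-!
# Pigeonhole for points near the node
-/

set_option autoImplicit false

noncomputable section

namespace Pool.Agent.GT

open Pool.Agent.ZCyc Pool.Agent.Dess Polynomial
open Pool.Agent.VFP (Om tt)
open scoped Classical LinearAlgebra.Projectivization

variable {k : Type} [Field k] [IsAlgClosed k] [CharZero k] {v : Place k (Om k)} {α B : Om k}
  {e : k}

/-- Among infinitely many points over a function field two are in the same class. `K` is a function
field in `Om k` which contains `α`, `B`, `d` and the coordinates of the points. Proof: let `c` be the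
place of `K` below `v` (`exists_below`), `π` a uniformizer at `c`. For `f ≠ 0` in `K` the
valuation of `f` at `v` is the valuation of `π ^ ord_c f` (`ord_unit`). `ord_c ε = n > 0`. The class of
a point is determined by `ord_c (x - d)`, a number between `1` and `n`, and the value of
`y / (x - d)`, which is one of the two roots of `ω ² = 3 e`, or it is the second case. So there are
at most `2 n + 1` classes. -/
theorem exists_same {d : Om k} (hd : d ^ 2 = α) (hde : v.At d e) (he : e ≠ 0)
    (hB : v.At B (2 * e ^ 3)) (hε : B - 2 * d ^ 3 ≠ 0) (K : IntermediateField k (Om k))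
    (hK : IsCurve k K) (hdK : d ∈ K) (hBK : B ∈ K) (x y : ℕ → Om k) (hxK : ∀ n, x n ∈ K)
    (hyK : ∀ n, y n ∈ K) (hxy : ∀ n, y n ^ 2 = x n ^ 3 - 3 * α * x n + B)
    (hx : ∀ n, v.At (x n) e) :
    ∃ i j, i < j ∧ SameCl v d (B - 2 * d ^ 3) (x j) (y j) (x i) (y i) := by
  obtain ⟨c, hc⟩ := TInc.exists_below hK v K.val
  have hcv : ∀ f : K, f ∈ c.ring ↔ (f : Om k) ∈ v.ring := by
    intro f
    rw [← hc, ValuationSubring.mem_comap]
    rfl
  obtain ⟨π, hπ⟩ := exists_unif hK c
  have hπ0 : (π : Om k) ≠ 0 := fun h => hπ.1 (Subtype.ext h)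
  have hπ1 : v.ring.valuation (π : Om k) < 1 := by
    rw [← Place.vanishes_iff, Place.vanishes_iff_or]
    right
    intro h
    rcases (c.vanishes_iff_or π).1 hπ.2.1 with h1 | h1
    · exact hπ.1 h1
    · exact h1 ((hcv π⁻¹).2 h)
  have hval : ∀ f : K, f ≠ 0 →
      v.ring.valuation (f : Om k) = v.ring.valuation (π : Om k) ^ TInc.ord c f := by
    intro f hf
    obtain ⟨h1, h2⟩ := TInc.ord_unit hK hπ hf
    have h3 : v.ring.valuation ((f / π ^ TInc.ord c f : K) : Om k) = 1 := by
      apply le_antisymm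
      · exact (v.ring.valuation_le_one_iff _).2 ((hcv _).1 h1)
      · have h4 := (v.ring.valuation_le_one_iff _).2 ((hcv _).1 h2)
        have h5 : (((f / π ^ TInc.ord c f)⁻¹ : K) : Om k) =
            ((f / π ^ TInc.ord c f : K) : Om k)⁻¹ := rfl
        rw [h5, map_inv₀] at h4
        have h6 : v.ring.valuation ((f / π ^ TInc.ord c f : K) : Om k) ≠ 0 := by
          rw [Valuation.ne_zero_iff]
          intro h7
          have h8 : f / π ^ TInc.ord c f = 0 := Subtype.ext h7
          exact (div_ne_zero hf (zpow_ne_zero _ hπ.1)) h8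
        exact (inv_le_one₀ (zero_lt_iff.2 h6)).1 h4
    have h9 : (f : Om k) = ((f / π ^ TInc.ord c f : K) : Om k) * (π : Om k) ^ TInc.ord c f := by
      have h10 : ((f / π ^ TInc.ord c f : K) : Om k) = (f : Om k) / (π : Om k) ^ TInc.ord c f := by
        push_cast
        rfl
      rw [h10, div_mul_cancel₀ _ (zpow_ne_zero _ hπ0)]
    rw [h9, map_mul, h3, one_mul, map_zpow₀]
  -- the elements
  let ε : K := ⟨B, hBK⟩ - 2 * ⟨d, hdK⟩ ^ 3
  let ξ : ℕ → K := fun n => ⟨x n, hxK n⟩ - ⟨d, hdK⟩
  have hεc : (ε : Om k) = B - 2 * d ^ 3 := rfl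
  have hξc : ∀ n, (ξ n : Om k) = x n - d := fun n => rfl
  have hε0 : ε ≠ 0 := fun h => hε (congrArg Subtype.val h)
  have hπpos : 0 < v.ring.valuation (π : Om k) := zero_lt_iff.2 ((Valuation.ne_zero_iff _).2 hπ0)
  have h2k : v.At (2 : Om k) 2 := by
    have := Place.at_const (v := v) (2 : k)
    rwa [map_ofNat] at this
  have h3k : v.At (3 : Om k) 3 := by
    have := Place.at_const (v := v) (3 : k)
    rwa [map_ofNat] at this
  have hξv : ∀ n, v.Vanishes (x n - d) := fun n => by
    have := (hx n).sub hde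
    rw [sub_self] at this
    exact Place.at_zero_iff.1 this
  let A : ℕ → Prop := fun n =>
    v.ring.valuation (B - 2 * d ^ 3) < v.ring.valuation ((x n - d) ^ 2)
  have hA0 : ∀ n, A n → x n - d ≠ 0 := by
    intro n hn h
    have hn' : v.ring.valuation (B - 2 * d ^ 3) < v.ring.valuation ((x n - d) ^ 2) := hn
    rw [h] at hn'
    simp at hn'
  have hex : ∀ n, ∃ c : k, A n → v.At (y n / (x n - d)) c ∧ c ^ 2 = 3 * e := by
    intro n
    by_cases hn : A n
    · have h0 := hA0 n hn
      have h1 : (y n / (x n - d)) ^ 2 = (x n - d) + 3 * d + (B - 2 * d ^ 3) / (x n - d) ^ 2 := by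
        rw [div_pow, hxy n, ← hd]
        field_simp
        ring
      have h2 : v.Vanishes ((B - 2 * d ^ 3) / (x n - d) ^ 2) := by
        rw [Place.vanishes_iff, map_div₀]
        exact (div_lt_one₀ (zero_lt_iff.2
          ((Valuation.ne_zero_iff _).2 (pow_ne_zero 2 h0)))).2 hn
      have h3 : v.At ((y n / (x n - d)) ^ 2) (3 * e) := by
        rw [h1]
        have h4 := ((Place.at_zero_iff.2 (hξv n)).add (h3k.mul hde)).add (Place.at_zero_iff.2 h2)
        rw [zero_add, add_zero] at h4
        exact h4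
      have h5 : y n / (x n - d) ∈ v.ring := by
        rw [← v.ring.valuation_le_one_iff]
        have h6 := (v.ring.valuation_le_one_iff _).2 h3.mem
        rw [map_pow] at h6
        exact (pow_le_one_iff_of_nonneg zero_le two_ne_zero).1 h6
      obtain ⟨c, hc⟩ := DCI57.exists_at v h5
      exact ⟨c, fun _ => ⟨hc, (hc.pow 2).unique h3⟩⟩
    · exact ⟨0, fun h => absurd h hn⟩
  choose C hC using hex
  let g : ℕ → Option (ℤ × k) := fun n => if A n then some (TInc.ord c (ξ n), C n) else none
  obtain ⟨ω, hω⟩ := IsAlgClosed.exists_pow_nat_eq (3 * e) (n := 2) (by norm_num)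
  let T : Set (Option (ℤ × k)) :=
    insert none (some '' (Set.Icc 0 (TInc.ord c ε) ×ˢ ({ω, -ω} : Set k)))
  have hT : T.Finite := ((((Set.finite_Icc _ _).prod (by simp)).image _).insert _)
  have hg : Set.MapsTo g Set.univ T := by
    intro n _
    by_cases hn : A n
    · have h0 : ξ n ≠ 0 := fun h => hA0 n hn (congrArg Subtype.val h)
      have h1 : v.ring.valuation (x n - d) = v.ring.valuation (π : Om k) ^ TInc.ord c (ξ n) :=
        hval (ξ n) h0
      have h2 : v.ring.valuation (B - 2 * d ^ 3) =
          v.ring.valuation (π : Om k) ^ TInc.ord c ε := hval ε hε0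
      have h3 : 0 < TInc.ord c (ξ n) := by
        have h4 := (v.vanishes_iff _).1 (hξv n)
        rw [h1, ← zpow_zero (v.ring.valuation (π : Om k))] at h4
        exact (zpow_lt_zpow_iff_right_of_lt_one₀ hπpos hπ1).1 h4
      have h4 : 2 * TInc.ord c (ξ n) < TInc.ord c ε := by
        have h5 : v.ring.valuation (B - 2 * d ^ 3) < v.ring.valuation ((x n - d) ^ 2) := hn
        rw [map_pow, h1, h2, ← zpow_natCast, ← zpow_mul, mul_comm] at h5
        exact (zpow_lt_zpow_iff_right_of_lt_one₀ hπpos hπ1).1 h5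
      have h5 : g n = some (TInc.ord c (ξ n), C n) := if_pos hn
      rw [h5]
      refine Set.mem_insert_of_mem _ (Set.mem_image_of_mem _ (Set.mk_mem_prod ⟨h3.le, ?_⟩ ?_))
      · omega
      · have h6 : C n ^ 2 = ω ^ 2 := by rw [(hC n hn).2, hω]
        rcases sq_eq_sq_iff_eq_or_eq_neg.1 h6 with h7 | h7
        · exact Or.inl h7
        · exact Or.inr h7
    · have h5 : g n = none := if_neg hn
      rw [h5]
      exact Set.mem_insert _ _
  obtain ⟨i, -, j, -, hij, hgij⟩ := Set.infinite_univ.exists_lt_map_eq_of_mapsTo hg hT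
  refine ⟨i, j, hij, ?_⟩
  by_cases hi : A i
  · by_cases hj : A j
    · left
      have h5 : g i = some (TInc.ord c (ξ i), C i) := if_pos hi
      have h6 : g j = some (TInc.ord c (ξ j), C j) := if_pos hj
      rw [h5, h6, Option.some.injEq, Prod.mk.injEq] at hgij
      have h0i : ξ i ≠ 0 := fun h => hA0 i hi (congrArg Subtype.val h)
      have h0j : ξ j ≠ 0 := fun h => hA0 j hj (congrArg Subtype.val h)
      refine ⟨hj, ?_, C j, (hC j hj).1, hgij.2 ▸ (hC i hi).1⟩
      rw [← hξc, ← hξc, hval _ h0i, hval _ h0j, hgij.1]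
    · exfalso
      have h5 : g i = some (TInc.ord c (ξ i), C i) := if_pos hi
      have h6 : g j = none := if_neg hj
      rw [h5, h6] at hgij
      exact Option.some_ne_none _ hgij
  · by_cases hj : A j
    · exfalso
      have h5 : g i = none := if_neg hi
      have h6 : g j = some (TInc.ord c (ξ j), C j) := if_pos hj
      rw [h5, h6] at hgij
      exact Option.some_ne_none _ hgij.symm
    · right
      exact ⟨not_lt.1 hj, not_lt.1 hi⟩

end Pool.Agent.GT
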