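import Pool.Agent.GT.NodB
import Pool.Agent.GT.NodC2

/-!
# Multiplicative reduction: the limit homomorphism is zero
-/

set_option autoImplicit false

noncomputable section

namespace Pool.Agent.GT

open Pool.Agent.ZCyc Pool.Agent.Dess Polynomial
open Pool.Agent.VFP (Om tt)
open scoped Classical LinearAlgebra.Projectivization

variable {k : Type} [Field k] [IsAlgClosed k] [CharZero k] {m : ℕ}
  {X : Set (MvPolynomial (Fin (m + 1)) k)} {α B : Om k} {M : Mp (Om k) m} {N : Mp k m}
  {v : Place k (Om k)} {e : k}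

/-- the coordinates of the point are in the field `K` -/
private def NodDIn (K : IntermediateField k (Om k)) {α B : Om k} : (Ec α B).Point → Prop
  | .zero => True
  | .some x y _ => x ∈ K ∧ y ∈ K

omit [IsAlgClosed k] [CharZero k] in
private theorem nodD_add {K : IntermediateField k (Om k)} {α B : Om k} (hα : α ∈ K)
    {P Q : (Ec α B).Point} (hP : NodDIn K P) (hQ : NodDIn K Q) : NodDIn K (P + Q) := by
  cases P with
  | zero =>
    have h1 : (WeierstrassCurve.Affine.Point.zero : (Ec α B).Point) + Q = Q := zero_add Q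
    rw [h1]
    exact hQ
  | some x₁ y₁ h₁ =>
    cases Q with
    | zero =>
      have h1 : (WeierstrassCurve.Affine.Point.some x₁ y₁ h₁ : (Ec α B).Point) +
          WeierstrassCurve.Affine.Point.zero = WeierstrassCurve.Affine.Point.some x₁ y₁ h₁ :=
        add_zero _
      rw [h1]
      exact hP
    | some x₂ y₂ h₂ =>
      obtain ⟨hx₁, hy₁⟩ := hP
      obtain ⟨hx₂, hy₂⟩ := hQ
      by_cases hxy : x₁ = x₂ ∧ y₁ = (Ec α B).negY x₂ y₂
      · rw [WeierstrassCurve.Affine.Point.add_of_Y_eq hxy.1 hxy.2]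
        trivial
      · rw [WeierstrassCurve.Affine.Point.add_some hxy]
        have h0 : (0 : Om k) ∈ K := zero_mem K
        have h3 : (3 : Om k) ∈ K := ofNat_mem K 3
        have h2 : (2 : Om k) ∈ K := ofNat_mem K 2
        have hneg : ∀ x y : Om k, x ∈ K → y ∈ K → (Ec α B).negY x y ∈ K := by
          intro x y hx hy
          exact sub_mem (sub_mem (neg_mem hy) (mul_mem h0 hx)) h0
        have hs : (Ec α B).slope x₁ x₂ y₁ y₂ ∈ K := by
          unfold WeierstrassCurve.Affine.slope
          split_ifs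
          · exact h0
          · refine div_mem ?_ (sub_mem hy₁ (hneg x₁ y₁ hx₁ hy₁))
            exact sub_mem (add_mem (add_mem (mul_mem h3 (pow_mem hx₁ 2))
              (mul_mem (mul_mem h2 h0) hx₁)) (mul_mem (neg_mem h3) hα)) (mul_mem h0 hy₁)
          · exact div_mem (sub_mem hy₁ hy₂) (sub_mem hx₁ hx₂)
        have hX : (Ec α B).addX x₁ x₂ ((Ec α B).slope x₁ x₂ y₁ y₂) ∈ K :=
          sub_mem (sub_mem (sub_mem (add_mem (pow_mem hs 2) (mul_mem h0 hs)) h0) hx₁) hx₂
        refine ⟨hX, hneg _ _ hX ?_⟩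
        exact add_mem (mul_mem hs (sub_mem hX hx₁)) hy₁

omit [IsAlgClosed k] [CharZero k] in
private theorem nodD_nsmul {K : IntermediateField k (Om k)} {α B : Om k} (hα : α ∈ K)
    {P : (Ec α B).Point} (hP : NodDIn K P) (n : ℕ) : NodDIn K (n • P) := by
  induction n with
  | zero =>
    rw [zero_nsmul]
    trivial
  | succ n ih =>
    rw [succ_nsmul]
    exact nodD_add hα ih hP

/-- a function field which contains a given finite set -/
private theorem nodD_field (Γ : Finset (Om k)) :
    ∃ K : IntermediateField k (Om k), IsCurve k K ∧ ∀ g ∈ Γ, g ∈ K := by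
  have hX : Hom (∅ : Set (MvPolynomial (Fin (0 + 1)) k)) := by
    intro f hf
    exact absurd hf (Set.notMem_empty f)
  obtain ⟨K, -, hK, hΓ, -⟩ := exists_field hX Γ (J := Empty) (fun j => j.elim)
  exact ⟨K, hK, fun g hg => hΓ hg⟩

omit [CharZero k] in
/-- a square root with a given value -/
private theorem nodD_sqrt (hα : v.At α (e ^ 2)) : ∃ d : Om k, d ^ 2 = α ∧ v.At d e := by
  obtain ⟨d, hd⟩ := IsAlgClosed.exists_pow_nat_eq α (n := 2) (by norm_num)
  have hmem : d ∈ v.ring := by
    have h1 : IsIntegral v.ring d := by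
      refine ⟨Polynomial.X ^ 2 - Polynomial.C ⟨α, hα.mem⟩,
        Polynomial.monic_X_pow_sub_C _ (by norm_num), ?_⟩
      rw [Polynomial.eval₂_sub, Polynomial.eval₂_pow, Polynomial.eval₂_X, Polynomial.eval₂_C, hd]
      exact sub_self α
    obtain ⟨y, hy⟩ := IsIntegrallyClosed.isIntegral_iff.1 h1
    rw [← hy]
    exact y.2
  obtain ⟨c, hc⟩ := DCI57.exists_at v hmem
  have h2 : c ^ 2 = e ^ 2 := by
    have h3 := hc.pow 2
    rw [hd] at h3
    exact h3.unique hα
  rcases sq_eq_sq_iff_eq_or_eq_neg.1 h2 with h3 | h3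
  · exact ⟨d, hd, h3 ▸ hc⟩
  · refine ⟨-d, by rw [neg_sq, hd], ?_⟩
    have h4 := hc.neg
    rw [h3, neg_neg] at h4
    exact h4

omit [CharZero k] in
/-- points near the node -/
private theorem nodD_near (hα : v.At α (e ^ 2)) (hB : v.At B (2 * e ^ 3)) {P : (Ec α B).Point}
    (hP : ¬ NonNode v e P) : ∃ (x y : Om k) (h : (Ec α B).Nonsingular x y),
      P = WeierstrassCurve.Affine.Point.some x y h ∧ v.At x e := by
  cases P with
  | zero => exact absurd trivial hP
  | some x y h =>
    refine ⟨x, y, h, rfl, ?_⟩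
    have h1 : ¬ (x ∉ v.ring ∨ ∃ x' y' : k, v.At x x' ∧ v.At y y' ∧ x' ≠ e) := hP
    push Not at h1
    obtain ⟨h2, h3⟩ := h1
    obtain ⟨c, hc⟩ := DCI57.exists_at v h2
    have heq := eqn_iff.1 h.1
    have hyr : y ^ 2 ∈ v.ring := by
      rw [heq]
      have h3' : (3 : Om k) ∈ v.ring := ofNat_mem v.ring 3
      exact add_mem (sub_mem (pow_mem h2 3) (mul_mem (mul_mem h3' hα.mem) h2)) hB.mem
    have hy : y ∈ v.ring := by
      have h1 : IsIntegral v.ring y := by
        refine ⟨Polynomial.X ^ 2 - Polynomial.C ⟨y ^ 2, hyr⟩,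
          Polynomial.monic_X_pow_sub_C _ (by norm_num), ?_⟩
        rw [Polynomial.eval₂_sub, Polynomial.eval₂_pow, Polynomial.eval₂_X, Polynomial.eval₂_C]
        exact sub_self (y ^ 2)
      obtain ⟨z, hz⟩ := IsIntegrallyClosed.isIntegral_iff.1 h1
      rw [← hz]
      exact z.2
    obtain ⟨c', hc'⟩ := DCI57.exists_at v hy
    have h4 := h3 c c' hc hc'
    rw [h4] at hc
    exact hc

/-- a multiple of every point is not near the node. Proof: if not then `P`, `2 P`, `3 P`, ... all
tend to the node; they are defined over a function field `K ⊆ Om k` (`K` contains the coordinates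
of `P`, and `α`, `B`, `d`; `Affine.Point.map` commutes with multiples), two of them are in the same
class (`exists_same`), and their difference is not near the node (`nonNode_sub`). -/
theorem exists_nonNode (he : e ≠ 0) (hα : v.At α (e ^ 2)) (hB : v.At B (2 * e ^ 3))
    (hd : B ^ 2 ≠ 4 * α ^ 3) (P : (Ec α B).Point) :
    ∃ n : ℕ, 0 < n ∧ NonNode v e (n • P) := by
  by_contra hcon
  push Not at hcon
  obtain ⟨d, hd2, hde⟩ := nodD_sqrt hα
  have hε : B - 2 * d ^ 3 ≠ 0 := by
    intro h
    apply hd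
    have h1 : B = 2 * d ^ 3 := sub_eq_zero.1 h
    rw [h1, ← hd2]
    ring
  have hnear : ∀ n : ℕ, ∃ (x y : Om k) (h : (Ec α B).Nonsingular x y),
      (n + 1) • P = WeierstrassCurve.Affine.Point.some x y h ∧ v.At x e :=
    fun n => nodD_near hα hB (hcon (n + 1) (Nat.succ_pos n))
  choose x y hns heq hx using hnear
  obtain ⟨K, hK, hΓ⟩ := nodD_field ({α, B, d, x 0, y 0} : Finset (Om k))
  have hαK : α ∈ K := hΓ α (by simp)
  have hBK : B ∈ K := hΓ B (by simp)
  have hdK : d ∈ K := hΓ d (by simp)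
  have hPK : NodDIn K P := by
    have h1 := heq 0
    rw [zero_add, one_smul] at h1
    rw [h1]
    exact ⟨hΓ _ (by simp), hΓ _ (by simp)⟩
  have hall : ∀ n, x n ∈ K ∧ y n ∈ K := by
    intro n
    have h1 := nodD_nsmul hαK hPK (n + 1)
    rw [heq n] at h1
    exact h1
  obtain ⟨i, j, hij, hcl⟩ := exists_same hd2 hde he hB hε K hK hdK hBK x y
    (fun n => (hall n).1) (fun n => (hall n).2) (fun n => eqn_iff.1 (hns n).1) hx
  have h1 := nonNode_sub (hP := hns j) (hQ := hns i) hd2 hde he hB hε (hx j) (hx i) hcl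
  rw [← heq j, ← heq i] at h1
  have h2 : (j + 1) • P - (i + 1) • P = (j - i) • P := by
    have h3 : j + 1 = (j - i) + (i + 1) := by omega
    rw [h3, add_smul, add_sub_cancel_right]
  rw [h2] at h1
  exact hcon (j - i) (by omega) h1

/-- multiplicative reduction: the limit homomorphism is zero -/
theorem nod_all (hX : Hom X) (hM : M.Ok α B X) (he : e ≠ 0) (hα : v.At α (e ^ 2))
    (hB : v.At B (2 * e ^ 3)) (h : MRed v M N) (hN : ∃ i, N.G i ≠ 0 ∨ N.H i ≠ 0)
    (P : (Ec α B).Point) : hV hX hM v P = 0 := by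
  obtain ⟨n, hn, hP⟩ := exists_nonNode he hα hB hM.disc P
  have h1 := nod_zero hX hM he hα hB h hN hP
  rw [map_nsmul] at h1
  have h2 : (n : ℚ) • hV hX hM v P = 0 := by
    rw [← h1]
    exact Nat.cast_smul_eq_nsmul ℚ n _
  exact (smul_eq_zero.1 h2).resolve_left (by exact_mod_cast hn.ne')

end Pool.Agent.GT
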