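import Pool.Agent.GT.HomVB

/-!
# The limit homomorphism and good reduction
-/

set_option autoImplicit false

noncomputable section

namespace Pool.Agent.GT

open Pool.Agent.ZCyc Pool.Agent.Dess Polynomial
open Pool.Agent.VFP (Om tt)
open scoped Classical LinearAlgebra.Projectivization

variable {k : Type} [Field k] [IsAlgClosed k] [CharZero k] {m : ℕ}
  {X : Set (MvPolynomial (Fin (m + 1)) k)}

omit [IsAlgClosed k] [CharZero k] in
/-- a good auxiliary point -/
private theorem HomV_aux {K : Type} [Field K] [IsAlgClosed K] [CharZero K] [Algebra k K]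
    {α B : K} {M : Mp K m} (hM : M.Ok α B X) (P : (Ec α B).Point) :
    ∃ Q : (Ec α B).Point, M.Ns Q ∧ M.Ns (P + Q) := by
  have := infinite_points hM.disc
  have h0 : {Q : (Ec α B).Point | ¬ M.Ns Q}.Finite := finite_bad hM.ne
  have h1 := h0.union (h0.preimage (f := fun Q => P + Q) (add_right_injective P).injOn)
  obtain ⟨Q, hQ⟩ := h1.exists_notMem
  refine ⟨Q, ?_, ?_⟩
  · by_contra hc
    exact hQ (Or.inl hc)
  · by_contra hc
    exact hQ (Or.inr hc)

/-- Good reduction: the limit homomorphism is the homomorphism of the reduction. Proof: choose `q`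
over `k` with `Ns q`, `Ns (p + q)` (`finite_bad`, `infinite_points`), lift it (`exists_lift`), use
`pred_add` and `lmp_eq_clp`. -/
theorem hV_eq_hK (hX : Hom X) {α B : Om k} {M : Mp (Om k) m} (hM : M.Ok α B X)
    {v : Place k (Om k)} {a b : k} {N : Mp k m} (hα : v.At α a) (hB : v.At B b)
    (hN : N.Ok a b X) (h : MRed v M N) {P : (Ec α B).Point} {p : (Ec a b).Point}
    (hP : PRed v P p) : hV hX hM v P = hK hX hN p := by
  obtain ⟨q, hq, hpq⟩ := HomV_aux hN p
  obtain ⟨Q, hQ⟩ := exists_lift hα hB hN.disc q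
  have h₁ := lmp_eq_clp hX hM hN h hQ hq
  have h₂ := lmp_eq_clp hX hM hN h (pred_add hα hB hN.disc hP hQ) hpq
  rw [← hV_spec hX hM v h₁.1 h₂.1, ← hK_spec hX hN hq hpq, h₁.2, h₂.2]

/-- the homomorphism is determined by the limits of the images: if `M'` on the curve `α'`, `B'` is
another model of the same map (`e` an isomorphism of the groups of points, the limits are the same for
all good points) then the homomorphisms are the same. -/
theorem hV_congr (hX : Hom X) {α B α' B' : Om k} {M M' : Mp (Om k) m} (hM : M.Ok α B X)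
    (hM' : M'.Ok α' B' X) {v v' : Place k (Om k)} (e : (Ec α B).Point ≃+ (Ec α' B').Point)
    (h : ∀ P, M.Ns P → M'.Ns (e P) ∧ lmp hX hM v P = lmp hX hM' v' (e P)) (P : (Ec α B).Point) :
    hV hX hM v P = hV hX hM' v' (e P) := by
  obtain ⟨Q, hQ, hPQ⟩ := HomV_aux hM P
  have h₁ := h Q hQ
  have h₂ := h (P + Q) hPQ
  rw [map_add] at h₂
  rw [← hV_spec hX hM v hQ hPQ, ← hV_spec hX hM' v' h₁.1 h₂.1, h₁.2, h₂.2]

end Pool.Agent.GT
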