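import Pool.Agent.GT.SclA
import Pool.Agent.GT.HomV

/-!
# Scaling and the limit homomorphism
-/

set_option autoImplicit false

noncomputable section

namespace Pool.Agent.GT

open Pool.Agent.ZCyc Pool.Agent.Dess Polynomial
open Pool.Agent.VFP (Om tt)
open scoped Classical LinearAlgebra.Projectivization

variable {k : Type} [Field k] [IsAlgClosed k] [CharZero k] {m : ℕ}
  {X : Set (MvPolynomial (Fin (m + 1)) k)} {α B : Om k} {M : Mp (Om k) m}

/-- the coordinates of the map can be multiplied by a constant such that they have values, not all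
zero (`exists_scale` for the finite family of all coefficients) -/
theorem exists_mul (hM : ∃ i, M.G i ≠ 0 ∨ M.H i ≠ 0) (v : Place k (Om k)) {c : Om k}
    (hc : c ≠ 0) : ∃ (l : Om k) (N : Mp k m), l ≠ 0 ∧ MRed v (M.scl c l) N ∧
      ∃ i, N.G i ≠ 0 ∨ N.H i ≠ 0 := by
  obtain ⟨D, hD⟩ : ∃ D : ℕ, ∀ i, (M.G i).natDegree < D ∧ (M.H i).natDegree < D := by
    refine ⟨(Finset.univ.sup fun i => (M.G i).natDegree + (M.H i).natDegree) + 1, fun i => ?_⟩
    have h := Finset.le_sup (f := fun i => (M.G i).natDegree + (M.H i).natDegree)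
      (Finset.mem_univ i)
    omega
  let x : Fin (m + 1) × Fin D × Bool → Om k := fun q => if q.2.2 = true
    then (M.G q.1).coeff q.2.1 * (c ^ 2) ^ (q.2.1 : ℕ)
    else c ^ 3 * ((M.H q.1).coeff q.2.1 * (c ^ 2) ^ (q.2.1 : ℕ))
  have hc2 : c ^ 2 ≠ 0 := pow_ne_zero _ hc
  have hx : x ≠ 0 := by
    intro h0
    obtain ⟨i, hi⟩ := hM
    rcases hi with hi | hi
    · have h1 := congrFun h0 (i, ⟨(M.G i).natDegree, (hD i).1⟩, true)
      have h2 : (M.G i).coeff (M.G i).natDegree * (c ^ 2) ^ (M.G i).natDegree = 0 := h1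
      rcases mul_eq_zero.1 h2 with h3 | h3
      · exact hi (Polynomial.leadingCoeff_eq_zero.1 h3)
      · exact pow_ne_zero _ hc2 h3
    · have h1 := congrFun h0 (i, ⟨(M.H i).natDegree, (hD i).2⟩, false)
      have h2 : c ^ 3 * ((M.H i).coeff (M.H i).natDegree * (c ^ 2) ^ (M.H i).natDegree) = 0 := h1
      rcases mul_eq_zero.1 h2 with h3 | h3
      · exact pow_ne_zero _ hc h3
      rcases mul_eq_zero.1 h3 with h3 | h3
      · exact hi (Polynomial.leadingCoeff_eq_zero.1 h3)
      · exact pow_ne_zero _ hc2 h3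
  obtain ⟨l, y, hl, hy, hxy⟩ := exists_scale v x hx
  let F : Bool → Fin (m + 1) → k[X] := fun b i =>
    ∑ n : Fin D, Polynomial.monomial (n : ℕ) (y (i, n, b))
  have hF : ∀ b i n, (F b i).coeff n = if h : n < D then y (i, ⟨n, h⟩, b) else 0 := by
    intro b i n
    simp only [F, Polynomial.finsetSum_coeff, Polynomial.coeff_monomial]
    split_ifs with h
    · rw [Finset.sum_eq_single (⟨n, h⟩ : Fin D)]
      · simp
      · intro b' _ hb'
        rw [if_neg]
        intro h'
        exact hb' (Fin.ext h')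
      · intro h'
        exact absurd (Finset.mem_univ _) h'
    · refine Finset.sum_eq_zero fun b' _ => ?_
      rw [if_neg]
      intro h'
      exact h (h' ▸ b'.2)
  have h00 : v.At (0 : Om k) 0 := by simpa using Place.at_const (v := v) (0 : k)
  refine ⟨l, ⟨F true, F false⟩, hl, ?_, ?_⟩
  · intro i n
    constructor
    · change v.At ((C l * (M.G i).comp (C (c ^ 2) * Polynomial.X)).coeff n) ((F true i).coeff n)
      rw [Polynomial.coeff_C_mul, Polynomial.comp_C_mul_X_coeff, hF]
      split_ifs with h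
      · exact hxy (i, ⟨n, h⟩, true)
      · rw [Polynomial.coeff_eq_zero_of_natDegree_lt ((hD i).1.trans_le (not_lt.1 h)), zero_mul,
          mul_zero]
        exact h00
    · change v.At ((C (l * c ^ 3) * (M.H i).comp (C (c ^ 2) * Polynomial.X)).coeff n)
        ((F false i).coeff n)
      rw [Polynomial.coeff_C_mul, Polynomial.comp_C_mul_X_coeff, hF, mul_assoc]
      split_ifs with h
      · exact hxy (i, ⟨n, h⟩, false)
      · rw [Polynomial.coeff_eq_zero_of_natDegree_lt ((hD i).2.trans_le (not_lt.1 h)), zero_mul,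
          mul_zero, mul_zero]
        exact h00
  · obtain ⟨⟨i, n, b⟩, hq⟩ := Function.ne_iff.1 hy
    have h1 : F b i ≠ 0 := by
      intro h0
      have h2 := hF b i n
      rw [h0, Polynomial.coeff_zero, dif_pos n.2] at h2
      exact hq h2.symm
    refine ⟨i, ?_⟩
    cases b with
    | true => exact Or.inl h1
    | false => exact Or.inr h1

omit [IsAlgClosed k] [CharZero k] in
private theorem SclB_mkPt {K : Type} [Field K] [Algebra k K] (hX : Hom X)
    {a b : Fin (m + 1) → K} {ha : a ≠ 0} {hb : b ≠ 0}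
    {h : ∀ f ∈ X, MvPolynomial.aeval a f = 0} {h' : ∀ f ∈ X, MvPolynomial.aeval b f = 0}
    {l : K} (hl : l ≠ 0) (hab : ∀ i, b i = l * a i) : mkPt hX a ha h = mkPt hX b hb h' := by
  refine Subtype.ext ?_
  change Projectivization.mk K a ha = Projectivization.mk K b hb
  rw [Projectivization.mk_eq_mk_iff']
  refine ⟨l⁻¹, funext fun i => ?_⟩
  rw [Pi.smul_apply, smul_eq_mul, hab, inv_mul_cancel_left₀ hl]

/-- the image of a point does not change: the homogeneous coordinates are multiplied by `l`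
(`co_scl`) -/
theorem lmp_scl (hX : Hom X) (hM : M.Ok α B X) (v : Place k (Om k)) {c l : Om k}
    (hc : c ≠ 0) (hl : l ≠ 0) (P : (Ec α B).Point) (hP : M.Ns P) :
    (M.scl c l).Ns (sclE hM.disc hc P) ∧
      lmp hX hM v P = lmp hX (ok_scl hX hM hc hl) v (sclE hM.disc hc P) := by
  cases P with
  | zero => exact hP.elim
  | some x y hxy =>
    have hP' : M.co x y ≠ 0 := hP
    obtain ⟨h', he⟩ := sclE_some hM.disc hc x y hxy
    rw [he]
    have hco : ∀ i, (M.scl c l).co (x / c ^ 2) (y / c ^ 3) i = l * M.co x y i :=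
      fun i => co_scl M hc l x y i
    have hN : (M.scl c l).Ns (.some (x / c ^ 2) (y / c ^ 3) h' :
        (Ec (α / c ^ 4) (B / c ^ 6)).Point) := by
      change (M.scl c l).co (x / c ^ 2) (y / c ^ 3) ≠ 0
      intro h0
      refine hP' (funext fun i => ?_)
      have h1 := congrFun h0 i
      rw [hco] at h1
      exact (mul_eq_zero.1 h1).resolve_left hl
    refine ⟨hN, ?_⟩
    have h6 : cyc hX hM (.some x y hxy) =
        Finsupp.single (phi hX hM (.some x y hxy) hP) 1 := dif_pos hP
    have h7 : cyc hX (ok_scl hX hM hc hl) (.some (x / c ^ 2) (y / c ^ 3) h') =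
        Finsupp.single (phi hX (ok_scl hX hM hc hl) (.some (x / c ^ 2) (y / c ^ 3) h') hN) 1 :=
      dif_pos hN
    unfold lmp
    rw [h6, h7]
    congr 2
    exact SclB_mkPt hX (h := fun f hf => hM.onX f hf x y (eqn_iff.1 hxy.1))
      (h' := fun f hf => (ok_scl hX hM hc hl).onX f hf _ _ (eqn_iff.1 h'.1)) hl hco

/-- `hV_congr` and `lmp_scl` -/
theorem hV_scl (hX : Hom X) (hM : M.Ok α B X) (v : Place k (Om k)) {c l : Om k}
    (hc : c ≠ 0) (hl : l ≠ 0) (P : (Ec α B).Point) :
    hV hX hM v P = hV hX (ok_scl hX hM hc hl) v (sclE hM.disc hc P) :=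
  hV_congr hX hM (ok_scl hX hM hc hl) (sclE hM.disc hc)
    (fun P hP => lmp_scl hX hM v hc hl P hP) P

end Pool.Agent.GT
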