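import Pool.Agent.GT.Tr
import Pool.Agent.GT.NodD
import Pool.Agent.GT.SclB

/-!
# Places with multiplicative reduction
-/

set_option autoImplicit false

noncomputable section

namespace Pool.Agent.GT

open Pool.Agent.ZCyc Pool.Agent.Dess Polynomial
open Pool.Agent.VFP (Om tt)
open scoped Classical LinearAlgebra.Projectivization

variable {k : Type} [Field k] [IsAlgClosed k] [CharZero k] {m : ℕ}
  {X : Set (MvPolynomial (Fin (m + 1)) k)} {A : Type} [CommRing A] [Algebra k A]

/-- The scaled coefficients have values `a`, `b` with `b ² = 4 a ³`, `a ≠ 0`: the sum of the limit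
homomorphisms is zero (`e = b / (2 a)`, `exists_mul`, `hV_scl`, `nod_all` for all roots). -/
theorem TV_nodal (hX : Hom X) {d : GD A m} (hd : d.Ok X) {S : A →ₐ[k] Om k}
    {v : Place k (Om k)} {c : Om k} (hc : c ≠ 0) {a b : k} (ha : v.At (S d.α / c ^ 4) a)
    (hb : v.At (S d.B / c ^ 6) b) (hab : b ^ 2 = 4 * a ^ 3) (ha0 : a ≠ 0)
    (P : (Ec (S d.α) (S d.B)).Point) : TV hX hd S v P = 0 := by
  have he2 : (b / (2 * a)) ^ 2 = a := by
    rw [div_pow, hab]
    field_simp
    ring
  have he3 : 2 * (b / (2 * a)) ^ 3 = b := by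
    have h1 : 2 * (b / (2 * a)) ^ 3 = 2 * (b / (2 * a)) * (b / (2 * a)) ^ 2 := by ring
    rw [h1, he2]
    field_simp
  have he : b / (2 * a) ≠ 0 := by
    intro h0
    rw [h0] at he2
    exact ha0 (by rw [← he2]; ring)
  unfold TV
  rw [AddMonoidHom.finsetSum_apply]
  refine Finset.sum_eq_zero fun θ _ => ?_
  have hM := hd.mp_ok S θ.2
  obtain ⟨l, N, hl, hN, hN0⟩ := exists_mul hM.ne v hc
  rw [hV_scl hX hM v hc hl P]
  refine nod_all hX (ok_scl hX hM hc hl) he ?_ ?_ hN hN0 _
  · rw [he2]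
    exact ha
  · rw [he3]
    exact hb

private theorem badA_val {v : Place k (Om k)} {ι : Type} {x : ι → Om k} {y : ι → k}
    (h : ∀ i, v.At (x i) (y i)) (f : MvPolynomial ι k) :
    v.At (MvPolynomial.aeval x f) (MvPolynomial.aeval y f) := by
  induction f using MvPolynomial.induction_on with
  | C a =>
    rw [MvPolynomial.algHom_C, MvPolynomial.algHom_C]
    exact Place.at_const a
  | add f g hf hg =>
    rw [map_add, map_add]
    exact hf.add hg
  | mul_X f i hf =>
    rw [map_mul, map_mul, MvPolynomial.aeval_X, MvPolynomial.aeval_X]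
    exact hf.mul (h i)

/-- the reduction of a map to the variety is a map to the variety -/
private theorem ok_red {α B : Om k} {M : Mp (Om k) m} (hM : M.Ok α B X)
    {v : Place k (Om k)} {a b : k} {N : Mp k m} (hα : v.At α a) (hB : v.At B b)
    (hab : b ^ 2 ≠ 4 * a ^ 3) (h : MRed v M N) (hN : ∃ i, N.G i ≠ 0 ∨ N.H i ≠ 0) :
    N.Ok a b X := by
  refine ⟨hab, hN, fun f hf x y hxy => ?_⟩
  obtain ⟨P, hP⟩ := exists_lift (v := v) hα hB hab (.some x y (nonsing hab hxy))
  rcases P with _ | ⟨x', y', hP'⟩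
  · exact hP.elim
  · have h1 := hM.onX f hf x' y' (eqn_iff.1 hP'.1)
    have h2 := badA_val (v := v) (fun i => co_at h hP.1 hP.2 i) f
    rw [h1] at h2
    have h00 : v.At (0 : Om k) 0 := by simpa using Place.at_const (v := v) (0 : k)
    exact h2.unique h00

/-- The scaled coefficients have values `a`, `b` with `b ² ≠ 4 a ³`: the sum of the limit
homomorphisms is a homomorphism `T` of the points of the reduction (`exists_mul`, `hV_scl`,
`hV_eq_hK`, `T = ∑ hK`). -/
theorem TV_good (hX : Hom X) {d : GD A m} (hd : d.Ok X) {S : A →ₐ[k] Om k}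
    {v : Place k (Om k)} {c : Om k} (hc : c ≠ 0) {a b : k} (ha : v.At (S d.α / c ^ 4) a)
    (hb : v.At (S d.B / c ^ 6) b) (hab : b ^ 2 ≠ 4 * a ^ 3)
    (hdisc : S d.B ^ 2 ≠ 4 * S d.α ^ 3) :
    ∃ T : (Ec a b).Point →+ CH X Unit, ∀ (P : (Ec (S d.α) (S d.B)).Point) (p : (Ec a b).Point),
      PRed v (sclE hdisc hc P) p → TV hX hd S v P = T p := by
  have hex : ∀ θ : {θ // θ ∈ d.rts (S : A →+* Om k)}, ∃ T : (Ec a b).Point →+ CH X Unit,
      ∀ (P : (Ec (S d.α) (S d.B)).Point) (p : (Ec a b).Point),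
        PRed v (sclE hdisc hc P) p → hV hX (hd.mp_ok S θ.2) v P = T p := by
    intro θ
    have hM := hd.mp_ok S θ.2
    obtain ⟨l, N, hl, hN, hN0⟩ := exists_mul hM.ne v hc
    have hNok : N.Ok a b X := ok_red (ok_scl hX hM hc hl) ha hb hab hN hN0
    refine ⟨hK hX hNok, fun P p hP => ?_⟩
    rw [hV_scl hX hM v hc hl P]
    exact hV_eq_hK hX (ok_scl hX hM hc hl) ha hb hNok hN hP
  choose T hT using hex
  refine ⟨∑ θ, T θ, fun P p hP => ?_⟩
  unfold TV
  rw [AddMonoidHom.finsetSum_apply, AddMonoidHom.finsetSum_apply]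
  exact Finset.sum_congr rfl fun θ _ => hT θ P p hP

end Pool.Agent.GT
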