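import Pool.Agent.GT.HomV

/-!
# Automorphisms of the field of algebraic functions and the limit homomorphism
-/

set_option autoImplicit false

noncomputable section

namespace Pool.Agent.GT

open Pool.Agent.ZCyc Pool.Agent.Dess Polynomial
open Pool.Agent.VFP (Om tt)
open scoped Classical LinearAlgebra.Projectivization

variable {k : Type} [Field k] [IsAlgClosed k] [CharZero k] {m : ℕ}
  {X : Set (MvPolynomial (Fin (m + 1)) k)} {α B α' B' : Om k} {M M' : Mp (Om k) m}

private theorem Conj_map {K K' : Type} [Field K] [Field K'] (W : WeierstrassCurve K)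
    (W' : WeierstrassCurve K') (f : K →+* K') (hW : W.map f = W') :
    ∃ T : W.toAffine.Point →+ W'.toAffine.Point,
      ∀ x y h, ∃ h', T (.some x y h) = .some (f x) (f y) h' := by
  subst hW
  refine ⟨{
    toFun := fun P => match P with
      | 0 => 0
      | .some _ _ h => .some _ _ <|
        (WeierstrassCurve.Affine.map_nonsingular (W := W.toAffine) f.injective _ _).mpr h
    map_zero' := rfl
    map_add' := ?_ }, fun x y h => ⟨_, rfl⟩⟩
  rintro (_ | ⟨x₁, y₁, h₁⟩) (_ | ⟨x₂, y₂, h₂⟩)
  any_goals rfl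
  by_cases hxy : x₁ = x₂ ∧ y₁ = W.toAffine.negY x₂ y₂
  · rw [WeierstrassCurve.Affine.Point.add_of_Y_eq hxy.left hxy.right,
      WeierstrassCurve.Affine.Point.add_of_Y_eq (congr_arg _ hxy.left) <| by
        rw [hxy.right, WeierstrassCurve.Affine.map_negY]]
  · simpa only [WeierstrassCurve.Affine.Point.add_some hxy, ← WeierstrassCurve.Affine.map_addX,
      ← WeierstrassCurve.Affine.map_addY, ← WeierstrassCurve.Affine.map_slope] using!
      (WeierstrassCurve.Affine.Point.add_some fun h ↦ hxy ⟨f.injective h.1,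
        f.injective (W.toAffine.map_negY f .. ▸ h).2⟩).symm

/-- the action of an automorphism on the points -/
theorem exists_conjE (g : Om k ≃ₐ[k] Om k) (hα : g α = α') (hB : g B = B') :
    ∃ e : (Ec α B).Point ≃+ (Ec α' B').Point,
      ∀ (x y : Om k) (h : (Ec α B).Nonsingular x y),
        ∃ h' : (Ec α' B').Nonsingular (g x) (g y), e (.some x y h) = .some (g x) (g y) h' := by
  have hW : (Ec α B).map (g : Om k →+* Om k) = Ec α' B' := by
    ext
    · simp [Ec]
    · simp [Ec]
    · simp [Ec]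
    · change g (-3 * α) = -3 * α'
      rw [map_mul, hα, map_neg, map_ofNat]
    · exact hB
  have hW' : (Ec α' B').map (g.symm : Om k →+* Om k) = Ec α B := by
    ext
    · simp [Ec]
    · simp [Ec]
    · simp [Ec]
    · change g.symm (-3 * α') = -3 * α
      rw [map_mul, map_neg, map_ofNat, ← hα, AlgEquiv.symm_apply_apply]
    · change g.symm B' = B
      rw [← hB, AlgEquiv.symm_apply_apply]
  obtain ⟨T, hT⟩ := Conj_map (Ec α B) (Ec α' B') (g : Om k →+* Om k) hW
  obtain ⟨T', hT'⟩ := Conj_map (Ec α' B') (Ec α B) (g.symm : Om k →+* Om k) hW'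
  have h1 : ∀ P, T' (T P) = P := by
    rintro (_ | ⟨x, y, h⟩)
    · change T' (T 0) = 0
      rw [map_zero, map_zero]
    · obtain ⟨h2, h3⟩ := hT x y h
      obtain ⟨h4, h5⟩ := hT' _ _ h2
      rw [h3, h5]
      congr 1
      · exact g.symm_apply_apply x
      · exact g.symm_apply_apply y
  have h2 : ∀ P, T (T' P) = P := by
    rintro (_ | ⟨x, y, h⟩)
    · change T (T' 0) = 0
      rw [map_zero, map_zero]
    · obtain ⟨h2, h3⟩ := hT' x y h
      obtain ⟨h4, h5⟩ := hT _ _ h2
      rw [h3, h5]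
      congr 1
      · exact g.apply_symm_apply x
      · exact g.apply_symm_apply y
  exact ⟨{ toFun := T, invFun := T', left_inv := h1, right_inv := h2, map_add' := map_add T },
    fun x y h => hT x y h⟩

/-- the action of an automorphism on the points -/
def conjE (g : Om k ≃ₐ[k] Om k) (hα : g α = α') (hB : g B = B') :
    (Ec α B).Point ≃+ (Ec α' B').Point := (exists_conjE g hα hB).choose

theorem conjE_some (g : Om k ≃ₐ[k] Om k) (hα : g α = α') (hB : g B = B') (x y : Om k)
    (h : (Ec α B).Nonsingular x y) :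
    ∃ h' : (Ec α' B').Nonsingular (g x) (g y),
      conjE g hα hB (.some x y h) = .some (g x) (g y) h' :=
  (exists_conjE g hα hB).choose_spec x y h

omit [IsAlgClosed k] [CharZero k] in
private theorem conj_co (g : Om k ≃ₐ[k] Om k) (M : Mp (Om k) m) (x y : Om k) (i : Fin (m + 1)) :
    (M.map (g : Om k →+* Om k)).co (g x) (g y) i = g (M.co x y i) := by
  have h : ∀ (p : (Om k)[X]) (z : Om k), (p.map (g : Om k →+* Om k)).eval (g z) = g (p.eval z) :=
    fun p z => by
      rw [Polynomial.eval_map]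
      exact Polynomial.eval₂_at_apply (g : Om k →+* Om k) z
  change ((M.G i).map (g : Om k →+* Om k)).eval (g x) +
    ((M.H i).map (g : Om k →+* Om k)).eval (g x) * g y =
    g ((M.G i).eval x + (M.H i).eval x * y)
  rw [h, h, map_add, map_mul]

omit [CharZero k] in
private theorem lmp_some (hX : Hom X) (hM : M.Ok α B X) (v : Place k (Om k)) {P : (Ec α B).Point}
    (hP : M.Ns P) : lmp hX hM v P =
      Submodule.Quotient.mk (Finsupp.single (fun _ : Unit => pv hX v (phi hX hM P hP)) 1) := by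
  have h6 : cyc hX hM P = Finsupp.single (phi hX hM P hP) 1 := dif_pos hP
  change lim1 hX v _ = _
  rw [h6]
  change Submodule.Quotient.mk (Finsupp.mapDomain _ (Finsupp.mapDomain _ _)) = _
  rw [Finsupp.mapDomain_single, Finsupp.mapDomain_single]

omit [CharZero k] in
private theorem Conj_val {hX : Hom X} {v : Place k (Om k)} (g : Om k ≃ₐ[k] Om k)
    {K : IntermediateField k (Om k)} (hg : ∀ a ∈ K, ∀ c : k, v.At a c → v.At (g a) c)
    {a a' : Fin (m + 1) → Om k} (ha : a ≠ 0) (ha' : a' ≠ 0)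
    (h : ∀ f ∈ X, MvPolynomial.aeval a f = 0) (h' : ∀ f ∈ X, MvPolynomial.aeval a' f = 0)
    (hK : ∀ i, a i ∈ K) (hga : ∀ i, a' i = g (a i)) :
    pv hX v (mkPt hX a' ha' h') = pv hX v (mkPt hX a ha h) := by
  refine pv_eq ?_
  have h1 := pv_spec hX v (mkPt hX a ha h)
  set p := pv hX v (mkPt hX a ha h)
  have hp := p.1.rep_nonzero
  rw [isVal_iff ha hp rfl (Projectivization.mk_rep p.1).symm] at h1
  rw [isVal_iff ha' hp rfl (Projectivization.mk_rep p.1).symm]
  obtain ⟨l, hl⟩ := h1
  obtain ⟨i, hi⟩ := Function.ne_iff.1 hp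
  have hne : l * a i ≠ 0 := by
    intro h0
    have h1 := hl i
    rw [h0] at h1
    have h2 := Place.at_const (v := v) (0 : k)
    rw [map_zero] at h2
    exact hi (h1.unique h2)
  have hl0 : l ≠ 0 := left_ne_zero_of_mul hne
  have ha0 : a i ≠ 0 := right_ne_zero_of_mul hne
  refine ⟨algebraMap k (Om k) (p.1.rep i) * (g (a i))⁻¹, fun j => ?_⟩
  have h2 : v.At (a j / a i) (p.1.rep j / p.1.rep i) := by
    have h3 := (hl j).div (hl i) hi
    rwa [mul_div_mul_left _ _ hl0] at h3
  have h3 := hg _ (div_mem (hK j) (hK i)) _ h2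
  have h4 := (Place.at_const (v := v) (p.1.rep i)).mul h3
  have hi' : p.1.rep i ≠ 0 := hi
  rw [mul_div_cancel₀ _ hi', map_div₀] at h4
  rw [hga j, mul_assoc, inv_mul_eq_div]
  exact h4

theorem ok_conj (g : Om k ≃ₐ[k] Om k) (hα : g α = α') (hB : g B = B')
    (hM' : M' = M.map (g : Om k →+* Om k)) (hM : M.Ok α B X) : M'.Ok α' B' X := by
  subst hM' hα hB
  refine ⟨?_, ?_, ?_⟩
  · intro h
    apply hM.disc
    apply g.injective
    rw [map_pow, h, map_mul, map_pow, map_ofNat]
  · obtain ⟨i, hi⟩ := hM.ne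
    refine ⟨i, hi.imp (fun h h1 => h ?_) fun h h1 => h ?_⟩
    · exact (Polynomial.map_eq_zero (g : Om k →+* Om k)).1 h1
    · exact (Polynomial.map_eq_zero (g : Om k →+* Om k)).1 h1
  · intro f hf x y hxy
    obtain ⟨x₀, rfl⟩ := g.surjective x
    obtain ⟨y₀, rfl⟩ := g.surjective y
    have h1 : y₀ ^ 2 = x₀ ^ 3 - 3 * α * x₀ + B := by
      apply g.injective
      rw [map_pow, hxy, map_add, map_sub, map_pow, map_mul, map_mul, map_ofNat]
    have h2 := hM.onX f hf x₀ y₀ h1
    have h3 : (M.map (g : Om k →+* Om k)).co (g x₀) (g y₀) = fun i => g (M.co x₀ y₀ i) :=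
      funext fun i => conj_co g M x₀ y₀ i
    rw [h3]
    have h4 := congrArg g h2
    rw [map_zero] at h4
    rw [← h4]
    exact (DFunLike.congr_fun (MvPolynomial.comp_aeval (M.co x₀ y₀) (g : Om k →ₐ[k] Om k)) f).symm

/-- `g` preserves the values of the elements of the field `K` at `v`, `K` contains the coefficients
and the coordinates of the point `P`. Then the limits of the images of `P` and of its conjugate are
the same: the ratios of the homogeneous coordinates are in `K`. -/
theorem lmp_conj (hX : Hom X) (hM : M.Ok α B X) (v : Place k (Om k)) (g : Om k ≃ₐ[k] Om k)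
    (hα : g α = α') (hB : g B = B') (hM' : M' = M.map (g : Om k →+* Om k)) (hM1 : M'.Ok α' B' X)
    (K : IntermediateField k (Om k)) (hg : ∀ a ∈ K, ∀ c : k, v.At a c → v.At (g a) c)
    (hMK : ∀ i n, (M.G i).coeff n ∈ K ∧ (M.H i).coeff n ∈ K) {x y : Om k} (hx : x ∈ K)
    (hy : y ∈ K) {h : (Ec α B).Nonsingular x y} (hP : M.Ns (.some x y h)) :
    M'.Ns (conjE g hα hB (.some x y h)) ∧
      lmp hX hM1 v (conjE g hα hB (.some x y h)) = lmp hX hM v (.some x y h) := by
  obtain ⟨h', he⟩ := conjE_some g hα hB x y h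
  rw [he]
  have hco : ∀ i, M'.co (g x) (g y) i = g (M.co x y i) := by
    intro i
    rw [hM']
    exact conj_co g M x y i
  have hP0 : M.co x y ≠ 0 := hP
  have hN : M'.Ns (.some (g x) (g y) h' : (Ec α' B').Point) := by
    change M'.co (g x) (g y) ≠ 0
    intro h0
    apply hP0
    funext i
    have h1 := congrFun h0 i
    rw [hco] at h1
    exact (map_eq_zero g).1 h1
  refine ⟨hN, ?_⟩
  rw [lmp_some hX hM1 v hN, lmp_some hX hM v hP]
  have hev : ∀ (p : (Om k)[X]), (∀ n, p.coeff n ∈ K) → p.eval x ∈ K := by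
    intro p hp
    rw [Polynomial.eval_eq_sum_range]
    exact sum_mem fun n _ => mul_mem (hp n) (pow_mem hx n)
  have h3 : pv hX v (phi hX hM1 (.some (g x) (g y) h') hN) =
      pv hX v (phi hX hM (.some x y h) hP) :=
    Conj_val g hg hP0 hN (fun f hf => hM.onX f hf x y (eqn_iff.1 h.1))
      (fun f hf => hM1.onX f hf (g x) (g y) (eqn_iff.1 h'.1))
      (fun i => add_mem (hev _ fun n => (hMK i n).1) (mul_mem (hev _ fun n => (hMK i n).2) hy)) hco
  rw [h3]

/-- The limit homomorphisms for the conjugate: for every point `P` there is a finite set `F` such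
that for all `g` which preserve the values at `v` of the elements of a field `K ⊇ F` the
homomorphisms have the same value at `P` and its conjugate. Proof: `F` contains the coefficients
and the coordinates of `Q` and of `P + Q`, where `Q` is a point with `Ns Q`, `Ns (P + Q)`. -/
theorem hV_conj (hX : Hom X) (hM : M.Ok α B X) (v : Place k (Om k)) (P : (Ec α B).Point) :
    ∃ F : Finset (Om k), ∀ (K : IntermediateField k (Om k)), ↑F ⊆ (K : Set (Om k)) →
      ∀ (g : Om k ≃ₐ[k] Om k), (∀ a ∈ K, ∀ c : k, v.At a c → v.At (g a) c) →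
      ∀ (α' B' : Om k) (M' : Mp (Om k) m) (hα : g α = α') (hB : g B = B')
        (_ : M' = M.map (g : Om k →+* Om k)) (hM1 : M'.Ok α' B' X),
        hV hX hM1 v (conjE g hα hB P) = hV hX hM v P := by
  have hinf := infinite_points hM.disc
  obtain ⟨Q, hQ⟩ := ((finite_bad (α := α) (B := B) hM.ne).union
    ((finite_bad (α := α) (B := B) hM.ne).preimage (f := fun Q => P + Q)
      (add_right_injective P).injOn)).exists_notMem
  have hQ1 : M.Ns Q := by
    by_contra hc
    exact hQ (Or.inl hc)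
  have hQ2 : M.Ns (P + Q) := by
    by_contra hc
    exact hQ (Or.inr hc)
  obtain ⟨x₁, y₁, k₁, e₁⟩ : ∃ x y h, Q = .some x y h := by
    cases Q with
    | zero => exact hQ1.elim
    | some x y h => exact ⟨x, y, h, rfl⟩
  obtain ⟨x₂, y₂, k₂, e₂⟩ : ∃ x y h, P + Q = .some x y h := by
    generalize P + Q = R at hQ2
    cases R with
    | zero => exact hQ2.elim
    | some x y h => exact ⟨x, y, h, rfl⟩
  let F : Finset (Om k) := {x₁, y₁, x₂, y₂} ∪ Finset.univ.biUnion fun i =>
    (M.G i).support.image (M.G i).coeff ∪ (M.H i).support.image (M.H i).coeff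
  refine ⟨F, fun K hK g hg α' B' M' hα hB hM' hM1 => ?_⟩
  have hG : ∀ i n, (M.G i).coeff n ∈ K := by
    intro i n
    by_cases h : (M.G i).coeff n = 0
    · rw [h]
      exact zero_mem _
    · exact hK (Finset.mem_coe.2 (Finset.mem_union_right _ (Finset.mem_biUnion.2
        ⟨i, Finset.mem_univ i, Finset.mem_union_left _
          (Finset.mem_image_of_mem _ (Polynomial.mem_support_iff.2 h))⟩)))
  have hH : ∀ i n, (M.H i).coeff n ∈ K := by
    intro i n
    by_cases h : (M.H i).coeff n = 0
    · rw [h]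
      exact zero_mem _
    · exact hK (Finset.mem_coe.2 (Finset.mem_union_right _ (Finset.mem_biUnion.2
        ⟨i, Finset.mem_univ i, Finset.mem_union_right _
          (Finset.mem_image_of_mem _ (Polynomial.mem_support_iff.2 h))⟩)))
  have hs : ∀ z ∈ ({x₁, y₁, x₂, y₂} : Finset (Om k)), z ∈ K := fun z hz =>
    hK (Finset.mem_coe.2 (Finset.mem_union_left _ hz))
  have r₁ : M'.Ns (conjE g hα hB Q) ∧ lmp hX hM1 v (conjE g hα hB Q) = lmp hX hM v Q := by
    rw [e₁] at hQ1 ⊢
    exact lmp_conj hX hM v g hα hB hM' hM1 K hg (fun i n => ⟨hG i n, hH i n⟩)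
      (hs _ (by simp)) (hs _ (by simp)) hQ1
  have r₂ : M'.Ns (conjE g hα hB (P + Q)) ∧
      lmp hX hM1 v (conjE g hα hB (P + Q)) = lmp hX hM v (P + Q) := by
    rw [e₂] at hQ2 ⊢
    exact lmp_conj hX hM v g hα hB hM' hM1 K hg (fun i n => ⟨hG i n, hH i n⟩)
      (hs _ (by simp)) (hs _ (by simp)) hQ2
  rw [map_add] at r₂
  rw [← hV_spec hX hM v hQ1 hQ2, ← hV_spec hX hM1 v r₁.1 r₂.1, r₁.2, r₂.2]

end Pool.Agent.GT
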