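import Pool.Agent.GT.Tr
import Pool.Agent.GT.Conj

/-!
# Conjugation and the sums over all roots
-/

set_option autoImplicit false

noncomputable section

namespace Pool.Agent.GT

open Pool.Agent.ZCyc Pool.Agent.Dess Polynomial
open Pool.Agent.VFP (Om tt)
open scoped Classical LinearAlgebra.Projectivization

variable {k L : Type} [Field k] [IsAlgClosed k] [CharZero k] [Field L] [Algebra k L] {m : ℕ}
  {X : Set (MvPolynomial (Fin (m + 1)) k)}

omit [IsAlgClosed k] [CharZero k] in
/-- an automorphism which fixes the coefficients permutes the roots -/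
private theorem BadB0_mem {K A : Type} [Field K] [CommRing A] {d : GD A m}
    (hm : d.h.Monic) {S : A →+* K} (g : K ≃+* K) (hg : ∀ a, g (S a) = S a) {θ : K} :
    g θ ∈ d.rts S ↔ θ ∈ d.rts S := by
  have h0 : d.h.map S ≠ 0 := (hm.map S).ne_zero
  have h1 : (g : K →+* K).comp S = S := RingHom.ext hg
  simp only [GD.rts, Multiset.mem_toFinset, mem_roots h0, IsRoot.def, eval_map]
  have h2 : d.h.eval₂ S (g θ) = g (d.h.eval₂ S θ) := by
    have := Polynomial.hom_eval₂ d.h S (g : K →+* K) θ
    rw [h1] at this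
    exact this.symm
  rw [h2]
  exact map_eq_zero_iff g g.injective

omit [IsAlgClosed k] [CharZero k] in
/-- the map for the root `g θ` is the conjugate of the map for the root `θ` -/
private theorem BadB0_mp {K A : Type} [Field K] [CommRing A] (d : GD A m)
    {S : A →+* K} (g : K →+* K) (hg : ∀ a, g (S a) = S a) (θ : K) :
    d.mp S (g θ) = (d.mp S θ).map g := by
  have h : Polynomial.eval₂RingHom S (g θ) = g.comp (Polynomial.eval₂RingHom S θ) := by
    refine Polynomial.ringHom_ext (fun a => ?_) ?_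
    · simp [hg]
    · simp
  simp only [GD.mp, Mp.map, Polynomial.map_map, h]

/-- The sum of the limit homomorphisms is invariant: for every point `P` there is a finite set
`F` such that it has the same value at `P` and at its conjugate under `g`, if `g` preserves the
values at `v` of the elements of a field `K ⊇ F`, and `g` is the identity on `σ L`. Proof: `hV_conj`
for every root `θ` of `h`, `g` permutes the roots, and the map for `g θ` is the conjugate of the map
for `θ` because the coefficients are fixed. -/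
theorem TV_conj (hX : Hom X) {A : Subalgebra k L} {d : GD A m} (hd : d.Ok X)
    {σ : L →ₐ[k] Om k} (v : Place k (Om k))
    (P : (Ec ((σ.comp A.val) d.α) ((σ.comp A.val) d.B)).Point) :
    ∃ F : Finset (Om k), ∀ (K : IntermediateField k (Om k)), ↑F ⊆ (K : Set (Om k)) →
      ∀ (g : Om k ≃ₐ[k] Om k), (∀ a ∈ K, ∀ c : k, v.At a c → v.At (g a) c) →
      (∀ f : L, g (σ f) = σ f) →
      ∀ (hα : g ((σ.comp A.val) d.α) = (σ.comp A.val) d.α)
        (hB : g ((σ.comp A.val) d.B) = (σ.comp A.val) d.B),
        TV hX hd (σ.comp A.val) v (conjE g hα hB P) = TV hX hd (σ.comp A.val) v P := by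
  choose F hF using fun θ : {θ // θ ∈ d.rts ((σ.comp A.val : A →ₐ[k] Om k) : A →+* Om k)} =>
    hV_conj hX (hd.mp_ok (σ.comp A.val) θ.2) v P
  refine ⟨Finset.univ.biUnion F, fun K hK g hgv hgσ hα hB => ?_⟩
  have hgS : ∀ a : A, (g : Om k ≃+* Om k) (((σ.comp A.val : A →ₐ[k] Om k) : A →+* Om k) a) =
      ((σ.comp A.val : A →ₐ[k] Om k) : A →+* Om k) a := fun a => hgσ a
  let e : {θ // θ ∈ d.rts ((σ.comp A.val : A →ₐ[k] Om k) : A →+* Om k)} ≃
      {θ // θ ∈ d.rts ((σ.comp A.val : A →ₐ[k] Om k) : A →+* Om k)} :=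
    (g : Om k ≃ Om k).subtypeEquiv fun θ => (BadB0_mem hd.monic (g : Om k ≃+* Om k) hgS).symm
  simp only [TV, AddMonoidHom.finsetSum_apply]
  rw [← Equiv.sum_comp e]
  refine Finset.sum_congr rfl fun θ _ => ?_
  refine hF θ K (fun x hx => hK ?_) g hgv _ _ _ hα hB ?_ _
  · simp only [Finset.coe_biUnion, Set.mem_iUnion]
    exact ⟨θ, by simp, hx⟩
  · exact BadB0_mp d (g : Om k →+* Om k) hgS θ.1

end Pool.Agent.GT
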