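import Pool.Agent.GT.InertA

/-!
# Inertia
-/

set_option autoImplicit false

noncomputable section

namespace Pool.Agent.GT

open Pool.Agent.ZCyc Pool.Agent.Dess Polynomial
open Pool.Agent.VFP (Om tt)
open scoped Classical LinearAlgebra.Projectivization

variable {k L : Type} [Field k] [IsAlgClosed k] [CharZero k] [Field L] [Algebra k L]

omit [IsAlgClosed k] [CharZero k] in
/-- the elements of the field generated by `ρ` over `σ L` -/
private theorem inert_rep (σ : L →ₐ[k] Om k) {π : L} {n : ℕ} (hn : 0 < n) {ρ : Om k}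
    (hρ : ρ ^ n = σ π) {x : Om k} (hx : x ∈ IntermediateField.adjoin σ.fieldRange {ρ}) :
    ∃ f : Fin n → L, x = ∑ i, σ (f i) * ρ ^ (i : ℕ) := by
  let π' : σ.fieldRange := ⟨σ π, π, rfl⟩
  have hmon : (X ^ n - C π' : σ.fieldRange[X]).Monic := monic_X_pow_sub_C π' hn.ne'
  have h0 : aeval ρ (X ^ n - C π' : σ.fieldRange[X]) = 0 := by
    rw [map_sub, map_pow, aeval_X, aeval_C, hρ]
    exact sub_self _
  have halg : IsAlgebraic σ.fieldRange ρ := ⟨_, hmon.ne_zero, h0⟩
  have hx2 : x ∈ Algebra.adjoin σ.fieldRange {ρ} := by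
    rw [← IntermediateField.adjoin_simple_toSubalgebra_of_isAlgebraic halg]
    exact hx
  rw [Algebra.adjoin_singleton_eq_range_aeval] at hx2
  obtain ⟨p, hp⟩ := hx2
  have hp' : aeval ρ p = x := hp
  have hq : x = aeval ρ (p %ₘ (X ^ n - C π')) := by
    rw [← hp']
    conv_lhs => rw [← modByMonic_add_div p (X ^ n - C π')]
    rw [map_add, map_mul, h0, zero_mul, add_zero]
  have hdeg : (p %ₘ (X ^ n - C π')).natDegree < n := by
    have h1 : (X ^ n - C π' : σ.fieldRange[X]).natDegree = n := natDegree_X_pow_sub_C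
    have h2 := natDegree_modByMonic_lt p hmon (by
      intro h
      rw [h, natDegree_one] at h1
      omega)
    rwa [h1] at h2
  rw [aeval_eq_sum_range' hdeg] at hq
  have hc : ∀ i, ∃ y : L, σ y = ((p %ₘ (X ^ n - C π')).coeff i : Om k) := fun i =>
    ((p %ₘ (X ^ n - C π')).coeff i).2
  choose f hf using hc
  refine ⟨fun i => f i, ?_⟩
  rw [hq, Fin.sum_univ_eq_sum_range (fun i => σ (f i) * ρ ^ i) n]
  refine Finset.sum_congr rfl fun i _ => ?_
  rw [hf, Algebra.smul_def]
  rfl

omit [IsAlgClosed k] in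
/-- a subfield which contains the generators of a function field contains the function field -/
private theorem inert_gen {F : Type} [Field F] [Algebra k F] (s : F)
    [FiniteDimensional (IntermediateField.adjoin k {s}) F] (θ : F →ₐ[k] Om k)
    (T : IntermediateField k (Om k)) (hs : θ s ∈ T)
    (hb : ∀ j, θ (Module.finBasis (IntermediateField.adjoin k {s}) F j) ∈ T) (f : F) :
    θ f ∈ T := by
  set b := Module.finBasis (IntermediateField.adjoin k {s}) F with hbdef
  rw [← b.sum_repr f, map_sum]
  refine sum_mem fun i _ => ?_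
  have h1 : (b.repr f i) • b i = ((b.repr f i : IntermediateField.adjoin k {s}) : F) * b i := by
    rw [IntermediateField.smul_def, smul_eq_mul]
  rw [h1, map_mul]
  refine mul_mem ?_ (hb i)
  have h2 : IntermediateField.adjoin k {s} ≤ T.comap θ := by
    rw [IntermediateField.adjoin_le_iff]
    rintro _ rfl
    exact hs
  exact h2 (b.repr f i).2

/-- Inertia: the automorphism can be chosen such that it preserves the place `v` on a given function
field `K` in `Om k` (and acts trivially on the values). Proof. Let `L₁ = σ L (ρ)`, and `E` a finite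
Galois extension of `L₁` in `Om k` which contains `K` (the normal closure of `L₁ K` over `L₁`; it
is a function field, `IsCurve`), stable under all automorphisms over `L₁`. Let `g₁` be the
automorphism of `exists_aut`. By `val_sum_eq` `g₁` preserves the valuation of `v` on
`L₁` (every element is `∑ σ(f i) ρ ^ i`). So `v` and `v ∘ g₁` define two places of `E` which are equal on
`L₁`; by `Dess.galois_trans` there is an automorphism `τ` of `E` over `L₁` which maps one to the
other; extend it to `Om k`. The composition `g` of `g₁` and `τ` preserves `v` on `E`. If `a ∈ K` has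
the value `c` at `v` then `a - c` vanishes at `v`, and so does `g a - c`. -/
theorem inertia (hL : IsCurve k L) {σ : L →ₐ[k] Om k} {v : Place k (Om k)} {δ : Place k L}
    (hδ : v.ring.comap (σ : L →+* Om k) = δ.ring) {π : L} (hπ : IsUnif δ π) {n : ℕ} (hn : 0 < n)
    {ρ : Om k} (hρ : ρ ^ n = σ π) {ζ : k} (hζ : ζ ^ n = 1) (K : IntermediateField k (Om k))
    (hK : IsCurve k K) :
    ∃ g : Om k ≃ₐ[k] Om k, (∀ f : L, g (σ f) = σ f) ∧ g ρ = algebraMap k (Om k) ζ * ρ ∧
      ∀ a ∈ K, ∀ c : k, v.At a c → v.At (g a) c := by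
  obtain ⟨g₁, hg₁, hg₁ρ⟩ := exists_aut hL hδ hπ hn hρ hζ
  obtain ⟨t, ht, htfin⟩ := hL
  have hL : IsCurve k L := ⟨t, ht, htfin⟩
  obtain ⟨s, hs, hsfin⟩ := hK
  set ψ : Om k := σ t with hψdef
  have hψ : Transcendental k ψ := fun h =>
    ht ((isAlgebraic_algHom_iff σ (σ : L →+* Om k).injective).1 h)
  -- the normal closure
  have halg : Algebra.IsAlgebraic (IntermediateField.adjoin k {ψ}) (Om k) :=
    TInc.alg_adjoin hψ
  have : IsAlgClosure (IntermediateField.adjoin k {ψ}) (Om k) := ⟨inferInstance, inferInstance⟩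
  have : Normal (IntermediateField.adjoin k {ψ}) (Om k) := IsAlgClosure.normal _ _
  let b := Module.finBasis (IntermediateField.adjoin k {t}) L
  let b' := Module.finBasis (IntermediateField.adjoin k {s}) K
  let S : Set (Om k) := (Set.range fun i => σ (b i)) ∪ ({ρ, (s : Om k)} ∪
    Set.range fun i => ((b' i : K) : Om k))
  have hSfin : Finite S := by
    refine Set.Finite.to_subtype ?_
    exact (Set.finite_range _).union (((Set.finite_singleton _).insert _).union
      (Set.finite_range _))
  let M₀ : IntermediateField (IntermediateField.adjoin k {ψ}) (Om k) :=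
    IntermediateField.adjoin (IntermediateField.adjoin k {ψ}) S
  have : FiniteDimensional (IntermediateField.adjoin k {ψ}) M₀ :=
    IntermediateField.finiteDimensional_adjoin fun x _ => Algebra.IsIntegral.isIntegral x
  have hSM : ∀ x ∈ S, x ∈ M₀ := fun x hx => IntermediateField.subset_adjoin _ _ hx
  let N : IntermediateField (IntermediateField.adjoin k {ψ}) (Om k) :=
    IntermediateField.normalClosure (IntermediateField.adjoin k {ψ}) M₀ (Om k)
  have hM₀N : M₀ ≤ N := IntermediateField.le_normalClosure M₀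
  have : FiniteDimensional (IntermediateField.adjoin k {ψ}) N := inferInstance
  have : Normal (IntermediateField.adjoin k {ψ}) N := inferInstance
  let M : IntermediateField k (Om k) := N.restrictScalars k
  have hKM : IntermediateField.adjoin k {ψ} ≤ M := fun x hx => N.algebraMap_mem ⟨x, hx⟩
  have hψM : ψ ∈ M := hKM (IntermediateField.mem_adjoin_simple_self k ψ)
  have hσM : ∀ f : L, σ f ∈ M := fun f => inert_gen t σ M hψM
    (fun j => hM₀N (hSM _ (Or.inl ⟨j, rfl⟩))) f
  have hρM : ρ ∈ M := hM₀N (hSM _ (Or.inr (Or.inl (by simp))))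
  have hKM' : ∀ a : K, (a : Om k) ∈ M := fun a => inert_gen s K.val M
    (hM₀N (hSM _ (Or.inr (Or.inl (by simp)))))
    (fun j => hM₀N (hSM _ (Or.inr (Or.inr ⟨j, rfl⟩)))) a
  let E : IntermediateField k M := IntermediateField.restrict hKM
  have hE : E = IntermediateField.adjoin k {(⟨ψ, hψM⟩ : M)} := by
    apply IntermediateField.lift_injective M
    rw [IntermediateField.lift_restrict, IntermediateField.lift_adjoin_simple]
  let e₁ : IntermediateField.adjoin k {ψ} ≃+* E :=
    (IntermediateField.restrictAlgEquiv hKM).toRingEquiv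
  let e₂ : N ≃+* M :=
    { toFun := fun x => ⟨x.1, x.2⟩
      invFun := fun x => ⟨x.1, x.2⟩
      left_inv := fun _ => rfl
      right_inv := fun _ => rfl
      map_mul' := fun _ _ => rfl
      map_add' := fun _ _ => rfl }
  have he : (algebraMap E M).comp (e₁ : IntermediateField.adjoin k {ψ} →+* E) =
      (e₂ : N →+* M).comp (algebraMap (IntermediateField.adjoin k {ψ}) N) := by
    ext x
    rfl
  have hfinE : FiniteDimensional E M := Module.Finite.of_equiv_equiv e₁ e₂ he
  have hnorE : Normal E M := Normal.of_equiv_equiv (f := e₁) (g := e₂) he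
  have hgalE : IsGalois E M := ⟨⟩
  have hcurve : IsCurve k M := by
    refine ⟨⟨ψ, hψM⟩, ?_, ?_⟩
    · intro h
      exact hψ (h.algHom M.val)
    · rw [← hE]
      exact hfinE
  -- the field generated by `ρ`
  let L₁ : IntermediateField k (Om k) :=
    (IntermediateField.adjoin σ.fieldRange {ρ}).restrictScalars k
  have hL₁M : L₁ ≤ M := by
    intro x hx
    obtain ⟨f, rfl⟩ := inert_rep σ hn hρ hx
    exact sum_mem fun i _ => mul_mem (hσM _) (pow_mem hρM _)
  have hψL₁ : IntermediateField.adjoin k {ψ} ≤ L₁ := by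
    rw [IntermediateField.adjoin_le_iff]
    rintro _ rfl
    exact (IntermediateField.adjoin σ.fieldRange {ρ}).algebraMap_mem ⟨σ t, t, rfl⟩
  let E₁ : IntermediateField k M := IntermediateField.restrict hL₁M
  have hEE₁ : E ≤ E₁ := by
    intro x hx
    rw [IntermediateField.mem_restrict] at hx ⊢
    exact hψL₁ hx
  let : Algebra E E₁ := (IntermediateField.inclusion hEE₁).toAlgebra
  have : IsScalarTower E E₁ M := IsScalarTower.of_algebraMap_eq fun _ => rfl
  have hfinE₁ : FiniteDimensional E₁ M := FiniteDimensional.right E E₁ M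
  have hgalE₁ : IsGalois E₁ M := IsGalois.tower_top_of_isGalois E E₁ M
  -- the places
  obtain ⟨v', hv'⟩ := TInc.exists_below hcurve v M.val
  obtain ⟨V', hV'⟩ := TInc.exists_below hcurve (v.map g₁.symm) M.val
  have hv'mem : ∀ f : M, f ∈ v'.ring ↔ (f : Om k) ∈ v.ring := fun f => by
    rw [← hv']
    exact ValuationSubring.mem_comap
  have hV'mem : ∀ f : M, f ∈ V'.ring ↔ g₁ (f : Om k) ∈ v.ring := fun f => by
    rw [← hV']
    exact ValuationSubring.mem_comap
  have hsame : ∀ x ∈ L₁, (x ∈ v.ring ↔ g₁ x ∈ v.ring) := by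
    intro x hx
    obtain ⟨f, rfl⟩ := inert_rep σ hn hρ hx
    have h1 := val_sum_eq hL hδ hπ hn hρ hζ f
    have h2 : g₁ (∑ i, σ (f i) * ρ ^ (i : ℕ)) =
        ∑ i, σ (f i) * (algebraMap k (Om k) ζ * ρ) ^ (i : ℕ) := by
      rw [map_sum]
      refine Finset.sum_congr rfl fun i _ => ?_
      rw [map_mul, map_pow, hg₁, hg₁ρ]
    rw [h2, ← ValuationSubring.valuation_le_one_iff, ← ValuationSubring.valuation_le_one_iff, h1]
  obtain ⟨τ, hτ, hτv⟩ := galois_trans hcurve E₁ v' V' (by
    intro f hf
    rw [hv'mem, hV'mem]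
    exact hsame _ ((IntermediateField.mem_restrict hL₁M f).1 hf))
  -- the extension of `τ`
  let : Algebra (IntermediateField.adjoin k {ψ}) M :=
    (IntermediateField.inclusion hKM).toAlgebra
  have : IsScalarTower (IntermediateField.adjoin k {ψ}) M (Om k) :=
    IsScalarTower.of_algebraMap_eq fun _ => rfl
  have halgM : Algebra.IsAlgebraic M (Om k) :=
    Algebra.IsAlgebraic.tower_top (K := IntermediateField.adjoin k {ψ}) M
  have hclM : IsAlgClosure M (Om k) := ⟨inferInstance, halgM⟩
  let T : Om k ≃+* Om k := IsAlgClosure.equivOfEquiv (Om k) (Om k) (τ : M ≃+* M)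
  have hT : ∀ x : M, T (x : Om k) = ((τ x : M) : Om k) := fun x =>
    IsAlgClosure.equivOfEquiv_algebraMap (Om k) (Om k) (τ : M ≃+* M) x
  let T' : Om k ≃ₐ[k] Om k := AlgEquiv.ofRingEquiv (f := T) fun c => by
    have h1 := hT (algebraMap k M c)
    rw [τ.commutes] at h1
    exact h1
  have hT' : ∀ x : M, T' (x : Om k) = ((τ x : M) : Om k) := hT
  have hfix : ∀ x (hx : x ∈ L₁), T' x = x := by
    intro x hx
    have h1 := hT' ⟨x, hL₁M hx⟩
    rw [hτ _ ((IntermediateField.mem_restrict hL₁M _).2 hx)] at h1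
    exact h1
  have key : ∀ x ∈ M, (g₁ (T' x) ∈ v.ring ↔ x ∈ v.ring) := by
    intro x hx
    have h1 := hT' ⟨x, hx⟩
    rw [h1, ← hV'mem, ← hτv, Place.mem_map, AlgEquiv.symm_apply_apply, hv'mem]
  refine ⟨T'.trans g₁, fun f => ?_, ?_, fun a ha c hac => ?_⟩
  · have h1 : T' (σ f) = σ f := hfix _
      ((IntermediateField.adjoin σ.fieldRange {ρ}).algebraMap_mem ⟨σ f, f, rfl⟩)
    rw [AlgEquiv.trans_apply, h1, hg₁]
  · have h1 : T' ρ = ρ := hfix _ (IntermediateField.mem_adjoin_simple_self _ ρ)
    rw [AlgEquiv.trans_apply, h1, hg₁ρ]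
  · unfold Place.At at hac ⊢
    have haM : a - algebraMap k (Om k) c ∈ M := M.sub_mem (hKM' ⟨a, ha⟩) (M.algebraMap_mem c)
    have h1 : (T'.trans g₁) a - algebraMap k (Om k) c =
        (T'.trans g₁) (a - algebraMap k (Om k) c) := by
      rw [map_sub, AlgEquiv.commutes]
    rw [h1]
    rw [Place.vanishes_iff_or] at hac ⊢
    rcases hac with h2 | h2
    · left
      rw [h2, map_zero]
    · right
      intro h3
      apply h2
      rw [← map_inv₀] at h3
      exact (key _ (M.inv_mem haM)).1 h3

end Pool.Agent.GT
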