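import Pool.Agent.GT.BadA
import Pool.Agent.GT.BadB0
import Pool.Agent.GT.Inert
import Pool.Agent.GT.Aut

/-!
# Places with additive, potentially good reduction
-/

set_option autoImplicit false

noncomputable section

namespace Pool.Agent.GT

open Pool.Agent.ZCyc Pool.Agent.Dess Polynomial
open Pool.Agent.VFP (Om tt)
open scoped Classical LinearAlgebra.Projectivization

variable {k L : Type} [Field k] [IsAlgClosed k] [CharZero k] [Field L] [Algebra k L] {m : ℕ}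
  {X : Set (MvPolynomial (Fin (m + 1)) k)}

/-- the automorphism `g` with `g c = ζ c` -/
private theorem badB_aut (hX : Hom X) (hL : IsCurve k L) {σ : L →ₐ[k] Om k}
    {v : Place k (Om k)} {δ : Place k L} (hδ : v.ring.comap (σ : L →+* Om k) = δ.ring) {π : L}
    (hπ : IsUnif δ π) {ρ : Om k} (hρ : ρ ^ 12 = σ π) {ζ₁ : k} (hζ : ζ₁ ^ 12 = 1) (κ : ℤ)
    (Γ : Finset (Om k)) :
    ∃ (K : IntermediateField k (Om k)) (g : Om k ≃ₐ[k] Om k), ↑Γ ⊆ (K : Set (Om k)) ∧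
      (∀ a ∈ K, ∀ c : k, v.At a c → v.At (g a) c) ∧ (∀ f : L, g (σ f) = σ f) ∧
      g (ρ ^ κ) = algebraMap k (Om k) (ζ₁ ^ κ) * ρ ^ κ := by
  obtain ⟨K, -, hK, hΓ, -, -⟩ := exists_field hX Γ (J := Empty) (fun e => e.elim)
  obtain ⟨g, h1, h2, h3⟩ := inertia hL hδ hπ (n := 12) (by norm_num) hρ hζ K hK
  refine ⟨K, g, hΓ, h3, h1, ?_⟩
  rw [map_zpow₀, h2, mul_zpow, map_zpow₀]

/-- Additive, potentially good reduction: `ρ ^ 12 = σ π`, `c = ρ ^ κ`, where `κ` is not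
divisible by `12`. Proof: let `T` be the homomorphism of `TV_good`, `ζ₁` a primitive 12-th root of
unity, `ζ = ζ₁ ^ κ ≠ 1`. Let `p = (x', y')` be a point over `k`, `Q = (x, y)` a lift
(`exists_lift`), and `P` the point with `sclE P = Q`. Let `K` be a function field in `Om k`
(`exists_field`) which contains the set `F` of `TV_conj`, and `x`, `y`, `σ α / c ⁴`, `σ B / c ⁶`, and
`g` the automorphism of `inertia` for `ζ₁` and `K`; `g c = ζ c`. The conjugate of `P` has the scaled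
coordinates `ζ ² g x`, `ζ ³ g y`, with the values `ζ ² x'`, `ζ ³ y'`. So
`T (ζ ² x', ζ ³ y') = T (x', y')`. In the same way `ζ ^ (-4) a = a`, `ζ ^ (-6) b = b` because
`g (σ α / c ⁴) = ζ ^ (-4) σ α / c ⁴`. By `aut_zero` `T = 0`. -/
theorem TV_additive (hX : Hom X) (hL : IsCurve k L) {A : Subalgebra k L} {d : GD A m}
    (hd : d.Ok X) {σ : L →ₐ[k] Om k} {v : Place k (Om k)} {δ : Place k L}
    (hδ : v.ring.comap (σ : L →+* Om k) = δ.ring) {π : L} (hπ : IsUnif δ π) {ρ : Om k}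
    (hρ : ρ ^ 12 = σ π) {κ : ℤ} (hκ : ¬ (12 : ℤ) ∣ κ) {a b : k}
    (ha : v.At (σ d.α / (ρ ^ κ) ^ 4) a) (hb : v.At (σ d.B / (ρ ^ κ) ^ 6) b)
    (hab : b ^ 2 ≠ 4 * a ^ 3)
    (P : (Ec ((σ.comp A.val) d.α) ((σ.comp A.val) d.B)).Point) :
    TV hX hd (σ.comp A.val) v P = 0 := by
  have hρ0 : ρ ≠ 0 := by
    rintro rfl
    rw [zero_pow (by norm_num)] at hρ
    exact hπ.1 ((map_eq_zero σ).1 hρ.symm)
  set c : Om k := ρ ^ κ with hcdef
  have hc : c ≠ 0 := zpow_ne_zero _ hρ0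
  revert P
  set S : A →ₐ[k] Om k := σ.comp A.val with hS
  intro P
  have hdisc : S d.B ^ 2 ≠ 4 * S d.α ^ 3 := by
    intro h
    have h1 := (hd.disc.map (S : A →+* Om k)).ne_zero
    apply h1
    change S (d.B ^ 2 - 4 * d.α ^ 3) = 0
    rw [map_sub, map_mul, map_pow, map_pow, map_ofNat, h, sub_self]
  have ha : v.At (S d.α / c ^ 4) a := ha
  have hb : v.At (S d.B / c ^ 6) b := hb
  obtain ⟨T, hT⟩ := TV_good hX hd hc ha hb hab hdisc
  obtain ⟨p, hp⟩ := exists_pred ha hb hab (sclE hdisc hc P)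
  rw [hT P p hp]
  obtain ⟨ζ₁, hζ₁⟩ : ∃ ζ₁ : k, IsPrimitiveRoot ζ₁ 12 := by
    have := HasEnoughRootsOfUnity.exists_primitiveRoot k 12
    exact this
  have hζ12 : (ζ₁ ^ κ) ^ 12 = 1 := by
    rw [← zpow_natCast, ← zpow_mul, mul_comm, zpow_mul, zpow_natCast, hζ₁.pow_eq_one, one_zpow]
  have hζne : ζ₁ ^ κ ≠ 1 := by
    intro h
    apply hκ
    exact_mod_cast (hζ₁.zpow_eq_one_iff_dvd κ).1 h
  set ζ : k := ζ₁ ^ κ with hζdef
  have hab' : ζ ^ 4 * a = a ∧ ζ ^ 6 * b = b := by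
    obtain ⟨K, g, h1, h2, h3, h4⟩ := badB_aut hX hL hδ hπ hρ hζ₁.pow_eq_one κ
      {S d.α / c ^ 4, S d.B / c ^ 6}
    rw [← hcdef, ← hζdef] at h4
    have hζ0 : algebraMap k (Om k) ζ ≠ 0 := by
      rw [Ne, map_eq_zero]
      intro h
      rw [h] at hζ12
      norm_num at hζ12
    have e1 : g (S d.α) = S d.α := h3 d.α
    have e2 : g (S d.B) = S d.B := h3 d.B
    have hα0 : S d.α / c ^ 4 ∈ K := h1 (by simp)
    have hB0 : S d.B / c ^ 6 ∈ K := h1 (by simp)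
    have k1 := h2 _ hα0 a ha
    have k2 := h2 _ hB0 b hb
    rw [map_div₀, map_pow, e1, h4] at k1
    rw [map_div₀, map_pow, e2, h4] at k2
    have k3 := ((Place.at_const (v := v) ζ).pow 4).mul k1
    have k4 := ((Place.at_const (v := v) ζ).pow 6).mul k2
    have e3 : algebraMap k (Om k) ζ ^ 4 * (S d.α / (algebraMap k (Om k) ζ * c) ^ 4) =
        S d.α / c ^ 4 := by
      field_simp
    have e4 : algebraMap k (Om k) ζ ^ 6 * (S d.B / (algebraMap k (Om k) ζ * c) ^ 6) =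
        S d.B / c ^ 6 := by
      field_simp
    rw [e3] at k3
    rw [e4] at k4
    exact ⟨k3.unique ha, k4.unique hb⟩
  refine aut_zero hab hζne hζ12 hab'.1 hab'.2 T ?_ p
  intro x' y' h' h''
  obtain ⟨Q, hQ⟩ := exists_lift ha hb hab (.some x' y' h' : (Ec a b).Point)
  set P₀ := (sclE hdisc hc).symm Q with hP₀
  have hPQ : sclE hdisc hc P₀ = Q := (sclE hdisc hc).apply_symm_apply Q
  rcases hP0 : P₀ with _ | ⟨x₀, y₀, n₀⟩
  · exfalso
    rw [hP0] at hPQ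
    have h1 : Q = 0 := by
      rw [← hPQ]
      exact map_zero (sclE hdisc hc)
    rw [h1] at hQ
    exact hQ
  · rw [hP0] at hPQ
    obtain ⟨F, hF⟩ := TV_conj hX hd v (.some x₀ y₀ n₀ : (Ec (S d.α) (S d.B)).Point)
    obtain ⟨n₁, hn₁⟩ := sclE_some hdisc hc x₀ y₀ n₀
    rw [hn₁] at hPQ
    rw [← hPQ] at hQ
    obtain ⟨hx, hy⟩ := hQ
    obtain ⟨K, g, h1, h2, h3, h4⟩ := badB_aut hX hL hδ hπ hρ hζ₁.pow_eq_one κ
      (F ∪ {x₀ / c ^ 2, y₀ / c ^ 3})
    rw [← hcdef, ← hζdef] at h4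
    have e1 : g (S d.α) = S d.α := h3 d.α
    have e2 : g (S d.B) = S d.B := h3 d.B
    have hFK : ↑F ⊆ (K : Set (Om k)) := fun z hz => h1 (by
      rw [Finset.coe_union]
      exact Or.inl hz)
    have k1 := hF K hFK g h2 h3 e1 e2
    obtain ⟨n₂, hn₂⟩ := conjE_some g e1 e2 x₀ y₀ n₀
    rw [hn₂] at k1
    obtain ⟨n₃, hn₃⟩ := sclE_some hdisc hc (g x₀) (g y₀) n₂
    have hxK : x₀ / c ^ 2 ∈ K := h1 (by simp)
    have hyK : y₀ / c ^ 3 ∈ K := h1 (by simp)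
    have gx := h2 _ hxK x' hx
    have gy := h2 _ hyK y' hy
    rw [map_div₀, map_pow, h4] at gx
    rw [map_div₀, map_pow, h4] at gy
    have hζ0 : algebraMap k (Om k) ζ ≠ 0 := by
      rw [Ne, map_eq_zero]
      intro h
      rw [h] at hζ12
      norm_num at hζ12
    have k3 := ((Place.at_const (v := v) ζ).pow 2).mul gx
    have k4 := ((Place.at_const (v := v) ζ).pow 3).mul gy
    have e3 : algebraMap k (Om k) ζ ^ 2 * (g x₀ / (algebraMap k (Om k) ζ * c) ^ 2) =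
        g x₀ / c ^ 2 := by
      field_simp
    have e4 : algebraMap k (Om k) ζ ^ 3 * (g y₀ / (algebraMap k (Om k) ζ * c) ^ 3) =
        g y₀ / c ^ 3 := by
      field_simp
    rw [e3] at k3
    rw [e4] at k4
    have r1 := hT (.some (g x₀) (g y₀) n₂) (.some (ζ ^ 2 * x') (ζ ^ 3 * y') h'') (by
      rw [hn₃]
      exact ⟨k3, k4⟩)
    have r2 := hT (.some x₀ y₀ n₀) (.some x' y' h') (by
      rw [hn₁]
      exact ⟨hx, hy⟩)
    rw [← r1, ← r2]
    exact k1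

end Pool.Agent.GT
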