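import Pool.Agent.GT.Defs

/-!
# Places with bad reduction: definition
-/

set_option autoImplicit false

noncomputable section

namespace Pool.Agent.GT

open Pool.Agent.ZCyc Pool.Agent.Dess Polynomial
open scoped Classical LinearAlgebra.Projectivization

variable {k L : Type} [Field k] [Field L] [Algebra k L]

/-- The curve `y ² = x ³ - 3 α x + B` has bad reduction at the place `δ`. -/
def BadAt (δ : Place k L) (α B : L) : Prop :=
  ∀ u : L, u ≠ 0 → ¬ (u ^ 4 * α ∈ δ.ring ∧ u ^ 6 * B ∈ δ.ring ∧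
    (u ^ 12 * (B ^ 2 - 4 * α ^ 3))⁻¹ ∈ δ.ring)

end Pool.Agent.GT
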