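import Pool.Agent.GT.BadB
import Pool.Agent.GT.BadDef
import Pool.Agent.TInc.Ord

/-!
# Places with bad reduction
-/

set_option autoImplicit false

noncomputable section

namespace Pool.Agent.GT

open Pool.Agent.ZCyc Pool.Agent.Dess Polynomial
open Pool.Agent.VFP (Om tt)
open scoped Classical LinearAlgebra.Projectivization

variable {k L : Type} [Field k] [IsAlgClosed k] [CharZero k] [Field L] [Algebra k L] {m : ℕ}
  {X : Set (MvPolynomial (Fin (m + 1)) k)}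

/-- valuation rings are closed under roots -/
private theorem BadC_pow {F : Type} [Field F] (V : ValuationSubring F) {x : F} {n : ℕ}
    (h : x ^ (n + 1) ∈ V) : x ∈ V := by
  rcases V.mem_or_inv_mem x with h1 | h1
  · exact h1
  · by_cases hx : x = 0
    · rw [hx]
      exact zero_mem _
    · have h2 := mul_mem h (pow_mem h1 n)
      have h3 : x ^ (n + 1) * x⁻¹ ^ n = x := by
        rw [pow_succ, inv_pow]
        field_simp
      rwa [h3] at h2

/-- the case `ord x ≤ ord y` -/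
private theorem BadC_le (hL : IsCurve k L) {δ : Place k L} {π : L} (hπ : IsUnif δ π) {x y : L}
    (hx : x ≠ 0) (hxy : y ≠ 0 → TInc.ord δ x ≤ TInc.ord δ y) :
    x / π ^ TInc.ord δ x ∈ δ.ring ∧ y / π ^ TInc.ord δ x ∈ δ.ring ∧
      (x ≠ 0 ∧ (x / π ^ TInc.ord δ x)⁻¹ ∈ δ.ring) := by
  obtain ⟨h1, h2⟩ := TInc.ord_unit hL hπ hx
  refine ⟨h1, ?_, hx, h2⟩
  by_cases hy : y = 0
  · rw [hy, zero_div]
    exact zero_mem _
  · have hz : π ^ TInc.ord δ x ≠ 0 := zpow_ne_zero _ hπ.1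
    rw [TInc.mem_iff_ord hL (div_ne_zero hy hz), div_eq_mul_inv,
      TInc.ord_mul hL δ hy (inv_ne_zero hz), TInc.ord_inv hL, TInc.ord_zpow hL,
      TInc.ord_unif hL hπ]
    have := hxy hy
    omega

/-- the minimum of the orders of two functions -/
private theorem BadC_min (hL : IsCurve k L) {δ : Place k L} {π : L} (hπ : IsUnif δ π) {x y : L}
    (hxy : ¬ (x = 0 ∧ y = 0)) :
    ∃ κ : ℤ, x / π ^ κ ∈ δ.ring ∧ y / π ^ κ ∈ δ.ring ∧
      ((x ≠ 0 ∧ (x / π ^ κ)⁻¹ ∈ δ.ring) ∨ (y ≠ 0 ∧ (y / π ^ κ)⁻¹ ∈ δ.ring)) := by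
  by_cases hx : x ≠ 0 ∧ (y ≠ 0 → TInc.ord δ x ≤ TInc.ord δ y)
  · obtain ⟨h1, h2, h3⟩ := BadC_le hL hπ hx.1 hx.2
    exact ⟨_, h1, h2, Or.inl h3⟩
  · have hy : y ≠ 0 ∧ (x ≠ 0 → TInc.ord δ y ≤ TInc.ord δ x) := by
      by_cases hx0 : x = 0
      · exact ⟨fun h => hxy ⟨hx0, h⟩, fun h => (h hx0).elim⟩
      · by_cases hy0 : y = 0
        · exact (hx ⟨hx0, fun h => (h hy0).elim⟩).elim
        · refine ⟨hy0, fun _ => ?_⟩
          by_contra hc
          exact hx ⟨hx0, fun _ => by omega⟩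
    obtain ⟨h1, h2, h3⟩ := BadC_le hL hπ hy.1 hy.2
    exact ⟨_, h2, h1, Or.inr h3⟩

/-- Bad reduction: the sum of the limit homomorphisms is zero. Proof: `π` a uniformizer at `δ`,
`κ` the minimum of `3 ord α` and `2 ord B` (of one of them if the other coefficient is zero; they are
not both zero by `hd.disc`), `ρ ^ 12 = σ π`, `c = ρ ^ κ`. The elements `(σ α / c ⁴) ³ = σ (α ³ / π ^ κ)` and
`(σ B / c ⁶) ² = σ (B ² / π ^ κ)` are in the ring of `v`, so `σ α / c ⁴` and `σ B / c ⁶` have values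
`a`, `b`, not both zero. If `b ² = 4 a ³` then `a ≠ 0` and `TV_nodal` applies. Otherwise `κ` is not
divisible by `12`: if `κ = 12 n` then `u = π ^ (-n)` contradicts `BadAt` (`u ⁴ α`, `u ⁶ B` have
the images `σ α / c ⁴`, `σ B / c ⁶`); so `TV_additive` applies. -/
theorem TV_bad (hX : Hom X) (hL : IsCurve k L) {A : Subalgebra k L} {d : GD A m}
    (hd : d.Ok X) {σ : L →ₐ[k] Om k} {v : Place k (Om k)} {δ : Place k L}
    (hδ : v.ring.comap (σ : L →+* Om k) = δ.ring) (hbad : BadAt δ (d.α : L) (d.B : L))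
    (P : (Ec ((σ.comp A.val) d.α) ((σ.comp A.val) d.B)).Point) :
    TV hX hd (σ.comp A.val) v P = 0 := by
  obtain ⟨π, hπ⟩ := exists_unif hL δ
  have hmem : ∀ f : L, f ∈ δ.ring ↔ σ f ∈ v.ring := by
    intro f
    rw [← hδ]
    exact Iff.rfl
  have hdisc : (d.B : L) ^ 2 - 4 * (d.α : L) ^ 3 ≠ 0 := by
    have h := (hd.disc.map A.val).ne_zero
    rw [map_sub, map_mul, map_pow, map_pow, map_ofNat] at h
    exact h
  obtain ⟨κ, hκ1, hκ2, hκ3⟩ := BadC_min hL hπ (x := (d.α : L) ^ 3) (y := (d.B : L) ^ 2) (by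
    rintro ⟨h1, h2⟩
    apply hdisc
    rw [h1, h2]
    ring)
  obtain ⟨ρ, hρ⟩ := IsAlgClosed.exists_pow_nat_eq (σ π) (n := 12) (by norm_num)
  have hπ0 : σ π ≠ 0 := by
    intro h
    exact hπ.1 ((map_eq_zero_iff σ σ.injective).1 h)
  have hρ0 : ρ ≠ 0 := by
    rintro rfl
    apply hπ0
    rw [← hρ]
    norm_num
  have hc : ρ ^ κ ≠ 0 := zpow_ne_zero _ hρ0
  have hc12 : (ρ ^ κ) ^ 12 = σ (π ^ κ) := by
    rw [map_zpow₀, ← hρ, ← zpow_natCast, ← zpow_natCast, ← zpow_mul, ← zpow_mul, mul_comm]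
  have hA : (σ (d.α : L) / (ρ ^ κ) ^ 4) ^ 3 = σ ((d.α : L) ^ 3 / π ^ κ) := by
    rw [div_pow, ← pow_mul, hc12, map_div₀, map_pow]
  have hB : (σ (d.B : L) / (ρ ^ κ) ^ 6) ^ 2 = σ ((d.B : L) ^ 2 / π ^ κ) := by
    rw [div_pow, ← pow_mul, hc12, map_div₀, map_pow]
  obtain ⟨a, ha⟩ := DCI57.exists_at v (BadC_pow v.ring (n := 2) (by
    rw [hA]; exact (hmem _).1 hκ1))
  obtain ⟨b, hb⟩ := DCI57.exists_at v (BadC_pow v.ring (n := 1) (by
    rw [hB]; exact (hmem _).1 hκ2))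
  have ha' : v.At (σ (d.α : L) / (ρ ^ κ) ^ 4) a := ha
  have hb' : v.At (σ (d.B : L) / (ρ ^ κ) ^ 6) b := hb
  by_cases hab : b ^ 2 = 4 * a ^ 3
  · refine TV_nodal hX hd (S := σ.comp A.val) hc ha' hb' hab ?_ P
    rintro rfl
    have hb0 : b = 0 := by
      have : b ^ 2 = 0 := by rw [hab]; ring
      exact pow_eq_zero_iff (two_ne_zero) |>.1 this
    rcases hκ3 with ⟨h0, h1⟩ | ⟨h0, h1⟩
    · have h2 := ha'.pow 3
      rw [zero_pow three_ne_zero, Place.at_zero_iff, hA, Place.vanishes_iff_or] at h2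
      rcases h2 with h2 | h2
      · exact div_ne_zero h0 (zpow_ne_zero _ hπ.1) ((map_eq_zero_iff σ σ.injective).1 h2)
      · apply h2
        rw [← map_inv₀]
        exact (hmem _).1 h1
    · have h2 := hb'.pow 2
      rw [hb0, zero_pow two_ne_zero, Place.at_zero_iff, hB, Place.vanishes_iff_or] at h2
      rcases h2 with h2 | h2
      · exact div_ne_zero h0 (zpow_ne_zero _ hπ.1) ((map_eq_zero_iff σ σ.injective).1 h2)
      · apply h2
        rw [← map_inv₀]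
        exact (hmem _).1 h1
  · refine TV_additive hX hL hd hδ hπ hρ (κ := κ) ?_ ha' hb' hab P
    rintro ⟨n, rfl⟩
    have hn : ρ ^ (12 * n) = σ (π ^ n) := by
      rw [zpow_mul, map_zpow₀, ← hρ]
      norm_cast
    have hu : π ^ (-n) ≠ 0 := zpow_ne_zero _ hπ.1
    have h4 : σ ((π ^ (-n)) ^ 4 * (d.α : L)) = σ (d.α : L) / (ρ ^ (12 * n)) ^ 4 := by
      rw [hn, zpow_neg, map_mul, map_pow, map_inv₀, inv_pow]
      ring
    have h6 : σ ((π ^ (-n)) ^ 6 * (d.B : L)) = σ (d.B : L) / (ρ ^ (12 * n)) ^ 6 := by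
      rw [hn, zpow_neg, map_mul, map_pow, map_inv₀, inv_pow]
      ring
    refine hbad _ hu ⟨?_, ?_, ?_⟩
    · rw [hmem, h4]
      exact ha'.mem
    · rw [hmem, h6]
      exact hb'.mem
    · have h12 : (π ^ (-n)) ^ 12 * ((d.B : L) ^ 2 - 4 * (d.α : L) ^ 3) =
          ((π ^ (-n)) ^ 6 * (d.B : L)) ^ 2 - 4 * ((π ^ (-n)) ^ 4 * (d.α : L)) ^ 3 := by
        ring
      have h7 : v.At (σ ((π ^ (-n)) ^ 12 * ((d.B : L) ^ 2 - 4 * (d.α : L) ^ 3)))
          (b ^ 2 - 4 * a ^ 3) := by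
        rw [h12, map_sub, map_mul, map_pow, map_pow, h4, h6]
        refine (hb'.pow 2).sub ?_
        have h8 := (Place.at_const (v := v) (4 : k)).mul (ha'.pow 3)
        rw [map_ofNat] at h8
        rw [map_ofNat]
        exact h8
      rw [hmem, map_inv₀]
      exact (h7.inv (sub_ne_zero.2 hab)).mem

end Pool.Agent.GT
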