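import Pool.Agent.GT.Defs

/-!
# Zero-cycles which are rationally equivalent to zero: definition
-/

set_option autoImplicit false

noncomputable section

namespace Pool.Agent.GT

open Pool.Agent.ZCyc Pool.Agent.Dess Polynomial
open scoped Classical LinearAlgebra.Projectivization

variable {k : Type} [Field k] {m : ℕ}

/-- The zero-cycles on the variety itself which are rationally equivalent to zero. -/
def Rat1 (X : Set (MvPolynomial (Fin (m + 1)) k)) : Submodule ℚ (Pt X k →₀ ℚ) :=
  (Rat X Unit).comap (Finsupp.lmapDomain ℚ ℚ fun x _ => x)

end Pool.Agent.GT
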