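import Pool.Agent.GT.Sft
import Pool.Agent.GT.Rat1Def

/-!
# Varieties which are covered by curves of genus one
-/

set_option autoImplicit false

noncomputable section

namespace Pool.Agent.GT

open Pool.Agent.ZCyc Pool.Agent.Dess Polynomial
open Pool.Agent.VFP (Om tt)
open scoped Classical LinearAlgebra.Projectivization
open Pool.Agent.TInc

variable {k L : Type} [Field k] [Field L] [Algebra k L] {m : ℕ}
  {X : Set (MvPolynomial (Fin (m + 1)) k)}

/-- The points `P a` are the values at the place `v` of the images `φ_θ(x, y)` of a point `(x, y)` of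
the elliptic curve, for all the roots `θ a` of `h`. -/
structure IsVals (d : GD L m) (X : Set (MvPolynomial (Fin (m + 1)) k)) {K : Type} [Field K]
    [Algebra k K] (σ : L →ₐ[k] K) (v : Place k K) {e : ℕ} (θ : Fin e → K) (x y : K)
    (P : Fin e → Pt X k) : Prop where
  roots : d.h.map (σ : L →+* K) = ∏ a, (Polynomial.X - Polynomial.C (θ a))
  on : y ^ 2 = x ^ 3 - 3 * σ d.α * x + σ d.B
  val : ∀ a, ∃ l : K, ∀ i, v.At (l * (d.mp (σ : L →+* K) (θ a)).co x y i) ((P a).1.rep i)

/-- The zero-cycles `∑ a, [P a]` of these values, over all curves (with the function field `K`) with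
a map to the base curve (`σ`). -/
def ValCyc (d : GD L m) (X : Set (MvPolynomial (Fin (m + 1)) k)) : Set (Pt X k →₀ ℚ) :=
  {z | ∃ (K : Type) (_ : Field K) (_ : Algebra k K) (_ : IsCurve k K) (σ : L →ₐ[k] K)
    (v : Place k K) (e : ℕ) (θ : Fin e → K) (x y : K) (P : Fin e → Pt X k),
    IsVals d X σ v θ x y P ∧ z = ∑ a, Finsupp.single (P a) 1}

/-- Some multisection has constant values: there are points `(x i, y i)` of the elliptic curve over a
finite extension `K` of `L`, such that the sum of all values at the place `v` is rationally equivalent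
to the same cycle `z₀` for almost all places `v` of `K`. -/
def ConstSec (d : GD L m) (X : Set (MvPolynomial (Fin (m + 1)) k)) : Prop :=
  ∃ (K : Type) (_ : Field K) (_ : Algebra k K) (_ : IsCurve k K) (σ : L →ₐ[k] K)
    (e r : ℕ) (θ : Fin e → K) (x y : Fin r → K) (z₀ : Pt X k →₀ ℚ) (T : Finset (Place k K)),
    0 < r ∧ 0 < e ∧ ∀ v ∉ T, ∃ P : Fin r → Fin e → Pt X k,
      (∀ i, IsVals d X σ v θ (x i) (y i) (P i)) ∧
      ∑ i, ∑ a, Finsupp.single (P i a) 1 - z₀ ∈ Rat1 X

theorem mem_rat1 {z : Pt X k →₀ ℚ} : z ∈ Rat1 X ↔ cl1 X z = 0 := by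
  unfold Rat1 cl1
  rw [Submodule.mem_comap, LinearMap.comp_apply, Submodule.mkQ_apply, Submodule.Quotient.mk_eq_zero]

/-- the coordinates under an extension of fields -/
private theorem cov_co {K K' : Type} [Field K] [Field K'] {A : Type} [CommRing A] (d : GD A m)
    (S : A →+* K) (ι : K →+* K') (θ x y : K) (i : Fin (m + 1)) :
    (d.mp (ι.comp S) (ι θ)).co (ι x) (ι y) i = ι ((d.mp S θ).co x y i) := by
  have h : Polynomial.eval₂RingHom (ι.comp S) (ι θ) = ι.comp (Polynomial.eval₂RingHom S θ) := by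
    refine Polynomial.ringHom_ext (fun a => ?_) ?_
    · simp
    · simp
  unfold Mp.co GD.mp
  simp only [h]
  rw [map_add, map_mul, ← Polynomial.map_map, ← Polynomial.map_map, Polynomial.eval_map_apply,
    Polynomial.eval_map_apply]

/-- values under an extension of fields -/
private theorem cov_at {K K' : Type} [Field K] [Algebra k K] [Field K'] [Algebra k K']
    {φ : K →ₐ[k] K'} {V : Place k K'} {v : Place k K}
    (hV : V.ring.comap (φ : K →+* K') = v.ring) (f : K) (c : k) :
    V.At (φ f) c ↔ v.At f c := by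
  have hmem : ∀ f : K, φ f ∈ V.ring ↔ f ∈ v.ring := by
    intro f
    rw [← hV, ValuationSubring.mem_comap]
    rfl
  unfold Place.At
  rw [Place.vanishes_iff_or, Place.vanishes_iff_or, ← φ.commutes c, ← map_sub, ← map_inv₀,
    hmem, map_eq_zero]

theorem IsVals.map {d : GD L m} {K K' : Type} [Field K] [Algebra k K] [Field K'] [Algebra k K']
    {σ : L →ₐ[k] K} {v : Place k K} {e : ℕ} {θ : Fin e → K} {x y : K} {P : Fin e → Pt X k}
    (h : IsVals d X σ v θ x y P) {φ : K →ₐ[k] K'} {V : Place k K'}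
    (hV : V.ring.comap (φ : K →+* K') = v.ring) :
    IsVals d X (φ.comp σ) V (fun a => φ (θ a)) (φ x) (φ y) P := by
  refine ⟨?_, ?_, fun a => ?_⟩
  · have h1 : (d.h.map (σ : L →+* K)).map (φ : K →+* K') =
        d.h.map ((φ.comp σ : L →ₐ[k] K') : L →+* K') := by
      rw [Polynomial.map_map]
      rfl
    rw [← h1, h.roots, Polynomial.map_prod]
    refine Finset.prod_congr rfl fun a _ => ?_
    rw [Polynomial.map_sub, Polynomial.map_X, Polynomial.map_C]
    rfl
  · have h1 := congrArg φ h.on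
    simp only [map_pow, map_add, map_sub, map_mul, map_ofNat] at h1
    exact h1
  · obtain ⟨l, hl⟩ := h.val a
    refine ⟨φ l, fun i => ?_⟩
    have h1 := (cov_at hV _ _).2 (hl i)
    rw [map_mul] at h1
    have h2 := cov_co d (σ : L →+* K) (φ : K →+* K') (θ a) x y i
    have h3 : ((φ : K →+* K').comp (σ : L →+* K)) = ((φ.comp σ : L →ₐ[k] K') : L →+* K') := rfl
    rw [h3] at h2
    have h4 : (φ : K →+* K') ((d.mp (σ : L →+* K) (θ a)).co x y i) =
      φ ((d.mp (σ : L →+* K) (θ a)).co x y i) := rfl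
    rw [h4] at h2
    rw [← h2] at h1
    exact h1

variable [IsAlgClosed k] [CharZero k]

omit [CharZero k] in
/-- the limit of the image of a point -/
private theorem cov_lmp (hX : Hom X) {α B : Om k} {M : Mp (Om k) m} (hM : M.Ok α B X)
    {v : Place k (Om k)} {x y : Om k} (hxy : (Ec α B).Nonsingular x y) {Y : Pt X k} {l : Om k}
    (h : ∀ i, v.At (l * M.co x y i) (Y.1.rep i)) :
    M.Ns (.some x y hxy : (Ec α B).Point) ∧
      lmp hX hM v (.some x y hxy) = cl1 X (Finsupp.single Y 1) := by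
  have hne : M.co x y ≠ 0 := by
    intro h0
    apply Y.1.rep_nonzero
    funext i
    have h1 := h i
    rw [h0, Pi.zero_apply, mul_zero] at h1
    have h2 := Place.at_const (v := v) (0 : k)
    rw [map_zero] at h2
    exact Place.At.unique h1 h2
  have hN : M.Ns (.some x y hxy : (Ec α B).Point) := hne
  refine ⟨hN, ?_⟩
  have h5 : pv hX v (phi hX hM (.some x y hxy) hN) = Y :=
    pv_eq ((isVal_iff hne Y.1.rep_nonzero rfl (Projectivization.mk_rep Y.1).symm).2 ⟨l, h⟩)
  have h6 : cyc hX hM (.some x y hxy) =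
      Finsupp.single (phi hX hM (.some x y hxy) hN) 1 := dif_pos hN
  change lim1 hX v _ = cl1 X _
  rw [h6]
  change Submodule.Quotient.mk (Finsupp.mapDomain _ (Finsupp.mapDomain _ _)) =
    Submodule.Quotient.mk (Finsupp.mapDomain _ _)
  rw [Finsupp.mapDomain_single, Finsupp.mapDomain_single, Finsupp.mapDomain_single]
  change Submodule.Quotient.mk (Finsupp.single
    (fun _ : Unit => pv hX v (phi hX hM (.some x y hxy) hN)) 1) = _
  rw [h5]

omit [IsAlgClosed k] in
private theorem cov_disc {U : Set (Place k L)} {d' : GD (regU U) m} (hd' : d'.Ok X)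
    (σ : L →ₐ[k] Om k) :
    ((σ.comp (regU U).val) d'.B) ^ 2 ≠ 4 * ((σ.comp (regU U).val) d'.α) ^ 3 := by
  have h1 := hd'.disc.map ((σ.comp (regU U).val : regU U →ₐ[k] Om k) : regU U →+* Om k)
  have h2 := h1.ne_zero
  intro h3
  apply h2
  change (σ.comp (regU U).val) (d'.B ^ 2 - 4 * d'.α ^ 3) = 0
  rw [map_sub, map_mul, map_pow, map_pow, map_ofNat, h3, sub_self]

/-- The class of the cycle of the values is the sum of the limits over all roots. -/
theorem IsVals.cls (hX : Hom X) {d : GD L m} {U : Set (Place k L)} {d' : GD (regU U) m}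
    (hd' : d'.Ok X) (hdd : d'.map ((regU U).val : regU U →+* L) = d) {σ : L →ₐ[k] Om k}
    {v : Place k (Om k)} {e : ℕ} {θ : Fin e → Om k} {x y : Om k} {P : Fin e → Pt X k}
    (h : IsVals d X σ v θ x y P) :
    ∃ p : (Ec (σ.comp (regU U).val d'.α) (σ.comp (regU U).val d'.B)).Point,
      (∀ t : {t // t ∈ d'.rts ((σ.comp (regU U).val : regU U →ₐ[k] Om k) : regU U →+* Om k)},
        (d'.mp ((σ.comp (regU U).val : regU U →ₐ[k] Om k) : regU U →+* Om k) t.1).Ns p) ∧
      cl1 X (∑ a, Finsupp.single (P a) 1) =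
        ∑ t : {t // t ∈ d'.rts ((σ.comp (regU U).val : regU U →ₐ[k] Om k) : regU U →+* Om k)},
          lmp hX (hd'.mp_ok (σ.comp (regU U).val) t.2) v p := by
  subst hdd
  let S : regU U →ₐ[k] Om k := σ.comp (regU U).val
  have hh' : d'.h.map (S : regU U →+* Om k) = ∏ a, (Polynomial.X - Polynomial.C (θ a)) := by
    rw [← h.roots]
    change _ = (d'.h.map ((regU U).val : regU U →+* L)).map (σ : L →+* Om k)
    rw [Polynomial.map_map]
    rfl
  have hinj : Function.Injective θ := by
    rw [← Polynomial.separable_prod_X_sub_C_iff, ← hh']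
    obtain ⟨u, w', huw⟩ := hd'.sep
    refine Polynomial.Separable.map ?_
    exact ⟨u, w', huw⟩
  have hmem : ∀ t : Om k, t ∈ d'.rts (S : regU U →+* Om k) ↔ ∃ a, θ a = t := by
    intro t
    unfold GD.rts
    rw [Multiset.mem_toFinset, hh', Polynomial.mem_roots', Polynomial.IsRoot.def,
      Polynomial.eval_prod, Finset.prod_eq_zero_iff]
    constructor
    · rintro ⟨-, a, -, h⟩
      refine ⟨a, ?_⟩
      rw [Polynomial.eval_sub, Polynomial.eval_X, Polynomial.eval_C, sub_eq_zero] at h
      exact h.symm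
    · rintro ⟨a, rfl⟩
      refine ⟨?_, a, Finset.mem_univ a, ?_⟩
      · exact Finset.prod_ne_zero_iff.2 fun b _ => Polynomial.X_sub_C_ne_zero _
      · rw [Polynomial.eval_sub, Polynomial.eval_X, Polynomial.eval_C, sub_self]
  have hxy : y ^ 2 = x ^ 3 - 3 * S d'.α * x + S d'.B := h.on
  have hdisc := cov_disc hd' σ
  have key : ∀ a, (d'.mp (S : regU U →+* Om k) (θ a)).Ns (pt hdisc hxy) ∧
      lmp hX (hd'.mp_ok S ((hmem _).2 ⟨a, rfl⟩)) v (pt hdisc hxy) =
        cl1 X (Finsupp.single (P a) 1) := by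
    intro a
    obtain ⟨l, hl⟩ := h.val a
    refine cov_lmp hX (hd'.mp_ok S ((hmem _).2 ⟨a, rfl⟩)) (nonsing hdisc hxy) (l := l) ?_
    intro i
    have h1 := hl i
    rw [mp_map] at h1
    exact h1
  refine ⟨pt hdisc hxy, ?_, ?_⟩
  · rintro ⟨t, ht⟩
    obtain ⟨a, rfl⟩ := (hmem t).1 ht
    exact (key a).1
  · rw [map_sum]
    refine Finset.sum_bij (fun a _ => ⟨θ a, (hmem _).2 ⟨a, rfl⟩⟩)
      (fun a _ => Finset.mem_univ _) (fun a _ b _ h => hinj (congrArg Subtype.val h))
      (fun t _ => ?_) (fun a _ => (key a).2.symm)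
    obtain ⟨a, ha⟩ := (hmem t.1).1 t.2
    exact ⟨a, Finset.mem_univ a, Subtype.ext ha⟩

/-- The classes of the differences of two cycles of values over the same point of the base. -/
def DiffCls (d : GD L m) (X : Set (MvPolynomial (Fin (m + 1)) k)) : Set (CH X Unit) :=
  {w | ∃ (σ : L →ₐ[k] Om k) (v : Place k (Om k)) (e e' : ℕ) (θ : Fin e → Om k)
    (θ' : Fin e' → Om k) (x y x' y' : Om k) (P : Fin e → Pt X k) (P' : Fin e' → Pt X k),
    IsVals d X σ v θ x y P ∧ IsVals d X σ v θ' x' y' P' ∧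
    w = cl1 X (∑ a, Finsupp.single (P a) 1) - cl1 X (∑ a, Finsupp.single (P' a) 1)}

theorem diffCls_TV (hX : Hom X) {d : GD L m} {U : Set (Place k L)} {d' : GD (regU U) m}
    (hd' : d'.Ok X) (hdd : d'.map ((regU U).val : regU U →+* L) = d) {w : CH X Unit}
    (hw : w ∈ DiffCls d X) :
    ∃ (σ : L →ₐ[k] Om k) (v : Place k (Om k))
      (P : (Ec (σ.comp (regU U).val d'.α) (σ.comp (regU U).val d'.B)).Point),
      w = TV hX hd' (σ.comp (regU U).val) v P := by
  obtain ⟨σ, v, e, e', θ, θ', x, y, x', y', P, P', h, h', rfl⟩ := hw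
  obtain ⟨p, hp, h1⟩ := h.cls hX hd' hdd
  obtain ⟨q, hq, h2⟩ := h'.cls hX hd' hdd
  refine ⟨σ, v, p - q, ?_⟩
  rw [h1, h2, ← Finset.sum_sub_distrib]
  unfold TV
  rw [AddMonoidHom.finsetSum_apply]
  refine Finset.sum_congr rfl fun t _ => ?_
  have h3 := hV_spec hX (hd'.mp_ok (σ.comp (regU U).val) t.2) v (P := p - q) (Q := q) (hq t) (by
    rw [sub_add_cancel]
    exact hp t)
  rw [sub_add_cancel] at h3
  exact h3

/-! ### The constant multisection -/

omit [CharZero k] in
private theorem exists_outside {K : Type} [Field K] [Algebra k K] (hK : IsCurve k K)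
    (T : Finset (Place k K)) : ∃ v, v ∉ T := by
  obtain ⟨t, ht, -⟩ := hK
  choose f hf using fun c : k => exists_place ht c
  have hinj : Function.Injective f := by
    intro a b hab
    have h1 := hf a
    rw [hab] at h1
    exact Place.At.unique h1 (hf b)
  have : Infinite (Place k K) := Infinite.of_injective f hinj
  exact Infinite.exists_notMem_finset T

/-- The values of a constant multisection are constant at all places. -/
theorem const_all (hX : Hom X) {d : GD L m} (hd : d.Ok X) {K : Type} [Field K] [Algebra k K]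
    (hK : IsCurve k K) {σ : L →ₐ[k] K} {e r : ℕ} {θ : Fin e → K} {x y : Fin r → K}
    {z₀ : Pt X k →₀ ℚ} {T : Finset (Place k K)}
    (h : ∀ v ∉ T, ∃ P : Fin r → Fin e → Pt X k, (∀ i, IsVals d X σ v θ (x i) (y i) (P i)) ∧
      ∑ i, ∑ a, Finsupp.single (P i a) 1 - z₀ ∈ Rat1 X) (v : Place k K) :
    ∃ P : Fin r → Fin e → Pt X k, (∀ i, IsVals d X σ v θ (x i) (y i) (P i)) ∧
      ∑ i, ∑ a, Finsupp.single (P i a) 1 - z₀ ∈ Rat1 X := by
  have : HasRes k K := hasRes_of_isCurve hK
  obtain ⟨v₁, hv₁⟩ := exists_outside hK T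
  obtain ⟨P₁, hP₁, -⟩ := h v₁ hv₁
  have hne : ∀ i a, (d.mp (σ : L →+* K) (θ a)).co (x i) (y i) ≠ 0 := by
    intro i a h0
    obtain ⟨l, hl⟩ := (hP₁ i).val a
    apply (P₁ i a).1.rep_nonzero
    funext j
    have h1 := hl j
    rw [h0, Pi.zero_apply, mul_zero] at h1
    have h2 := Place.at_const (v := v₁) (0 : k)
    rw [map_zero] at h2
    exact Place.At.unique h1 h2
  have hon : ∀ i a, ∀ f ∈ X,
      MvPolynomial.aeval ((d.mp (σ : L →+* K) (θ a)).co (x i) (y i)) f = 0 := by
    intro i a f hf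
    refine hd.onX K σ (θ a) ?_ (x i) (y i) (hP₁ i).on f hf
    unfold GD.rts
    rw [Multiset.mem_toFinset, (hP₁ i).roots, Polynomial.mem_roots', Polynomial.IsRoot.def,
      Polynomial.eval_prod]
    refine ⟨Finset.prod_ne_zero_iff.2 fun b _ => Polynomial.X_sub_C_ne_zero _, ?_⟩
    refine Finset.prod_eq_zero (Finset.mem_univ a) ?_
    rw [Polynomial.eval_sub, Polynomial.eval_X, Polynomial.eval_C, sub_self]
  let p : Fin r → Fin e → Pt X K := fun i a =>
    mkPt hX ((d.mp (σ : L →+* K) (θ a)).co (x i) (y i)) (hne i a) (hon i a)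
  have hval : ∀ (v : Place k K) i a, ∃ l : K, ∀ j,
      v.At (l * (d.mp (σ : L →+* K) (θ a)).co (x i) (y i) j) ((pv hX v (p i a)).1.rep j) :=
    fun v i a => (isVal_iff (hne i a) (pv hX v (p i a)).1.rep_nonzero rfl
      (Projectivization.mk_rep _).symm).1 (pv_spec hX v (p i a))
  let z : Pt X K →₀ ℚ := ∑ i, ∑ a, Finsupp.single (p i a) 1 -
    Finsupp.mapDomain (Pt.map (Algebra.ofId k K) hX) z₀
  have hlim : ∀ v, lim1 hX v z = cl1 X (∑ i, ∑ a, Finsupp.single (pv hX v (p i a)) 1 - z₀) := by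
    intro v
    have h1 : ∀ w : Pt X K →₀ ℚ, lim1 hX v w = cl1 X (Finsupp.mapDomain (pv hX v) w) := by
      intro w
      change Submodule.Quotient.mk (Finsupp.mapDomain (fun x i => pv hX v (x i))
        (Finsupp.mapDomain (fun x _ => x) w)) = Submodule.Quotient.mk
          (Finsupp.mapDomain (fun x _ => x) (Finsupp.mapDomain (pv hX v) w))
      rw [← Finsupp.mapDomain_comp, ← Finsupp.mapDomain_comp]
      rfl
    rw [h1]
    congr 1
    have h2 : Finsupp.mapDomain (pv hX v) z = Finsupp.lmapDomain ℚ ℚ (pv hX v) z := rfl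
    rw [h2, map_sub, map_sum]
    congr 1
    · refine Finset.sum_congr rfl fun i _ => ?_
      rw [map_sum]
      refine Finset.sum_congr rfl fun a _ => ?_
      rw [Finsupp.lmapDomain_apply, Finsupp.mapDomain_single]
    · rw [Finsupp.lmapDomain_apply, ← Finsupp.mapDomain_comp]
      have h3 : pv hX v ∘ Pt.map (Algebra.ofId k K) hX = id := by
        funext q
        exact pv_eq isVal_const
      rw [h3, Finsupp.mapDomain_id]
  have hzero : ∀ v ∉ T, lim1 hX v z = 0 := by
    intro v hv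
    obtain ⟨P, hP, h0⟩ := h v hv
    rw [hlim, ← mem_rat1]
    have h1 : ∀ i a, pv hX v (p i a) = P i a := fun i a =>
      pv_eq ((isVal_iff (hne i a) (P i a).1.rep_nonzero rfl
        (Projectivization.mk_rep _).symm).2 ((hP i).val a))
    simp only [h1]
    exact h0
  have hall : lim1 hX v z = 0 := by
    by_cases hv : v ∈ T
    swap
    · exact hzero v hv
    obtain ⟨f, hf, hf1, hf0⟩ := exists_prescribed hK v T
    have hsum := sum_lim hX hK (Finsupp.mapDomain (fun x (_ : Unit) => x) z) hf (dv hK f)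
      fun c => ord_hasOrd hK c hf
    have hz : ∀ c, lim hX c (Finsupp.mapDomain (fun x (_ : Unit) => x) z) = lim1 hX c z :=
      fun c => rfl
    rw [Finsupp.sum, Finset.sum_eq_single v] at hsum
    · rw [dv_apply, hf1, hz] at hsum
      simpa using hsum
    · intro c hc hne
      rw [Finsupp.mem_support_iff, dv_apply] at hc
      rw [hz, hzero c (fun hcT => hc (hf0 c hcT hne)), smul_zero]
    · intro hc
      rw [Finsupp.notMem_support_iff, dv_apply, hf1] at hc
      exact absurd hc one_ne_zero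
  refine ⟨fun i a => pv hX v (p i a), fun i => ⟨(hP₁ i).roots, (hP₁ i).on, fun a => hval v i a⟩, ?_⟩
  rw [mem_rat1, ← hlim]
  exact hall

/-! ### Embeddings -/

/-- an embedding of `L` can be extended to a finite extension -/
private theorem cov_lift {K : Type} [Field K] [Algebra k K] (hL : IsCurve k L) (hK : IsCurve k K)
    (σ : L →ₐ[k] K) (τ : L →ₐ[k] Om k) : ∃ ι : K →ₐ[k] Om k, ι.comp σ = τ := by
  obtain ⟨t, ht, -⟩ := hL
  have ht' : Transcendental k (σ t) := fun h =>
    ht ((isAlgebraic_algHom_iff σ (σ : L →+* K).injective).1 h)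
  have hfin := fin_adjoin hK ht'
  letI : Algebra L K := (σ : L →+* K).toAlgebra
  letI : Algebra L (Om k) := (τ : L →+* Om k).toAlgebra
  have hle : IntermediateField.adjoin k {σ t} ≤ σ.fieldRange := by
    rw [IntermediateField.adjoin_simple_le_iff]
    exact ⟨t, rfl⟩
  have hf : ∀ a : IntermediateField.adjoin k {σ t}, ∃ b : L, σ b = a := fun a => hle a.2
  choose f hf using hf
  let F : IntermediateField.adjoin k {σ t} →+* L :=
    { toFun := f
      map_one' := σ.toRingHom.injective (by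
        change σ (f 1) = σ 1
        rw [hf, map_one]; rfl)
      map_mul' := fun a b => σ.toRingHom.injective (by
        change σ (f (a * b)) = σ (f a * f b)
        rw [hf, map_mul, hf, hf]; rfl)
      map_zero' := σ.toRingHom.injective (by
        change σ (f 0) = σ 0
        rw [hf, map_zero]; rfl)
      map_add' := fun a b => σ.toRingHom.injective (by
        change σ (f (a + b)) = σ (f a + f b)
        rw [hf, map_add, hf, hf]; rfl) }
  have halg : Algebra.IsAlgebraic L K := by
    refine ⟨fun x => ?_⟩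
    have h1 : IsAlgebraic (IntermediateField.adjoin k {σ t}) x :=
      Algebra.IsAlgebraic.isAlgebraic x
    refine h1.ringHom_of_comp_eq F (RingHom.id K) F.injective ?_
    ext a
    exact hf a
  let ι₀ : K →ₐ[L] Om k := IsAlgClosed.lift
  have h1 : ∀ a : L, ι₀ (σ a) = τ a := fun a => ι₀.commutes a
  refine ⟨{ toRingHom := (ι₀ : K →+* Om k), commutes' := fun c => ?_ }, ?_⟩
  · change ι₀ (algebraMap k K c) = algebraMap k (Om k) c
    rw [← σ.commutes, h1, τ.commutes]
  · ext a
    exact h1 a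

omit [CharZero k] in
/-- the degree of a cycle which is rationally equivalent to zero -/
private theorem rat_deg [CharZero k] {ι : Type} {z : (ι → Pt X k) →₀ ℚ} (hz : z ∈ Rat X ι) :
    Finsupp.linearCombination ℚ (fun _ => (1 : ℚ)) z = 0 := by
  have h1 : Rat X ι ≤ LinearMap.ker (Finsupp.linearCombination ℚ
      (fun _ : ι → Pt X k => (1 : ℚ))) := by
    refine Submodule.span_le.2 ?_
    rintro _ ⟨K, i1, i2, i3, xK, y, f, D, hf, hD, hval, rfl⟩
    rw [SetLike.mem_coe, LinearMap.mem_ker, map_finsuppSum]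
    have h2 : D = dv i3 f := by
      ext v
      rw [dv_apply]
      exact (ord_eq i3 hf (hD v)).symm
    have h3 := deg_dv i3 f
    rw [← h2] at h3
    unfold deg at h3
    simp only [Finsupp.linearCombination_single, smul_eq_mul, mul_one]
    rw [Finsupp.sum] at h3 ⊢
    have h4 := congrArg (fun n : ℤ => (n : ℚ)) h3
    simpa using h4
  exact h1 hz

/-! ### The theorem -/

/-- The differences of two cycles of values over the same point of the base. -/
def DiffCyc (d : GD L m) (X : Set (MvPolynomial (Fin (m + 1)) k)) : Set (Pt X k →₀ ℚ) :=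
  {w | ∃ (K : Type) (_ : Field K) (_ : Algebra k K) (_ : IsCurve k K) (σ : L →ₐ[k] K)
    (v : Place k K) (e e' : ℕ) (θ : Fin e → K) (θ' : Fin e' → K) (x y x' y' : K)
    (P : Fin e → Pt X k) (P' : Fin e' → Pt X k), IsVals d X σ v θ x y P ∧
      IsVals d X σ v θ' x' y' P' ∧
      w = ∑ a, Finsupp.single (P a) 1 - ∑ a, Finsupp.single (P' a) 1}

theorem diffCyc_cls {d : GD L m} {z : Pt X k →₀ ℚ} (hz : z ∈ DiffCyc d X) :
    cl1 X z ∈ DiffCls d X := by
  obtain ⟨K, i1, i2, hK, σ, w, e, e', θ, θ', x, y, x', y', P, P', h, h', rfl⟩ := hz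
  obtain ⟨ι, v, hv⟩ := exists_embed hK w
  exact ⟨_, v, e, e', _, _, _, _, _, _, P, P', h.map hv, h'.map hv, map_sub _ _ _⟩

/-- The classes of the cycles of degree zero are combinations of the classes of differences, if
`CH_0` is generated by the values and a multisection is constant. -/
theorem cls_of_degree_zero (hX : Hom X) (hL : IsCurve k L) {d : GD L m} (hd : d.Ok X)
    (hgen : ∀ x : Pt X k, Finsupp.single x 1 ∈ Submodule.span ℚ (ValCyc d X) ⊔ Rat1 X)
    (hconst : ConstSec d X) {z : Pt X k →₀ ℚ} (hz : (z.sum fun _ a => a) = 0) :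
    cl1 X z ∈ Submodule.span ℚ (DiffCls d X) := by
  obtain ⟨K₀, i1, i2, hK₀, σ₀, e₀, r, θ₀, x₀, y₀, z₀, T, hr, he₀, hc⟩ := hconst
  let W := Submodule.span ℚ (DiffCls d X)
  let dg : (Pt X k →₀ ℚ) →ₗ[ℚ] ℚ := Finsupp.linearCombination ℚ (fun _ => (1 : ℚ))
  have hdeg : e₀ = d.h.natDegree := by
    obtain ⟨v, hv⟩ := exists_outside hK₀ T
    obtain ⟨P, hP, -⟩ := hc v hv
    have h1 := congrArg Polynomial.natDegree (hP ⟨0, hr⟩).roots
    rw [Polynomial.natDegree_map, Polynomial.natDegree_prod_of_monic _ _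
      fun a _ => Polynomial.monic_X_sub_C _] at h1
    simpa using h1.symm
  -- the cycles of values
  have hA : ∀ z ∈ ValCyc d X, (r : ℚ) • cl1 X z - cl1 X z₀ ∈ W ∧ dg z = e₀ := by
    rintro _ ⟨K, j1, j2, hK, σ, v, e, θ, x, y, P, hP, rfl⟩
    constructor
    · obtain ⟨ι, w, hw⟩ := exists_embed hK v
      obtain ⟨ι₀, hι₀⟩ := cov_lift hL hK₀ σ₀ (ι.comp σ)
      obtain ⟨c, hcw⟩ := exists_below hK₀ w ι₀
      obtain ⟨P', hP', h0⟩ := const_all hX hd hK₀ hc c
      rw [mem_rat1, map_sub, sub_eq_zero] at h0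
      have h1 : (r : ℚ) • cl1 X (∑ a, Finsupp.single (P a) 1) - cl1 X z₀ =
          ∑ i, (cl1 X (∑ a, Finsupp.single (P a) 1) -
            cl1 X (∑ a, Finsupp.single (P' i a) 1)) := by
        have h2 : cl1 X (∑ i, ∑ a, Finsupp.single (P' i a) 1) =
            ∑ i, cl1 X (∑ a, Finsupp.single (P' i a) 1) := map_sum _ _ _
        rw [Finset.sum_sub_distrib, Finset.sum_const, Finset.card_univ, Fintype.card_fin,
          ← h0, h2, Nat.cast_smul_eq_nsmul]
      rw [h1]
      refine Submodule.sum_mem _ fun i _ => Submodule.subset_span ?_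
      have h2 := (hP' i).map hcw
      rw [hι₀] at h2
      exact ⟨ι.comp σ, w, e, e₀, _, _, _, _, _, _, P, P' i, hP.map hw, h2, rfl⟩
    · have h1 := congrArg Polynomial.natDegree hP.roots
      rw [Polynomial.natDegree_map, Polynomial.natDegree_prod_of_monic _ _
        fun a _ => Polynomial.monic_X_sub_C _, ← hdeg] at h1
      have h2 : (e : ℚ) = e₀ := by
        have : e = e₀ := by simpa using h1.symm
        rw [this]
      change Finsupp.linearCombination ℚ (fun _ => (1 : ℚ)) _ = _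
      rw [map_sum]
      simp [h2]
  have hB : ∀ z ∈ Submodule.span ℚ (ValCyc d X),
      ((e₀ : ℚ) * r) • cl1 X z - dg z • cl1 X z₀ ∈ W := by
    intro z hz
    induction hz using Submodule.span_induction with
    | mem z hz =>
      obtain ⟨h1, h2⟩ := hA z hz
      have h3 := W.smul_mem (e₀ : ℚ) h1
      rw [smul_sub, smul_smul] at h3
      rw [h2]
      exact h3
    | zero =>
      rw [map_zero, map_zero, smul_zero, zero_smul, sub_zero]
      exact W.zero_mem
    | add a b _ _ ha hb =>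
      have h1 := W.add_mem ha hb
      rw [map_add, map_add, smul_add, add_smul]
      convert h1 using 1
      abel
    | smul c a _ ha =>
      have h1 := W.smul_mem c ha
      rw [map_smul, map_smul, smul_comm _ c, smul_eq_mul, mul_smul c (dg a), ← smul_sub]
      exact h1
  have hall : z ∈ Submodule.span ℚ (ValCyc d X) ⊔ Rat1 X := by
    rw [← Finsupp.sum_single z]
    refine Submodule.sum_mem _ fun x _ => ?_
    have h1 : Finsupp.single x (z x) = z x • Finsupp.single x (1 : ℚ) := by simp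
    rw [h1]
    exact Submodule.smul_mem _ _ (hgen x)
  obtain ⟨z₁, hz₁, z₂, hz₂, rfl⟩ := Submodule.mem_sup.1 hall
  have hd2 : dg z₂ = 0 := by
    have h1 : Finsupp.lmapDomain ℚ ℚ (fun x (_ : Unit) => x) z₂ ∈ Rat X Unit := hz₂
    have h2 := rat_deg h1
    rw [Finsupp.lmapDomain_apply, Finsupp.linearCombination_mapDomain] at h2
    exact h2
  have hd0 : dg (z₁ + z₂) = 0 := by
    rw [← hz]
    change Finsupp.linearCombination ℚ (fun _ => (1 : ℚ)) _ = _
    rw [Finsupp.linearCombination_apply]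
    simp
  have hd1 : dg z₁ = 0 := by
    rw [map_add, hd2, add_zero] at hd0
    exact hd0
  have h1 := hB z₁ hz₁
  rw [hd1, zero_smul, sub_zero] at h1
  have h2 : ((e₀ : ℚ) * r) ≠ 0 := by
    have h3 : (e₀ : ℚ) ≠ 0 := by exact_mod_cast he₀.ne'
    have h4 : (r : ℚ) ≠ 0 := by exact_mod_cast hr.ne'
    exact mul_ne_zero h3 h4
  have h3 := W.smul_mem ((e₀ : ℚ) * r)⁻¹ h1
  rw [smul_smul, inv_mul_cancel₀ h2, one_smul] at h3
  rw [map_add, mem_rat1.1 hz₂, add_zero]
  exact h3

/-- **Zero-cycles on varieties covered by curves of genus one.** Part (1) is about the combinations of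
the differences of two cycles of values, part (2) about all cycles of degree zero if `CH_0` is
generated by the values and some multisection is constant. -/
theorem main_cov (hX : Hom X) (hL : IsCurve k L) {d : GD L m} (hd : d.Ok X)
    {D : Place k L →₀ ℤ} {n₀ : ℕ} (hD : deg D = n₀) (hn₀ : 0 < n₀)
    (hα : d.α ≠ 0 → ∀ v, 0 ≤ ord v d.α + 4 * D v) (hB : d.B ≠ 0 → ∀ v, 0 ≤ ord v d.B + 6 * D v)
    {g : ℕ} (hg : Riemann hL g) {N : ℕ} (hN : N + 1 = n₀ + g) {δ : Place k L}
    (hδ : BadAt δ d.α d.B) {r : ℕ} {β : Equiv.Perm (Fin r) → ℚ} (hβ : ZIso.KillsTensors N β)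
    (z : Fin r → (Pt X k →₀ ℚ))
    (hz : (∀ j, z j ∈ Submodule.span ℚ (DiffCyc d X) ⊔ Rat1 X) ∨
      (∀ x : Pt X k, Finsupp.single x 1 ∈ Submodule.span ℚ (ValCyc d X) ⊔ Rat1 X) ∧
        ConstSec d X ∧ ∀ j, ((z j).sum fun _ a => a) = 0) :
    ∑ τ : Equiv.Perm (Fin r), β τ • ext (fun j => z (τ j)) ∈ Rat X (Fin r) := by
  have hw : ∀ j, cl1 X (z j) ∈ Submodule.span ℚ (DiffCls d X) := by
    rcases hz with hz | ⟨hgen, hconst, hz⟩
    · intro j
      obtain ⟨z₁, hz₁, z₂, hz₂, h⟩ := Submodule.mem_sup.1 (hz j)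
      rw [← h, map_add, mem_rat1.1 hz₂, add_zero]
      have h1 : Submodule.map (cl1 X) (Submodule.span ℚ (DiffCyc d X)) ≤
          Submodule.span ℚ (DiffCls d X) := by
        rw [Submodule.map_span]
        refine Submodule.span_mono ?_
        rintro _ ⟨z, hz, rfl⟩
        exact diffCyc_cls hz
      exact h1 (Submodule.mem_map_of_mem hz₁)
    · exact fun j => cls_of_degree_zero hX hL hd hgen hconst (hz j)
  have h0 := kill_ext hX (N := N) (Submodule.span ℚ (DiffCls d X)) (fun w hw => ?_) hβ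
    (fun j => cl1 X (z j)) hw
  · rw [← Submodule.Quotient.mk_eq_zero, ← Submodule.mkQ_apply, map_sum, ← h0]
    refine Finset.sum_congr rfl fun τ _ => ?_
    rw [map_smul, Submodule.mkQ_apply, ← Ext_cl hX fun j => z (τ j)]
    rfl
  · refine mainC hX hL hd hD hn₀ hα hB hg (by omega) hδ (DiffCls d X) ?_ w hw
    intro U d' hd' hmap w hw
    exact diffCls_TV hX hd' hmap hw

end Pool.Agent.GT
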