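import Pool.Agent.GT.Ext

/-!
# An elliptic curve with a rational map to a projective variety

The curve is `y ² = x ³ - 3 α x + B`, the map has the homogeneous coordinates `G_i(x) + H_i(x) y`.
-/

set_option autoImplicit false

noncomputable section

namespace Pool.Agent.GT

open Pool.Agent.ZCyc Pool.Agent.Dess Polynomial
open Pool.Agent.VFP (Om tt)
open scoped Classical LinearAlgebra.Projectivization

/-- the elliptic curve `y ² = x ³ - 3 α x + B` -/
abbrev Ec {K : Type} [Field K] (α B : K) : WeierstrassCurve.Affine K := ⟨0, 0, 0, -3 * α, B⟩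

/-- the coordinates of a rational map to projective space -/
structure Mp (K : Type) [Field K] (m : ℕ) where
  /-- the parts of the coordinates without `y` -/
  G : Fin (m + 1) → K[X]
  /-- the parts of the coordinates with `y` -/
  H : Fin (m + 1) → K[X]

variable {K : Type} [Field K] {m : ℕ}

/-- the homogeneous coordinates of the image of a point -/
def Mp.co (M : Mp K m) (x y : K) (i : Fin (m + 1)) : K := (M.G i).eval x + (M.H i).eval x * y

/-- the map is defined at the point by these coordinates (and the point is not at infinity) -/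
def Mp.Ns (M : Mp K m) {α B : K} : (Ec α B).Point → Prop
  | .zero => False
  | .some x y _ => M.co x y ≠ 0

/-- The curve is smooth, the coordinates are not all zero, and the image is in the variety. -/
structure Mp.Ok {k : Type} [Field k] [Algebra k K] (M : Mp K m) (α B : K)
    (X : Set (MvPolynomial (Fin (m + 1)) k)) : Prop where
  disc : B ^ 2 ≠ 4 * α ^ 3
  ne : ∃ i, M.G i ≠ 0 ∨ M.H i ≠ 0
  onX : ∀ f ∈ X, ∀ x y : K, y ^ 2 = x ^ 3 - 3 * α * x + B → MvPolynomial.aeval (M.co x y) f = 0

theorem eqn_iff {α B x y : K} : (Ec α B).Equation x y ↔ y ^ 2 = x ^ 3 - 3 * α * x + B := by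
  rw [WeierstrassCurve.Affine.equation_iff]
  simp only [Ec]
  constructor
  · intro h
    linear_combination h
  · intro h
    linear_combination h

/-- all points are nonsingular -/
theorem nonsing [CharZero K] {α B : K} (hd : B ^ 2 ≠ 4 * α ^ 3) {x y : K}
    (h : y ^ 2 = x ^ 3 - 3 * α * x + B) : (Ec α B).Nonsingular x y := by
  have hΔ : (Ec α B).Δ ≠ 0 := by
    have h1 : (Ec α B).Δ = -432 * (B ^ 2 - 4 * α ^ 3) := by
      simp only [Ec, WeierstrassCurve.Δ, WeierstrassCurve.b₂, WeierstrassCurve.b₄,
        WeierstrassCurve.b₆, WeierstrassCurve.b₈]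
      ring
    rw [h1]
    exact mul_ne_zero (by norm_num) (sub_ne_zero.2 hd)
  exact (WeierstrassCurve.Affine.equation_iff_nonsingular_of_Δ_ne_zero hΔ).1 (eqn_iff.2 h)

/-- a point with given coordinates -/
def pt [CharZero K] {α B : K} (hd : B ^ 2 ≠ 4 * α ^ 3) {x y : K}
    (h : y ^ 2 = x ^ 3 - 3 * α * x + B) : (Ec α B).Point := .some x y (nonsing hd h)

variable {k : Type} [Field k] [Algebra k K] {X : Set (MvPolynomial (Fin (m + 1)) k)}
  {α B : K} {M : Mp K m}

/-- the image of a point -/
def phi (hX : Hom X) (hM : M.Ok α B X) : ∀ P : (Ec α B).Point, M.Ns P → Pt X K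
  | .zero, h => h.elim
  | .some x y hxy, h => mkPt hX (M.co x y) h fun f hf => hM.onX f hf x y (eqn_iff.1 hxy.1)

/-- the cycle of the image of a point (zero if it is not defined) -/
def cyc (hX : Hom X) (hM : M.Ok α B X) (P : (Ec α B).Point) : Pt X K →₀ ℚ :=
  if h : M.Ns P then Finsupp.single (phi hX hM P h) 1 else 0

/-- the coordinates of a point -/
private def ptPair {α B : K} : (Ec α B).Point → Option (K × K)
  | .zero => none
  | .some x y _ => some (x, y)

private theorem ptPair_inj {α B : K} : Function.Injective (ptPair (α := α) (B := B)) := by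
  intro P Q h
  cases P with
  | zero =>
    cases Q with
    | zero => rfl
    | some x y _ => simp [ptPair] at h
  | some x y _ =>
    cases Q with
    | zero => simp [ptPair] at h
    | some x' y' _ =>
      simp only [ptPair, Option.some.injEq, Prod.mk.injEq] at h
      obtain ⟨rfl, rfl⟩ := h
      rfl

private theorem norm_ne_zero {G H : K[X]} {a b : K} (h : G ≠ 0 ∨ H ≠ 0) :
    G ^ 2 - H ^ 2 * (Polynomial.X ^ 3 + (C a * Polynomial.X + C b)) ≠ 0 := by
  have hc : (Polynomial.X ^ 3 + (C a * Polynomial.X + C b) : K[X]).natDegree = 3 := by compute_degree!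
  have hc0 : (Polynomial.X ^ 3 + (C a * Polynomial.X + C b) : K[X]) ≠ 0 := by
    intro h0
    rw [h0] at hc
    simp at hc
  intro h0
  have h1 : G ^ 2 = H ^ 2 * (Polynomial.X ^ 3 + (C a * Polynomial.X + C b)) := sub_eq_zero.1 h0
  by_cases hH : H = 0
  · rw [hH] at h1
    rcases h with h | h
    · apply h
      have h2 : G ^ 2 = 0 := by rw [h1]; ring
      exact pow_eq_zero_iff two_ne_zero |>.1 h2
    · exact h hH
  · have h2 := congrArg natDegree h1
    rw [natDegree_pow, natDegree_mul (pow_ne_zero 2 hH) hc0, natDegree_pow, hc] at h2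
    omega

/-- `M` is not defined only at finitely many points: for some `i` the polynomial
`G_i ² - H_i ² (x ³ - 3 α x + B)` is not zero (the degree of the second term is odd, the degree of
the first one is even), it vanishes at the `x`-coordinates of the bad points, and every `x` belongs
to at most two points. -/
theorem finite_bad (hM : ∃ i, M.G i ≠ 0 ∨ M.H i ≠ 0) : {P : (Ec α B).Point | ¬ M.Ns P}.Finite := by
  obtain ⟨i, hi⟩ := hM
  set c : K[X] := Polynomial.X ^ 3 + (C (-3 * α) * Polynomial.X + C B) with hc
  set Q : K[X] := M.G i ^ 2 - M.H i ^ 2 * c with hQ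
  have hQ0 : Q ≠ 0 := norm_ne_zero hi
  let S : Finset (K × K) := Q.roots.toFinset.biUnion fun x =>
    ((Polynomial.X ^ 2 - C (x ^ 3 - 3 * α * x + B) : K[X]).roots.toFinset).image fun y => (x, y)
  refine Set.Finite.subset (Set.Finite.preimage (ptPair_inj.injOn)
    ((S.finite_toSet.image some).insert none)) ?_
  intro P hP
  rw [Set.mem_preimage]
  cases P with
  | zero => exact Set.mem_insert _ _
  | some x y hxy =>
    refine Set.mem_insert_of_mem _ ⟨(x, y), ?_, rfl⟩
    have hxy' := eqn_iff.1 hxy.1
    have h0 : M.co x y = 0 := not_not.1 hP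
    have h1 : (M.G i).eval x + (M.H i).eval x * y = 0 := congrFun h0 i
    rw [Finset.mem_coe, Finset.mem_biUnion]
    refine ⟨x, ?_, ?_⟩
    · rw [Multiset.mem_toFinset, mem_roots hQ0, IsRoot.def, hQ, hc]
      simp only [eval_sub, eval_mul, eval_pow, eval_add, eval_X, eval_C]
      linear_combination ((M.G i).eval x - (M.H i).eval x * y) * h1 +
        (M.H i).eval x ^ 2 * hxy'
    · rw [Finset.mem_image]
      refine ⟨y, ?_, rfl⟩
      rw [Multiset.mem_toFinset, mem_roots (X_pow_sub_C_ne_zero two_pos _), IsRoot.def]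
      simp only [eval_sub, eval_pow, eval_X, eval_C]
      rw [hxy', sub_self]

/-- there are infinitely many points -/
theorem infinite_points [IsAlgClosed K] [CharZero K] (hd : B ^ 2 ≠ 4 * α ^ 3) :
    Infinite (Ec α B).Point := by
  have h1 : ∀ x : K, ∃ y : K, y ^ 2 = x ^ 3 - 3 * α * x + B := fun x =>
    IsAlgClosed.exists_pow_nat_eq _ two_pos
  choose f hf using h1
  refine Infinite.of_injective (fun x : K => pt hd (hf x)) fun x x' h => ?_
  have h2 := congrArg ptPair h
  simp only [pt, ptPair, Option.some.injEq, Prod.mk.injEq] at h2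
  exact h2.1

/-- the image of the coordinates under an extension of fields -/
def Mp.map {K' : Type} [Field K'] (φ : K →+* K') (M : Mp K m) : Mp K' m :=
  ⟨fun i => (M.G i).map φ, fun i => (M.H i).map φ⟩

end Pool.Agent.GT
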