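import Pool.Agent.GT.Curve

/-!
# Points of order two, extension of the base field
-/

set_option autoImplicit false

noncomputable section

namespace Pool.Agent.GT

open Pool.Agent.ZCyc Pool.Agent.Dess Polynomial
open Pool.Agent.VFP (Om tt)
open scoped Classical LinearAlgebra.Projectivization

variable {K : Type} [Field K] {m : ℕ} {k : Type} [Field k] [Algebra k K]
  {X : Set (MvPolynomial (Fin (m + 1)) k)} {α B : K} {M : Mp K m}

/-- the right-hand side of the equation -/
private def cub {K : Type} [Field K] (α B : K) : K[X] :=
  Polynomial.X ^ 3 - Polynomial.C (3 * α) * Polynomial.X + Polynomial.C B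

private theorem cub_natDegree {K : Type} [Field K] (α B : K) : (cub α B).natDegree = 3 := by
  unfold cub
  compute_degree!

private theorem cub_ne {K : Type} [Field K] (α B : K) : cub α B ≠ 0 := by
  intro h
  have := cub_natDegree α B
  rw [h, Polynomial.natDegree_zero] at this
  omega

private theorem cub_eval {K : Type} [Field K] (α B x : K) :
    (cub α B).eval x = x ^ 3 - 3 * α * x + B := by
  simp [cub]

/-- the coordinates -/
private def crd {K : Type} [Field K] {α B : K} : (Ec α B).Point → Option (K × K)
  | .zero => none
  | .some x y _ => some (x, y)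

private theorem crd_injective {K : Type} [Field K] {α B : K} :
    Function.Injective (crd (α := α) (B := B)) := by
  rintro (_ | ⟨x, y, h⟩) (_ | ⟨x', y', h'⟩) hh
  · rfl
  · exact absurd hh (by simp [crd])
  · exact absurd hh (by simp [crd])
  · simp only [crd, Option.some.injEq, Prod.mk.injEq] at hh
    obtain ⟨rfl, rfl⟩ := hh
    rfl

omit [Algebra k K] in
/-- the points of order two are finite in number, and `2 Q = A` has finitely many solutions -/
theorem finite_half [CharZero K] (A : (Ec α B).Point) :
    {Q : (Ec α B).Point | Q + Q = A}.Finite := by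
  have h2 : {Q : (Ec α B).Point | Q + Q = 0}.Finite := by
    refine Set.Finite.of_finite_image (f := crd) ?_ crd_injective.injOn
    refine ((Set.finite_singleton none).union
      (((cub α B).roots.toFinset.finite_toSet.image (fun x => some (x, (0 : K)))))).subset ?_
    rintro _ ⟨Q, hQ, rfl⟩
    rcases Q with _ | ⟨x, y, h⟩
    · left; rfl
    · right
      have hneg := eq_neg_of_add_eq_zero_left hQ
      rw [WeierstrassCurve.Affine.Point.neg_some, WeierstrassCurve.Affine.Point.some.injEq] at hneg
      have h1 : y = -y := by
        have := hneg.2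
        simpa [WeierstrassCurve.Affine.negY, Ec] using this
      have h3 : y = 0 := by
        have h4 : (2 : K) * y = 0 := by linear_combination h1
        rcases mul_eq_zero.1 h4 with h5 | h5
        · exact absurd h5 two_ne_zero
        · exact h5
      have h4 := eqn_iff.1 h.1
      refine ⟨x, ?_, ?_⟩
      · rw [Finset.mem_coe, Multiset.mem_toFinset, Polynomial.mem_roots (cub_ne α B),
          Polynomial.IsRoot, cub_eval, ← h4, h3]
        ring
      · simp [crd, h3]
  by_cases hne : ∃ Q0 : (Ec α B).Point, Q0 + Q0 = A
  · obtain ⟨Q0, hQ0⟩ := hne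
    refine (h2.image (fun T => Q0 + T)).subset ?_
    intro Q hQ
    refine ⟨Q - Q0, ?_, by simp⟩
    have hQ' : Q + Q = A := hQ
    show Q - Q0 + (Q - Q0) = 0
    have h5 : Q - Q0 + (Q - Q0) = (Q + Q) - (Q0 + Q0) := by abel
    rw [h5, hQ', hQ0, sub_self]
  · refine Set.Finite.subset Set.finite_empty ?_
    intro Q hQ
    exact hne ⟨Q, hQ⟩

/-- Extension of the field `k` to `Om k`. For `onX`: `f(G(x) + H(x) y)` is congruent to
`a(x) + b(x) y` modulo the equation of the curve, with polynomials `a`, `b` over `k`; it vanishes at
all points over `k`, so `a ² - b ² (x ³ - 3 α x + B)` has infinitely many zeros, so it is zero, and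
`a = b = 0` (parity of the degrees). -/
theorem ok_map [IsAlgClosed k] [CharZero k] {α B : k} {M : Mp k m} (hM : M.Ok α B X) :
    (M.map (algebraMap k (Om k))).Ok (algebraMap k (Om k) α) (algebraMap k (Om k) B) X := by
  have hinj : Function.Injective (algebraMap k (Om k)) := (algebraMap k (Om k)).injective
  refine ⟨?_, ?_, ?_⟩
  · intro h
    apply hM.disc
    apply hinj
    have h4 : (algebraMap k (Om k)) 4 = 4 := map_ofNat _ 4
    rw [map_pow, map_mul, map_pow, h, h4]
  · obtain ⟨i, hi⟩ := hM.ne
    refine ⟨i, ?_⟩
    rcases hi with hi | hi
    · left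
      exact (Polynomial.map_ne_zero_iff hinj).2 hi
    · right
      exact (Polynomial.map_ne_zero_iff hinj).2 hi
  · intro f hf x y hxy
    -- the generic value of `f`
    let g : Fin (m + 1) → Polynomial (Polynomial k) := fun i =>
      Polynomial.C (M.G i) + Polynomial.C (M.H i) * Polynomial.X
    let q : Polynomial (Polynomial k) := Polynomial.X ^ 2 - Polynomial.C (cub α B)
    have hq : q.Monic := Polynomial.monic_X_pow_sub_C _ two_ne_zero
    have hqd : q.natDegree = 2 := Polynomial.natDegree_X_pow_sub_C
    let R : Polynomial (Polynomial k) := MvPolynomial.aeval g f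
    have hdec : R %ₘ q + q * (R /ₘ q) = R := Polynomial.modByMonic_add_div R q
    have hdeg : (R %ₘ q).natDegree < 2 := by
      rw [← hqd]
      refine Polynomial.natDegree_modByMonic_lt R hq ?_
      intro h1
      rw [h1, Polynomial.natDegree_one] at hqd
      omega
    obtain ⟨b, a, hab⟩ : ∃ b a : k[X], R %ₘ q = Polynomial.C b * Polynomial.X + Polynomial.C a :=
      Polynomial.exists_eq_X_add_C_of_natDegree_le_one (by omega)
    have key : ∀ (L : Type) [Field L] [Algebra k L] (x y : L),
        y ^ 2 = x ^ 3 - 3 * algebraMap k L α * x + algebraMap k L B →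
        MvPolynomial.aeval (fun i => Polynomial.aeval x (M.G i) + Polynomial.aeval x (M.H i) * y) f =
          Polynomial.aeval x b * y + Polynomial.aeval x a := by
      intro L _ _ x y hxy
      have h1 : Polynomial.aevalAeval x y R =
          MvPolynomial.aeval (fun i => Polynomial.aeval x (M.G i) +
            Polynomial.aeval x (M.H i) * y) f := by
        show Polynomial.aevalAeval x y (MvPolynomial.aeval g f) = _
        rw [← AlgHom.comp_apply, MvPolynomial.comp_aeval]
        congr 1
        congr 1
        funext i
        simp [g]
      have h2 : Polynomial.aevalAeval x y q = 0 := by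
        have : Polynomial.aeval x (cub α B) = x ^ 3 - 3 * algebraMap k L α * x +
            algebraMap k L B := by
          have h3 : (algebraMap k L) 3 = 3 := map_ofNat _ 3
          simp [cub, h3]
        simp only [q, map_sub, map_pow, Polynomial.aevalAeval_C, Polynomial.aevalAeval_Y]
        rw [this, hxy, sub_self]
      rw [← h1, ← hdec, map_add, map_mul, h2, zero_mul, add_zero, hab, map_add, map_mul,
        Polynomial.aevalAeval_C, Polynomial.aevalAeval_C, Polynomial.aevalAeval_Y]
    -- the remainder vanishes
    have hsq : a ^ 2 = b ^ 2 * cub α B := by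
      apply Polynomial.funext
      intro t
      obtain ⟨s, hs⟩ := IsAlgClosed.exists_pow_nat_eq (t ^ 3 - 3 * α * t + B) (n := 2)
        (by norm_num)
      have h1 := key k t s (by simpa using hs)
      have h2 := hM.onX f hf t s hs
      have h3 : MvPolynomial.aeval (fun i => Polynomial.aeval t (M.G i) +
          Polynomial.aeval t (M.H i) * s) f = 0 := by
        rw [← h2]
        congr 1
      rw [h3] at h1
      simp only [Polynomial.coe_aeval_eq_eval] at h1
      rw [Polynomial.eval_pow, Polynomial.eval_mul, Polynomial.eval_pow, cub_eval, ← hs]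
      linear_combination (b.eval t * s - a.eval t) * h1
    have hb : b = 0 := by
      by_contra hb
      have ha : a ≠ 0 := by
        rintro rfl
        have : b ^ 2 * cub α B = 0 := by rw [← hsq]; simp
        rcases mul_eq_zero.1 this with h | h
        · exact hb (pow_eq_zero_iff two_ne_zero |>.1 h)
        · exact cub_ne α B h
      have h1 := congrArg Polynomial.natDegree hsq
      rw [Polynomial.natDegree_pow, Polynomial.natDegree_mul (pow_ne_zero 2 hb) (cub_ne α B),
        Polynomial.natDegree_pow, cub_natDegree] at h1
      omega
    have ha : a = 0 := by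
      rw [hb] at hsq
      simpa using hsq
    have h1 := key (Om k) x y hxy
    rw [hb, ha] at h1
    simp only [map_zero, zero_mul, add_zero] at h1
    rw [← h1]
    have h5 : (M.map (algebraMap k (Om k))).co x y =
        fun i => Polynomial.aeval x (M.G i) + Polynomial.aeval x (M.H i) * y := by
      funext i
      simp [Mp.co, Mp.map, Polynomial.eval_map_algebraMap]
    rw [h5]

end Pool.Agent.GT
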