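import Pool.Agent.Dess.Defs

/-!
# Zero-cycles on products of a projective variety

`X` is a set of homogeneous polynomials in `m + 1` variables with coefficients in the algebraically
closed field `k`, the equations of a projective variety. `Pt X K` is the set of its points with
coordinates in the field `K`. A curve is given by its function field `K`, a rational map from this
curve to a product of copies of the variety is given by a family of points with coordinates in `K`.
-/

set_option autoImplicit false

noncomputable section

namespace Pool.Agent.GT

open Pool.Agent.ZCyc Pool.Agent.Dess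
open scoped Classical LinearAlgebra.Projectivization

variable {k : Type} [Field k] {m : ℕ}

/-- The points with coordinates in `K` of the projective variety with the equations `X`. -/
def Pt (X : Set (MvPolynomial (Fin (m + 1)) k)) (K : Type) [Field K] [Algebra k K] : Type :=
  {x : ℙ K (Fin (m + 1) → K) // ∀ f ∈ X, MvPolynomial.aeval x.rep f = 0}

/-- The point `y` is the value of the point `x` at the place `v`. -/
def IsVal {X : Set (MvPolynomial (Fin (m + 1)) k)} {K : Type} [Field K] [Algebra k K]
    (v : Place k K) (x : Pt X K) (y : Pt X k) : Prop :=
  ∃ l : K, ∀ i, v.At (l * x.1.rep i) (y.1.rep i)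

/-- The zero-cycles on the product (over `ι`) of copies of the variety which are rationally
equivalent to zero: the span of the push-forwards of the divisors `D` of all rational functions `f`
on all smooth projective curves (with the function field `K`) by all maps `x` to the product. -/
def Rat (X : Set (MvPolynomial (Fin (m + 1)) k)) (ι : Type) :
    Submodule ℚ ((ι → Pt X k) →₀ ℚ) :=
  Submodule.span ℚ {z | ∃ (K : Type) (_ : Field K) (_ : Algebra k K) (_ : IsCurve k K)
    (x : ι → Pt X K) (y : Place k K → ι → Pt X k) (f : K) (D : Place k K →₀ ℤ), f ≠ 0 ∧
    (∀ v, HasOrd v f (D v)) ∧ (∀ v j, IsVal v (x j) (y v j)) ∧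
    z = D.sum fun v a => Finsupp.single (y v) (a : ℚ)}

/-- the exterior product of zero-cycles -/
def ext {T : Type} {n : ℕ} (z : Fin n → (T →₀ ℚ)) : (Fin n → T) →₀ ℚ :=
  ∑ x ∈ Fintype.piFinset fun j => (z j).support, Finsupp.single x (∏ j, z j (x j))

/-- the Chow group of zero-cycles with rational coefficients of the product -/
abbrev CH (X : Set (MvPolynomial (Fin (m + 1)) k)) (ι : Type) : Type :=
  ((ι → Pt X k) →₀ ℚ) ⧸ Rat X ι

/-- all equations are homogeneous -/
def Hom (X : Set (MvPolynomial (Fin (m + 1)) k)) : Prop := ∀ f ∈ X, ∃ d : ℕ, f.IsHomogeneous d

end Pool.Agent.GT
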