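import Pool.Agent.GT.OddC

/-!
# The classes of the differences of two points of a fibre
-/

set_option autoImplicit false

noncomputable section

namespace Pool.Agent.GT

open Pool.Agent.ZCyc Pool.Agent.Dess Polynomial
open Pool.Agent.VFP (Om tt)
open scoped Classical LinearAlgebra.Projectivization

variable {k L : Type} [Field k] [Field L] [Algebra k L] {m : ℕ}
  {X : Set (MvPolynomial (Fin (m + 1)) k)}

/-- The cycles `∑ φ_θ(p) - φ_θ(q)` (the sum over all roots `θ` of `h`): a curve with the function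
field `K`, with a map to the base curve (`σ`), points `p = (x, y)` and `q = (x', y')` over `K` of the
elliptic curve; all roots of `h` are in `K`; the points `P a`, `Q a` are the values of `φ_θ(p)`,
`φ_θ(q)` at a point `v` of the curve. -/
def DiffGen (d : GD L m) (X : Set (MvPolynomial (Fin (m + 1)) k)) : Set (Pt X k →₀ ℚ) :=
  {z | ∃ (K : Type) (_ : Field K) (_ : Algebra k K) (_ : IsCurve k K) (σ : L →ₐ[k] K)
    (v : Place k K) (e : ℕ) (θ : Fin e → K) (x y x' y' : K) (P Q : Fin e → Pt X k),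
    d.h.map (σ : L →+* K) = ∏ a, (Polynomial.X - Polynomial.C (θ a)) ∧
    y ^ 2 = x ^ 3 - 3 * σ d.α * x + σ d.B ∧
    y' ^ 2 = x' ^ 3 - 3 * σ d.α * x' + σ d.B ∧
    (∀ a, ∃ l : K, ∀ i, v.At (l * (d.mp (σ : L →+* K) (θ a)).co x y i) ((P a).1.rep i)) ∧
    (∀ a, ∃ l : K, ∀ i, v.At (l * (d.mp (σ : L →+* K) (θ a)).co x' y' i) ((Q a).1.rep i)) ∧
    z = ∑ a, (Finsupp.single (P a) 1 - Finsupp.single (Q a) 1)}

/-- the coordinates under an extension of fields -/
private theorem DiffC_co {K K' : Type} [Field K] [Field K'] {A : Type} [CommRing A] (d : GD A m)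
    (S : A →+* K) (ι : K →+* K') (θ x y : K) (i : Fin (m + 1)) :
    (d.mp (ι.comp S) (ι θ)).co (ι x) (ι y) i = ι ((d.mp S θ).co x y i) := by
  have h : Polynomial.eval₂RingHom (ι.comp S) (ι θ) = ι.comp (Polynomial.eval₂RingHom S θ) := by
    refine Polynomial.ringHom_ext (fun a => ?_) ?_
    · simp
    · simp
  unfold Mp.co GD.mp
  simp only [h]
  rw [map_add, map_mul, ← Polynomial.map_map, ← Polynomial.map_map, Polynomial.eval_map_apply,
    Polynomial.eval_map_apply]

/-- values under an extension of fields -/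
private theorem DiffC_at {K K' : Type} [Field K] [Algebra k K] [Field K'] [Algebra k K']
    {φ : K →ₐ[k] K'} {V : Place k K'} {v : Place k K}
    (hV : V.ring.comap (φ : K →+* K') = v.ring) (f : K) (c : k) :
    V.At (φ f) c ↔ v.At f c := by
  have hmem : ∀ f : K, φ f ∈ V.ring ↔ f ∈ v.ring := by
    intro f
    rw [← hV, ValuationSubring.mem_comap]
    rfl
  unfold Place.At
  rw [Place.vanishes_iff_or, Place.vanishes_iff_or, ← φ.commutes c, ← map_sub, ← map_inv₀,
    hmem, map_eq_zero]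

variable [IsAlgClosed k] [CharZero k]

variable [IsAlgClosed k] [CharZero k]

omit [CharZero k] in
/-- the limit of the image of a point -/
private theorem DiffC_lmp (hX : Hom X) {α B : Om k} {M : Mp (Om k) m} (hM : M.Ok α B X)
    {v : Place k (Om k)} {x y : Om k} (hxy : (Ec α B).Nonsingular x y) {Y : Pt X k} {l : Om k}
    (h : ∀ i, v.At (l * M.co x y i) (Y.1.rep i)) :
    M.Ns (.some x y hxy : (Ec α B).Point) ∧
      lmp hX hM v (.some x y hxy) = cl1 X (Finsupp.single Y 1) := by
  have hne : M.co x y ≠ 0 := by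
    intro h0
    apply Y.1.rep_nonzero
    funext i
    have h1 := h i
    rw [h0, Pi.zero_apply, mul_zero] at h1
    have h2 := Place.at_const (v := v) (0 : k)
    rw [map_zero] at h2
    exact Place.At.unique h1 h2
  have hN : M.Ns (.some x y hxy : (Ec α B).Point) := hne
  refine ⟨hN, ?_⟩
  have h5 : pv hX v (phi hX hM (.some x y hxy) hN) = Y :=
    pv_eq ((isVal_iff hne Y.1.rep_nonzero rfl (Projectivization.mk_rep Y.1).symm).2 ⟨l, h⟩)
  have h6 : cyc hX hM (.some x y hxy) =
      Finsupp.single (phi hX hM (.some x y hxy) hN) 1 := dif_pos hN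
  change lim1 hX v _ = cl1 X _
  rw [h6]
  change Submodule.Quotient.mk (Finsupp.mapDomain _ (Finsupp.mapDomain _ _)) =
    Submodule.Quotient.mk (Finsupp.mapDomain _ _)
  rw [Finsupp.mapDomain_single, Finsupp.mapDomain_single, Finsupp.mapDomain_single]
  change Submodule.Quotient.mk (Finsupp.single
    (fun _ : Unit => pv hX v (phi hX hM (.some x y hxy) hN)) 1) = _
  rw [h5]

/-- The class of a difference cycle is a value of `TV`. Proof: as for the odd cycles:
`hV (p - q) = lmp p - lmp q`. -/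
theorem diff_class (hX : Hom X) {d : GD L m} {U : Set (Place k L)} {d' : GD (regU U) m}
    (hd' : d'.Ok X) (hdd : d'.map ((regU U).val : regU U →+* L) = d) {z : Pt X k →₀ ℚ}
    (hz : z ∈ DiffGen d X) :
    ∃ (σ : L →ₐ[k] Om k) (v : Place k (Om k))
      (P : (Ec (σ.comp (regU U).val d'.α) (σ.comp (regU U).val d'.B)).Point),
      cl1 X z = TV hX hd' (σ.comp (regU U).val) v P := by
  obtain ⟨K, i1, i2, hK, σ₀, w, e, θ, x, y, x', y', P, Q, hh, hxy, hxy1, hP, hQ, rfl⟩ := hz
  obtain ⟨ι, v, hv⟩ := exists_embed hK w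
  subst hdd
  let S : regU U →ₐ[k] Om k := (ι.comp σ₀).comp (regU U).val
  have hS : (S : regU U →+* Om k) =
      (ι : K →+* Om k).comp ((σ₀ : L →+* K).comp ((regU U).val : regU U →+* L)) := rfl
  -- the polynomial `h`
  have hh' : d'.h.map (S : regU U →+* Om k) =
      ∏ a, (Polynomial.X - Polynomial.C (ι (θ a))) := by
    have h1 : ((d'.map ((regU U).val : regU U →+* L)).h.map (σ₀ : L →+* K)).map
        (ι : K →+* Om k) = d'.h.map (S : regU U →+* Om k) := by
      rw [hS, ← Polynomial.map_map, ← Polynomial.map_map]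
      rfl
    rw [← h1, hh, Polynomial.map_prod]
    refine Finset.prod_congr rfl fun a _ => ?_
    rw [Polynomial.map_sub, Polynomial.map_X, Polynomial.map_C]
    rfl
  have hinj : Function.Injective fun a => ι (θ a) := by
    rw [← Polynomial.separable_prod_X_sub_C_iff, ← hh']
    obtain ⟨u, w', huw⟩ := hd'.sep
    refine Polynomial.Separable.map ?_
    exact ⟨u, w', huw⟩
  have hmem : ∀ t : Om k, t ∈ d'.rts (S : regU U →+* Om k) ↔ ∃ a, ι (θ a) = t := by
    intro t
    unfold GD.rts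
    rw [Multiset.mem_toFinset, hh', Polynomial.mem_roots', Polynomial.IsRoot.def,
      Polynomial.eval_prod, Finset.prod_eq_zero_iff]
    constructor
    · rintro ⟨-, a, -, h⟩
      refine ⟨a, ?_⟩
      rw [Polynomial.eval_sub, Polynomial.eval_X, Polynomial.eval_C, sub_eq_zero] at h
      exact h.symm
    · rintro ⟨a, rfl⟩
      refine ⟨?_, a, Finset.mem_univ a, ?_⟩
      · exact Finset.prod_ne_zero_iff.2 fun b _ => Polynomial.X_sub_C_ne_zero _
      · rw [Polynomial.eval_sub, Polynomial.eval_X, Polynomial.eval_C, sub_self]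
  -- the point
  have hxy' : (ι y) ^ 2 = (ι x) ^ 3 - 3 * S d'.α * ι x + S d'.B := by
    have h1 := congrArg ι hxy
    simp only [map_pow, map_add, map_sub, map_mul, map_ofNat] at h1
    exact h1
  have hdisc : (S d'.B) ^ 2 ≠ 4 * (S d'.α) ^ 3 := by
    have h1 := hd'.disc.map (S : regU U →+* Om k)
    have h2 := h1.ne_zero
    intro h3
    apply h2
    change S (d'.B ^ 2 - 4 * d'.α ^ 3) = 0
    simp only [map_pow, map_sub, map_mul, map_ofNat]
    rw [h3, sub_self]
  have hxy1' : (ι y') ^ 2 = (ι x') ^ 3 - 3 * S d'.α * ι x' + S d'.B := by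
    have h1 := congrArg ι hxy1
    simp only [map_pow, map_add, map_sub, map_mul, map_ofNat] at h1
    exact h1
  let p : (Ec (S d'.α) (S d'.B)).Point := pt hdisc hxy'
  let q : (Ec (S d'.α) (S d'.B)).Point := pt hdisc hxy1'
  refine ⟨ι.comp σ₀, v, p - q, ?_⟩
  change _ = TV hX hd' S v (p - q)
  unfold TV
  rw [AddMonoidHom.finsetSum_apply, map_sum]
  refine Finset.sum_bij (fun a _ => ⟨ι (θ a), (hmem _).2 ⟨a, rfl⟩⟩) (fun a _ => Finset.mem_univ _)
    (fun a _ b _ h => hinj (congrArg Subtype.val h)) (fun t _ => ?_) (fun a _ => ?_)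
  · obtain ⟨a, ha⟩ := (hmem t.1).1 t.2
    exact ⟨a, Finset.mem_univ a, Subtype.ext ha⟩
  · have hat : ∀ (x y : K) (Y : Pt X k), (∃ l : K, ∀ i, w.At (l * ((d'.map
        ((regU U).val : regU U →+* L)).mp (σ₀ : L →+* K) (θ a)).co x y i) (Y.1.rep i)) →
        ∃ l : Om k, ∀ i, v.At (l * (d'.mp (S : regU U →+* Om k) (ι (θ a))).co (ι x) (ι y) i)
          (Y.1.rep i) := by
      rintro x y Y ⟨l, hl⟩
      refine ⟨ι l, fun i => ?_⟩
      have h1 := (DiffC_at hv _ _).2 (hl i)
      rw [mp_map, map_mul] at h1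
      rw [hS]
      have h2 := DiffC_co d' ((σ₀ : L →+* K).comp ((regU U).val : regU U →+* L))
        (ι : K →+* Om k) (θ a) x y i
      have h3 : (ι : K →+* Om k) ((d'.mp ((σ₀ : L →+* K).comp ((regU U).val : regU U →+* L))
        (θ a)).co x y i) = ι ((d'.mp ((σ₀ : L →+* K).comp ((regU U).val : regU U →+* L))
        (θ a)).co x y i) := rfl
      rw [h3] at h2
      rw [← h2] at h1
      exact h1
    obtain ⟨l₁, h₁⟩ := hat x y (P a) (hP a)
    obtain ⟨l₂, h₂⟩ := hat x' y' (Q a) (hQ a)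
    have hM := hd'.mp_ok S (θ := ι (θ a)) ((hmem _).2 ⟨a, rfl⟩)
    have g₁ := DiffC_lmp hX hM (nonsing hdisc hxy') h₁
    have g₂ := DiffC_lmp hX hM (nonsing hdisc hxy1') h₂
    have e₁ : p - q + pt hdisc hxy1' = p := sub_add_cancel p q
    have g₃ := hV_spec hX hM v (P := p - q) (Q := pt hdisc hxy1') g₂.1 (by
      rw [e₁]
      exact g₁.1)
    rw [e₁] at g₃
    rw [map_sub, ← g₁.2, ← g₂.2]
    exact g₃

end Pool.Agent.GT
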