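import Pool.Agent.GT.Pencil
import Pool.Agent.GT.CurveB

/-!
# The homomorphism from the points of the curve to the classes of zero-cycles
-/

set_option autoImplicit false

noncomputable section

namespace Pool.Agent.GT

open Pool.Agent.ZCyc Pool.Agent.Dess Polynomial
open Pool.Agent.VFP (Om tt)
open scoped Classical LinearAlgebra.Projectivization

variable {k : Type} [Field k] [IsAlgClosed k] [CharZero k] {m : ℕ}
  {X : Set (MvPolynomial (Fin (m + 1)) k)} {α B : k} {M : Mp k m}

omit [IsAlgClosed k] [CharZero k] in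
private theorem fin_ns (hM : M.Ok α B X) (p : (Ec α B).Point) :
    {s : (Ec α B).Point | ¬ M.Ns (p + s)}.Finite := by
  refine (finite_bad (α := α) (B := B) hM.ne).preimage (f := fun s => p + s) ?_
  exact (add_right_injective p).injOn

omit [IsAlgClosed k] in
private theorem fin_half (p A : (Ec α B).Point) :
    {s : (Ec α B).Point | (p + s) + (p + s) = A}.Finite := by
  refine (finite_half (α := α) (B := B) A).preimage (f := fun s => p + s) ?_
  exact (add_right_injective p).injOn

private theorem fin_good (hX : Hom X) (hM : M.Ok α B X) {p q : (Ec α B).Point} (h₁ : M.Ns q)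
    (h₂ : M.Ns (p + q)) : {s : (Ec α B).Point | ¬ (clp hX hM (p + q) + clp hX hM s =
      clp hX hM (p + s) + clp hX hM q)}.Finite := by
  have h := ((((((fin_ns hM (0 : (Ec α B).Point)).union (fin_ns hM p)).union
    (Set.finite_singleton (-(p + q)))).union (Set.finite_singleton (p + q))).union
    (Set.finite_singleton (q - p))).union (Set.finite_singleton (-((p + q) + (p + q))))).union
    (((finite_half (α := α) (B := B) (-(p + q))).union (fin_half (α := α) (B := B) p (-q))).union
      (Set.finite_singleton (-((p + q) + q))))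
  refine h.subset fun s hs => ?_
  by_contra hc
  apply hs
  simp only [Set.mem_union, Set.mem_ofPred_eq, Set.mem_singleton_iff, zero_add, not_or,
    not_not] at hc
  obtain ⟨⟨⟨⟨⟨⟨c1, c2⟩, c3⟩, c4⟩, c5⟩, c6⟩, ⟨c7, c8⟩, c9⟩ := hc
  refine pencil hX hM h₂ c1 c2 h₁ (S := p + q + s) ?_ rfl (by abel) (Ne.symm c4) ?_ ?_ ?_ ?_ ?_
  · intro h0
    exact c3 (eq_neg_of_add_eq_zero_right h0)
  · intro h0
    exact c5 (eq_sub_of_add_eq (by rw [← h0]; abel))
  · intro h0
    have h3 := eq_neg_iff_add_eq_zero.1 h0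
    exact c6 (eq_neg_of_add_eq_zero_left (by rw [← h3]; abel))
  · intro h0
    have h3 := eq_neg_iff_add_eq_zero.1 h0
    exact c7 (eq_neg_of_add_eq_zero_left (by rw [← h3]; abel))
  · intro h0
    have h3 := eq_neg_iff_add_eq_zero.1 h0
    exact c8 (eq_neg_of_add_eq_zero_left (by rw [← h3]; abel))
  · intro h0
    have h3 := eq_neg_iff_add_eq_zero.1 h0
    exact c9 (eq_neg_of_add_eq_zero_left (by rw [← h3]; abel))

/-- Independence of the auxiliary point. Proof: it is enough to compare both `q`, `q'` with a general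
point `s`: `clp (p + q) + clp s = clp (p + s) + clp q` by `pencil` for `P₁ = p + q`, `P₂ = s`,
`P₃ = p + s`, `P₄ = q`. All conditions on `s` exclude only finitely many points: `Ns s`, `Ns (p + s)`
(`finite_bad`), `s ≠ p + q`, `p + s ≠ q`, `s ≠ -(p + q)`, `P_i ≠ -S`, where `S = p + q + s`
(`finite_half` for `2 s = -(p + q)` and `2 (p + s) = - q`); there are infinitely many points
(`infinite_points`). -/
theorem clp_indep (hX : Hom X) (hM : M.Ok α B X) {p q q' : (Ec α B).Point} (h₁ : M.Ns q)
    (h₂ : M.Ns (p + q)) (h₃ : M.Ns q') (h₄ : M.Ns (p + q')) :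
    clp hX hM (p + q) - clp hX hM q = clp hX hM (p + q') - clp hX hM q' := by
  have hinf := infinite_points (α := α) (B := B) hM.disc
  obtain ⟨s, hs⟩ := ((fin_good hX hM h₁ h₂).union (fin_good hX hM h₃ h₄)).exists_notMem
  simp only [Set.mem_union, Set.mem_ofPred_eq, not_or, not_not] at hs
  obtain ⟨e1, e2⟩ := hs
  have e3 : clp hX hM (p + q) - clp hX hM q = clp hX hM (p + s) - clp hX hM s := by
    rw [sub_eq_sub_iff_add_eq_add]
    exact e1
  have e4 : clp hX hM (p + q') - clp hX hM q' = clp hX hM (p + s) - clp hX hM s := by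
    rw [sub_eq_sub_iff_add_eq_add]
    exact e2
  rw [e3, e4]

/-- The difference defines a homomorphism: additivity is a telescoping sum with a general `q`. -/
theorem exists_hK (hX : Hom X) (hM : M.Ok α B X) : ∃ h : (Ec α B).Point →+ CH X Unit,
    ∀ p q, M.Ns q → M.Ns (p + q) → clp hX hM (p + q) - clp hX hM q = h p := by
  have hinf := infinite_points (α := α) (B := B) hM.disc
  have hex : ∀ p : (Ec α B).Point, ∃ q, M.Ns q ∧ M.Ns (p + q) := by
    intro p
    obtain ⟨s, hs⟩ := ((fin_ns hM (0 : (Ec α B).Point)).union (fin_ns hM p)).exists_notMem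
    simp only [Set.mem_union, Set.mem_ofPred_eq, not_or, not_not, zero_add] at hs
    exact ⟨s, hs⟩
  choose c hc1 hc2 using hex
  have key : ∀ p q, M.Ns q → M.Ns (p + q) → clp hX hM (p + q) - clp hX hM q =
      clp hX hM (p + c p) - clp hX hM (c p) := fun p q h1 h2 =>
    clp_indep hX hM h1 h2 (hc1 p) (hc2 p)
  refine ⟨AddMonoidHom.mk' (fun p => clp hX hM (p + c p) - clp hX hM (c p)) ?_, key⟩
  intro p p'
  obtain ⟨s, hs⟩ := (((fin_ns hM (0 : (Ec α B).Point)).union (fin_ns hM p')).union
    (fin_ns hM (p + p'))).exists_notMem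
  simp only [Set.mem_union, Set.mem_ofPred_eq, not_or, not_not, zero_add] at hs
  obtain ⟨⟨h1, h2⟩, h3⟩ := hs
  rw [← key (p + p') s h1 h3, ← key p' s h1 h2, ← key p (p' + s) h2 (by rwa [← add_assoc]),
    ← add_assoc]
  abel

/-- the homomorphism from the points of the curve to the classes of zero-cycles -/
def hK (hX : Hom X) (hM : M.Ok α B X) : (Ec α B).Point →+ CH X Unit :=
  (exists_hK hX hM).choose

theorem hK_spec (hX : Hom X) (hM : M.Ok α B X) {p q : (Ec α B).Point} (h₁ : M.Ns q)
    (h₂ : M.Ns (p + q)) : clp hX hM (p + q) - clp hX hM q = hK hX hM p :=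
  (exists_hK hX hM).choose_spec p q h₁ h₂

end Pool.Agent.GT
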