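import Pool.Agent.GT.Curve

/-!
# Reduction of points at a place
-/

set_option autoImplicit false

noncomputable section

namespace Pool.Agent.GT

open Pool.Agent.ZCyc Pool.Agent.Dess Polynomial
open Pool.Agent.VFP (Om tt)
open scoped Classical LinearAlgebra.Projectivization

variable {k : Type} [Field k] {m : ℕ}

/-- the point `p` is the value of the point `P` at the place `v` -/
def PRed (v : Place k (Om k)) {α B : Om k} {a b : k} :
    (Ec α B).Point → (Ec a b).Point → Prop
  | .zero, .zero => True
  | .zero, .some _ _ _ => False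
  | .some x _ _, .zero => x ∉ v.ring
  | .some x y _, .some x' y' _ => v.At x x' ∧ v.At y y'

variable [IsAlgClosed k] [CharZero k] {v : Place k (Om k)} {α B : Om k} {a b : k}

private theorem charZero_Om : CharZero (Om k) :=
  charZero_of_injective_algebraMap (algebraMap k (Om k)).injective

private theorem at_rhs (hα : v.At α a) (hB : v.At B b) {x : Om k} {x' : k} (hx : v.At x x') :
    v.At (x ^ 3 - 3 * α * x + B) (x' ^ 3 - 3 * a * x' + b) := by
  have h3 : v.At (3 : Om k) (3 : k) := by
    have := Place.at_const (v := v) (3 : k)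
    rwa [map_ofNat] at this
  exact ((hx.pow 3).sub ((h3.mul hα).mul hx)).add hB

/-- the value exists: if `x` is in the ring then `y` is too (`y ²` is), and both have values
(`DCI57.exists_at`) -/
theorem exists_pred (hα : v.At α a) (hB : v.At B b) (hd : b ^ 2 ≠ 4 * a ^ 3)
    (P : (Ec α B).Point) : ∃ p : (Ec a b).Point, PRed v P p := by
  rcases P with _ | ⟨x, y, h⟩
  · exact ⟨.zero, trivial⟩
  · by_cases hx : x ∈ v.ring
    · obtain ⟨x', hx'⟩ := DCI57.exists_at v hx
      have hE := eqn_iff.1 h.1
      have hr := at_rhs hα hB hx'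
      have hy : y ∈ v.ring := by
        have h2 : y ^ 2 ∈ v.ring := by
          rw [hE]
          exact hr.mem
        rw [← v.ring.valuation_le_one_iff] at h2 ⊢
        rw [map_pow] at h2
        exact (pow_le_one_iff two_ne_zero).1 h2
      obtain ⟨y', hy'⟩ := DCI57.exists_at v hy
      have hE' : y' ^ 2 = x' ^ 3 - 3 * a * x' + b := by
        have h1 := hy'.pow 2
        rw [hE] at h1
        exact h1.unique hr
      exact ⟨.some x' y' (nonsing hd hE'), hx', hy'⟩
    · exact ⟨.zero, hx⟩

theorem pred_unique {P : (Ec α B).Point} {p p' : (Ec a b).Point} (h : PRed v P p)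
    (h' : PRed v P p') : p = p' := by
  rcases P with _ | ⟨x, y, hP⟩ <;> rcases p with _ | ⟨x', y', hp⟩ <;>
    rcases p' with _ | ⟨x'', y'', hp'⟩
  · rfl
  · exact h'.elim
  · exact h.elim
  · exact h.elim
  · rfl
  · exact (h h'.1.mem).elim
  · exact (h' h.1.mem).elim
  · have h1 := h.1.unique h'.1
    have h2 := h.2.unique h'.2
    subst h1 h2
    rfl

theorem pred_neg {P : (Ec α B).Point} {p : (Ec a b).Point} (h : PRed v P p) :
    PRed v (-P) (-p) := by
  rcases P with _ | ⟨x, y, hP⟩ <;> rcases p with _ | ⟨x', y', hp⟩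
  · exact trivial
  · exact h.elim
  · rw [WeierstrassCurve.Affine.Point.neg_some]
    exact h
  · rw [WeierstrassCurve.Affine.Point.neg_some, WeierstrassCurve.Affine.Point.neg_some]
    refine ⟨h.1, ?_⟩
    have h1 : ∀ {K : Type} [Field K] (α B x y : K), (Ec α B).negY x y = -y := by
      intro K _ α B x y
      simp [WeierstrassCurve.Affine.negY]
    rw [h1, h1]
    exact h.2.neg

private theorem disc_ne (hα : v.At α a) (hB : v.At B b) (hd : b ^ 2 ≠ 4 * a ^ 3) :
    B ^ 2 ≠ 4 * α ^ 3 := by
  intro h
  have h4 : v.At (4 : Om k) (4 : k) := by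
    have := Place.at_const (v := v) (4 : k)
    rwa [map_ofNat] at this
  have h1 := hB.pow 2
  rw [h] at h1
  exact hd (h1.unique (h4.mul (hα.pow 3)))

/-- every point can be lifted: `x` constant, `y` a square root with the right value; at a point with
`y = 0`: `y` is any of the two roots. (If the discriminant is a unit all points are nonsingular.) -/
theorem exists_lift (hα : v.At α a) (hB : v.At B b) (hd : b ^ 2 ≠ 4 * a ^ 3)
    (p : (Ec a b).Point) : ∃ P : (Ec α B).Point, PRed v P p := by
  have := charZero_Om (k := k)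
  rcases p with _ | ⟨x, y, h⟩
  · exact ⟨.zero, trivial⟩
  · have hE := eqn_iff.1 h.1
    obtain ⟨z, hz⟩ := IsAlgClosed.exists_pow_nat_eq
      ((algebraMap k (Om k) x) ^ 3 - 3 * α * algebraMap k (Om k) x + B) (n := 2) two_pos
    have hx := Place.at_const (v := v) x
    have h1 : v.At (z ^ 2) (y ^ 2) := by
      rw [hz, hE]
      exact at_rhs hα hB hx
    have h2 : v.Vanishes ((z - algebraMap k (Om k) y) * (z + algebraMap k (Om k) y)) := by
      unfold Place.At at h1
      rw [map_pow] at h1
      convert h1 using 1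
      ring
    have h3 : v.Vanishes (z - algebraMap k (Om k) y) ∨ v.Vanishes (z + algebraMap k (Om k) y) := by
      rw [Place.vanishes_iff, map_mul] at h2
      by_contra hcon
      push Not at hcon
      rw [Place.vanishes_iff, Place.vanishes_iff, not_lt, not_lt] at hcon
      exact absurd h2 (not_lt.2 (one_le_mul hcon.1 hcon.2))
    rcases h3 with h3 | h3
    · exact ⟨.some (algebraMap k (Om k) x) z (nonsing (disc_ne hα hB hd) hz), hx, h3⟩
    · refine ⟨.some (algebraMap k (Om k) x) (-z) (nonsing (disc_ne hα hB hd) (by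
        rw [neg_sq]; exact hz)), hx, ?_⟩
      unfold Place.At
      have := h3.neg
      convert this using 1
      ring

/-- the coordinates of a map have values -/
def MRed (v : Place k (Om k)) (M : Mp (Om k) m) (N : Mp k m) : Prop :=
  ∀ i n, v.At ((M.G i).coeff n) ((N.G i).coeff n) ∧ v.At ((M.H i).coeff n) ((N.H i).coeff n)

private theorem eval_at {p : (Om k)[X]} {q : k[X]} (h : ∀ n, v.At (p.coeff n) (q.coeff n))
    {x : Om k} {x' : k} (hx : v.At x x') : v.At (p.eval x) (q.eval x') := by
  have h1 := Polynomial.eval_eq_sum_range' (p := p) (n := max p.natDegree q.natDegree + 1)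
    (by omega) x
  have h2 := Polynomial.eval_eq_sum_range' (p := q) (n := max p.natDegree q.natDegree + 1)
    (by omega) x'
  rw [h1, h2]
  exact Place.At.sum fun i _ => (h i).mul (hx.pow i)

theorem co_at {M : Mp (Om k) m} {N : Mp k m} (h : MRed v M N) {x y : Om k} {x' y' : k}
    (hx : v.At x x') (hy : v.At y y') (i : Fin (m + 1)) : v.At (M.co x y i) (N.co x' y' i) := by
  unfold Mp.co
  exact (eval_at (fun n => (h i n).1) hx).add ((eval_at (fun n => (h i n).2) hx).mul hy)

end Pool.Agent.GT
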