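import Pool.Agent.GT.Pencil
import Pool.Agent.GT.RedA

/-!
# The limit homomorphism at a place of `Om k`
-/

set_option autoImplicit false

noncomputable section

namespace Pool.Agent.GT

open Pool.Agent.ZCyc Pool.Agent.Dess Polynomial
open Pool.Agent.VFP (Om tt)
open scoped Classical LinearAlgebra.Projectivization

variable {k : Type} [Field k] [IsAlgClosed k] [CharZero k] {m : ℕ}
  {X : Set (MvPolynomial (Fin (m + 1)) k)}

/-- the limit at `v` of the image of a point over `Om k` -/
def lmp {α B : Om k} {M : Mp (Om k) m} (hX : Hom X) (hM : M.Ok α B X) (v : Place k (Om k))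
    (P : (Ec α B).Point) : CH X Unit := lim1 hX v (cyc hX hM P)

omit [IsAlgClosed k] [CharZero k] in
private theorem HomVA_mv {v : Place k (Om k)} {ι : Type} {u : ι → Om k} {c : ι → k}
    (h : ∀ i, v.At (u i) (c i)) (f : MvPolynomial ι k) :
    v.At (MvPolynomial.aeval u f) (MvPolynomial.aeval c f) := by
  induction f using MvPolynomial.induction_on with
  | C a =>
    rw [MvPolynomial.aeval_C, MvPolynomial.aeval_C]
    exact Place.at_const a
  | add p q hp hq =>
    rw [map_add, map_add]
    exact hp.add hq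
  | mul_X p i hp =>
    rw [map_mul, map_mul, MvPolynomial.aeval_X, MvPolynomial.aeval_X]
    exact hp.mul (h i)

omit [IsAlgClosed k] [CharZero k] in
private theorem HomVA_zero {v : Place k (Om k)} {c : k} (h : v.At (0 : Om k) c) : c = 0 := by
  have h1 : v.At (0 : Om k) 0 := by simpa using Place.at_const (v := v) (0 : k)
  exact h.unique h1

omit [IsAlgClosed k] [CharZero k] in
private theorem HomVA_unit {v : Place k (Om k)} {g : Om k} {c : k} (hg : g ≠ 0)
    (h : g ∈ v.ring ∧ g⁻¹ ∈ v.ring) (hc : v.At g c) : c ≠ 0 := by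
  rintro rfl
  rcases (v.vanishes_iff_or g).1 (Place.at_zero_iff.1 hc) with h1 | h1
  · exact hg h1
  · exact h1 h.2

omit [CharZero k] in
private theorem HomVA_poly {v : Place k (Om k)} {p : (Om k)[X]} (h : ∀ n, p.coeff n ∈ v.ring) :
    ∃ q : k[X], ∀ n, v.At (p.coeff n) (q.coeff n) := by
  choose c hc using fun n => DCI57.exists_at v (h n)
  refine ⟨∑ n ∈ Finset.range (p.natDegree + 1), Polynomial.monomial n (c n), fun n => ?_⟩
  rw [Polynomial.finsetSum_coeff]
  simp only [Polynomial.coeff_monomial]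
  rw [Finset.sum_ite_eq' (Finset.range (p.natDegree + 1)) n]
  split_ifs with h1
  · exact hc n
  · rw [Finset.mem_range, not_lt] at h1
    rw [Polynomial.coeff_eq_zero_of_natDegree_lt h1]
    simpa using Place.at_const (v := v) (0 : k)

private theorem HomVA_ok {α B : Om k} {M : Mp (Om k) m} (hM : M.Ok α B X) {v : Place k (Om k)}
    {a b : k} {N : Mp k m} (hα : v.At α a) (hB : v.At B b) (hN : MRed v M N)
    (hd : b ^ 2 ≠ 4 * a ^ 3) (hne : ∃ i, N.G i ≠ 0 ∨ N.H i ≠ 0) : N.Ok a b X := by
  refine ⟨hd, hne, fun f hf x y hxy => ?_⟩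
  obtain ⟨P, hP⟩ := exists_lift hα hB hd (pt hd hxy)
  cases P with
  | zero => exact hP.elim
  | some x' y' h' =>
    have h1 : v.At x' x ∧ v.At y' y := hP
    have h2 := HomVA_mv (fun i => co_at hN h1.1 h1.2 i) f
    have h3 : MvPolynomial.aeval (M.co x' y') f = 0 := hM.onX f hf x' y' (eqn_iff.1 h'.1)
    rw [h3] at h2
    exact HomVA_zero h2

/-- At almost all places the curve and the map have a good reduction: `Γ` contains the nonzero
elements among `α`, `B`, the coefficients of `G_i`, `H_i`, and the discriminant. The equations of `X`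
hold at the value: lift a point over `k` (`exists_lift`) and use `co_at`. -/
theorem exists_reduction {α B : Om k} {M : Mp (Om k) m} (hM : M.Ok α B X) :
    ∃ Γ : Finset (Om k), (0 : Om k) ∉ Γ ∧
      ∀ v : Place k (Om k), (∀ g ∈ Γ, g ∈ v.ring ∧ g⁻¹ ∈ v.ring) →
        ∃ (a b : k) (N : Mp k m), v.At α a ∧ v.At B b ∧ MRed v M N ∧ N.Ok a b X := by
  let S : Finset (Om k) := {α, B, B ^ 2 - 4 * α ^ 3} ∪ Finset.univ.biUnion fun i =>
    (M.G i).support.image (M.G i).coeff ∪ (M.H i).support.image (M.H i).coeff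
  refine ⟨S.erase 0, Finset.notMem_erase 0 S, fun v hv => ?_⟩
  have hmem : ∀ g ∈ S, g ∈ v.ring := by
    intro g hg
    by_cases h : g = 0
    · rw [h]
      exact zero_mem _
    · exact (hv g (Finset.mem_erase.2 ⟨h, hg⟩)).1
  have hunit : ∀ g ∈ S, g ≠ 0 → ∀ c, v.At g c → c ≠ 0 := fun g hg h c hc =>
    HomVA_unit h (hv g (Finset.mem_erase.2 ⟨h, hg⟩)) hc
  have hG : ∀ i n, (M.G i).coeff n ≠ 0 → (M.G i).coeff n ∈ S := fun i n h =>
    Finset.mem_union_right _ (Finset.mem_biUnion.2 ⟨i, Finset.mem_univ i,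
      Finset.mem_union_left _ (Finset.mem_image_of_mem _ (Polynomial.mem_support_iff.2 h))⟩)
  have hH : ∀ i n, (M.H i).coeff n ≠ 0 → (M.H i).coeff n ∈ S := fun i n h =>
    Finset.mem_union_right _ (Finset.mem_biUnion.2 ⟨i, Finset.mem_univ i,
      Finset.mem_union_right _ (Finset.mem_image_of_mem _ (Polynomial.mem_support_iff.2 h))⟩)
  have hG' : ∀ i n, (M.G i).coeff n ∈ v.ring := by
    intro i n
    by_cases h : (M.G i).coeff n = 0
    · rw [h]
      exact zero_mem _
    · exact hmem _ (hG i n h)
  have hH' : ∀ i n, (M.H i).coeff n ∈ v.ring := by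
    intro i n
    by_cases h : (M.H i).coeff n = 0
    · rw [h]
      exact zero_mem _
    · exact hmem _ (hH i n h)
  obtain ⟨a, ha⟩ := DCI57.exists_at v (hmem α (by simp [S]))
  obtain ⟨b, hb⟩ := DCI57.exists_at v (hmem B (by simp [S]))
  choose G hGat using fun i => HomVA_poly (hG' i)
  choose H hHat using fun i => HomVA_poly (hH' i)
  have hdisc : v.At (B ^ 2 - 4 * α ^ 3) (b ^ 2 - 4 * a ^ 3) := by
    refine (hb.pow 2).sub (Place.At.mul ?_ (ha.pow 3))
    have := Place.at_const (v := v) (4 : k)
    rwa [map_ofNat] at this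
  have hred : MRed v M ⟨G, H⟩ := fun i n => ⟨hGat i n, hHat i n⟩
  refine ⟨a, b, ⟨G, H⟩, ha, hb, hred, HomVA_ok hM ha hb hred ?_ ?_⟩
  · intro h
    exact hunit _ (by simp [S]) (sub_ne_zero.2 hM.disc) _ hdisc (sub_eq_zero.2 h)
  · obtain ⟨i, hi⟩ := hM.ne
    refine ⟨i, ?_⟩
    rcases hi with hi | hi
    · left
      intro h
      refine hi (Polynomial.ext fun n => ?_)
      by_contra hn
      rw [Polynomial.coeff_zero] at hn
      refine hunit _ (hG i n hn) hn _ (hGat i n) ?_
      have h' : G i = 0 := h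
      rw [h', Polynomial.coeff_zero]
    · right
      intro h
      refine hi (Polynomial.ext fun n => ?_)
      by_contra hn
      rw [Polynomial.coeff_zero] at hn
      refine hunit _ (hH i n hn) hn _ (hHat i n) ?_
      have h' : H i = 0 := h
      rw [h', Polynomial.coeff_zero]

/-- the equations of `X` and the other conditions for the reduction at one place -/
theorem ok_of_red {α B : Om k} {M : Mp (Om k) m} (hM : M.Ok α B X) {v : Place k (Om k)} {a b : k}
    {N : Mp k m} (hα : v.At α a) (hB : v.At B b) (hN : MRed v M N) (hd : b ^ 2 ≠ 4 * a ^ 3)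
    (hne : ∃ i, N.G i ≠ 0 ∨ N.H i ≠ 0) : N.Ok a b X :=
  HomVA_ok hM hα hB hN hd hne

/-- at a place with good reduction: if the reduction `p` of `P` is good for `N` then `P` is good for
`M`, and the limit is the class of the image of `p` (`co_at`, `isVal_mkPt` with `l = 1`) -/
theorem lmp_eq_clp (hX : Hom X) {α B : Om k} {M : Mp (Om k) m} (hM : M.Ok α B X)
    {v : Place k (Om k)} {a b : k} {N : Mp k m} (hN : N.Ok a b X) (h : MRed v M N)
    {P : (Ec α B).Point} {p : (Ec a b).Point} (hP : PRed v P p) (hp : N.Ns p) :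
    M.Ns P ∧ lmp hX hM v P = clp hX hN p := by
  cases p with
  | zero => exact hp.elim
  | some x' y' hxy' =>
    cases P with
    | zero => exact hP.elim
    | some x y hxy =>
      have h1 : v.At x x' ∧ v.At y y' := hP
      have h2 : ∀ i, v.At (M.co x y i) (N.co x' y' i) := fun i => co_at h h1.1 h1.2 i
      have hp' : N.co x' y' ≠ 0 := hp
      have hM' : M.Ns (.some x y hxy : (Ec α B).Point) := by
        change M.co x y ≠ 0
        intro h3
        refine hp' (funext fun i => ?_)
        have h4 := h2 i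
        rw [h3] at h4
        exact HomVA_zero h4
      refine ⟨hM', ?_⟩
      have h5 : pv hX v (phi hX hM (.some x y hxy) hM') = phi hX hN (.some x' y' hxy') hp := by
        refine pv_eq ?_
        exact isVal_mkPt (hX := hX) (h := fun f hf => hM.onX f hf x y (eqn_iff.1 hxy.1))
          (h' := fun f hf => hN.onX f hf x' y' (eqn_iff.1 hxy'.1)) (l := 1) fun i => by
            rw [one_mul]
            exact h2 i
      have h6 : cyc hX hM (.some x y hxy) =
          Finsupp.single (phi hX hM (.some x y hxy) hM') 1 := dif_pos hM'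
      have h7 : cyc hX hN (.some x' y' hxy') =
          Finsupp.single (phi hX hN (.some x' y' hxy') hp) 1 := dif_pos hp
      change lim1 hX v _ = cl1 X _
      rw [h6, h7]
      change Submodule.Quotient.mk (Finsupp.mapDomain _ (Finsupp.mapDomain _ _)) =
        Submodule.Quotient.mk (Finsupp.mapDomain _ _)
      rw [Finsupp.mapDomain_single, Finsupp.mapDomain_single, Finsupp.mapDomain_single]
      change Submodule.Quotient.mk (Finsupp.single
        (fun _ : Unit => pv hX v (phi hX hM (.some x y hxy) hM')) 1) = _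
      rw [h5]

/-- If `P` is good for `M` then its reduction is good for `N` at almost all places: `Γ` contains the
nonzero elements among `x`, `y`, and the coordinates `co x y i`. -/
theorem exists_good {α B : Om k} {M : Mp (Om k) m} (hM : M.Ok α B X) {P : (Ec α B).Point}
    (hP : M.Ns P) : ∃ Γ : Finset (Om k), (0 : Om k) ∉ Γ ∧
      ∀ v : Place k (Om k), (∀ g ∈ Γ, g ∈ v.ring ∧ g⁻¹ ∈ v.ring) → ∀ (a b : k) (N : Mp k m),
        v.At α a → v.At B b → MRed v M N → ∀ p : (Ec a b).Point, PRed v P p → N.Ns p := by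
  cases P with
  | zero => exact hP.elim
  | some x y hxy =>
    have hP' : M.co x y ≠ 0 := hP
    obtain ⟨i, hi⟩ := Function.ne_iff.1 hP'
    refine ⟨({x, M.co x y i} : Finset (Om k)).erase 0, Finset.notMem_erase _ _,
      fun v hv a b N hα hB hN p hp => ?_⟩
    cases p with
    | zero =>
      have h1 : x ∉ v.ring := hp
      exfalso
      by_cases hx : x = 0
      · rw [hx] at h1
        exact h1 (zero_mem _)
      · exact h1 (hv x (Finset.mem_erase.2 ⟨hx, by simp⟩)).1
    | some x' y' hxy' =>
      have h1 : v.At x x' ∧ v.At y y' := hp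
      change N.co x' y' ≠ 0
      intro h2
      refine HomVA_unit hi (hv _ (Finset.mem_erase.2 ⟨hi, by simp⟩)) (co_at hN h1.1 h1.2 i) ?_
      rw [h2]
      rfl

end Pool.Agent.GT
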