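import Pool.Agent.GT.HomVA
import Pool.Agent.GT.HomK
import Pool.Agent.GT.RedC

/-!
# The limit homomorphism exists
-/

set_option autoImplicit false

noncomputable section

namespace Pool.Agent.GT

open Pool.Agent.ZCyc Pool.Agent.Dess Polynomial
open Pool.Agent.VFP (Om tt)
open scoped Classical LinearAlgebra.Projectivization

variable {k : Type} [Field k] [IsAlgClosed k] [CharZero k] {m : ℕ}
  {X : Set (MvPolynomial (Fin (m + 1)) k)}

/-- a map which is defined at almost all points of an infinite group, and whose differences do not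
depend on the auxiliary point, defines a homomorphism -/
private theorem HomVB_hom {A C : Type} [AddCommGroup A] [AddCommGroup C] [Infinite A]
    {good : A → Prop} (hfin : {a | ¬ good a}.Finite) (f : A → C)
    (hind : ∀ p q q', good q → good (p + q) → good q' → good (p + q') →
      f (p + q) - f q = f (p + q') - f q') :
    ∃ h : A →+ C, ∀ p q, good q → good (p + q) → f (p + q) - f q = h p := by
  classical
  have hex : ∀ S : Finset A, ∃ q, ∀ s ∈ S, good (s + q) := by
    intro S
    have h1 : (⋃ s ∈ S, (fun q => s + q) ⁻¹' {a | ¬ good a}).Finite :=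
      S.finite_toSet.biUnion fun s _ => hfin.preimage (add_right_injective s).injOn
    obtain ⟨q, hq⟩ := h1.exists_notMem
    refine ⟨q, fun s hs => ?_⟩
    by_contra hc
    exact hq (Set.mem_biUnion hs hc)
  choose c hc using fun p : A => hex {0, p}
  have c0 : ∀ p, good (c p) := fun p => by simpa using hc p 0 (by simp)
  have c1 : ∀ p, good (p + c p) := fun p => hc p p (by simp)
  refine ⟨AddMonoidHom.mk' (fun p => f (p + c p) - f (c p)) fun p p' => ?_, fun p q hq hpq => ?_⟩
  · obtain ⟨q, hq⟩ := hex {0, p', p + p'}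
    have g0 : good q := by simpa using hq 0 (by simp)
    have g1 : good (p' + q) := hq p' (by simp)
    have g2 : good (p + p' + q) := hq (p + p') (by simp)
    have g3 : good (p + (p' + q)) := by rwa [← add_assoc]
    have e1 := hind (p + p') (c (p + p')) q (c0 _) (c1 _) g0 g2
    have e2 := hind p (c p) (p' + q) (c0 _) (c1 _) g1 g3
    have e3 := hind p' (c p') q (c0 _) (c1 _) g0 g1
    rw [e1, e2, e3, add_assoc]
    abel
  · exact hind p q (c p) hq hpq (c0 _) (c1 _)

/-- Independence of the auxiliary point. Proof: `moving` for the cycle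
`φ(P + Q) - φ(Q) - φ(P + Q') + φ(Q')`, `ι = Unit`: at almost all places there is a good reduction
(`exists_reduction`), the four points have good reductions (`exists_good`, `exists_pred`), reduction
is additive (`pred_add`), the limits are the classes over `k` (`lmp_eq_clp`), and `clp_indep` applies
(`P` itself also has a reduction). -/
theorem lmp_indep (hX : Hom X) {α B : Om k} {M : Mp (Om k) m} (hM : M.Ok α B X)
    (v : Place k (Om k)) {P Q Q' : (Ec α B).Point} (h₁ : M.Ns Q)
    (h₂ : M.Ns (P + Q)) (h₃ : M.Ns Q') (h₄ : M.Ns (P + Q')) :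
    lmp hX hM v (P + Q) - lmp hX hM v Q = lmp hX hM v (P + Q') - lmp hX hM v Q' := by
  obtain ⟨Γ₀, hΓ₀, H₀⟩ := exists_reduction hM
  obtain ⟨Γ₁, hΓ₁, H₁⟩ := exists_good hM h₁
  obtain ⟨Γ₂, hΓ₂, H₂⟩ := exists_good hM h₂
  obtain ⟨Γ₃, hΓ₃, H₃⟩ := exists_good hM h₃
  obtain ⟨Γ₄, hΓ₄, H₄⟩ := exists_good hM h₄
  let z : Pt X (Om k) →₀ ℚ := cyc hX hM (P + Q) - cyc hX hM Q - (cyc hX hM (P + Q') - cyc hX hM Q')
  have hz : ∀ w : Place k (Om k), lim1 hX w z = lmp hX hM w (P + Q) - lmp hX hM w Q -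
      (lmp hX hM w (P + Q') - lmp hX hM w Q') := by
    intro w
    simp only [z, map_sub]
    rfl
  have key := moving hX (Finsupp.lmapDomain ℚ ℚ (fun (x : Pt X (Om k)) (_ : Unit) => x) z)
    (Γ₀ ∪ (Γ₁ ∪ (Γ₂ ∪ (Γ₃ ∪ Γ₄))))
    (by simp only [Finset.mem_union, not_or]; exact ⟨hΓ₀, hΓ₁, hΓ₂, hΓ₃, hΓ₄⟩) (by
      intro w hw
      simp only [Finset.mem_union] at hw
      obtain ⟨a, b, N, hα, hB, hR, hN⟩ := H₀ w fun g hg => hw g (Or.inl hg)
      obtain ⟨p, hp⟩ := exists_pred hα hB hN.disc P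
      obtain ⟨q, hq⟩ := exists_pred hα hB hN.disc Q
      obtain ⟨q', hq'⟩ := exists_pred hα hB hN.disc Q'
      have hpq := pred_add hα hB hN.disc hp hq
      have hpq' := pred_add hα hB hN.disc hp hq'
      have n₁ := H₁ w (fun g hg => hw g (Or.inr (Or.inl hg))) a b N hα hB hR q hq
      have n₂ := H₂ w (fun g hg => hw g (Or.inr (Or.inr (Or.inl hg)))) a b N hα hB hR _ hpq
      have n₃ := H₃ w (fun g hg => hw g (Or.inr (Or.inr (Or.inr (Or.inl hg))))) a b N hα hB hR q'
        hq'
      have n₄ := H₄ w (fun g hg => hw g (Or.inr (Or.inr (Or.inr (Or.inr hg))))) a b N hα hB hR _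
        hpq'
      change lim1 hX w z = 0
      rw [hz, (lmp_eq_clp hX hM hN hR hq n₁).2, (lmp_eq_clp hX hM hN hR hpq n₂).2,
        (lmp_eq_clp hX hM hN hR hq' n₃).2, (lmp_eq_clp hX hM hN hR hpq' n₄).2,
        clp_indep hX hN n₁ n₂ n₃ n₄, sub_self]) v
  have key' : lim1 hX v z = 0 := key
  rw [hz] at key'
  exact sub_eq_zero.1 key'

/-- as `exists_hK` -/
theorem exists_hV (hX : Hom X) {α B : Om k} {M : Mp (Om k) m} (hM : M.Ok α B X)
    (v : Place k (Om k)) : ∃ h : (Ec α B).Point →+ CH X Unit,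
      ∀ P Q, M.Ns Q → M.Ns (P + Q) → lmp hX hM v (P + Q) - lmp hX hM v Q = h P := by
  have := infinite_points hM.disc
  exact HomVB_hom (good := fun P : (Ec α B).Point => M.Ns P) (finite_bad hM.ne)
    (fun P => lmp hX hM v P) fun P Q Q' h₁ h₂ h₃ h₄ => lmp_indep hX hM v h₁ h₂ h₃ h₄

/-- the limit homomorphism at the place `v` -/
def hV (hX : Hom X) {α B : Om k} {M : Mp (Om k) m} (hM : M.Ok α B X) (v : Place k (Om k)) :
    (Ec α B).Point →+ CH X Unit := (exists_hV hX hM v).choose

theorem hV_spec (hX : Hom X) {α B : Om k} {M : Mp (Om k) m} (hM : M.Ok α B X)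
    (v : Place k (Om k)) {P Q : (Ec α B).Point} (h₁ : M.Ns Q) (h₂ : M.Ns (P + Q)) :
    lmp hX hM v (P + Q) - lmp hX hM v Q = hV hX hM v P :=
  (exists_hV hX hM v).choose_spec P Q h₁ h₂

end Pool.Agent.GT
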