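import Pool.Agent.GT.Val
import Pool.Agent.Dess.Galois
import Pool.Agent.TInc.EmbA

/-!
# Roots of a uniformizer
-/

set_option autoImplicit false

noncomputable section

namespace Pool.Agent.GT

open Pool.Agent.ZCyc Pool.Agent.Dess Polynomial
open Pool.Agent.VFP (Om tt)
open scoped Classical LinearAlgebra.Projectivization

variable {k L : Type} [Field k] [IsAlgClosed k] [CharZero k] [Field L] [Algebra k L]

/-- the valuation of a sum of elements with different valuations is the maximum -/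
private lemma inertA_max {K Γ ι : Type} [Field K] [LinearOrderedCommGroupWithZero Γ]
    (w : Valuation K Γ) (s : Finset ι) (a : ι → K)
    (h : ∀ i ∈ s, ∀ j ∈ s, i ≠ j → a i ≠ 0 → w (a i) ≠ w (a j)) :
    (∀ i ∈ s, a i = 0) ∨
      ∃ i ∈ s, a i ≠ 0 ∧ w (∑ j ∈ s, a j) = w (a i) ∧ ∀ j ∈ s, w (a j) ≤ w (a i) := by
  rcases s.eq_empty_or_nonempty with rfl | hs
  · left
    simp
  obtain ⟨i, hi, hmax⟩ := s.exists_max_image (fun i => w (a i)) hs
  by_cases hai : a i = 0
  · left
    intro j hj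
    have h1 := hmax j hj
    rw [hai, map_zero] at h1
    exact (map_eq_zero w).1 (le_antisymm h1 zero_le)
  · right
    refine ⟨i, hi, hai, ?_, hmax⟩
    have h0 : w (a i) ≠ 0 := (_root_.map_ne_zero w).2 hai
    have h1 : w (∑ j ∈ s.erase i, a j) < w (a i) := by
      refine w.map_sum_lt h0 fun j hj => ?_
      obtain ⟨hj1, hj2⟩ := Finset.mem_erase.1 hj
      exact lt_of_le_of_ne (hmax j hj2) (h i hi j hj2 (Ne.symm hj1) hai).symm
    rw [← Finset.add_sum_erase s a hi]
    exact w.map_add_eq_of_lt_left h1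

omit [IsAlgClosed k] [CharZero k] in
private lemma inertA_mem {σ : L →ₐ[k] Om k} {v : Place k (Om k)} {δ : Place k L}
    (hδ : v.ring.comap (σ : L →+* Om k) = δ.ring) (f : L) : σ f ∈ v.ring ↔ f ∈ δ.ring := by
  rw [← hδ, ValuationSubring.mem_comap]
  rfl

omit [IsAlgClosed k] [CharZero k] in
/-- the valuation of the uniformizer -/
private lemma inertA_unif {σ : L →ₐ[k] Om k} {v : Place k (Om k)} {δ : Place k L}
    (hδ : v.ring.comap (σ : L →+* Om k) = δ.ring) {π : L} (hπ : IsUnif δ π) :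
    0 < v.ring.valuation (σ π) ∧ v.ring.valuation (σ π) < 1 := by
  have h0 : σ π ≠ 0 := (_root_.map_ne_zero σ).2 hπ.1
  refine ⟨lt_of_le_of_ne zero_le ((_root_.map_ne_zero _).2 h0).symm, ?_⟩
  have h1 : v.Vanishes (σ π) := by
    rw [Place.vanishes_iff_or]
    right
    rw [← map_inv₀, inertA_mem hδ]
    rcases (Place.vanishes_iff_or δ π).1 hπ.2.1 with h | h
    · exact absurd h hπ.1
    · exact h
  exact (Place.vanishes_iff v _).1 h1

/-- the valuation of an element of `L` -/
private lemma inertA_val (hL : IsCurve k L) {σ : L →ₐ[k] Om k} {v : Place k (Om k)}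
    {δ : Place k L} (hδ : v.ring.comap (σ : L →+* Om k) = δ.ring) {π : L} (hπ : IsUnif δ π)
    {f : L} (hf : f ≠ 0) :
    v.ring.valuation (σ f) = v.ring.valuation (σ π) ^ TInc.ord δ f := by
  obtain ⟨h1, h2⟩ := TInc.ord_unit hL hπ hf
  rw [← inertA_mem hδ] at h1 h2
  rw [← v.ring.valuation_le_one_iff] at h1 h2
  rw [map_inv₀, map_inv₀] at h2
  have h3 : v.ring.valuation (σ (f / π ^ TInc.ord δ f)) = 1 := by
    have h4 : v.ring.valuation (σ (f / π ^ TInc.ord δ f)) ≠ 0 := by
      rw [_root_.map_ne_zero, _root_.map_ne_zero]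
      exact div_ne_zero hf (zpow_ne_zero _ hπ.1)
    apply le_antisymm h1
    rw [← inv_le_one₀ (lt_of_le_of_ne zero_le h4.symm)]
    exact h2
  rw [map_div₀, map_zpow₀, map_div₀, map_zpow₀] at h3
  have h5 : v.ring.valuation (σ π) ^ TInc.ord δ f ≠ 0 :=
    zpow_ne_zero _ (inertA_unif hδ hπ).1.ne'
  rwa [div_eq_one_iff_eq h5] at h3

omit [IsAlgClosed k] [CharZero k] in
private lemma inertA_rho {v : Place k (Om k)} {π' ρ : Om k} {n : ℕ} (hn : 0 < n)
    (hρ : ρ ^ n = π') (h : 0 < v.ring.valuation π') : ρ ≠ 0 := by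
  rintro rfl
  rw [zero_pow hn.ne'] at hρ
  rw [← hρ, map_zero] at h
  exact lt_irrefl _ h

/-- the valuations of the terms are different -/
private lemma inertA_ne (hL : IsCurve k L) {σ : L →ₐ[k] Om k} {v : Place k (Om k)}
    {δ : Place k L} (hδ : v.ring.comap (σ : L →+* Om k) = δ.ring) {π : L} (hπ : IsUnif δ π)
    {n : ℕ} {ρ : Om k} (hρ : ρ ^ n = σ π) (f : Fin n → L) (i j : Fin n)
    (hij : i ≠ j) (hi : σ (f i) * ρ ^ (i : ℕ) ≠ 0) :
    v.ring.valuation (σ (f i) * ρ ^ (i : ℕ)) ≠ v.ring.valuation (σ (f j) * ρ ^ (j : ℕ)) := by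
  intro he
  have hj : σ (f j) * ρ ^ (j : ℕ) ≠ 0 := by
    intro h
    rw [h, map_zero] at he
    exact hi ((map_eq_zero _).1 he)
  obtain ⟨hc0, hc1⟩ := inertA_unif hδ hπ
  have hpow : ∀ l : Fin n, σ (f l) * ρ ^ (l : ℕ) ≠ 0 →
      v.ring.valuation (σ (f l) * ρ ^ (l : ℕ)) ^ n =
        v.ring.valuation (σ π) ^ (TInc.ord δ (f l) * n + l) := by
    intro l hl
    have hfl : f l ≠ 0 := by
      intro h
      apply hl
      rw [h, map_zero, zero_mul]
    rw [map_mul, mul_pow, inertA_val hL hδ hπ hfl, map_pow, ← pow_mul, mul_comm (l : ℕ) n,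
      pow_mul, ← map_pow, hρ, zpow_add₀ hc0.ne', zpow_mul, zpow_natCast, zpow_natCast]
  have h1 := hpow i hi
  rw [he, hpow j hj, zpow_right_inj₀ hc0 hc1.ne] at h1
  apply hij
  apply Fin.ext
  have h2 : (i : ℤ) = (j : ℤ) := by
    have h3 : ((TInc.ord δ (f j) * n + (j : ℤ)) % n) = ((TInc.ord δ (f i) * n + (i : ℤ)) % n) := by
      rw [h1]
    rw [Int.mul_add_emod_self_right, Int.mul_add_emod_self_right,
      Int.emod_eq_of_lt (by positivity) (by exact_mod_cast j.2),
      Int.emod_eq_of_lt (by positivity) (by exact_mod_cast i.2)] at h3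
    exact h3.symm
  exact_mod_cast h2

/-- The valuation of `∑ σ(f i) ρ ^ i`, `ρ ^ n = σ π`, `π` a uniformizer at the place `δ` below `v`, does
not change if `ρ` is replaced by `ζ ρ`: the valuations of the terms are different (or the terms are
zero), because `γ(σ(f) ρ ^ i) ^ n = γ(σ(f ^ n π ^ i))` is the valuation of `σ π` to the power
`n ord_δ(f) + i`; so the valuation of the sum is the maximum of the valuations of the terms. -/
theorem val_sum_eq (hL : IsCurve k L) {σ : L →ₐ[k] Om k} {v : Place k (Om k)} {δ : Place k L}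
    (hδ : v.ring.comap (σ : L →+* Om k) = δ.ring) {π : L} (hπ : IsUnif δ π) {n : ℕ} (hn : 0 < n)
    {ρ : Om k} (hρ : ρ ^ n = σ π) {ζ : k} (hζ : ζ ^ n = 1) (f : Fin n → L) :
    v.ring.valuation (∑ i, σ (f i) * ρ ^ (i : ℕ)) =
      v.ring.valuation (∑ i, σ (f i) * (algebraMap k (Om k) ζ * ρ) ^ (i : ℕ)) := by
  have hζ0 : ζ ≠ 0 := by
    rintro rfl
    rw [zero_pow hn.ne'] at hζ
    exact zero_ne_one hζ
  have hv : v.ring.valuation (algebraMap k (Om k) ζ) = 1 := by
    apply le_antisymm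
    · rw [v.ring.valuation_le_one_iff]
      exact v.const_mem ζ
    · have h1 := not_lt.1 (fun h => v.const_unit hζ0 ((Place.vanishes_iff v _).2 h))
      exact h1
  have hρ' : (algebraMap k (Om k) ζ * ρ) ^ n = σ π := by
    rw [mul_pow, ← map_pow, hζ, map_one, one_mul, hρ]
  have hab : ∀ i : Fin n, v.ring.valuation (σ (f i) * (algebraMap k (Om k) ζ * ρ) ^ (i : ℕ)) =
      v.ring.valuation (σ (f i) * ρ ^ (i : ℕ)) := by
    intro i
    rw [map_mul, map_mul, map_pow, map_mul, hv, one_mul, map_pow]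
  have ha := inertA_max v.ring.valuation Finset.univ (fun i : Fin n => σ (f i) * ρ ^ (i : ℕ))
    fun i _ j _ hij hi => inertA_ne hL hδ hπ hρ f i j hij hi
  have hb := inertA_max v.ring.valuation Finset.univ
    (fun i : Fin n => σ (f i) * (algebraMap k (Om k) ζ * ρ) ^ (i : ℕ))
    fun i _ j _ hij hi => inertA_ne hL hδ hπ hρ' f i j hij hi
  have h00 : ∀ i : Fin n, σ (f i) * ρ ^ (i : ℕ) = 0 ↔
      σ (f i) * (algebraMap k (Om k) ζ * ρ) ^ (i : ℕ) = 0 := by
    intro i
    rw [← map_eq_zero v.ring.valuation, ← hab, map_eq_zero]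
  rcases ha with ha | ⟨i, -, hi, hi1, hi2⟩
  · rw [Finset.sum_eq_zero ha, Finset.sum_eq_zero fun i hi => (h00 i).1 (ha i hi)]
  · rcases hb with hb | ⟨j, -, hj, hj1, hj2⟩
    · exact absurd ((h00 i).2 (hb i (Finset.mem_univ i))) hi
    · rw [hi1, hj1]
      apply le_antisymm
      · have h1 := hj2 i (Finset.mem_univ i)
        rwa [hab i] at h1
      · have h1 := hi2 j (Finset.mem_univ j)
        rwa [← hab j] at h1

private lemma inertA_alg {σ : L →ₐ[k] Om k} (hL : IsCurve k L) :
    Algebra.IsAlgebraic σ.fieldRange (Om k) := by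
  obtain ⟨t, ht, -⟩ := hL
  have hσt : Transcendental k (σ t) := by
    intro h
    exact ht ((isAlgebraic_algHom_iff σ σ.injective).1 h)
  have h1 := TInc.alg_adjoin hσt
  have hle : IntermediateField.adjoin k {σ t} ≤ σ.fieldRange := by
    rw [IntermediateField.adjoin_simple_le_iff]
    exact ⟨t, rfl⟩
  constructor
  intro x
  obtain ⟨p, hp, hp0⟩ := h1.isAlgebraic x
  refine ⟨p.map (IntermediateField.inclusion hle).toRingHom, ?_, ?_⟩
  · rwa [Ne, Polynomial.map_eq_zero_iff (IntermediateField.inclusion hle).injective]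
  · rw [← hp0, Polynomial.aeval_def, Polynomial.eval₂_map, Polynomial.aeval_def]
    rfl

/-- The elements `1, ρ, .., ρ ^ (n-1)` are linearly independent over `σ L`
(by the same argument: the valuation of a sum is the maximum), so for a primitive `n`-th root of
unity `ζ` there is an automorphism of `Om k` over `σ L` with `ρ ↦ ζ ρ`: `X ^ n - σ π` is the
minimal polynomial of `ρ` over `σ L` (`AlgHom.fieldRange`), `ζ ρ` is another root, and `Om k` is an
algebraic closure of `σ L` (`alg_adjoin`). -/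
theorem exists_aut (hL : IsCurve k L) {σ : L →ₐ[k] Om k} {v : Place k (Om k)} {δ : Place k L}
    (hδ : v.ring.comap (σ : L →+* Om k) = δ.ring) {π : L} (hπ : IsUnif δ π) {n : ℕ} (hn : 0 < n)
    {ρ : Om k} (hρ : ρ ^ n = σ π) {ζ : k} (hζ : ζ ^ n = 1) :
    ∃ g : Om k ≃ₐ[k] Om k, (∀ f : L, g (σ f) = σ f) ∧ g ρ = algebraMap k (Om k) ζ * ρ := by
  have halg := inertA_alg (σ := σ) hL
  have hcl : IsAlgClosure σ.fieldRange (Om k) := ⟨inferInstance, halg⟩
  have hπE : σ π ∈ σ.fieldRange := ⟨π, rfl⟩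
  have hmin : (X ^ n - C (⟨σ π, hπE⟩ : σ.fieldRange)) = minpoly σ.fieldRange ρ := by
    apply minpoly.unique
    · exact monic_X_pow_sub_C _ hn.ne'
    · rw [map_sub, map_pow, aeval_X, aeval_C, hρ]
      exact sub_self _
    · intro q hq hq0
      rw [degree_X_pow_sub_C hn]
      by_contra hlt
      push Not at hlt
      have hnat : q.natDegree < n := (natDegree_lt_iff_degree_lt hq.ne_zero).2 hlt
      choose f hf using fun i : Fin n => (q.coeff i).2
      rw [aeval_eq_sum_range' hnat, Finset.sum_range] at hq0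
      have h1 : ∑ i : Fin n, σ (f i) * ρ ^ (i : ℕ) = 0 := by
        rw [← hq0]
        refine Finset.sum_congr rfl fun i _ => ?_
        rw [Algebra.smul_def]
        congr 1
        exact hf i
      rcases inertA_max v.ring.valuation Finset.univ (fun i : Fin n => σ (f i) * ρ ^ (i : ℕ))
        (fun i _ j _ hij hi => inertA_ne hL hδ hπ hρ f i j hij hi) with h2 | ⟨i, -, hi, hi1, -⟩
      · apply hq.ne_zero
        ext i
        rw [coeff_zero]
        by_cases hi : i < n
        · have h3 := h2 ⟨i, hi⟩ (Finset.mem_univ _)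
          have hρ0 := inertA_rho hn hρ (inertA_unif hδ hπ).1
          have h4 : σ (f ⟨i, hi⟩) = 0 :=
            (mul_eq_zero.1 h3).resolve_right (pow_ne_zero _ hρ0)
          have h5 := hf ⟨i, hi⟩
          change σ (f ⟨i, hi⟩) = _ at h5
          rw [h4] at h5
          exact h5.symm
        · rw [coeff_eq_zero_of_natDegree_lt (by omega)]
      · rw [h1, map_zero] at hi1
        exact hi ((map_eq_zero _).1 hi1.symm)
  obtain ⟨g, hg⟩ := minpoly.exists_algEquiv_of_root' (K := σ.fieldRange) (L := Om k) (y := ρ)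
    (x := algebraMap k (Om k) ζ * ρ) (halg.isAlgebraic ρ) (by
      rw [← hmin, map_sub, map_pow, aeval_X, aeval_C, mul_pow, ← map_pow, hζ, map_one, one_mul,
        hρ]
      exact sub_self _)
  refine ⟨g.restrictScalars k, fun f => ?_, hg⟩
  exact g.commutes ⟨σ f, f, rfl⟩

end Pool.Agent.GT
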