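import Pool.Agent.GT.HomK
import Pool.Agent.GT.Ext

/-!
# Products of two maps from the same elliptic curve: the antisymmetry
-/

set_option autoImplicit false

noncomputable section

namespace Pool.Agent.GT

open Pool.Agent.ZCyc Pool.Agent.Dess Polynomial
open Pool.Agent.VFP (Om tt)
open scoped Classical LinearAlgebra.Projectivization

/-! ### Points of order three -/

section Third

variable {K : Type} [Field K] [CharZero K] {α B : K}

private def icrd : (Ec α B).Point → Option (K × K)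
  | .zero => none
  | .some x y _ => some (x, y)

omit [CharZero K] in
private theorem icrd_injective : Function.Injective (icrd (α := α) (B := B)) := by
  rintro (_ | ⟨x, y, h⟩) (_ | ⟨x', y', h'⟩) hh
  · rfl
  · exact absurd hh (by simp [icrd])
  · exact absurd hh (by simp [icrd])
  · simp only [icrd, Option.some.injEq, Prod.mk.injEq] at hh
    obtain ⟨rfl, rfl⟩ := hh
    rfl

private theorem third_root {x y : K} {h : (Ec α B).Nonsingular x y}
    (h3 : (.some x y h : (Ec α B).Point) + .some x y h = -.some x y h) :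
    -3 * x ^ 4 + 18 * α * x ^ 2 - 12 * B * x + 9 * α ^ 2 = 0 := by
  have hq := eqn_iff.1 h.1
  have hnegY : (Ec α B).negY x y = -y := by
    simp [WeierstrassCurve.Affine.negY, Ec]
  by_cases hy : y = (Ec α B).negY x y
  · rw [WeierstrassCurve.Affine.Point.add_of_Y_eq rfl hy] at h3
    have h4 : (.some x y h : (Ec α B).Point) = 0 := by
      rw [← neg_neg (.some x y h : (Ec α B).Point), ← h3, neg_zero]
    exact absurd h4 (WeierstrassCurve.Affine.Point.some_ne_zero _)
  · have hy0 : y ≠ 0 := by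
      rintro rfl
      exact hy (by rw [hnegY, neg_zero])
    rw [WeierstrassCurve.Affine.Point.add_self_of_Y_ne' hy] at h3
    have h4 := neg_injective h3
    rw [WeierstrassCurve.Affine.Point.some.injEq] at h4
    obtain ⟨h5, -⟩ := h4
    rw [WeierstrassCurve.Affine.slope_of_Y_ne rfl hy, hnegY] at h5
    simp only [WeierstrassCurve.Affine.addX, Ec] at h5
    have h2y : y - -y ≠ 0 := by
      intro h0
      apply hy0
      have : (2 : K) * y = 0 := by linear_combination h0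
      rcases mul_eq_zero.1 this with h1 | h1
      · exact absurd h1 two_ne_zero
      · exact h1
    field_simp at h5
    have h6 : (y - -y) ^ 2 = 4 * y ^ 2 := by ring
    linear_combination h5 + (12 * x) * hq

/-- `3 Q = A` has finitely many solutions -/
theorem finite_third (A : (Ec α B).Point) :
    {Q : (Ec α B).Point | Q + Q + Q = A}.Finite := by
  have h3 : {Q : (Ec α B).Point | Q + Q + Q = 0}.Finite := by
    let p : K[X] := C (-3) * X ^ 4 + C (18 * α) * X ^ 2 - C (12 * B) * X + C (9 * α ^ 2)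
    have hp : p ≠ 0 := by
      intro h0
      have h1 := congrArg (fun q : K[X] => q.coeff 4) h0
      simp only [p, coeff_add, coeff_sub, coeff_C_mul, coeff_X_pow, coeff_X, coeff_C,
        coeff_zero] at h1
      norm_num at h1
    let S : Finset (K × K) := p.roots.toFinset.biUnion fun x =>
      ((X ^ 2 - C (x ^ 3 - 3 * α * x + B) : K[X]).roots.toFinset).image fun y => (x, y)
    refine Set.Finite.of_finite_image (f := icrd) ?_ icrd_injective.injOn
    refine ((Set.finite_singleton none).union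
      (S.finite_toSet.image (fun z => some z))).subset ?_
    rintro _ ⟨Q, hQ, rfl⟩
    rcases Q with _ | ⟨x, y, h⟩
    · left; rfl
    · right
      have h1 := third_root (eq_neg_of_add_eq_zero_left hQ)
      refine ⟨(x, y), ?_, rfl⟩
      rw [Finset.mem_coe, Finset.mem_biUnion]
      refine ⟨x, ?_, ?_⟩
      · rw [Multiset.mem_toFinset, mem_roots hp, IsRoot.def]
        simp only [p, eval_add, eval_sub, eval_mul, eval_C, eval_pow, eval_X]
        linear_combination h1
      · rw [Finset.mem_image]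
        refine ⟨y, ?_, rfl⟩
        rw [Multiset.mem_toFinset, mem_roots (X_pow_sub_C_ne_zero two_pos _), IsRoot.def]
        simp only [eval_sub, eval_C, eval_pow, eval_X]
        rw [eqn_iff.1 h.1, sub_self]
  by_cases hne : ∃ Q0 : (Ec α B).Point, Q0 + Q0 + Q0 = A
  · obtain ⟨Q0, hQ0⟩ := hne
    refine (h3.image (fun T => Q0 + T)).subset ?_
    intro Q hQ
    refine ⟨Q - Q0, ?_, by simp⟩
    have hQ' : Q + Q + Q = A := hQ
    show Q - Q0 + (Q - Q0) + (Q - Q0) = 0
    have h5 : Q - Q0 + (Q - Q0) + (Q - Q0) = (Q + Q + Q) - (Q0 + Q0 + Q0) := by abel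
    rw [h5, hQ', hQ0, sub_self]
  · refine Set.Finite.subset Set.finite_empty ?_
    intro Q hQ
    exact hne ⟨Q, hQ⟩

end Third

/-! ### The pencil of lines -/

variable {k : Type} [Field k] [IsAlgClosed k] [CharZero k] {m : ℕ}
  {X : Set (MvPolynomial (Fin (m + 1)) k)} {α B : k}

private theorem ipen_cubic {F : Type} [Field F] {α B u w T a : F}
    (hw : w ^ 2 = u ^ 3 - 3 * α * u + B)
    (ha : a ^ 2 + (u - T ^ 2) * a + (u ^ 2 - 3 * α - 2 * T * w + T ^ 2 * u) = 0) :
    (w + T * (a - u)) ^ 2 = a ^ 3 - 3 * α * a + B := by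
  linear_combination hw - (a - u) * ha

private theorem ipen_quad {F : Type} [Field F] {α B u w T x : F}
    (hw : w ^ 2 = u ^ 3 - 3 * α * u + B)
    (hx : (w + T * (x - u)) ^ 2 = x ^ 3 - 3 * α * x + B) (hxu : x ≠ u) :
    x ^ 2 + (u - T ^ 2) * x + (u ^ 2 - 3 * α - 2 * T * w + T ^ 2 * u) = 0 := by
  have h : (x - u) * (x ^ 2 + (u - T ^ 2) * x + (u ^ 2 - 3 * α - 2 * T * w + T ^ 2 * u)) = 0 := by
    linear_combination hw - hx
  exact (mul_eq_zero.1 h).resolve_left (sub_ne_zero.2 hxu)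

/-- two points on a line with slope `T` through `(u, w)` -/
private structure IPenL (α u w T x₁ y₁ x₂ y₂ : k) : Prop where
  sum : x₁ + x₂ = T ^ 2 - u
  quad : x₁ ^ 2 + (u - T ^ 2) * x₁ + (u ^ 2 - 3 * α - 2 * T * w + T ^ 2 * u) = 0
  y1 : y₁ = w + T * (x₁ - u)
  y2 : y₂ = w + T * (x₂ - u)

omit [IsAlgClosed k] in
private theorem ipen_line {x₁ y₁ x₂ y₂ u w : k} {n₁ : (Ec α B).Nonsingular x₁ y₁}
    {n₂ : (Ec α B).Nonsingular x₂ y₂} {n : (Ec α B).Nonsingular u w}
    (h : (.some x₁ y₁ n₁ : (Ec α B).Point) + .some x₂ y₂ n₂ = -.some u w n)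
    (d : (.some x₁ y₁ n₁ : (Ec α B).Point) ≠ .some x₂ y₂ n₂)
    (e : (.some x₁ y₁ n₁ : (Ec α B).Point) ≠ .some u w n) :
    ∃ T : k, IPenL α u w T x₁ y₁ x₂ y₂ := by
  have q₁ := eqn_iff.1 n₁.1
  have q₂ := eqn_iff.1 n₂.1
  have q := eqn_iff.1 n.1
  have hx : x₁ ≠ x₂ := by
    rintro rfl
    have h1 : (y₁ - y₂) * (y₁ + y₂) = 0 := by linear_combination q₁ - q₂
    rcases mul_eq_zero.1 h1 with h2 | h2
    · apply d
      have h3 : y₁ = y₂ := sub_eq_zero.1 h2
      subst h3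
      rfl
    · have h3 : y₁ = (Ec α B).negY x₁ y₂ := by
        simp only [WeierstrassCurve.Affine.negY]
        linear_combination h2
      rw [WeierstrassCurve.Affine.Point.add_of_Y_eq rfl h3] at h
      have h4 : (.some u w n : (Ec α B).Point) = 0 := by
        rw [← neg_neg (.some u w n : (Ec α B).Point), ← h, neg_zero]
      exact WeierstrassCurve.Affine.Point.some_ne_zero _ h4
  rw [WeierstrassCurve.Affine.Point.add_of_X_ne' hx] at h
  have h1 := neg_injective h
  have h2 := WeierstrassCurve.Affine.Point.some.inj h1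
  obtain ⟨h3, h4⟩ := h2
  set T := (Ec α B).slope x₁ x₂ y₁ y₂ with hT
  have hT2 : T * (x₁ - x₂) = y₁ - y₂ := by
    rw [hT, WeierstrassCurve.Affine.slope_of_X_ne hx, div_mul_cancel₀ _ (sub_ne_zero.2 hx)]
  simp only [WeierstrassCurve.Affine.negAddY] at h4
  rw [h3] at h4
  simp only [WeierstrassCurve.Affine.addX] at h3
  have hy1 : y₁ = w + T * (x₁ - u) := by linear_combination h4
  have hy2 : y₂ = w + T * (x₂ - u) := by linear_combination h4 + hT2
  refine ⟨T, by linear_combination -h3, ?_, hy1, hy2⟩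
  refine ipen_quad q (by rw [← hy1]; exact q₁) ?_
  rintro rfl
  apply e
  have h5 : y₁ = w := by
    rw [hy1]
    ring
  subst h5
  rfl

omit [CharZero k] in
private theorem ipen_root {V : Place k (Om k)} {b d a : Om k} {b₀ d₀ : k} (hb : V.At b b₀)
    (hd : V.At d d₀) (h : a ^ 2 + b * a + d = 0) :
    ∃ a₀, V.At a a₀ ∧ a₀ ^ 2 + b₀ * a₀ + d₀ = 0 := by
  have hmem : a ∈ V.ring := by
    rcases V.ring.mem_or_inv_mem a with h1 | h1
    · exact h1
    · by_cases ha : a = 0
      · rw [ha]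
        exact zero_mem _
      · have h2 : a = -b - d * a⁻¹ := by
          field_simp
          linear_combination h
        rw [h2]
        exact sub_mem (neg_mem hb.mem) (mul_mem hd.mem h1)
  obtain ⟨a₀, ha₀⟩ := HasRes.res V a hmem
  refine ⟨a₀, ha₀, ?_⟩
  have h1 := ((ha₀.pow 2).add (hb.mul ha₀)).add hd
  rw [h] at h1
  have h2 := Place.at_const (v := V) (0 : k)
  rw [map_zero] at h2
  exact h1.unique h2

private theorem ipen_val {V : Place k (Om k)} {u w T : k} {T' a : Om k} {x₁ y₁ x₂ y₂ : k}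
    (hT : V.At T' T)
    (ha : a ^ 2 + (algebraMap k (Om k) u - T' ^ 2) * a +
      (algebraMap k (Om k) u ^ 2 - 3 * algebraMap k (Om k) α - 2 * T' * algebraMap k (Om k) w +
        T' ^ 2 * algebraMap k (Om k) u) = 0) (r : IPenL α u w T x₁ y₁ x₂ y₂) :
    ((V.At a x₁ ∧ V.At (algebraMap k (Om k) w + T' * (a - algebraMap k (Om k) u)) y₁) ∧
      (V.At (T' ^ 2 - algebraMap k (Om k) u - a) x₂ ∧ V.At (algebraMap k (Om k) w + T' *
        ((T' ^ 2 - algebraMap k (Om k) u - a) - algebraMap k (Om k) u)) y₂)) ∨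
    ((V.At a x₂ ∧ V.At (algebraMap k (Om k) w + T' * (a - algebraMap k (Om k) u)) y₂) ∧
      (V.At (T' ^ 2 - algebraMap k (Om k) u - a) x₁ ∧ V.At (algebraMap k (Om k) w + T' *
        ((T' ^ 2 - algebraMap k (Om k) u - a) - algebraMap k (Om k) u)) y₁)) := by
  have c := fun x : k => Place.at_const (v := V) x
  have c3 : V.At (3 : Om k) (3 : k) := by
    have := c 3
    rwa [map_ofNat] at this
  have c2 : V.At (2 : Om k) (2 : k) := by
    have := c 2
    rwa [map_ofNat] at this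
  obtain ⟨a₀, h1, h2⟩ := ipen_root ((c u).sub (hT.pow 2))
    (((((c u).pow 2).sub (c3.mul (c α))).sub ((c2.mul hT).mul (c w))).add
      ((hT.pow 2).mul (c u))) ha
  have h3 : (a₀ - x₁) * (a₀ - x₂) = 0 := by
    linear_combination h2 - a₀ * r.sum - r.quad + x₁ * r.sum
  have hy := fun {b : Om k} {b₀ : k} (hb : V.At b b₀) => (c w).add (hT.mul (hb.sub (c u)))
  have hA' := ((hT.pow 2).sub (c u)).sub h1
  rcases mul_eq_zero.1 h3 with h4 | h4
  · left
    have h5 : a₀ = x₁ := sub_eq_zero.1 h4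
    subst h5
    have h6 : T ^ 2 - u - a₀ = x₂ := by linear_combination -r.sum
    rw [h6] at hA'
    have e1 := hy h1
    have e2 := hy hA'
    rw [← r.y1] at e1
    rw [← r.y2] at e2
    exact ⟨⟨h1, e1⟩, hA', e2⟩
  · right
    have h5 : a₀ = x₂ := sub_eq_zero.1 h4
    subst h5
    have h6 : T ^ 2 - u - a₀ = x₁ := by linear_combination -r.sum
    rw [h6] at hA'
    have e1 := hy h1
    have e2 := hy hA'
    rw [← r.y2] at e1
    rw [← r.y1] at e2
    exact ⟨⟨h1, e1⟩, hA', e2⟩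

/-- a point of the constant curve over `Om k`, given by its coordinates, and its value -/
private def VAt (V : Place k (Om k)) (A : Om k × Om k) (P : (Ec α B).Point) : Prop :=
  ∃ (x y : k) (n : (Ec α B).Nonsingular x y), P = .some x y n ∧ V.At A.1 x ∧ V.At A.2 y

/-- The pencil of lines through `-S`: two points `A`, `A'` over `Om k` with the values `P₁`, `P₂` (in
one of the two orders) above `t = 0` and `P₃`, `P₄` above `t = 1`. -/
private theorem ipen_points {P₁ P₂ P₃ P₄ S : (Ec α B).Point}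
    (h₁ : P₁ ≠ 0) (h₂ : P₂ ≠ 0) (h₃ : P₃ ≠ 0) (h₄ : P₄ ≠ 0) (hS : S ≠ 0)
    (h12 : P₁ + P₂ = S) (h34 : P₃ + P₄ = S) (d12 : P₁ ≠ P₂) (d34 : P₃ ≠ P₄)
    (e₁ : P₁ ≠ -S) (e₃ : P₃ ≠ -S) :
    ∃ A A' : Om k × Om k,
      A.2 ^ 2 = A.1 ^ 3 - 3 * algebraMap k (Om k) α * A.1 + algebraMap k (Om k) B ∧
      A'.2 ^ 2 = A'.1 ^ 3 - 3 * algebraMap k (Om k) α * A'.1 + algebraMap k (Om k) B ∧
      (∀ V : Place k (Om k), V.At (tt k) 0 → (VAt V A P₁ ∧ VAt V A' P₂) ∨
        (VAt V A P₂ ∧ VAt V A' P₁)) ∧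
      ∀ V : Place k (Om k), V.At (tt k) 1 → (VAt V A P₃ ∧ VAt V A' P₄) ∨
        (VAt V A P₄ ∧ VAt V A' P₃) := by
  obtain ⟨Q, rfl⟩ : ∃ Q, S = -Q := ⟨-S, (neg_neg S).symm⟩
  rw [neg_neg] at e₁ e₃
  rcases P₁ with _ | ⟨x₁, y₁, n₁⟩
  · exact (h₁ rfl).elim
  rcases P₂ with _ | ⟨x₂, y₂, n₂⟩
  · exact (h₂ rfl).elim
  rcases P₃ with _ | ⟨x₃, y₃, n₃⟩
  · exact (h₃ rfl).elim
  rcases P₄ with _ | ⟨x₄, y₄, n₄⟩
  · exact (h₄ rfl).elim
  rcases Q with _ | ⟨u, w, n⟩
  · exact (hS neg_zero).elim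
  obtain ⟨T₀, r₀⟩ := ipen_line h12 d12 e₁
  obtain ⟨T₁, r₁⟩ := ipen_line h34 d34 e₃
  have hq := eqn_iff.1 n.1
  set T' : Om k := algebraMap k (Om k) T₀ + algebraMap k (Om k) (T₁ - T₀) * tt k with hT'
  have hT0 : ∀ V : Place k (Om k), V.At (tt k) 0 → V.At T' T₀ := by
    intro V hV
    have h1 := (Place.at_const (v := V) T₀).add ((Place.at_const (v := V) (T₁ - T₀)).mul hV)
    rw [mul_zero, add_zero] at h1
    exact h1
  have hT1 : ∀ V : Place k (Om k), V.At (tt k) 1 → V.At T' T₁ := by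
    intro V hV
    have h1 := (Place.at_const (v := V) T₀).add ((Place.at_const (v := V) (T₁ - T₀)).mul hV)
    rw [mul_one, add_sub_cancel] at h1
    exact h1
  obtain ⟨a, ha⟩ : ∃ a : Om k, a ^ 2 + (algebraMap k (Om k) u - T' ^ 2) * a +
      (algebraMap k (Om k) u ^ 2 - 3 * algebraMap k (Om k) α - 2 * T' * algebraMap k (Om k) w +
        T' ^ 2 * algebraMap k (Om k) u) = 0 := by
    set b := algebraMap k (Om k) u - T' ^ 2
    set d := algebraMap k (Om k) u ^ 2 - 3 * algebraMap k (Om k) α - 2 * T' *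
      algebraMap k (Om k) w + T' ^ 2 * algebraMap k (Om k) u
    obtain ⟨s, hs⟩ := IsAlgClosed.exists_pow_nat_eq (b ^ 2 - 4 * d) (n := 2) (by norm_num)
    have h2 : (2 : Om k) ≠ 0 := two_ne_zero
    refine ⟨(s - b) / 2, ?_⟩
    field_simp
    linear_combination hs
  have ha2 : (T' ^ 2 - algebraMap k (Om k) u - a) ^ 2 +
      (algebraMap k (Om k) u - T' ^ 2) * (T' ^ 2 - algebraMap k (Om k) u - a) +
      (algebraMap k (Om k) u ^ 2 - 3 * algebraMap k (Om k) α - 2 * T' * algebraMap k (Om k) w +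
        T' ^ 2 * algebraMap k (Om k) u) = 0 := by
    linear_combination ha
  have hqO : algebraMap k (Om k) w ^ 2 = algebraMap k (Om k) u ^ 3 -
      3 * algebraMap k (Om k) α * algebraMap k (Om k) u + algebraMap k (Om k) B := by
    have := congrArg (algebraMap k (Om k)) hq
    simpa only [map_add, map_sub, map_mul, map_pow, map_ofNat] using this
  refine ⟨(a, algebraMap k (Om k) w + T' * (a - algebraMap k (Om k) u)),
    (T' ^ 2 - algebraMap k (Om k) u - a, algebraMap k (Om k) w + T' *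
      ((T' ^ 2 - algebraMap k (Om k) u - a) - algebraMap k (Om k) u)),
    ipen_cubic hqO ha, ipen_cubic hqO ha2, ?_, ?_⟩
  · intro V hV
    rcases ipen_val (hT0 V hV) ha r₀ with ⟨⟨i1, i2⟩, i3, i4⟩ | ⟨⟨i1, i2⟩, i3, i4⟩
    · exact Or.inl ⟨⟨_, _, n₁, rfl, i1, i2⟩, ⟨_, _, n₂, rfl, i3, i4⟩⟩
    · exact Or.inr ⟨⟨_, _, n₂, rfl, i1, i2⟩, ⟨_, _, n₁, rfl, i3, i4⟩⟩
  · intro V hV
    rcases ipen_val (hT1 V hV) ha r₁ with ⟨⟨i1, i2⟩, i3, i4⟩ | ⟨⟨i1, i2⟩, i3, i4⟩
    · exact Or.inl ⟨⟨_, _, n₃, rfl, i1, i2⟩, ⟨_, _, n₄, rfl, i3, i4⟩⟩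
    · exact Or.inr ⟨⟨_, _, n₄, rfl, i1, i2⟩, ⟨_, _, n₃, rfl, i3, i4⟩⟩

omit [IsAlgClosed k] [CharZero k] in
private theorem ipen_co {M : Mp k m} {V : Place k (Om k)} {a b : Om k} {x y : k} (ha : V.At a x)
    (hb : V.At b y) (i : Fin (m + 1)) :
    V.At ((M.map (algebraMap k (Om k))).co a b i) (M.co x y i) := by
  have h1 : (M.map (algebraMap k (Om k))).co a b i = aeval a (M.G i) + aeval a (M.H i) * b := by
    simp only [Mp.co, Mp.map, eval_map, aeval_def]
  rw [h1]
  exact (ha.aeval _).add ((ha.aeval _).mul hb)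

omit [IsAlgClosed k] [CharZero k] in
private theorem ipen_ne {M : Mp k m} {V : Place k (Om k)} {A : Om k × Om k} {P : (Ec α B).Point}
    (hA : VAt V A P) (h : M.Ns P) : (M.map (algebraMap k (Om k))).co A.1 A.2 ≠ 0 := by
  obtain ⟨x, y, n, rfl, ha, hb⟩ := hA
  intro h0
  apply h
  funext i
  have h1 := ipen_co (M := M) ha hb i
  rw [h0] at h1
  have h2 := Place.at_const (v := V) (0 : k)
  rw [map_zero] at h2
  exact h1.unique h2

/-- the limit of one point -/
private theorem ipen_lim (hX : Hom X) {M : Mp k m} (hM : M.Ok α B X) {V : Place k (Om k)}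
    {A : Om k × Om k} {P : (Ec α B).Point} (hA : VAt V A P) (h : M.Ns P)
    (hne : (M.map (algebraMap k (Om k))).co A.1 A.2 ≠ 0)
    (hf : ∀ f ∈ X, MvPolynomial.aeval ((M.map (algebraMap k (Om k))).co A.1 A.2) f = 0) :
    lim1 hX V (Finsupp.single (mkPt hX _ hne hf) 1) = clp hX hM P := by
  obtain ⟨x, y, n, rfl, ha, hb⟩ := hA
  have h1 : pv hX V (mkPt hX _ hne hf) = phi hX hM (.some x y n) h := by
    apply pv_eq
    refine isVal_mkPt (h' := fun f hf => hM.onX f hf x y (eqn_iff.1 n.1)) (l := 1) fun i => ?_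
    rw [one_mul]
    exact ipen_co ha hb i
  change lim hX V (Finsupp.mapDomain (fun x _ => x) (Finsupp.single _ 1)) = _
  rw [Finsupp.mapDomain_single, lim_single, h1]
  have h2 : cyc hX hM (.some x y n : (Ec α B).Point) =
      Finsupp.single (phi hX hM (.some x y n) h) 1 := by
    unfold cyc
    rw [dif_pos h]
  unfold clp
  rw [h2]
  change _ = Submodule.Quotient.mk (Finsupp.mapDomain (fun x _ => x) (Finsupp.single _ 1))
  rw [Finsupp.mapDomain_single]

omit [IsAlgClosed k] [CharZero k] in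
/-- constant cycles over `Om k` -/
theorem exists_constCyc [IsAlgClosed k] [CharZero k] (hX : Hom X) (w : CH X Unit) :
    ∃ z : Pt X (Om k) →₀ ℚ, ∀ V : Place k (Om k), lim1 hX V z = w := by
  obtain ⟨z, hz⟩ : ∃ z, cl1 X z = w := by
    obtain ⟨w', rfl⟩ := Submodule.Quotient.mk_surjective _ w
    refine ⟨Finsupp.mapDomain (fun x => x ()) w', ?_⟩
    change Submodule.Quotient.mk (Finsupp.mapDomain (fun x _ => x)
      (Finsupp.mapDomain (fun x => x ()) w')) = _
    rw [← Finsupp.mapDomain_comp]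
    have h3 : ((fun (x : Pt X k) (_ : Unit) => x) ∘ fun x : Unit → Pt X k => x ()) = id := rfl
    rw [h3, Finsupp.mapDomain_id]
  refine ⟨Finsupp.mapDomain (Pt.map (Algebra.ofId k (Om k)) hX) z, fun V => ?_⟩
  rw [← hz]
  change Submodule.Quotient.mk (Finsupp.mapDomain (fun x i => pv hX V (x i))
    (Finsupp.mapDomain (fun x _ => x) (Finsupp.mapDomain (Pt.map (Algebra.ofId k (Om k)) hX) z))) =
      Submodule.Quotient.mk (Finsupp.mapDomain (fun x _ => x) z)
  rw [← Finsupp.mapDomain_comp, ← Finsupp.mapDomain_comp]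
  congr 2
  funext x _
  exact pv_eq (hX := hX) isVal_const

/-- the exterior product with the factors `u`, `u'` at the places `i`, `j` -/
def E2 (hX : Hom X) {n : ℕ} (w : Fin n → CH X Unit) (i j : Fin n) (u u' : CH X Unit) :
    CH X (Fin n) := Ext hX n (Function.update (Function.update w i u) j u')

theorem E2_add_right (hX : Hom X) {n : ℕ} (w : Fin n → CH X Unit) (i j : Fin n)
    (u u' u'' : CH X Unit) : E2 hX w i j u (u' + u'') = E2 hX w i j u u' + E2 hX w i j u u'' :=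
  (Ext hX n).map_update_add _ _ _ _

theorem E2_add_left (hX : Hom X) {n : ℕ} (w : Fin n → CH X Unit) {i j : Fin n} (hij : i ≠ j)
    (u u' u'' : CH X Unit) : E2 hX w i j (u + u') u'' = E2 hX w i j u u'' + E2 hX w i j u' u'' := by
  unfold E2
  rw [Function.update_comm hij, Function.update_comm hij, Function.update_comm hij]
  exact (Ext hX n).map_update_add _ _ _ _

/-- The sum of the two products for the points of a pair on a line through `-S` depends only on
`S`. -/
theorem pencil2 (hX : Hom X) {n : ℕ} (w : Fin n → CH X Unit) {i j : Fin n} (hij : i ≠ j)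
    {M N : Mp k m} (hM : M.Ok α B X) (hN : N.Ok α B X) {P₁ P₂ P₃ P₄ S : (Ec α B).Point}
    (h₁ : M.Ns P₁ ∧ N.Ns P₁) (h₂ : M.Ns P₂ ∧ N.Ns P₂) (h₃ : M.Ns P₃ ∧ N.Ns P₃)
    (h₄ : M.Ns P₄ ∧ N.Ns P₄) (hS : S ≠ 0)
    (h12 : P₁ + P₂ = S) (h34 : P₃ + P₄ = S) (d12 : P₁ ≠ P₂) (d34 : P₃ ≠ P₄)
    (e₁ : P₁ ≠ -S) (e₃ : P₃ ≠ -S) :
    E2 hX w i j (clp hX hM P₁) (clp hX hN P₂) + E2 hX w i j (clp hX hM P₂) (clp hX hN P₁) =
      E2 hX w i j (clp hX hM P₃) (clp hX hN P₄) + E2 hX w i j (clp hX hM P₄) (clp hX hN P₃) := by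
  have hns : ∀ {P : (Ec α B).Point}, M.Ns P → P ≠ 0 := by
    rintro P hP rfl
    exact hP
  obtain ⟨A, A', hA, hA', h0, h1⟩ := ipen_points (hns h₁.1) (hns h₂.1) (hns h₃.1) (hns h₄.1) hS
    h12 h34 d12 d34 e₁ e₃
  have hM' := ok_map hM
  have hN' := ok_map hN
  obtain ⟨V₀, hV₀⟩ := exists_place (F := Om k) Pool.Agent.VFP.tt_transc (0 : k)
  have ne : ∀ {M : Mp k m}, (M.Ns P₁ ∧ M.Ns P₂) →
      (M.map (algebraMap k (Om k))).co A.1 A.2 ≠ 0 ∧
        (M.map (algebraMap k (Om k))).co A'.1 A'.2 ≠ 0 := by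
    intro M h
    rcases h0 V₀ hV₀ with ⟨i1, i2⟩ | ⟨i1, i2⟩
    · exact ⟨ipen_ne i1 h.1, ipen_ne i2 h.2⟩
    · exact ⟨ipen_ne i1 h.2, ipen_ne i2 h.1⟩
  obtain ⟨m1, m2⟩ := ne (M := M) ⟨h₁.1, h₂.1⟩
  obtain ⟨n1, n2⟩ := ne (M := N) ⟨h₁.2, h₂.2⟩
  have om1 := fun f hf => hM'.onX f hf A.1 A.2 hA
  have om2 := fun f hf => hM'.onX f hf A'.1 A'.2 hA'
  have on1 := fun f hf => hN'.onX f hf A.1 A.2 hA
  have on2 := fun f hf => hN'.onX f hf A'.1 A'.2 hA'
  choose Z hZ using fun l => exists_constCyc hX (w l)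
  let zM := Finsupp.single (mkPt hX _ m1 om1) (1 : ℚ)
  let zM' := Finsupp.single (mkPt hX _ m2 om2) (1 : ℚ)
  let zN := Finsupp.single (mkPt hX _ n1 on1) (1 : ℚ)
  let zN' := Finsupp.single (mkPt hX _ n2 on2) (1 : ℚ)
  have hlim : ∀ (V : Place k (Om k)) (a b : Pt X (Om k) →₀ ℚ),
      lim hX V (ext (Function.update (Function.update Z i a) j b)) =
        E2 hX w i j (lim1 hX V a) (lim1 hX V b) := by
    intro V a b
    rw [lim_ext]
    unfold E2
    congr 1
    funext l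
    by_cases hl : l = j
    · subst hl
      rw [Function.update_self, Function.update_self]
    · rw [Function.update_of_ne hl, Function.update_of_ne hl]
      by_cases hl' : l = i
      · subst hl'
        rw [Function.update_self, Function.update_self]
      · rw [Function.update_of_ne hl', Function.update_of_ne hl', hZ]
  refine bridge hX (ext (Function.update (Function.update Z i zM) j zN') +
    ext (Function.update (Function.update Z i zM') j zN)) (c₀ := 0) (c₁ := 1) ?_ ?_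
  · intro V hV
    rw [map_add, hlim, hlim]
    rcases h0 V hV with ⟨i1, i2⟩ | ⟨i1, i2⟩
    · rw [ipen_lim hX hM i1 h₁.1, ipen_lim hX hN i2 h₂.2, ipen_lim hX hM i2 h₂.1,
        ipen_lim hX hN i1 h₁.2]
    · rw [ipen_lim hX hM i1 h₂.1, ipen_lim hX hN i2 h₁.2, ipen_lim hX hM i2 h₁.1,
        ipen_lim hX hN i1 h₂.2, add_comm]
  · intro V hV
    rw [map_add, hlim, hlim]
    rcases h1 V hV with ⟨i1, i2⟩ | ⟨i1, i2⟩
    · rw [ipen_lim hX hM i1 h₃.1, ipen_lim hX hN i2 h₄.2, ipen_lim hX hM i2 h₄.1,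
        ipen_lim hX hN i1 h₃.2]
    · rw [ipen_lim hX hM i1 h₄.1, ipen_lim hX hN i2 h₃.2, ipen_lim hX hM i2 h₃.1,
        ipen_lim hX hN i1 h₄.2, add_comm]

omit [IsAlgClosed k] [CharZero k] in
private theorem iso_fin {M : Mp k m} (hM : ∃ i, M.G i ≠ 0 ∨ M.H i ≠ 0) (p : (Ec α B).Point) :
    {s : (Ec α B).Point | ¬ M.Ns (p + s)}.Finite := by
  refine (finite_bad (α := α) (B := B) hM).preimage (f := fun s => p + s) ?_
  exact (add_right_injective p).injOn

private theorem swap_aux (hX : Hom X) {n : ℕ} (w : Fin n → CH X Unit) {i j : Fin n} (hij : i ≠ j)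
    {M N : Mp k m} (hM : M.Ok α B X) (hN : N.Ok α B X) {e u : (Ec α B).Point} (h1 : e ≠ u)
    (h2 : e + u ≠ 0) :
    E2 hX w i j (hK hX hM e) (hK hX hN u) + E2 hX w i j (hK hX hM u) (hK hX hN e) = 0 := by
  have hinf := infinite_points (α := α) (B := B) hM.disc
  have hfin := ((((((iso_fin hM.ne e).union (iso_fin hM.ne u)).union
    (iso_fin hM.ne (0 : (Ec α B).Point))).union (iso_fin hM.ne (e + u))).union
    ((((iso_fin hN.ne e).union (iso_fin hN.ne u)).union
    (iso_fin hN.ne (0 : (Ec α B).Point))).union (iso_fin hN.ne (e + u)))).union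
    (finite_half (α := α) (B := B) (-(e + u)))).union
    ((finite_third (α := α) (B := B) (-(e + e + u))).union
      (finite_third (α := α) (B := B) (-(e + u))))
  obtain ⟨q, hq⟩ := hfin.exists_notMem
  simp only [Set.mem_union, Set.mem_ofPred_eq, not_or, not_not, zero_add] at hq
  obtain ⟨⟨⟨⟨⟨⟨m1, m2⟩, m3⟩, m4⟩, ⟨⟨n1, n2⟩, n3⟩, n4⟩, c1⟩, c2, c3⟩ := hq
  have key := pencil2 hX w hij hM hN (P₁ := e + q) (P₂ := u + q) (P₃ := q) (P₄ := e + u + q)
    (S := e + u + (q + q)) ⟨m1, n1⟩ ⟨m2, n2⟩ ⟨m3, n3⟩ ⟨m4, n4⟩ (fun h => c1 (by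
      rw [eq_neg_iff_add_eq_zero, add_comm]
      exact h)) (by abel) (by abel) (fun h => h1 (add_right_cancel h)) (fun h => h2 (by
      have h3 : (e + u) + q = 0 + q := by rw [zero_add]; exact h.symm
      exact add_right_cancel h3)) (fun h => c2 (by
      rw [eq_neg_iff_add_eq_zero] at h ⊢
      rw [← h]
      abel)) (fun h => c3 (by
      rw [eq_neg_iff_add_eq_zero] at h ⊢
      rw [← h]
      abel))
  have a1 : clp hX hM (e + q) = clp hX hM q + hK hX hM e := by
    rw [← hK_spec hX hM m3 m1, add_sub_cancel]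
  have a2 : clp hX hM (u + q) = clp hX hM q + hK hX hM u := by
    rw [← hK_spec hX hM m3 m2, add_sub_cancel]
  have a3 : clp hX hM (e + u + q) = clp hX hM q + (hK hX hM e + hK hX hM u) := by
    rw [← map_add, ← hK_spec hX hM m3 m4, add_sub_cancel]
  have b1 : clp hX hN (e + q) = clp hX hN q + hK hX hN e := by
    rw [← hK_spec hX hN n3 n1, add_sub_cancel]
  have b2 : clp hX hN (u + q) = clp hX hN q + hK hX hN u := by
    rw [← hK_spec hX hN n3 n2, add_sub_cancel]
  have b3 : clp hX hN (e + u + q) = clp hX hN q + (hK hX hN e + hK hX hN u) := by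
    rw [← map_add, ← hK_spec hX hN n3 n4, add_sub_cancel]
  rw [a1, a2, a3, b1, b2, b3] at key
  simp only [E2_add_right, E2_add_left hX w hij] at key
  rw [← sub_eq_zero] at key
  rw [← key]
  abel

/-- **Antisymmetry.** The product of two maps from the same elliptic curve. -/
theorem hK_swap (hX : Hom X) {n : ℕ} (w : Fin n → CH X Unit) {i j : Fin n} (hij : i ≠ j)
    {M N : Mp k m} (hM : M.Ok α B X) (hN : N.Ok α B X) (e u : (Ec α B).Point) :
    E2 hX w i j (hK hX hM e) (hK hX hN u) + E2 hX w i j (hK hX hM u) (hK hX hN e) = 0 := by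
  have hinf := infinite_points (α := α) (B := B) hM.disc
  obtain ⟨t, ht⟩ := ((({e - u} : Set (Ec α B).Point).toFinite.union
    (Set.finite_singleton (-(e + u)))).union ((Set.finite_singleton e).union
      (Set.finite_singleton (-e)))).exists_notMem
  simp only [Set.mem_union, Set.mem_singleton_iff, not_or] at ht
  obtain ⟨⟨t1, t2⟩, t3, t4⟩ := ht
  have h1 := swap_aux hX w hij hM hN (e := e) (u := u + t)
    (fun h => t1 (by rw [h]; abel)) (fun h => t2 (by
      rw [eq_neg_iff_add_eq_zero, ← h]; abel))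
  have h2 := swap_aux hX w hij hM hN (e := e) (u := t) (Ne.symm t3) (fun h => t4 (by
      rw [eq_neg_iff_add_eq_zero, ← h]; abel))
  rw [map_add, map_add, E2_add_right, E2_add_left hX w hij] at h1
  rw [← sub_eq_zero, sub_zero] at h1 h2
  have h3 := sub_eq_zero.2 (h1.trans h2.symm)
  rw [← h3]
  abel

end Pool.Agent.GT
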