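import Pool.Agent.GT.IsoA
import Pool.Agent.GT.BadA
import Pool.Agent.GT.TrB
import Pool.Agent.GT.Alt

/-!
# Constant elliptic curves: the homomorphisms and their products
-/

set_option autoImplicit false

noncomputable section

namespace Pool.Agent.GT

open Pool.Agent.ZCyc Pool.Agent.Dess Polynomial
open Pool.Agent.VFP (Om tt)
open scoped Classical LinearAlgebra.Projectivization

/-- transport of the points along equalities of the coefficients -/
def castE {K : Type} [Field K] {α α' B B' : K} (hα : α = α') (hB : B = B') :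
    (Ec α B).Point →+ (Ec α' B').Point := by
  subst hα
  subst hB
  exact AddMonoidHom.id _

theorem castE_rfl {K : Type} [Field K] {α B : K} (P : (Ec α B).Point) :
    castE rfl rfl P = P := rfl

variable {k : Type} [Field k] [IsAlgClosed k] [CharZero k] {m : ℕ}
  {X : Set (MvPolynomial (Fin (m + 1)) k)} {a b : k}

omit [IsAlgClosed k] [CharZero k] in
private theorem isob_map {K K' : Type} [Field K] [Field K'] (W : WeierstrassCurve K)
    (W' : WeierstrassCurve K') (f : K →+* K') (hW : W.map f = W') :
    ∃ T : W.toAffine.Point →+ W'.toAffine.Point,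
      ∀ x y h, ∃ h', T (.some x y h) = .some (f x) (f y) h' := by
  subst hW
  refine ⟨{
    toFun := fun P => match P with
      | 0 => 0
      | .some _ _ h => .some _ _ <|
        (WeierstrassCurve.Affine.map_nonsingular (W := W.toAffine) f.injective _ _).mpr h
    map_zero' := rfl
    map_add' := ?_ }, fun x y h => ⟨_, rfl⟩⟩
  rintro (_ | ⟨x₁, y₁, h₁⟩) (_ | ⟨x₂, y₂, h₂⟩)
  any_goals rfl
  by_cases hxy : x₁ = x₂ ∧ y₁ = W.toAffine.negY x₂ y₂
  · rw [WeierstrassCurve.Affine.Point.add_of_Y_eq hxy.left hxy.right,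
      WeierstrassCurve.Affine.Point.add_of_Y_eq (congr_arg _ hxy.left) <| by
        rw [hxy.right, WeierstrassCurve.Affine.map_negY]]
  · simpa only [WeierstrassCurve.Affine.Point.add_some hxy, ← WeierstrassCurve.Affine.map_addX,
      ← WeierstrassCurve.Affine.map_addY, ← WeierstrassCurve.Affine.map_slope] using!
      (WeierstrassCurve.Affine.Point.add_some fun h ↦ hxy ⟨f.injective h.1,
        f.injective (W.toAffine.map_negY f .. ▸ h).2⟩).symm

omit [IsAlgClosed k] [CharZero k] in
theorem exists_cst (a b : k) : ∃ T : (Ec a b).Point →+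
    (Ec (algebraMap k (Om k) a) (algebraMap k (Om k) b)).Point, ∀ x y h, ∃ h',
      T (.some x y h) = .some (algebraMap k (Om k) x) (algebraMap k (Om k) y) h' := by
  refine isob_map (Ec a b) (Ec (algebraMap k (Om k) a) (algebraMap k (Om k) b))
    (algebraMap k (Om k)) ?_
  ext
  · simp [Ec]
  · simp [Ec]
  · simp [Ec]
  · change algebraMap k (Om k) (-3 * a) = -3 * algebraMap k (Om k) a
    rw [map_mul, map_neg, map_ofNat]
  · rfl

/-- the constant points over `Om k` -/
def cst : (Ec a b).Point →+ (Ec (algebraMap k (Om k) a) (algebraMap k (Om k) b)).Point :=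
  (exists_cst a b).choose

omit [IsAlgClosed k] [CharZero k] in
theorem cst_some (x y : k) (h : (Ec a b).Nonsingular x y) : ∃ h',
    cst (.some x y h : (Ec a b).Point) =
      .some (algebraMap k (Om k) x) (algebraMap k (Om k) y) h' :=
  (exists_cst a b).choose_spec x y h

omit [CharZero k] in
/-- the value of a constant point -/
theorem pred_cst [CharZero k] (v : Place k (Om k)) {α B : Om k} {a' b' : k}
    (hα : algebraMap k (Om k) a = α)
    (hB : algebraMap k (Om k) b = B) (ha : a = a') (hb : b = b') (p : (Ec a b).Point) :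
    PRed v (castE hα hB (cst p)) (castE ha hb p) := by
  subst hα hB ha hb
  rw [castE_rfl, castE_rfl]
  rcases p with _ | ⟨x, y, h⟩
  · have h1 : cst (0 : (Ec a b).Point) = 0 := map_zero _
    change PRed v (cst (0 : (Ec a b).Point)) (0 : (Ec a b).Point)
    rw [h1]
    trivial
  · obtain ⟨h', h1⟩ := cst_some x y h
    rw [h1]
    exact ⟨Place.at_const _, Place.at_const _⟩

private theorem isob_val {v : Place k (Om k)} {ι : Type} {x : ι → Om k} {y : ι → k}
    (h : ∀ i, v.At (x i) (y i)) (f : MvPolynomial ι k) :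
    v.At (MvPolynomial.aeval x f) (MvPolynomial.aeval y f) := by
  induction f using MvPolynomial.induction_on with
  | C a =>
    rw [MvPolynomial.aeval_C, MvPolynomial.aeval_C]
    exact Place.at_const a
  | add f g hf hg =>
    rw [map_add, map_add]
    exact hf.add hg
  | mul_X f i hf =>
    rw [map_mul, map_mul, MvPolynomial.aeval_X, MvPolynomial.aeval_X]
    exact hf.mul (h i)

/-- the reduction of a map to the variety is a map to the variety -/
private theorem isob_red {α B : Om k} {M : Mp (Om k) m} (hM : M.Ok α B X)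
    {v : Place k (Om k)} {a b : k} {N : Mp k m} (hα : v.At α a) (hB : v.At B b)
    (hab : b ^ 2 ≠ 4 * a ^ 3) (h : MRed v M N) (hN : ∃ i, N.G i ≠ 0 ∨ N.H i ≠ 0) :
    N.Ok a b X := by
  refine ⟨hab, hN, fun f hf x y hxy => ?_⟩
  obtain ⟨P, hP⟩ := exists_lift (v := v) hα hB hab (.some x y (nonsing hab hxy))
  rcases P with _ | ⟨x', y', hP'⟩
  · exact hP.elim
  · have h1 := hM.onX f hf x' y' (eqn_iff.1 hP'.1)
    have h2 := isob_val (v := v) (fun i => co_at h hP.1 hP.2 i) f
    rw [h1] at h2
    have h00 : v.At (0 : Om k) 0 := by simpa using Place.at_const (v := v) (0 : k)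
    exact h2.unique h00

/-- The limit homomorphism on the constant points is the homomorphism of a map over `k`. -/
theorem hV_cst (hX : Hom X) {α B : Om k} {M : Mp (Om k) m} (hM : M.Ok α B X)
    (hα : algebraMap k (Om k) a = α) (hB : algebraMap k (Om k) b = B) (v : Place k (Om k)) :
    ∃ (N : Mp k m) (hN : N.Ok a b X), ∀ p : (Ec a b).Point,
      hV hX hM v (castE hα hB (cst p)) = hK hX hN p := by
  subst hα hB
  have hab : b ^ 2 ≠ 4 * a ^ 3 := by
    intro h
    apply hM.disc
    have h1 := congrArg (algebraMap k (Om k)) h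
    simpa only [map_pow, map_mul, map_ofNat] using h1
  obtain ⟨l, N, hl, hN, hN0⟩ := exists_mul hM.ne v (one_ne_zero (α := Om k))
  have ha' : v.At (algebraMap k (Om k) a / 1 ^ 4) a := by
    rw [one_pow, div_one]
    exact Place.at_const _
  have hb' : v.At (algebraMap k (Om k) b / 1 ^ 6) b := by
    rw [one_pow, div_one]
    exact Place.at_const _
  have hM1 := ok_scl hX hM (one_ne_zero (α := Om k)) hl
  have hNok : N.Ok a b X := isob_red hM1 ha' hb' hab hN hN0
  refine ⟨N, hNok, fun p => ?_⟩
  rw [castE_rfl, hV_scl hX hM v one_ne_zero hl]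
  refine hV_eq_hK hX hM1 ha' hb' hNok hN ?_
  rcases p with _ | ⟨x, y, h⟩
  · have h1 : cst (0 : (Ec a b).Point) = 0 := map_zero _
    change PRed v (sclE hM.disc one_ne_zero (cst (0 : (Ec a b).Point))) (0 : (Ec a b).Point)
    rw [h1, map_zero]
    trivial
  · obtain ⟨h', h1⟩ := cst_some x y h
    rw [h1]
    obtain ⟨h2, h3⟩ := sclE_some hM.disc (one_ne_zero (α := Om k)) _ _ h'
    rw [h3]
    refine ⟨?_, ?_⟩
    · rw [one_pow, div_one]
      exact Place.at_const _
    · rw [one_pow, div_one]
      exact Place.at_const _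

/-! ### The group generated by the homomorphisms of the maps over `k` -/

/-- the group generated by the homomorphisms `hK` of the maps over `k` -/
def HG (hX : Hom X) (a b : k) : AddSubgroup ((Ec a b).Point →+ CH X Unit) :=
  AddSubgroup.closure {f | ∃ (N : Mp k m) (hN : N.Ok a b X), f = hK hX hN}

theorem HG_swap (hX : Hom X) {n : ℕ} (w : Fin n → CH X Unit) {i j : Fin n} (hij : i ≠ j)
    {f g : (Ec a b).Point →+ CH X Unit} (hf : f ∈ HG hX a b) (hg : g ∈ HG hX a b)
    (e u : (Ec a b).Point) : E2 hX w i j (f e) (g u) + E2 hX w i j (f u) (g e) = 0 := by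
  have h0 : ∀ c : CH X Unit, E2 hX w i j c 0 = 0 := fun c => by
    have h := E2_add_right hX w i j c 0 0
    rw [add_zero] at h
    exact left_eq_add.1 h
  have h0' : ∀ c : CH X Unit, E2 hX w i j 0 c = 0 := fun c => by
    have h := E2_add_left hX w hij 0 0 c
    rw [add_zero] at h
    exact left_eq_add.1 h
  have hn : ∀ c c' : CH X Unit, E2 hX w i j c (-c') = -E2 hX w i j c c' := fun c c' => by
    have h := E2_add_right hX w i j c c' (-c')
    rw [add_neg_cancel, h0] at h
    exact (neg_eq_of_add_eq_zero_right h.symm).symm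
  have hn' : ∀ c c' : CH X Unit, E2 hX w i j (-c) c' = -E2 hX w i j c c' := fun c c' => by
    have h := E2_add_left hX w hij c (-c) c'
    rw [add_neg_cancel, h0'] at h
    exact (neg_eq_of_add_eq_zero_right h.symm).symm
  induction hf using AddSubgroup.closure_induction with
  | mem f hf =>
    obtain ⟨M, hM, rfl⟩ := hf
    induction hg using AddSubgroup.closure_induction with
    | mem g hg =>
      obtain ⟨N, hN, rfl⟩ := hg
      exact hK_swap hX w hij hM hN e u
    | zero =>
      change E2 hX w i j _ 0 + E2 hX w i j _ 0 = 0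
      rw [h0, h0, add_zero]
    | add g g' _ _ h1 h2 =>
      rw [AddMonoidHom.add_apply, AddMonoidHom.add_apply, E2_add_right, E2_add_right,
        add_add_add_comm, h1, h2, add_zero]
    | neg g _ h1 =>
      rw [AddMonoidHom.neg_apply, AddMonoidHom.neg_apply, hn, hn, ← neg_add, h1, neg_zero]
  | zero =>
    change E2 hX w i j 0 _ + E2 hX w i j 0 _ = 0
    rw [h0', h0', add_zero]
  | add f f' _ _ h1 h2 =>
    rw [AddMonoidHom.add_apply, AddMonoidHom.add_apply, E2_add_left hX w hij,
      E2_add_left hX w hij, add_add_add_comm, h1, h2, add_zero]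
  | neg f _ h1 =>
    rw [AddMonoidHom.neg_apply, AddMonoidHom.neg_apply, hn', hn', ← neg_add, h1, neg_zero]

/-- the product of `n` homomorphisms is alternating in the points -/
theorem HG_perm (hX : Hom X) {n : ℕ} {F : Fin n → ((Ec a b).Point →+ CH X Unit)}
    (hF : ∀ j, F j ∈ HG hX a b) (π : Equiv.Perm (Fin n)) :
    ∀ e : Fin n → (Ec a b).Point, Ext hX n (fun j => F j (e (π j))) =
      ((Equiv.Perm.sign π : ℤˣ) : ℤ) • Ext hX n (fun j => F j (e j)) := by
  induction π using Equiv.Perm.swap_induction_on with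
  | one =>
    intro e
    simp
  | swap_mul f x y hxy ih =>
    intro e
    have h1 := ih (e ∘ Equiv.swap x y)
    have h2 : (fun j => F j ((e ∘ Equiv.swap x y) (f j))) =
        fun j => F j (e ((Equiv.swap x y * f) j)) := rfl
    rw [← h2, h1, Equiv.Perm.sign_mul, Equiv.Perm.sign_swap hxy]
    have h3 : Ext hX n (fun j => F j ((e ∘ Equiv.swap x y) j)) =
        E2 hX (fun j => F j (e j)) x y (F x (e y)) (F y (e x)) := by
      unfold E2
      congr 1
      funext j
      by_cases hj : j = y
      · subst hj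
        rw [Function.update_self, Function.comp_apply, Equiv.swap_apply_right]
      · rw [Function.update_of_ne hj]
        by_cases hj' : j = x
        · subst hj'
          rw [Function.update_self, Function.comp_apply, Equiv.swap_apply_left]
        · rw [Function.update_of_ne hj', Function.comp_apply,
            Equiv.swap_apply_of_ne_of_ne hj' hj]
    have h4 : Ext hX n (fun j => F j (e j)) =
        E2 hX (fun j => F j (e j)) x y (F x (e x)) (F y (e y)) := by
      unfold E2
      rw [Function.update_eq_self, Function.update_eq_self]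
    have h5 := HG_swap hX (fun j => F j (e j)) hxy (hF x) (hF y) (e x) (e y)
    rw [← h3, ← h4] at h5
    have h6 : Ext hX n (fun j => F j ((e ∘ Equiv.swap x y) j)) =
        -Ext hX n (fun j => F j (e j)) := eq_neg_of_add_eq_zero_right h5
    rw [h6]
    simp

/-- The alternating sum is the symmetric sum over the homomorphisms. -/
theorem Alt_HG (hX : Hom X) {n : ℕ} {F : Fin n → ((Ec a b).Point →+ CH X Unit)}
    (hF : ∀ j, F j ∈ HG hX a b) (e : Fin n → (Ec a b).Point) :
    Alt (Ext hX n) (fun j => F j (e j)) =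
      ∑ π : Equiv.Perm (Fin n), Ext hX n (fun j => F (π j) (e j)) := by
  rw [Alt_apply]
  refine Finset.sum_congr rfl fun π _ => ?_
  rw [HG_perm hX (F := fun j => F (π j)) (fun j => hF (π j)) π e, smul_smul]
  have h1 : ((Equiv.Perm.sign π : ℤˣ) : ℤ) * ((Equiv.Perm.sign π : ℤˣ) : ℤ) = 1 := by
    rw [← Units.val_mul, Int.units_mul_self, Units.val_one]
  rw [h1, one_smul]

/-! ### The sums over the roots -/

variable {A : Type} [CommRing A] [Algebra k A]

/-- `TK` on the points of the curve with the coefficients `a`, `b` -/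
def TKc (hX : Hom X) {d : GD A m} (hd : d.Ok X) (s : A →ₐ[k] k) (ha : a = s d.α)
    (hb : b = s d.B) : (Ec a b).Point →+ CH X Unit := (TK hX hd s).comp (castE ha hb)

/-- `TV` on the constant points of the curve with the coefficients `a`, `b` -/
def TVc (hX : Hom X) {d : GD A m} (hd : d.Ok X) (S : A →ₐ[k] Om k) (v : Place k (Om k))
    (ha : algebraMap k (Om k) a = S d.α) (hb : algebraMap k (Om k) b = S d.B) :
    (Ec a b).Point →+ CH X Unit := (TV hX hd S v).comp ((castE ha hb).comp cst)

theorem TVc_eq_TKc (hX : Hom X) {d : GD A m} (hd : d.Ok X) {S : A →ₐ[k] Om k} {s : A →ₐ[k] k}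
    {v : Place k (Om k)} (h : ∀ x : A, v.At (S x) (s x))
    (ha : algebraMap k (Om k) a = S d.α) (hb : algebraMap k (Om k) b = S d.B)
    (ha' : a = s d.α) (hb' : b = s d.B) : TVc hX hd S v ha hb = TKc hX hd s ha' hb' := by
  ext p
  exact TV_eq_TK hX hd h (pred_cst v ha hb ha' hb' p)

theorem TKc_mem (hX : Hom X) {d : GD A m} (hd : d.Ok X) (s : A →ₐ[k] k) (ha : a = s d.α)
    (hb : b = s d.B) : TKc hX hd s ha hb ∈ HG hX a b := by
  subst ha hb
  have h1 : TKc hX hd s rfl rfl = ∑ θ : {θ // θ ∈ d.rts (s : A →+* k)}, hK hX (hd.mp_ok s θ.2) := by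
    ext p
    rfl
  rw [h1]
  exact AddSubgroup.sum_mem _ fun θ _ => AddSubgroup.subset_closure ⟨_, _, rfl⟩

theorem TVc_mem (hX : Hom X) {d : GD A m} (hd : d.Ok X) (S : A →ₐ[k] Om k) (v : Place k (Om k))
    (ha : algebraMap k (Om k) a = S d.α) (hb : algebraMap k (Om k) b = S d.B) :
    TVc hX hd S v ha hb ∈ HG hX a b := by
  choose N hN h1 using fun θ : {θ // θ ∈ d.rts (S : A →+* Om k)} =>
    hV_cst hX (hd.mp_ok S θ.2) ha hb v
  have h2 : TVc hX hd S v ha hb = ∑ θ, hK hX (hN θ) := by
    ext p
    change TV hX hd S v (castE ha hb (cst p)) = _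
    unfold TV
    rw [AddMonoidHom.finsetSum_apply, AddMonoidHom.finsetSum_apply]
    exact Finset.sum_congr rfl fun θ _ => h1 θ p
  rw [h2]
  exact AddSubgroup.sum_mem _ fun θ _ => AddSubgroup.subset_closure ⟨_, _, rfl⟩

end Pool.Agent.GT
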