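import Pool.Agent.GT.IsoB
import Pool.Agent.GT.Reg
import Pool.Agent.GT.TrC
import Pool.Agent.TInc.Points
import Pool.Agent.TInc.Lin

/-!
# Constant elliptic curves: sums over linear systems of divisors
-/

set_option autoImplicit false

noncomputable section

namespace Pool.Agent.GT

open Pool.Agent.ZCyc Pool.Agent.Dess Polynomial
open Pool.Agent.VFP (Om tt)
open scoped Classical LinearAlgebra.Projectivization

open Pool.Agent.TInc

variable {k L : Type} [Field k] [IsAlgClosed k] [CharZero k] [Field L] [Algebra k L] {m : ℕ}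
  {X : Set (MvPolynomial (Fin (m + 1)) k)} {U : Set (Place k L)} {n : ℕ} {a b : k}

omit [IsAlgClosed k] [CharZero k] in
private theorem isoc_S {A : Type} [CommRing A] [Algebra k A] {K : Type} [Field K] [Algebra k K]
    {x : A} {c : k} (h : x = algebraMap k A c) (S : A →ₐ[k] K) : algebraMap k K c = S x := by
  rw [h, S.commutes]

omit [IsAlgClosed k] [CharZero k] in
private theorem isoc_s {A : Type} [CommRing A] [Algebra k A]
    {x : A} {c : k} (h : x = algebraMap k A c) (s : A →ₐ[k] k) : c = s x := by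
  rw [h, s.commutes]
  rfl

/-- the homomorphism at the place `c` -/
def Tc (hX : Hom X) (hL : IsCurve k L) {d : GD (regU U) m} (hd : d.Ok X)
    (ha : d.α = algebraMap k (regU U) a) (hb : d.B = algebraMap k (regU U) b) (c : U) :
    (Ec a b).Point →+ CH X Unit :=
  TKc hX hd (evk hL c) (isoc_s ha _) (isoc_s hb _)

theorem Tc_mem (hX : Hom X) (hL : IsCurve k L) {d : GD (regU U) m} (hd : d.Ok X)
    (ha : d.α = algebraMap k (regU U) a) (hb : d.B = algebraMap k (regU U) b) (c : U) :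
    Tc hX hL hd ha hb c ∈ HG hX a b := TKc_mem _ _ _ _ _

/-- the homomorphism at the point `S` over `Om k` -/
def TS (hX : Hom X) (hL : IsCurve k L) {d : GD (regU U) m} (hd : d.Ok X)
    (ha : d.α = algebraMap k (regU U) a) (hb : d.B = algebraMap k (regU U) b)
    (S : (L →ₐ[k] Om k) ⊕ U) (v : Place k (Om k)) :
    (Ec a b).Point →+ CH X Unit :=
  TVc hX hd (evS hL S) v (isoc_S ha _) (isoc_S hb _)

theorem TS_mem (hX : Hom X) (hL : IsCurve k L) {d : GD (regU U) m} (hd : d.Ok X)
    (ha : d.α = algebraMap k (regU U) a) (hb : d.B = algebraMap k (regU U) b)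
    (S : (L →ₐ[k] Om k) ⊕ U) (v : Place k (Om k)) : TS hX hL hd ha hb S v ∈ HG hX a b :=
  TVc_mem _ _ _ _ _ _

theorem TS_eq (hX : Hom X) (hL : IsCurve k L) {d : GD (regU U) m} (hd : d.Ok X)
    (ha : d.α = algebraMap k (regU U) a) (hb : d.B = algebraMap k (regU U) b)
    {S : (L →ₐ[k] Om k) ⊕ U} {v : Place k (Om k)} {c : U} (h : Over v S c.1) :
    TS hX hL hd ha hb S v = Tc hX hL hd ha hb c :=
  TVc_eq_TKc hX hd (over_ev hL h) _ _ _ _

theorem exists_cycS (hX : Hom X) (hL : IsCurve k L) {d : GD (regU U) m} (hd : d.Ok X)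
    (ha : d.α = algebraMap k (regU U) a) (hb : d.B = algebraMap k (regU U) b)
    (S : (L →ₐ[k] Om k) ⊕ U) (p : (Ec a b).Point) :
    ∃ z : Pt X (Om k) →₀ ℚ, ∀ v : Place k (Om k), lim1 hX v z = TS hX hL hd ha hb S v p :=
  exists_cycle hX hd (evS hL S) _

omit [IsAlgClosed k] in
/-- a function with simple poles at some of the `n` places, and with the value `1` at `b₀` -/
private theorem isoc_phi [IsAlgClosed k] {hL : IsCurve k L} {g : ℕ} (hg : Riemann hL g)
    (hn : 1 + g ≤ n) (c : Fin n → U) (hc : Function.Injective c) (b₀ : U) (hb₀ : ∀ j, c j ≠ b₀) :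
    ∃ φ : L, (∀ a : k, φ ≠ algebraMap k L a) ∧
      (∀ v : Place k L, (∀ j, (c j).1 ≠ v) → φ ∈ v.ring) ∧ (∀ j, -1 ≤ ord (c j).1 φ) ∧
      b₀.1.At φ 1 := by
  obtain ⟨φ, h1, h2, h3⟩ := exists_phi hg hn (fun j => (c j).1)
    (fun i j h => hc (Subtype.ext h))
  have h3' : ∀ a : k, φ 0 ≠ algebraMap k L a := by
    intro a
    have h := h3 1 one_ne_zero a
    simpa using h
  have hr : φ 0 ∈ b₀.1.ring := h1 0 b₀.1 fun j h => hb₀ j (Subtype.ext h)
  have hv := at_val hL hr
  refine ⟨φ 0 + algebraMap k L (1 - val b₀.1 (φ 0)), fun a h => ?_, fun v hv => ?_, fun j => ?_, ?_⟩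
  · apply h3' (a - (1 - val b₀.1 (φ 0)))
    rw [map_sub, ← h, add_sub_cancel_right]
  · exact add_mem (h1 0 v hv) (v.const_mem _)
  · have hne : φ 0 + algebraMap k L (1 - val b₀.1 (φ 0)) ≠ 0 := by
      intro h
      apply h3' (-(1 - val b₀.1 (φ 0)))
      rw [map_neg]
      exact eq_neg_of_add_eq_zero_left h
    refine le_ord_add hL hne (fun h => h2 0 j h) fun _ => ?_
    rw [ord_const hL]
    norm_num
  · have h4 := hv.add (Place.at_const (v := b₀.1) (1 - val b₀.1 (φ 0)))
    rwa [add_sub_cancel] at h4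

/-- For `n ≥ g + 1` different places `c j` and a place `b₀` different from them the symmetric sum of
the products of the differences is zero. Proof: a function `φ` with simple poles at some of the `c j`
and `φ(b₀) = 1`, the points `S j` of the divisor `c 1 + .. + c n + (1 + t φ)` over `Om k`
(`exists_points`); for `t → 0` they tend to the `c j`, for `t → -1` one of them tends to `b₀`. -/
theorem sym_zero (hX : Hom X) (hL : IsCurve k L) {d : GD (regU U) m} (hd : d.Ok X)
    (ha : d.α = algebraMap k (regU U) a) (hb : d.B = algebraMap k (regU U) b) {g : ℕ}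
    (hg : Riemann hL g) (hn : 1 + g ≤ n) (c : Fin n → U) (hc : Function.Injective c) (b₀ : U)
    (hb₀ : ∀ j, c j ≠ b₀) (e : Fin n → (Ec a b).Point) :
    ∑ π : Equiv.Perm (Fin n), Ext hX n (fun j => (Tc hX hL hd ha hb (c (π j)) -
      Tc hX hL hd ha hb b₀) (e j)) = 0 := by
  obtain ⟨φ, hφ, hreg, hpole, hφ1⟩ := isoc_phi hg hn c hc b₀ hb₀
  obtain ⟨S, j₀, -, h2, h3⟩ := exists_points hL c hc hφ hreg hpole ∅
    (fun j => Finset.notMem_empty _) (τ := tt k) Pool.Agent.VFP.tt_transc
  choose z hz using fun (i j : Fin n) => exists_cycS hX hL hd ha hb (S i) (e j)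
  choose z₀ hz₀ using fun j => exists_constCyc hX (Tc hX hL hd ha hb b₀ (e j))
  have hlim : ∀ v : Place k (Om k), lim hX v (∑ π : Equiv.Perm (Fin n),
      ext (fun j => z (π j) j - z₀ j)) = ∑ π : Equiv.Perm (Fin n), Ext hX n (fun j =>
        (TS hX hL hd ha hb (S (π j)) v - Tc hX hL hd ha hb b₀) (e j)) := by
    intro v
    rw [map_sum]
    refine Finset.sum_congr rfl fun π _ => ?_
    rw [lim_ext]
    congr 1
    funext j
    rw [map_sub, hz, hz₀]
    rfl
  refine bridge hX (∑ π : Equiv.Perm (Fin n), ext (fun j => z (π j) j - z₀ j)) (c₀ := 0)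
    (c₁ := -1) ?_ ?_
  · intro v hv
    obtain ⟨ρ, hρ⟩ := h2 v hv
    rw [hlim]
    have h4 : ∀ j, TS hX hL hd ha hb (S j) v = Tc hX hL hd ha hb (c (ρ j)) := fun j =>
      TS_eq hX hL hd ha hb (hρ j)
    simp only [h4]
    refine Fintype.sum_equiv (Equiv.mulLeft ρ) _ _ fun π => ?_
    rfl
  · intro v hv
    rw [hlim]
    have h4 : v.At (-(tt k)⁻¹) 1 := by
      have h5 := (hv.inv (neg_ne_zero.2 one_ne_zero)).neg
      convert h5 using 1
      norm_num
    obtain ⟨i, hi⟩ := h3 v 1 b₀.1 h4 hφ1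
    refine Finset.sum_eq_zero fun π _ => ?_
    refine (Ext hX n).map_coord_zero (π⁻¹ i) ?_
    have h5 : π (π⁻¹ i) = i := by simp
    rw [h5, TS_eq hX hL hd ha hb hi, sub_self]
    rfl

/-- The alternating sum for different places. -/
theorem alt_zero_iso (hX : Hom X) (hL : IsCurve k L) {d : GD (regU U) m} (hd : d.Ok X)
    (ha : d.α = algebraMap k (regU U) a) (hb : d.B = algebraMap k (regU U) b) {g : ℕ}
    (hg : Riemann hL g) (hn : 1 + g ≤ n) (c : Fin n → U) (hc : Function.Injective c) (b₀ : U)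
    (hb₀ : ∀ j, c j ≠ b₀) (e : Fin n → (Ec a b).Point) :
    Alt (Ext hX n) (fun j => (Tc hX hL hd ha hb (c j) - Tc hX hL hd ha hb b₀) (e j)) = 0 := by
  rw [Alt_HG hX (F := fun j => Tc hX hL hd ha hb (c j) - Tc hX hL hd ha hb b₀)
    (fun j => AddSubgroup.sub_mem _ (Tc_mem hX hL hd ha hb _) (Tc_mem hX hL hd ha hb _))]
  exact sym_zero hX hL hd ha hb hg hn c hc b₀ hb₀ e

end Pool.Agent.GT
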