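import Pool.Agent.GT.IsoC
import Pool.Agent.GT.MovA

/-!
# Constant elliptic curves: all places
-/

set_option autoImplicit false

noncomputable section

namespace Pool.Agent.GT

open Pool.Agent.ZCyc Pool.Agent.Dess Polynomial
open Pool.Agent.VFP (Om tt)
open scoped Classical LinearAlgebra.Projectivization

open Pool.Agent.TInc

variable {k L : Type} [Field k] [IsAlgClosed k] [CharZero k] [Field L] [Algebra k L] {m : ℕ}
  {X : Set (MvPolynomial (Fin (m + 1)) k)} {U : Set (Place k L)} {n : ℕ} {a b : k}

/-- All limits. -/
theorem alt_iso_all (hX : Hom X) (hL : IsCurve k L) {d : GD (regU U) m} (hd : d.Ok X)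
    (ha : d.α = algebraMap k (regU U) a) (hb : d.B = algebraMap k (regU U) b) {g : ℕ}
    (hg : Riemann hL g) (hn : 1 + g ≤ n)
    (F : Finset L) (hU : ∀ c : Place k L, (∀ f ∈ F, f ∈ c.ring) → c ∈ U) (b₀ : U)
    (w : Fin n → CH X Unit) (hw : ∀ j, ∃ (σ : L →ₐ[k] Om k) (v : Place k (Om k))
      (p : (Ec a b).Point), w j =
        (TS hX hL hd ha hb (Sum.inl σ) v - Tc hX hL hd ha hb b₀) p) :
    Alt (Ext hX n) w = 0 := by
  obtain ⟨t, ht, -⟩ := id hL
  have htc : ∀ a : k, t ≠ algebraMap k L a := by
    rintro a rfl
    exact ht (isAlgebraic_algebraMap a)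
  have key : ∀ (r : ℕ) (A : Finset (Fin n)), (Finset.univ \ A).card = r →
      ∀ q : Fin n → U, (∀ j ∈ A, ∀ j' ∈ A, j ≠ j' → q j ≠ q j') → (∀ j ∈ A, q j ≠ b₀) →
      ∀ w : Fin n → CH X Unit,
      (∀ j ∈ A, ∃ p : (Ec a b).Point, w j =
        (Tc hX hL hd ha hb (q j) - Tc hX hL hd ha hb b₀) p) →
      (∀ j, j ∉ A → ∃ (σ : L →ₐ[k] Om k) (v : Place k (Om k)) (p : (Ec a b).Point),
          w j = (TS hX hL hd ha hb (Sum.inl σ) v - Tc hX hL hd ha hb b₀) p) →
      Alt (Ext hX n) w = 0 := by
    intro r
    induction r with
    | zero =>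
      intro A hA q hq hq0 w hw _
      have hA' : ∀ j, j ∈ A := by
        intro j
        by_contra hj
        rw [Finset.card_eq_zero] at hA
        have h1 : j ∈ Finset.univ \ A := Finset.mem_sdiff.2 ⟨Finset.mem_univ _, hj⟩
        rw [hA] at h1
        exact absurd h1 (Finset.notMem_empty _)
      choose p hp using fun j => hw j (hA' j)
      have h1 := alt_zero_iso hX hL hd ha hb hg hn q (fun j j' hjj => by
        by_contra hne
        exact hq j (hA' j) j' (hA' j') hne hjj) b₀ (fun j => hq0 j (hA' j)) p
      rw [← h1]
      congr 1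
      funext j
      exact hp j
    | succ r ih =>
      intro A hA q hq hq0 w hw hw'
      obtain ⟨j₀, hj₀⟩ : (Finset.univ \ A).Nonempty := by
        rw [← Finset.card_pos, hA]
        exact Nat.succ_pos r
      have hj₀A : j₀ ∉ A := (Finset.mem_sdiff.1 hj₀).2
      obtain ⟨σ, v, p, hp⟩ := hw' j₀ hj₀A
      obtain ⟨z, hz⟩ := exists_cycS hX hL hd ha hb (Sum.inl σ) p
      obtain ⟨z₀, hz₀⟩ := exists_constCyc hX (Tc hX hL hd ha hb b₀ p)
      have hZ : ∀ v', lim1 hX v' (z - z₀) =
          (TS hX hL hd ha hb (Sum.inl σ) v' - Tc hX hL hd ha hb b₀) p := by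
        intro v'
        rw [map_sub, hz, hz₀]
        rfl
      obtain ⟨Γ, hΓ, hall⟩ := almost_all hL F hU σ
        (A.image (fun j => (q j).1) ∪ {b₀.1}) htc ∅
      have e1 : w = Function.update w j₀ (lim1 hX v (z - z₀)) := by
        rw [hZ, ← hp, Function.update_eq_self]
      rw [e1]
      refine alt_moving hX w j₀ (z - z₀) Γ hΓ (fun v' hv' => ?_) v
      obtain ⟨c, hc, hcU, hcT, -⟩ := hall v' hv'
      have hover : Over v' (Sum.inl σ : (L →ₐ[k] Om k) ⊕ U) (⟨c, hcU⟩ : U).1 := hc
      have hcA : ∀ j ∈ A, q j ≠ ⟨c, hcU⟩ := by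
        intro j hj h
        apply hcT
        rw [Finset.mem_union]
        left
        rw [Finset.mem_image]
        exact ⟨j, hj, congrArg Subtype.val h⟩
      have hcb : (⟨c, hcU⟩ : U) ≠ b₀ := by
        intro h
        apply hcT
        rw [Finset.mem_union]
        right
        rw [Finset.mem_singleton]
        exact congrArg Subtype.val h
      refine ih (insert j₀ A) ?_ (Function.update q j₀ ⟨c, hcU⟩) ?_ ?_ _ ?_ ?_
      · have h1 : Finset.univ \ insert j₀ A = (Finset.univ \ A).erase j₀ := by
          ext x
          simp only [Finset.mem_sdiff, Finset.mem_univ, true_and, Finset.mem_insert, not_or,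
            Finset.mem_erase]
        rw [h1, Finset.card_erase_of_mem hj₀, hA, Nat.add_sub_cancel]
      · intro j hj j' hj' hne
        rcases Finset.mem_insert.1 hj with h1 | h1
        · rcases Finset.mem_insert.1 hj' with h2 | h2
          · exact absurd (h1.trans h2.symm) hne
          · have h3 : j' ≠ j₀ := fun h => hj₀A (h ▸ h2)
            rw [h1, Function.update_self, Function.update_of_ne h3]
            exact (hcA j' h2).symm
        · have h4 : j ≠ j₀ := fun h => hj₀A (h ▸ h1)
          rcases Finset.mem_insert.1 hj' with h2 | h2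
          · rw [h2, Function.update_self, Function.update_of_ne h4]
            exact hcA j h1
          · have h3 : j' ≠ j₀ := fun h => hj₀A (h ▸ h2)
            rw [Function.update_of_ne h4, Function.update_of_ne h3]
            exact hq j h1 j' h2 hne
      · intro j hj
        rcases Finset.mem_insert.1 hj with h1 | h1
        · rw [h1, Function.update_self]
          exact hcb
        · have h4 : j ≠ j₀ := fun h => hj₀A (h ▸ h1)
          rw [Function.update_of_ne h4]
          exact hq0 j h1
      · intro j hj
        rcases Finset.mem_insert.1 hj with h1 | h1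
        · subst h1
          rw [Function.update_self, Function.update_self, hZ, TS_eq hX hL hd ha hb hover]
          exact ⟨p, rfl⟩
        · have h2 : j ≠ j₀ := fun h => hj₀A (h ▸ h1)
          rw [Function.update_of_ne h2, Function.update_of_ne h2]
          exact hw j h1
      · intro j hj
        have h2 : j ≠ j₀ := fun h => hj (Finset.mem_insert.2 (Or.inl h))
        rw [Function.update_of_ne h2]
        exact hw' j fun h => hj (Finset.mem_insert.2 (Or.inr h))
  exact key (Finset.univ \ (∅ : Finset (Fin n))).card ∅ rfl (fun _ => b₀)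
    (fun j hj => absurd hj (Finset.notMem_empty j)) (fun j hj => absurd hj (Finset.notMem_empty j))
    w (fun j hj => absurd hj (Finset.notMem_empty j)) (fun j _ => hw j)

/-- A multilinear map which vanishes on generators vanishes on their span. -/
theorem alt_span {V W : Type} [AddCommGroup V] [Module ℚ V] [AddCommGroup W] [Module ℚ W]
    (E : MultilinearMap ℚ (fun _ : Fin n => V) W) (S : Set V)
    (h : ∀ z : Fin n → V, (∀ j, z j ∈ S) → E z = 0) :
    ∀ z : Fin n → V, (∀ j, z j ∈ Submodule.span ℚ S) → E z = 0 := by
  have main : ∀ (T : Finset (Fin n)) (z : Fin n → V), (∀ j ∈ T, z j ∈ Submodule.span ℚ S) →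
      (∀ j ∉ T, z j ∈ S) → E z = 0 := by
    intro T
    induction T using Finset.induction_on with
    | empty => exact fun z _ hz => h z fun j => hz j (Finset.notMem_empty j)
    | insert a T ha ih =>
      intro z hz hz'
      have key : ∀ u ∈ Submodule.span ℚ S, E (Function.update z a u) = 0 := by
        intro u hu
        induction hu using Submodule.span_induction with
        | mem u hu =>
          refine ih _ (fun j hj => ?_) (fun j hj => ?_)
          · have hja : j ≠ a := fun h0 => ha (h0 ▸ hj)
            rw [Function.update_of_ne hja]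
            exact hz j (Finset.mem_insert_of_mem hj)
          · by_cases hja : j = a
            · subst hja
              rw [Function.update_self]
              exact hu
            · rw [Function.update_of_ne hja]
              exact hz' j fun h0 => (Finset.mem_insert.1 h0).elim hja hj
        | zero => exact E.map_update_zero _ _
        | add u w _ _ hu hw => rw [E.map_update_add, hu, hw, add_zero]
        | smul c u _ hu => rw [E.map_update_smul, hu, smul_zero]
      have h1 := key (z a) (hz a (Finset.mem_insert_self a T))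
      rwa [Function.update_eq_self] at h1
  intro z hz
  exact main Finset.univ z (fun j _ => hz j) (fun j hj => absurd (Finset.mem_univ j) hj)

end Pool.Agent.GT
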