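import Pool.Agent.GT.RedB

/-!
# The nodal cubic and its parametrisation
-/

set_option autoImplicit false

noncomputable section

namespace Pool.Agent.GT

open Pool.Agent.ZCyc Pool.Agent.Dess Polynomial
open Pool.Agent.VFP (Om tt)
open scoped Classical LinearAlgebra.Projectivization

variable {k : Type} [Field k] [IsAlgClosed k] [CharZero k] {m : ℕ}

/-- `X ³ - 3 a X + b = (X - e) ² (X + 2 e)` for `e ² = a`, `b = 2 e ³`. The nonsingular points are
`(s ² - 2 e, s (s ² - 3 e))` with `s ² ≠ 3 e`. -/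
def ndx {K : Type} [Field K] (e s : K) : K := s ^ 2 - 2 * e

/-- the second coordinate -/
def ndy {K : Type} [Field K] (e s : K) : K := s * (s ^ 2 - 3 * e)

theorem nd_eqn {K : Type} [Field K] (e s : K) :
    ndy e s ^ 2 = ndx e s ^ 3 - 3 * e ^ 2 * ndx e s + 2 * e ^ 3 := by
  unfold ndx ndy
  ring

/-- every point with `x ≠ e` has a parameter: `s = y / (x - e)` -/
theorem exists_nd {K : Type} [Field K] [CharZero K] {e x y : K}
    (h : y ^ 2 = x ^ 3 - 3 * e ^ 2 * x + 2 * e ^ 3) (hx : x ≠ e) :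
    ∃ s : K, x = ndx e s ∧ y = ndy e s ∧ s ^ 2 ≠ 3 * e := by
  have h1 : x - e ≠ 0 := sub_ne_zero.2 hx
  have h2 : (y / (x - e)) ^ 2 = x + 2 * e := by
    rw [div_pow, div_eq_iff (pow_ne_zero 2 h1), h]
    ring
  refine ⟨y / (x - e), ?_, ?_, ?_⟩
  · unfold ndx
    rw [h2]
    ring
  · unfold ndy
    rw [h2, show x + 2 * e - 3 * e = x - e by ring, div_mul_cancel₀ _ h1]
  · rw [h2]
    intro h3
    apply h1
    linear_combination h3

/-- the sum of two points: `s₃ = (s₁ s₂ + 3 e) / (s₁ + s₂)` (`λ = s₁ + s₂ - s₃`) -/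
theorem nd_add {K : Type} [Field K] [CharZero K] {e s₁ s₂ : K} (h : s₁ + s₂ ≠ 0)
    (h' : s₁ ≠ s₂) :
    ((ndy e s₁ - ndy e s₂) / (ndx e s₁ - ndx e s₂)) ^ 2 - ndx e s₁ - ndx e s₂ =
        ndx e ((s₁ * s₂ + 3 * e) / (s₁ + s₂)) ∧
      -(ndy e s₁ + (ndy e s₁ - ndy e s₂) / (ndx e s₁ - ndx e s₂) *
        (((ndy e s₁ - ndy e s₂) / (ndx e s₁ - ndx e s₂)) ^ 2 - ndx e s₁ - ndx e s₂ -
          ndx e s₁)) = ndy e ((s₁ * s₂ + 3 * e) / (s₁ + s₂)) := by
  have h1 : s₁ - s₂ ≠ 0 := sub_ne_zero.2 h'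
  have h2 : (ndy e s₁ - ndy e s₂) / (ndx e s₁ - ndx e s₂) =
      s₁ + s₂ - (s₁ * s₂ + 3 * e) / (s₁ + s₂) := by
    have h3 : ndx e s₁ - ndx e s₂ = (s₁ + s₂) * (s₁ - s₂) := by unfold ndx; ring
    have h4 : ndy e s₁ - ndy e s₂ = (s₁ - s₂) * (s₁ ^ 2 + s₁ * s₂ + s₂ ^ 2 - 3 * e) := by
      unfold ndy; ring
    rw [h3, h4]
    field_simp
    ring
  rw [h2]
  set r := (s₁ * s₂ + 3 * e) / (s₁ + s₂) with hr
  have h5 : r * (s₁ + s₂) = s₁ * s₂ + 3 * e := div_mul_cancel₀ _ h
  have h6 : (s₁ + s₂ - r) ^ 2 - ndx e s₁ - ndx e s₂ = ndx e r := by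
    unfold ndx
    linear_combination -2 * h5
  refine ⟨h6, ?_⟩
  rw [h6]
  unfold ndy ndx
  linear_combination -(r + s₁) * h5

/-- The coordinates `N.co (ndx e s) (ndy e s)` as polynomials in `s`. They are not all zero if `N` is
not zero: `G (s ² - 2 e) + H (s ² - 2 e) s (s ² - 3 e)` is the sum of an even and an odd
polynomial. -/
theorem nd_co_ne (N : Mp k m) (hN : ∃ i, N.G i ≠ 0 ∨ N.H i ≠ 0) (e : k) :
    {s : k | N.co (ndx e s) (ndy e s) = 0}.Finite := by
  obtain ⟨i, hi⟩ := hN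
  set P : k[X] := (N.G i).comp (X ^ 2 - C (2 * e)) +
    (N.H i).comp (X ^ 2 - C (2 * e)) * (X * (X ^ 2 - C (3 * e))) with hP
  have hev : ∀ s : k, P.eval s = N.co (ndx e s) (ndy e s) i := by
    intro s
    simp only [hP, Mp.co, ndx, ndy, eval_add, eval_mul, eval_comp, eval_sub, eval_pow, eval_X,
      eval_C]
  have hP0 : P ≠ 0 := by
    intro h0
    have h1 : ∀ s : k, N.co (ndx e s) (ndy e s) i = 0 := by
      intro s
      rw [← hev, h0, eval_zero]
    have h2 : ∀ s : k, (N.G i).eval (ndx e s) = 0 ∧ (N.H i).eval (ndx e s) * ndy e s = 0 := by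
      intro s
      have h3 := h1 s
      have h4 := h1 (-s)
      have e1 : ndx e (-s) = ndx e s := by unfold ndx; ring
      have e2 : ndy e (-s) = -ndy e s := by unfold ndy; ring
      rw [e1, e2] at h4
      unfold Mp.co at h3 h4
      constructor
      · have h5 : (2 : k) * (N.G i).eval (ndx e s) = 0 := by linear_combination h3 + h4
        exact (mul_eq_zero.1 h5).resolve_left two_ne_zero
      · have h5 : (2 : k) * ((N.H i).eval (ndx e s) * ndy e s) = 0 := by
          linear_combination h3 - h4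
        exact (mul_eq_zero.1 h5).resolve_left two_ne_zero
    have hx : ∀ x : k, ∃ s : k, s ^ 2 = x + 2 * e := fun x =>
      IsAlgClosed.exists_pow_nat_eq (x + 2 * e) two_pos
    have hG : N.G i = 0 := by
      apply Polynomial.funext
      intro x
      obtain ⟨s, hs⟩ := hx x
      have h3 := (h2 s).1
      rw [show ndx e s = x by unfold ndx; rw [hs]; ring] at h3
      rw [h3, eval_zero]
    have hH : N.H i * ((X + C (2 * e)) * (X - C e)) = 0 := by
      apply Polynomial.funext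
      intro x
      obtain ⟨s, hs⟩ := hx x
      have h3 := (h2 s).2
      rw [show ndx e s = x by unfold ndx; rw [hs]; ring] at h3
      simp only [eval_mul, eval_add, eval_sub, eval_X, eval_C, eval_zero]
      have h4 : s * ndy e s = (x + 2 * e) * (x - e) := by
        unfold ndy
        linear_combination (s ^ 2 + x + 2 * e - 3 * e) * hs
      rw [← h4]
      linear_combination s * h3
    rcases mul_eq_zero.1 hH with h3 | h3
    · rcases hi with h4 | h4
      · exact h4 hG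
      · exact h4 h3
    · rcases mul_eq_zero.1 h3 with h4 | h4
      · exact X_add_C_ne_zero _ h4
      · exact X_sub_C_ne_zero _ h4
  refine (Polynomial.finite_setOfPred_isRoot hP0).subset ?_
  intro s hs
  change P.eval s = 0
  rw [hev, show N.co (ndx e s) (ndy e s) = 0 from hs]
  rfl

/-- At the place `v` the point tends to a nonsingular point of the nodal cubic (or to infinity). -/
def NonNode (v : Place k (Om k)) {α B : Om k} (e : k) : (Ec α B).Point → Prop
  | .zero => True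
  | .some x y _ => x ∉ v.ring ∨ ∃ x' y' : k, v.At x x' ∧ v.At y y' ∧ x' ≠ e

/-- lifting of the points of the nodal cubic: `x = ndx e s` constant, `y` a square root with the
value `ndy e s` -/
theorem exists_nd_lift {v : Place k (Om k)} {α B : Om k} {e : k} (hα : v.At α (e ^ 2))
    (hB : v.At B (2 * e ^ 3)) (hd : B ^ 2 ≠ 4 * α ^ 3) (s : k) :
    ∃ (x y : Om k) (h : (Ec α B).Nonsingular x y), v.At x (ndx e s) ∧ v.At y (ndy e s) := by
  set x : Om k := algebraMap k (Om k) (ndx e s) with hx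
  have hxv : v.At x (ndx e s) := Place.at_const _
  obtain ⟨y, hy⟩ := IsAlgClosed.exists_pow_nat_eq (x ^ 3 - 3 * α * x + B) two_pos
  have h3 : v.At (3 : Om k) (3 : k) := by
    have := Place.at_const (v := v) (3 : k)
    rwa [map_ofNat] at this
  have hc : v.At (x ^ 3 - 3 * α * x + B) (ndx e s ^ 3 - 3 * e ^ 2 * ndx e s + 2 * e ^ 3) :=
    ((hxv.pow 3).sub ((h3.mul hα).mul hxv)).add hB
  obtain ⟨r, hr, hr2⟩ := Pool.Agent.TInf.exists_at_sqrt v hy hc
  rw [← nd_eqn] at hr2
  rcases sq_eq_sq_iff_eq_or_eq_neg.1 hr2 with h | h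
  · exact ⟨x, y, nonsing hd hy, hxv, h ▸ hr⟩
  · refine ⟨x, -y, nonsing hd (by rw [neg_sq]; exact hy), hxv, ?_⟩
    have := hr.neg
    rw [h, neg_neg] at this
    exact this

end Pool.Agent.GT
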