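import Pool.Agent.GT.NodA
import Pool.Agent.GT.HomV

/-!
# The class of the limit is constant on the nonsingular points of the nodal cubic
-/

set_option autoImplicit false

noncomputable section

namespace Pool.Agent.GT

open Pool.Agent.ZCyc Pool.Agent.Dess Polynomial
open Pool.Agent.VFP (Om tt)
open scoped Classical LinearAlgebra.Projectivization

variable {k : Type} [Field k] [IsAlgClosed k] [CharZero k] {m : ℕ}
  {X : Set (MvPolynomial (Fin (m + 1)) k)} {α B : Om k} {M : Mp (Om k) m} {N : Mp k m}
  {v : Place k (Om k)} {e : k}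

omit [IsAlgClosed k] [CharZero k] in
private theorem nodB_mv {v : Place k (Om k)} {ι : Type} {u : ι → Om k} {c : ι → k}
    (h : ∀ i, v.At (u i) (c i)) (f : MvPolynomial ι k) :
    v.At (MvPolynomial.aeval u f) (MvPolynomial.aeval c f) := by
  induction f using MvPolynomial.induction_on with
  | C a =>
    rw [MvPolynomial.aeval_C, MvPolynomial.aeval_C]
    exact Place.at_const a
  | add p q hp hq =>
    rw [map_add, map_add]
    exact hp.add hq
  | mul_X p i hp =>
    rw [map_mul, map_mul, MvPolynomial.aeval_X, MvPolynomial.aeval_X]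
    exact hp.mul (h i)

omit [IsAlgClosed k] [CharZero k] in
private theorem nodB_zero {v : Place k (Om k)} {c : k} (h : v.At (0 : Om k) c) : c = 0 := by
  have h1 : v.At (0 : Om k) 0 := by simpa using Place.at_const (v := v) (0 : k)
  exact h.unique h1

/-- the coordinates of the image of the point with the parameter `s`, as polynomials in `s` -/
private def nodB_c (N : Mp k m) (e : k) (i : Fin (m + 1)) : k[X] :=
  (N.G i).comp (Polynomial.X ^ 2 - Polynomial.C (2 * e)) +
    (N.H i).comp (Polynomial.X ^ 2 - Polynomial.C (2 * e)) *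
      (Polynomial.X * (Polynomial.X ^ 2 - Polynomial.C (3 * e)))

omit [IsAlgClosed k] [CharZero k] in
private theorem nodB_aeval {K : Type} [Field K] [Algebra k K] (N : Mp k m) (e : k) (s : K)
    (i : Fin (m + 1)) : Polynomial.aeval s (nodB_c N e i) =
      (N.map (algebraMap k K)).co (ndx (algebraMap k K e) s) (ndy (algebraMap k K e) s) i := by
  unfold nodB_c Mp.co Mp.map ndx ndy
  simp only [map_add, map_mul, Polynomial.aeval_comp, map_sub, map_pow, Polynomial.aeval_X,
    Polynomial.aeval_C, Polynomial.eval_map_algebraMap, map_ofNat]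

omit [IsAlgClosed k] [CharZero k] in
private theorem nodB_eval (N : Mp k m) (e s : k) (i : Fin (m + 1)) :
    (nodB_c N e i).eval s = N.co (ndx e s) (ndy e s) i := by
  unfold nodB_c Mp.co ndx ndy
  simp only [Polynomial.eval_add, Polynomial.eval_mul, Polynomial.eval_comp, Polynomial.eval_sub,
    Polynomial.eval_pow, Polynomial.eval_X, Polynomial.eval_C]

/-- the equations at the parameters in `k` -/
private theorem nodB_onX_k (hM : M.Ok α B X) (hα : v.At α (e ^ 2)) (hB : v.At B (2 * e ^ 3))
    (h : MRed v M N) {f : MvPolynomial (Fin (m + 1)) k} (hf : f ∈ X) (s : k) :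
    MvPolynomial.aeval (N.co (ndx e s) (ndy e s)) f = 0 := by
  obtain ⟨x, y, hxy, hx, hy⟩ := exists_nd_lift hα hB hM.disc s
  have h1 := nodB_mv (fun i => co_at h hx hy i) f
  have h2 : MvPolynomial.aeval (M.co x y) f = 0 := hM.onX f hf x y (eqn_iff.1 hxy.1)
  rw [h2] at h1
  exact nodB_zero h1

/-- the equations of the variety hold for `N.co (ndx e s) (ndy e s)`, for all `s` in `Om k`: for
`s` in `k` lift the point (`exists_nd_lift`) and use `hM.onX` and `co_at`; then the polynomial in
`s` is zero. -/
theorem nd_onX (hM : M.Ok α B X) (hα : v.At α (e ^ 2)) (hB : v.At B (2 * e ^ 3))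
    (h : MRed v M N) {f : MvPolynomial (Fin (m + 1)) k} (hf : f ∈ X) (s : Om k) :
    MvPolynomial.aeval ((N.map (algebraMap k (Om k))).co (ndx (algebraMap k (Om k) e) s)
      (ndy (algebraMap k (Om k) e) s)) f = 0 := by
  have h1 : MvPolynomial.aeval (nodB_c N e) f = 0 := by
    refine Polynomial.funext fun a => ?_
    have h2 : (MvPolynomial.aeval (nodB_c N e) f).eval a =
        MvPolynomial.aeval (N.co (ndx e a) (ndy e a)) f := by
      have h3 := DFunLike.congr_fun (MvPolynomial.comp_aeval (nodB_c N e)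
        (Polynomial.aeval a : k[X] →ₐ[k] k)) f
      rw [AlgHom.comp_apply, Polynomial.coe_aeval_eq_eval] at h3
      change (MvPolynomial.aeval (nodB_c N e) f).eval a = _ at h3
      rw [h3]
      congr 2
      funext i
      exact nodB_eval N e a i
    rw [h2, nodB_onX_k hM hα hB h hf a, Polynomial.eval_zero]
  have h3 := DFunLike.congr_fun (MvPolynomial.comp_aeval (nodB_c N e)
    (Polynomial.aeval s : k[X] →ₐ[k] Om k)) f
  rw [AlgHom.comp_apply, h1, map_zero] at h3
  rw [h3]
  congr 2
  funext i
  exact (nodB_aeval N e s i).symm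

/-- the limit of a point -/
private theorem nodB_lmp (hX : Hom X) (hM : M.Ok α B X) (hα : v.At α (e ^ 2))
    (hB : v.At B (2 * e ^ 3)) (h : MRed v M N) {x y : Om k} {s : k}
    {hP : (Ec α B).Nonsingular x y} (hx : v.At x (ndx e s)) (hy : v.At y (ndy e s))
    (hs : N.co (ndx e s) (ndy e s) ≠ 0) :
    M.Ns (WeierstrassCurve.Affine.Point.some x y hP) ∧
      lmp hX hM v (WeierstrassCurve.Affine.Point.some x y hP) =
        Submodule.Quotient.mk (Finsupp.single (fun _ : Unit =>
          mkPt hX (N.co (ndx e s) (ndy e s)) hs fun _ hf => nodB_onX_k hM hα hB h hf s) 1) := by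
  have h2 : ∀ i, v.At (M.co x y i) (N.co (ndx e s) (ndy e s) i) := fun i => co_at h hx hy i
  have hM' : M.Ns (.some x y hP : (Ec α B).Point) := by
    change M.co x y ≠ 0
    intro h3
    refine hs (funext fun i => ?_)
    have h4 := h2 i
    rw [h3] at h4
    exact nodB_zero h4
  refine ⟨hM', ?_⟩
  have h5 : pv hX v (phi hX hM (.some x y hP) hM') =
      mkPt hX (N.co (ndx e s) (ndy e s)) hs fun _ hf => nodB_onX_k hM hα hB h hf s := by
    refine pv_eq ?_
    exact isVal_mkPt (hX := hX) (h := fun f hf => hM.onX f hf x y (eqn_iff.1 hP.1))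
      (h' := fun _ hf => nodB_onX_k hM hα hB h hf s) (l := 1) fun i => by
        rw [one_mul]
        exact h2 i
  have h6 : cyc hX hM (.some x y hP) =
      Finsupp.single (phi hX hM (.some x y hP) hM') 1 := dif_pos hM'
  change lim1 hX v _ = _
  rw [h6]
  change Submodule.Quotient.mk (Finsupp.mapDomain _ (Finsupp.mapDomain _ _)) = _
  rw [Finsupp.mapDomain_single, Finsupp.mapDomain_single]
  change Submodule.Quotient.mk (Finsupp.single
    (fun _ : Unit => pv hX v (phi hX hM (.some x y hP) hM')) 1) = _
  rw [h5]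

/-- Points which tend to nonsingular points of the nodal cubic where the reduction `N` of the map is
defined have the same limit class. Proof: the limits are the points with the coordinates
`N.co (ndx e s) (ndy e s)`, with parameters `s`, `s'`. If `s ≠ s'` use `bridge` for the point over
`Om k` with the parameter `s + (s' - s) t` (`nd_onX`). -/
theorem nod_const (hX : Hom X) (hM : M.Ok α B X) (hα : v.At α (e ^ 2))
    (hB : v.At B (2 * e ^ 3)) (h : MRed v M N) {x y x₁ y₁ : Om k} {s s₁ : k}
    {hP : (Ec α B).Nonsingular x y} {hQ : (Ec α B).Nonsingular x₁ y₁} (hx : v.At x (ndx e s))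
    (hy : v.At y (ndy e s)) (hx₁ : v.At x₁ (ndx e s₁)) (hy₁ : v.At y₁ (ndy e s₁))
    (hs : N.co (ndx e s) (ndy e s) ≠ 0) (hs₁ : N.co (ndx e s₁) (ndy e s₁) ≠ 0) :
    M.Ns (WeierstrassCurve.Affine.Point.some x y hP) ∧
      M.Ns (WeierstrassCurve.Affine.Point.some x₁ y₁ hQ) ∧
      lmp hX hM v (WeierstrassCurve.Affine.Point.some x y hP) =
        lmp hX hM v (WeierstrassCurve.Affine.Point.some x₁ y₁ hQ) := by
  obtain ⟨g1, g2⟩ := nodB_lmp hX hM hα hB h (hP := hP) hx hy hs
  obtain ⟨g3, g4⟩ := nodB_lmp hX hM hα hB h (hP := hQ) hx₁ hy₁ hs₁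
  refine ⟨g1, g3, ?_⟩
  rw [g2, g4]
  by_cases hss : s = s₁
  · subst hss
    rfl
  -- the point with the parameter `s + (s₁ - s) t`
  set S : Om k := algebraMap k (Om k) s + algebraMap k (Om k) (s₁ - s) * tt k with hSdef
  have hd : algebraMap k (Om k) (s₁ - s) ≠ 0 := by
    rw [Ne, map_eq_zero]
    exact sub_ne_zero.2 (Ne.symm hss)
  have hSt : Transcendental k S := by
    intro halg
    refine Pool.Agent.VFP.tt_transc (k := k) ?_
    have h1 : tt k = algebraMap k (Om k) (s₁ - s)⁻¹ * (S - algebraMap k (Om k) s) := by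
      rw [hSdef, add_sub_cancel_left, ← mul_assoc, ← map_mul,
        inv_mul_cancel₀ (sub_ne_zero.2 (Ne.symm hss)), map_one, one_mul]
    rw [h1]
    exact (isAlgebraic_algebraMap _).mul (halg.sub (isAlgebraic_algebraMap _))
  have hco : (N.map (algebraMap k (Om k))).co (ndx (algebraMap k (Om k) e) S)
      (ndy (algebraMap k (Om k) e) S) ≠ 0 := by
    intro h0
    obtain ⟨i, hi⟩ := Function.ne_iff.1 hs
    refine hi ?_
    rw [← nodB_eval N e s i]
    have h1 : Polynomial.aeval S (nodB_c N e i) = 0 := by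
      rw [nodB_aeval, h0]
      rfl
    rw [transcendental_iff.1 hSt _ h1, Polynomial.eval_zero]
    rfl
  have key : ∀ (w : Place k (Om k)) (a r : k) (hr : N.co (ndx e r) (ndy e r) ≠ 0),
      w.At (tt k) a → s + (s₁ - s) * a = r →
      lim hX w (Finsupp.single (fun _ : Unit => mkPt hX _ hco fun _ hf =>
        nd_onX hM hα hB h hf S) (1 : ℚ)) =
      Submodule.Quotient.mk (Finsupp.single (fun _ : Unit =>
        mkPt hX (N.co (ndx e r) (ndy e r)) hr fun _ hf => nodB_onX_k hM hα hB h hf r) 1) := by
    intro w a r hr ha hra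
    rw [lim_single]
    have h5 : pv hX w (mkPt hX _ hco fun _ hf => nd_onX hM hα hB h hf S) =
        mkPt hX (N.co (ndx e r) (ndy e r)) hr fun _ hf => nodB_onX_k hM hα hB h hf r := by
      refine pv_eq ?_
      refine isVal_mkPt (hX := hX) (l := 1) fun i => ?_
      rw [one_mul, ← nodB_aeval, ← nodB_eval]
      refine Place.At.aeval ?_ _
      rw [← hra]
      exact (Place.at_const s).add ((Place.at_const (s₁ - s)).mul ha)
    rw [h5]
  exact bridge hX _ (c₀ := 0) (c₁ := 1) (fun w hw => key w 0 s hs hw (by ring))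
    (fun w hw => key w 1 s₁ hs₁ hw (by ring))

/-- The limit homomorphism is zero on the points which tend to nonsingular points. Proof: choose a
general parameter `r` in `k` and lift it to `R` (`exists_nd_lift`), such that `N.co` is not zero at
`r` and at the parameter of the limit of `P + R` (`nd_co_ne`): if `x(P)` is not in the ring then
`P + R` tends to the limit of `R` (`add_infinite`); otherwise `P` has a parameter `s`
(`exists_nd`), and `P + R` has the parameter `(s r + 3 e) / (s + r)` (`add_chord`, `nd_add`), which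
takes every value at most once since `s ² ≠ 3 e`. Now `hV P = lmp (P + R) - lmp R = 0`
(`hV_spec`, `nod_const`). -/
theorem nod_zero (hX : Hom X) (hM : M.Ok α B X) (he : e ≠ 0) (hα : v.At α (e ^ 2))
    (hB : v.At B (2 * e ^ 3)) (h : MRed v M N) (hN : ∃ i, N.G i ≠ 0 ∨ N.H i ≠ 0)
    {P : (Ec α B).Point} (hP : NonNode v e P) : hV hX hM v P = 0 := by
  have hfin := nd_co_ne N hN e
  have fin_good : ∀ (P R : (Ec α B).Point), M.Ns R → M.Ns (P + R) →
      lmp hX hM v (P + R) = lmp hX hM v R → hV hX hM v P = 0 := by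
    intro P R h1 h2 h3
    rw [← hV_spec hX hM v h1 h2, h3, sub_self]
  cases P with
  | zero =>
    change hV hX hM v 0 = 0
    exact map_zero _
  | some x y hxy =>
    have hP' : x ∉ v.ring ∨ ∃ x' y' : k, v.At x x' ∧ v.At y y' ∧ x' ≠ e := hP
    rcases hP' with hx | ⟨x', y', hx, hy, hne⟩
    · obtain ⟨r, hr⟩ := hfin.exists_notMem
      have hr' : N.co (ndx e r) (ndy e r) ≠ 0 := hr
      obtain ⟨xr, yr, hR, hxr, hyr⟩ := exists_nd_lift hα hB hM.disc r
      cases hsum : ((WeierstrassCurve.Affine.Point.some x y hxy : (Ec α B).Point) +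
          WeierstrassCurve.Affine.Point.some xr yr hR) with
      | zero =>
        exfalso
        have h1 : (WeierstrassCurve.Affine.Point.some x y hxy : (Ec α B).Point) =
            -WeierstrassCurve.Affine.Point.some xr yr hR := by
          rw [eq_neg_iff_add_eq_zero]
          exact hsum
        rw [WeierstrassCurve.Affine.Point.neg_some] at h1
        injection h1 with h2 h3
        rw [h2] at hx
        exact hx hxr.mem
      | some x₃ y₃ h₃ =>
        obtain ⟨h4, h5⟩ := add_infinite hα hB hx hxr hyr hsum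
        obtain ⟨g1, g2, g3⟩ := nod_const hX hM hα hB h (hP := h₃) (hQ := hR) h4 h5 hxr hyr hr' hr'
        refine fin_good _ _ g2 ?_ ?_
        · rw [hsum]
          exact g1
        · rw [hsum]
          exact g3
    · have heq : y' ^ 2 = x' ^ 3 - 3 * e ^ 2 * x' + 2 * e ^ 3 := by
        have h1 : y ^ 2 = x ^ 3 - 3 * α * x + B := eqn_iff.1 hxy.1
        have h2 : v.At (y ^ 2) (y' ^ 2) := hy.pow 2
        have h3' : v.At (3 : Om k) 3 := by
          have := Place.at_const (v := v) (3 : k)
          rwa [map_ofNat] at this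
        have h3 : v.At (x ^ 3 - 3 * α * x + B) (x' ^ 3 - 3 * e ^ 2 * x' + 2 * e ^ 3) :=
          ((hx.pow 3).sub ((h3'.mul hα).mul hx)).add hB
        rw [h1] at h2
        exact h2.unique h3
      obtain ⟨s, hsx, hsy, hs3⟩ := exists_nd heq hne
      have hfin1 : {r : k | s + r ≠ 0 ∧ N.co (ndx e ((s * r + 3 * e) / (s + r)))
          (ndy e ((s * r + 3 * e) / (s + r))) = 0}.Finite := by
        refine Set.Finite.of_injOn (f := fun r => (s * r + 3 * e) / (s + r)) ?_ ?_ hfin
        · intro r hr
          exact hr.2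
        · intro r hr r' hr' heq'
          have h1 : (s * r + 3 * e) / (s + r) = (s * r' + 3 * e) / (s + r') := heq'
          rw [div_eq_div_iff hr.1 hr'.1] at h1
          have h2 : (s ^ 2 - 3 * e) * (r - r') = 0 := by linear_combination h1
          rcases mul_eq_zero.1 h2 with h3 | h3
          · exact absurd (sub_eq_zero.1 h3) hs3
          · exact sub_eq_zero.1 h3
      obtain ⟨r, hr⟩ := (hfin.union ((Set.finite_singleton s).union
        ((Set.finite_singleton (-s)).union hfin1))).exists_notMem
      rw [Set.mem_union, Set.mem_union, Set.mem_union, Set.mem_singleton_iff,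
        Set.mem_singleton_iff] at hr
      push Not at hr
      obtain ⟨hr1, hr2, hr3, hr4⟩ := hr
      have hr1' : N.co (ndx e r) (ndy e r) ≠ 0 := hr1
      have hsr : s + r ≠ 0 := fun h0 => hr3 (eq_neg_of_add_eq_zero_right h0)
      have hr4' : N.co (ndx e ((s * r + 3 * e) / (s + r)))
          (ndy e ((s * r + 3 * e) / (s + r))) ≠ 0 := fun h0 => hr4 ⟨hsr, h0⟩
      obtain ⟨xr, yr, hR, hxr, hyr⟩ := exists_nd_lift hα hB hM.disc r
      rw [hsx] at hx
      rw [hsy] at hy
      have hxne : ndx e s ≠ ndx e r := by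
        intro h0
        unfold ndx at h0
        have h1 : (s + r) * (s - r) = 0 := by linear_combination h0
        rcases mul_eq_zero.1 h1 with h2 | h2
        · exact hsr h2
        · exact hr2 (sub_eq_zero.1 h2).symm
      obtain ⟨x₃, y₃, h₃, hsum, h4, h5⟩ := add_chord (α := α) (B := B) (h₁ := hxy) (h₂ := hR)
        hx hy hxr hyr hxne
      obtain ⟨e1, e2⟩ := nd_add (e := e) hsr (Ne.symm hr2)
      rw [e1] at h4
      rw [e2] at h5
      obtain ⟨g1, g2, g3⟩ := nod_const hX hM hα hB h (hP := h₃) (hQ := hR) h4 h5 hxr hyr hr4' hr1'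
      refine fin_good _ _ g2 ?_ ?_
      · rw [hsum]
        exact g1
      · rw [hsum]
        exact g3

end Pool.Agent.GT
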