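import Pool.Agent.GT.NodA

/-!
# Points near the node
-/

set_option autoImplicit false

noncomputable section

namespace Pool.Agent.GT

open Pool.Agent.ZCyc Pool.Agent.Dess Polynomial
open Pool.Agent.VFP (Om tt)
open scoped Classical LinearAlgebra.Projectivization

variable {k : Type} [Field k] [IsAlgClosed k] [CharZero k] {v : Place k (Om k)} {α B : Om k}
  {e : k}

/-- Two points near the node are in the same class: `d ² = α`, `ε = B - 2 d ³`, `ξ = x - d`. -/
def SameCl (v : Place k (Om k)) (d ε : Om k) (x y x₁ y₁ : Om k) : Prop :=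
  (v.ring.valuation ε < v.ring.valuation ((x - d) ^ 2) ∧
      v.ring.valuation (x - d) = v.ring.valuation (x₁ - d) ∧
      ∃ c : k, v.At (y / (x - d)) c ∧ v.At (y₁ / (x₁ - d)) c) ∨
    (v.ring.valuation ((x - d) ^ 2) ≤ v.ring.valuation ε ∧
      v.ring.valuation ((x₁ - d) ^ 2) ≤ v.ring.valuation ε)

private theorem nodC_unit {f : Om k} {c : k} (h : v.At f c) (hc : c ≠ 0) :
    v.ring.valuation f = 1 := by
  refine le_antisymm ((v.ring.valuation_le_one_iff f).2 h.mem) ?_
  by_contra hlt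
  rw [not_le] at hlt
  have h1 : v.At f 0 := Place.at_zero_iff.2 ((v.vanishes_iff f).2 hlt)
  exact hc (h.unique h1)

private theorem nodC_mem_of_sq {f : Om k} (h : f ^ 2 ∈ v.ring) : f ∈ v.ring := by
  rcases v.ring.mem_or_inv_mem f with h1 | h1
  · exact h1
  · by_cases hf : f = 0
    · rw [hf]
      exact v.ring.zero_mem
    · have h2 : f = f ^ 2 * f⁻¹ := by field_simp
      rw [h2]
      exact v.ring.mul_mem _ _ h h1

private theorem nodC_root {f : Om k} {ω : k} (h : v.At f (ω ^ 2)) :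
    ∃ w : Om k, w ^ 2 = f ∧ v.At w ω := by
  obtain ⟨w, hw⟩ := IsAlgClosed.exists_pow_nat_eq f (n := 2) two_pos
  have hm : w ∈ v.ring := nodC_mem_of_sq (by rw [hw]; exact h.mem)
  obtain ⟨c, hc⟩ := DCI57.exists_at v hm
  have h1 : c ^ 2 = ω ^ 2 := by
    have h2 := hc.pow 2
    rw [hw] at h2
    exact h2.unique h
  rcases sq_eq_sq_iff_eq_or_eq_neg.1 h1 with h2 | h2
  · exact ⟨w, hw, h2 ▸ hc⟩
  · refine ⟨-w, by rw [neg_sq, hw], ?_⟩
    have h3 := hc.neg
    rw [h2, neg_neg] at h3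
    exact h3

private theorem nodC_fin {ω : k} (hω : ω ^ 2 = 3 * e) (he : e ≠ 0) {κ u u₁ x x₁ y : Om k}
    (hκ : v.At κ ω) (hu : u ≠ 0) (huu : u ≠ u₁)
    (hval : v.ring.valuation u = v.ring.valuation u₁) (hx : v.At x e) (hx₁ : v.At x₁ e)
    (hy : v.At y 0) {l : Om k} (hl : l = κ * (u + u₁) / (u - u₁)) :
    l ^ 2 - x - x₁ ∉ v.ring ∨ ∃ x' y' : k, v.At (l ^ 2 - x - x₁) x' ∧
      v.At (-(l * ((l ^ 2 - x - x₁) - x) + y)) y' ∧ x' ≠ e := by
  have h3 : (3 : k) ≠ 0 := three_ne_zero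
  have hω0 : ω ≠ 0 := by
    rintro rfl
    rw [zero_pow two_ne_zero] at hω
    rcases mul_eq_zero.1 hω.symm with h | h
    · exact h3 h
    · exact he h
  have hVu : v.ring.valuation u ≠ 0 := (Valuation.ne_zero_iff _).2 hu
  set ρ : Om k := u₁ / u with hρ
  have hVρ : v.ring.valuation ρ = 1 := by
    rw [hρ, map_div₀, ← hval, div_self hVu]
  have hρm : ρ ∈ v.ring := (v.ring.valuation_le_one_iff ρ).1 hVρ.le
  obtain ⟨c, hc⟩ := DCI57.exists_at v hρm
  have hc0 : c ≠ 0 := by
    rintro rfl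
    have h1 := (v.vanishes_iff ρ).1 (Place.at_zero_iff.1 hc)
    rw [hVρ] at h1
    exact lt_irrefl _ h1
  have hone : v.At (1 : Om k) 1 := by
    have := Place.at_const (v := v) (1 : k)
    simpa using this
  have hρ1 : (1 : Om k) - ρ ≠ 0 := by
    intro h
    apply huu
    have h1 : ρ = 1 := (sub_eq_zero.1 h).symm
    rw [hρ, div_eq_one_iff_eq hu] at h1
    exact h1.symm
  have hu₁ : u₁ = ρ * u := by rw [hρ]; field_simp
  have hl2 : l = κ * (1 + ρ) / (1 - ρ) := by
    rw [hl, hu₁]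
    have h1 : u - ρ * u = (1 - ρ) * u := by ring
    have h2 : κ * (u + ρ * u) = κ * (1 + ρ) * u := by ring
    rw [h1, h2, mul_div_mul_right _ _ hu]
  by_cases hc1 : c = 1
  · left
    subst hc1
    have h1 : v.At (1 - ρ) 0 := by
      have := hone.sub hc
      rwa [sub_self] at this
    have h2 : v.At (κ * (1 + ρ)) (ω * (1 + 1)) := hκ.mul (hone.add hc)
    have h2' : ω * (1 + 1) ≠ 0 := mul_ne_zero hω0 (by norm_num)
    have h4 : v.At l⁻¹ 0 := by
      have h5 := h1.div h2 h2'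
      rw [zero_div] at h5
      rw [hl2, inv_div]
      exact h5
    have hκρ : κ * (1 + ρ) ≠ 0 := by
      intro h
      rw [h] at h2
      exact h2' (h2.unique (Place.at_zero_iff.2 v.vanishes_zero))
    have hl0 : l ≠ 0 := by
      rw [hl2]
      exact div_ne_zero hκρ hρ1
    intro hmem
    have h6 : l ^ 2 ∈ v.ring := by
      have h7 : l ^ 2 = (l ^ 2 - x - x₁) + (x + x₁) := by ring
      rw [h7]
      exact v.ring.add_mem _ _ hmem (v.ring.add_mem _ _ hx.mem hx₁.mem)
    have h7 : l ∈ v.ring := nodC_mem_of_sq h6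
    obtain ⟨c', hc'⟩ := DCI57.exists_at v h7
    have h8 := h4.mul hc'
    rw [inv_mul_cancel₀ hl0, zero_mul] at h8
    exact one_ne_zero (hone.unique h8)
  · right
    have h1 : v.At (1 - ρ) (1 - c) := hone.sub hc
    have h1' : (1 : k) - c ≠ 0 := sub_ne_zero.2 (Ne.symm hc1)
    have h2 : v.At l (ω * (1 + c) / (1 - c)) := by
      rw [hl2]
      exact (hκ.mul (hone.add hc)).div h1 h1'
    have h4 : v.At (l ^ 2 - x - x₁) ((ω * (1 + c) / (1 - c)) ^ 2 - e - e) :=
      ((h2.pow 2).sub hx).sub hx₁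
    refine ⟨_, _, h4, ((h2.mul (h4.sub hx)).add hy).neg, ?_⟩
    intro h5
    have h6 : (ω * (1 + c) / (1 - c)) ^ 2 = 3 * e := by linear_combination h5
    rw [div_pow, mul_pow, hω, div_eq_iff (pow_ne_zero 2 h1')] at h6
    have h7 : 3 * e * (4 * c) = 0 := by linear_combination h6
    have h8 : (4 : k) ≠ 0 := by norm_num
    rcases mul_eq_zero.1 h7 with h9 | h9
    · rcases mul_eq_zero.1 h9 with h10 | h10
      · exact h3 h10
      · exact he h10
    · rcases mul_eq_zero.1 h9 with h10 | h10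
      · exact h8 h10
      · exact hc0 h10

private theorem nodC_case1 {ω c : k} (hω : ω ≠ 0) {ξ ε w y : Om k}
    (hlt : v.ring.valuation ε < v.ring.valuation (ξ ^ 2)) (hw : v.At w ω)
    (hy : y ^ 2 = ξ ^ 2 * w ^ 2 + ε) (hc : v.At (y / ξ) c) :
    (c = ω → v.ring.valuation (y + ξ * w) = v.ring.valuation ξ) ∧
      (c = -ω → v.ring.valuation (y - ξ * w) = v.ring.valuation ξ) ∧ c ^ 2 = ω ^ 2 := by
  have hξ : ξ ≠ 0 := by
    rintro rfl
    rw [zero_pow two_ne_zero, map_zero] at hlt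
    exact not_lt_zero' hlt
  have h2 : (2 : k) ≠ 0 := two_ne_zero
  refine ⟨?_, ?_, ?_⟩
  · intro h
    have h1 : v.At (y / ξ + w) (ω + ω) := by
      have := hc.add hw
      rwa [h] at this
    have h4 : v.ring.valuation (y / ξ + w) = 1 :=
      nodC_unit h1 (by rw [← two_mul]; exact mul_ne_zero h2 hω)
    have h5 : y + ξ * w = ξ * (y / ξ + w) := by field_simp
    rw [h5, map_mul, h4, mul_one]
  · intro h
    have h1 : v.At (y / ξ - w) (-ω - ω) := by
      have := hc.sub hw
      rwa [h] at this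
    have h4 : v.ring.valuation (y / ξ - w) = 1 :=
      nodC_unit h1 (by
        have : -ω - ω = -(2 * ω) := by ring
        rw [this]
        exact neg_ne_zero.2 (mul_ne_zero h2 hω))
    have h5 : y - ξ * w = ξ * (y / ξ - w) := by field_simp
    rw [h5, map_mul, h4, mul_one]
  · have h1 : (y / ξ) ^ 2 = w ^ 2 + ε / ξ ^ 2 := by
      rw [div_pow, hy]
      field_simp
    have h4 : v.At (ε / ξ ^ 2) 0 := by
      rw [Place.at_zero_iff, v.vanishes_iff, map_div₀]
      have h5 : v.ring.valuation (ξ ^ 2) ≠ 0 :=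
        (Valuation.ne_zero_iff _).2 (pow_ne_zero 2 hξ)
      rw [div_lt_one₀ (zero_lt_iff.2 h5)]
      exact hlt
    have h5 := hc.pow 2
    rw [h1] at h5
    have h6 := (hw.pow 2).add h4
    rw [add_zero] at h6
    exact h5.unique h6

private theorem nodC_case2 {ω : k} {ξ ε w y : Om k} (hε : ε ≠ 0)
    (hle : v.ring.valuation (ξ ^ 2) ≤ v.ring.valuation ε) (hw : v.At w ω)
    (hy : y ^ 2 = ξ ^ 2 * w ^ 2 + ε) :
    v.ring.valuation (y + ξ * w) ^ 2 = v.ring.valuation ε := by
  have hVε : v.ring.valuation ε ≠ 0 := (Valuation.ne_zero_iff _).2 hε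
  have hw1 : v.ring.valuation w ≤ 1 := (v.ring.valuation_le_one_iff w).2 hw.mem
  have hA : v.ring.valuation (ξ * w) ^ 2 ≤ v.ring.valuation ε := by
    rw [← map_pow, mul_pow, map_mul]
    calc v.ring.valuation (ξ ^ 2) * v.ring.valuation (w ^ 2)
        ≤ v.ring.valuation ε * 1 := by
          refine mul_le_mul' hle ?_
          rw [map_pow]
          exact pow_le_one' hw1 2
      _ = v.ring.valuation ε := mul_one _
  have hB : v.ring.valuation y ^ 2 ≤ v.ring.valuation ε := by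
    rw [← map_pow, hy]
    refine (Valuation.map_add _ _ _).trans (max_le ?_ le_rfl)
    rw [← mul_pow, map_pow]
    exact hA
  have hC : ∀ f : Om k, v.ring.valuation f ≤ max (v.ring.valuation y) (v.ring.valuation (ξ * w)) →
      v.ring.valuation f ^ 2 ≤ v.ring.valuation ε := by
    intro f hf
    rcases le_max_iff.1 hf with h | h
    · exact (pow_le_pow_left₀ zero_le' h 2).trans hB
    · exact (pow_le_pow_left₀ zero_le' h 2).trans hA
  have h1 := hC (y + ξ * w) (Valuation.map_add _ _ _)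
  have h2 := hC (y - ξ * w) (Valuation.map_sub _ _ _)
  have h3 : (y + ξ * w) * (y - ξ * w) = ε := by linear_combination hy
  have h4 : v.ring.valuation (y + ξ * w) ^ 2 * v.ring.valuation (y - ξ * w) ^ 2 =
      v.ring.valuation ε * v.ring.valuation ε := by
    rw [← mul_pow, ← map_mul, h3, sq]
  refine le_antisymm h1 ?_
  by_contra hlt
  rw [not_le] at hlt
  have h5 : v.ring.valuation (y + ξ * w) ^ 2 * v.ring.valuation (y - ξ * w) ^ 2 <
      v.ring.valuation ε * v.ring.valuation ε :=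
    (mul_le_mul' le_rfl h2).trans_lt (mul_lt_mul_of_pos_right hlt (zero_lt_iff.2 hVε))
  rw [h4] at h5
  exact lt_irrefl _ h5

private theorem nodC_val {ω : k} (hω : ω ≠ 0) {d ε x y x₁ y₁ w w₁ : Om k} (hε : ε ≠ 0)
    (hw : v.At w ω) (hw₁ : v.At w₁ ω) (hy : y ^ 2 = (x - d) ^ 2 * w ^ 2 + ε)
    (hy₁ : y₁ ^ 2 = (x₁ - d) ^ 2 * w₁ ^ 2 + ε) (h : SameCl v d ε x y x₁ y₁) :
    v.ring.valuation (y + (x - d) * w) = v.ring.valuation (y₁ + (x₁ - d) * w₁) := by
  rcases h with ⟨h1, h2, c, h3, h4⟩ | ⟨h1, h2⟩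
  · have h1' : v.ring.valuation ε < v.ring.valuation ((x₁ - d) ^ 2) := by
      rw [map_pow, ← h2, ← map_pow]
      exact h1
    obtain ⟨a1, a2, a3⟩ := nodC_case1 hω h1 hw hy h3
    obtain ⟨b1, b2, -⟩ := nodC_case1 hω h1' hw₁ hy₁ h4
    rcases sq_eq_sq_iff_eq_or_eq_neg.1 a3 with hc | hc
    · rw [a1 hc, b1 hc, h2]
    · have e1 : v.ring.valuation (y + (x - d) * w) * v.ring.valuation (x - d) =
          v.ring.valuation ε := by
        rw [← a2 hc, ← map_mul]
        congr 1
        linear_combination hy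
      have e2 : v.ring.valuation (y₁ + (x₁ - d) * w₁) * v.ring.valuation (x - d) =
          v.ring.valuation ε := by
        rw [h2, ← b2 hc, ← map_mul]
        congr 1
        linear_combination hy₁
      have h5 : v.ring.valuation (x - d) ≠ 0 := by
        intro h6
        rw [h6, mul_zero] at e1
        exact (Valuation.ne_zero_iff _).2 hε e1.symm
      exact mul_right_cancel₀ h5 (e1.trans e2.symm)
  · have e1 := nodC_case2 hε h1 hw hy
    have e2 := nodC_case2 hε h2 hw₁ hy₁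
    exact (pow_left_inj₀ zero_le' zero_le' two_ne_zero).1 (e1.trans e2.symm)

/-- The difference of two points near the node which are in the same class is not near the node.
Proof. Let `ξ = x - d`, then `y ² = ξ ² (ξ + 3 d) + ε`, `ε ≠ 0`, and `ε`, `ξ`, `y` vanish at `v`. Let
`w ² = ξ + 3 d` with the value `ω` at `v`, `ω ² = 3 e`, `ω ≠ 0` (the same `ω` for both points).
`u = y + ξ w`, `u' = y - ξ w`, `u u' = ε`.
In both cases `u` and `u₁` have the same valuation. Case 1: `y / ξ` has the value `ω` or `-ω`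
(since `(y / ξ) ² = ξ + 3 d + ε / ξ ²`); if `ω` then `u = ξ (y / ξ + w)` has the valuation of `ξ`; if
`-ω` then `u'` has the valuation of `ξ`, and `u = ε / u'`. Case 2: `u ²` and `u' ²` have valuations
`≤` that of `ε = u u'`, so they are equal.
If `P = Q` then `P - Q = 0`. If `x ≠ x₁`: `2 (y + y₁) = (u + u₁) (1 + ε / (u u₁))`,
`2 (ξ w - ξ₁ w₁) = (u - u₁) (1 + ε / (u u₁))`, `ξ w - ξ₁ w₁ = (ξ - ξ₁) κ`,
`κ = w + ξ₁ / (w + w₁)` with the value `ω`. So `1 + ε / (u u₁) ≠ 0` and `u ≠ u₁` (otherwise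
`ξ = ξ₁`), and the slope of the line through `P` and `-Q` is
`λ = (y + y₁) / (ξ - ξ₁) = κ (u + u₁) / (u - u₁)`. `ρ = u₁ / u` has a value `ρ' ≠ 0`. If `ρ' = 1` then
`λ` is not in the ring, and `x(P - Q) = λ ² - x - x₁` neither. Otherwise `λ` has the value
`c = ω (1 + ρ') / (1 - ρ')`, `c ² ≠ ω ² = 3 e`, and `x(P - Q)` has the value `c ² - 2 e ≠ e`.
If `x = x₁`, `y = -y₁ ≠ 0`: the same with the tangent: `λ = 3 ξ (ξ + 2 d) / (2 y)` is
`(3 (ξ + 2 d) / (2 w)) (u - u') / (u + u')`, and `u' = -u₁` has the valuation of `u`. -/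
theorem nonNode_sub {d : Om k} (hd : d ^ 2 = α) (hde : v.At d e) (he : e ≠ 0)
    (hB : v.At B (2 * e ^ 3)) (hε : B - 2 * d ^ 3 ≠ 0) {x y x₁ y₁ : Om k}
    {hP : (Ec α B).Nonsingular x y} {hQ : (Ec α B).Nonsingular x₁ y₁} (hx : v.At x e)
    (hx₁ : v.At x₁ e) (h : SameCl v d (B - 2 * d ^ 3) x y x₁ y₁) :
    NonNode v e ((WeierstrassCurve.Affine.Point.some x y hP : (Ec α B).Point) -
      WeierstrassCurve.Affine.Point.some x₁ y₁ hQ) := by
  have h3 : (3 : k) ≠ 0 := three_ne_zero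
  have hxy := eqn_iff.1 hP.1
  have hxy₁ := eqn_iff.1 hQ.1
  -- the root
  obtain ⟨ω, hω⟩ := IsAlgClosed.exists_pow_nat_eq (3 * e) (n := 2) two_pos
  have hω0 : ω ≠ 0 := by
    rintro rfl
    rw [zero_pow two_ne_zero] at hω
    rcases mul_eq_zero.1 hω.symm with h | h
    · exact h3 h
    · exact he h
  have hroot : ∀ z : Om k, v.At z e → ∃ w : Om k, w ^ 2 = (z - d) + 3 * d ∧ v.At w ω := by
    intro z hz
    apply nodC_root
    have h1 : v.At ((z - d) + algebraMap k (Om k) 3 * d) ((e - e) + 3 * e) :=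
      (hz.sub hde).add ((Place.at_const 3).mul hde)
    rw [sub_self, zero_add, ← hω, map_ofNat] at h1
    exact h1
  obtain ⟨w, hw2, hw⟩ := hroot x hx
  obtain ⟨w₁, hw2₁, hw₁⟩ := hroot x₁ hx₁
  have hy : y ^ 2 = (x - d) ^ 2 * w ^ 2 + (B - 2 * d ^ 3) := by
    rw [hxy, hw2, ← hd]
    ring
  have hy₁ : y₁ ^ 2 = (x₁ - d) ^ 2 * w₁ ^ 2 + (B - 2 * d ^ 3) := by
    rw [hxy₁, hw2₁, ← hd]
    ring
  have hval := nodC_val hω0 hε hw hw₁ hy hy₁ h
  have hu : y + (x - d) * w ≠ 0 := by
    intro h0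
    apply hε
    have : (y + (x - d) * w) * (y - (x - d) * w) = B - 2 * d ^ 3 := by linear_combination hy
    rw [← this, h0, zero_mul]
  have hu₁ : y₁ + (x₁ - d) * w₁ ≠ 0 := by
    intro h0
    apply hε
    have : (y₁ + (x₁ - d) * w₁) * (y₁ - (x₁ - d) * w₁) = B - 2 * d ^ 3 := by
      linear_combination hy₁
    rw [← this, h0, zero_mul]
  have hξ : v.At (x - d) 0 := by
    have := hx.sub hde
    rwa [sub_self] at this
  have hξ₁ : v.At (x₁ - d) 0 := by
    have := hx₁.sub hde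
    rwa [sub_self] at this
  have hy0 : v.At y 0 := by
    rw [Place.at_zero_iff]
    apply v.vanishes_of_pow (n := 2)
    rw [← Place.at_zero_iff, hy]
    have h1 : v.At (B - algebraMap k (Om k) 2 * d ^ 3) (2 * e ^ 3 - 2 * e ^ 3) :=
      hB.sub ((Place.at_const 2).mul (hde.pow 3))
    have h2 := ((hξ.pow 2).mul (hw.pow 2)).add h1
    rw [sub_self, zero_pow two_ne_zero, zero_mul, zero_add, map_ofNat] at h2
    exact h2
  have hww : w + w₁ ≠ 0 := by
    intro h0
    have h1 := hw.add hw₁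
    rw [h0] at h1
    have h2 : ω + ω = 0 := h1.unique (Place.at_zero_iff.2 v.vanishes_zero)
    rw [← two_mul] at h2
    rcases mul_eq_zero.1 h2 with h4 | h4
    · exact two_ne_zero h4
    · exact hω0 h4
  have hw0 : w ≠ 0 := by
    rintro rfl
    exact hω0 (hw.unique (Place.at_zero_iff.2 v.vanishes_zero))
  rw [sub_eq_add_neg, WeierstrassCurve.Affine.Point.neg_some]
  by_cases hE : x = x₁ ∧ y = (Ec α B).negY x₁ ((Ec α B).negY x₁ y₁)
  · rw [WeierstrassCurve.Affine.Point.add_of_Y_eq hE.1 hE.2]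
    trivial
  rw [WeierstrassCurve.Affine.Point.add_some hE]
  have hnegY : ∀ a b : Om k, (Ec α B).negY a b = -b := by
    intro a b
    simp [WeierstrassCurve.Affine.negY]
  have haddX : ∀ a b l : Om k, (Ec α B).addX a b l = l ^ 2 - a - b := by
    intro a b l
    simp [WeierstrassCurve.Affine.addX]
  have haddY : ∀ a b c l : Om k, (Ec α B).addY a b c l = -(l * ((l ^ 2 - a - b) - a) + c) := by
    intro a b c l
    rw [WeierstrassCurve.Affine.addY, WeierstrassCurve.Affine.negAddY, hnegY, haddX]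
  rw [hnegY, hnegY, neg_neg] at hE
  show _ ∉ v.ring ∨ ∃ x' y' : k, v.At _ x' ∧ v.At _ y' ∧ x' ≠ e
  rw [haddY, haddX]
  by_cases hxx : x = x₁
  · subst hxx
    have hyy : y ≠ y₁ := fun h0 => hE ⟨rfl, h0⟩
    have hyn : y₁ = -y := by
      have h1 : y ^ 2 = y₁ ^ 2 := by rw [hxy, hxy₁]
      rcases sq_eq_sq_iff_eq_or_eq_neg.1 h1 with h2 | h2
      · exact absurd h2 hyy
      · rw [h2, neg_neg]
    have hy00 : y ≠ 0 := by
      intro h0
      apply hyy
      rw [hyn, h0, neg_zero]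
    have hwe : w₁ = w := by
      have h1 : (w - w₁) * (w + w₁) = 0 := by
        have : (w - w₁) * (w + w₁) = w ^ 2 - w₁ ^ 2 := by ring
        rw [this, hw2, hw2₁, sub_self]
      rcases mul_eq_zero.1 h1 with h2 | h2
      · exact (sub_eq_zero.1 h2).symm
      · exact absurd h2 hww
    have hκ : v.At (3 * (x + d) / (2 * w)) ω := by
      have h1 : v.At (algebraMap k (Om k) 3 * (x + d) / (algebraMap k (Om k) 2 * w))
          (3 * (e + e) / (2 * ω)) :=
        ((Place.at_const 3).mul (hx.add hde)).div ((Place.at_const 2).mul hw)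
          (mul_ne_zero two_ne_zero hω0)
      rw [map_ofNat, map_ofNat] at h1
      have h2 : 3 * (e + e) / (2 * ω) = ω := by
        rw [div_eq_iff (mul_ne_zero two_ne_zero hω0)]
        linear_combination (-2) * hω
      rwa [h2] at h1
    refine nodC_fin (κ := 3 * (x + d) / (2 * w)) hω he hκ hu ?_ hval hx hx hy0 ?_
    · rw [hyn, hwe]
      intro h0
      apply hy00
      have h2 : (2 : Om k) * y = 0 := by linear_combination h0
      rcases mul_eq_zero.1 h2 with h4 | h4
      · exact absurd h4 two_ne_zero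
      · exact h4
    · have hne : y ≠ (Ec α B).negY x ((Ec α B).negY x y₁) := by
        rw [hnegY, hnegY, neg_neg]
        exact hyy
      rw [WeierstrassCurve.Affine.slope_of_Y_ne rfl hne, hnegY, hyn, hwe]
      have e1 : 3 * x ^ 2 + 2 * (Ec α B).a₂ * x + (Ec α B).a₄ - (Ec α B).a₁ * y =
          3 * (x - d) * (x + d) := by
        simp only
        rw [← hd]
        ring
      rw [e1]
      have e2 : y + (x - d) * w + (-y + (x - d) * w) = 2 * w * (x - d) := by ring
      have e3 : y + (x - d) * w - (-y + (x - d) * w) = y - -y := by ring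
      rw [e2, e3]
      congr 1
      field_simp
  · have hκ : v.At (w + (x₁ - d) / (w + w₁)) ω := by
      have h1 := hw.add (hξ₁.div (hw.add hw₁) (by
        rw [← two_mul]
        exact mul_ne_zero two_ne_zero hω0))
      rwa [zero_div, add_zero] at h1
    have hκ0 : w + (x₁ - d) / (w + w₁) ≠ 0 := by
      intro h0
      rw [h0] at hκ
      exact hω0 (hκ.unique (Place.at_zero_iff.2 v.vanishes_zero))
    have hκx : (w + (x₁ - d) / (w + w₁)) * (x - x₁) = (x - d) * w - (x₁ - d) * w₁ := by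
      have h1 : x - x₁ = (w - w₁) * (w + w₁) := by
        have : (w - w₁) * (w + w₁) = w ^ 2 - w₁ ^ 2 := by ring
        rw [this, hw2, hw2₁]
        ring
      have h2 : (x₁ - d) / (w + w₁) * (x - x₁) = (x₁ - d) * (w - w₁) := by
        rw [h1]
        field_simp
      rw [add_mul, h2]
      ring
    have hid : (y + y₁) * ((y + (x - d) * w) - (y₁ + (x₁ - d) * w₁)) =
        ((x - d) * w - (x₁ - d) * w₁) * ((y + (x - d) * w) + (y₁ + (x₁ - d) * w₁)) := by
      linear_combination hy - hy₁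
    have hx0 : x - x₁ ≠ 0 := sub_ne_zero.2 hxx
    have huu : y + (x - d) * w ≠ y₁ + (x₁ - d) * w₁ := by
      intro h0
      rw [h0, sub_self, mul_zero] at hid
      rcases mul_eq_zero.1 hid.symm with h1 | h1
      · rw [← hκx] at h1
        exact mul_ne_zero hκ0 hx0 h1
      · rw [← two_mul] at h1
        rcases mul_eq_zero.1 h1 with h2 | h2
        · exact two_ne_zero h2
        · exact hu₁ h2
    refine nodC_fin (κ := w + (x₁ - d) / (w + w₁)) hω he hκ hu huu hval hx hx₁ hy0 ?_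
    rw [WeierstrassCurve.Affine.slope_of_X_ne hxx, hnegY, sub_neg_eq_add,
      div_eq_div_iff hx0 (sub_ne_zero.2 huu)]
    rw [hid, ← hκx]
    ring

end Pool.Agent.GT
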