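import Pool.Agent.GT.CurveB
import Pool.Agent.GT.Mov

/-!
# The pencil of lines through a point
-/

set_option autoImplicit false

noncomputable section

namespace Pool.Agent.GT

open Pool.Agent.ZCyc Pool.Agent.Dess Polynomial
open Pool.Agent.VFP (Om tt)
open scoped Classical LinearAlgebra.Projectivization

variable {k : Type} [Field k] [IsAlgClosed k] [CharZero k] {m : ℕ}
  {X : Set (MvPolynomial (Fin (m + 1)) k)} {α B : k} {M : Mp k m}

/-- the class of the image of a point -/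
def clp (hX : Hom X) (hM : M.Ok α B X) (P : (Ec α B).Point) : CH X Unit := cl1 X (cyc hX hM P)

/-! ### Algebra -/

private theorem pen_cubic {F : Type} [Field F] {α B u w T a : F}
    (hw : w ^ 2 = u ^ 3 - 3 * α * u + B)
    (ha : a ^ 2 + (u - T ^ 2) * a + (u ^ 2 - 3 * α - 2 * T * w + T ^ 2 * u) = 0) :
    (w + T * (a - u)) ^ 2 = a ^ 3 - 3 * α * a + B := by
  linear_combination hw - (a - u) * ha

private theorem pen_quad {F : Type} [Field F] {α B u w T x : F}
    (hw : w ^ 2 = u ^ 3 - 3 * α * u + B)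
    (hx : (w + T * (x - u)) ^ 2 = x ^ 3 - 3 * α * x + B) (hxu : x ≠ u) :
    x ^ 2 + (u - T ^ 2) * x + (u ^ 2 - 3 * α - 2 * T * w + T ^ 2 * u) = 0 := by
  have h : (x - u) * (x ^ 2 + (u - T ^ 2) * x + (u ^ 2 - 3 * α - 2 * T * w + T ^ 2 * u)) = 0 := by
    linear_combination hw - hx
  exact (mul_eq_zero.1 h).resolve_left (sub_ne_zero.2 hxu)

/-- two points on a line with slope `T` through `(u, w)` -/
private structure PenL (α u w T x₁ y₁ x₂ y₂ : k) : Prop where
  sum : x₁ + x₂ = T ^ 2 - u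
  quad : x₁ ^ 2 + (u - T ^ 2) * x₁ + (u ^ 2 - 3 * α - 2 * T * w + T ^ 2 * u) = 0
  y1 : y₁ = w + T * (x₁ - u)
  y2 : y₂ = w + T * (x₂ - u)

omit [IsAlgClosed k] in
private theorem pen_line {x₁ y₁ x₂ y₂ u w : k} {n₁ : (Ec α B).Nonsingular x₁ y₁}
    {n₂ : (Ec α B).Nonsingular x₂ y₂} {n : (Ec α B).Nonsingular u w}
    (h : (.some x₁ y₁ n₁ : (Ec α B).Point) + .some x₂ y₂ n₂ = -.some u w n)
    (d : (.some x₁ y₁ n₁ : (Ec α B).Point) ≠ .some x₂ y₂ n₂)
    (e : (.some x₁ y₁ n₁ : (Ec α B).Point) ≠ .some u w n) :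
    ∃ T : k, PenL α u w T x₁ y₁ x₂ y₂ := by
  have q₁ := eqn_iff.1 n₁.1
  have q₂ := eqn_iff.1 n₂.1
  have q := eqn_iff.1 n.1
  have hx : x₁ ≠ x₂ := by
    rintro rfl
    have h1 : (y₁ - y₂) * (y₁ + y₂) = 0 := by linear_combination q₁ - q₂
    rcases mul_eq_zero.1 h1 with h2 | h2
    · apply d
      have h3 : y₁ = y₂ := sub_eq_zero.1 h2
      subst h3
      rfl
    · have h3 : y₁ = (Ec α B).negY x₁ y₂ := by
        simp only [WeierstrassCurve.Affine.negY]
        linear_combination h2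
      rw [WeierstrassCurve.Affine.Point.add_of_Y_eq rfl h3] at h
      have h4 : (.some u w n : (Ec α B).Point) = 0 := by
        rw [← neg_neg (.some u w n : (Ec α B).Point), ← h, neg_zero]
      exact WeierstrassCurve.Affine.Point.some_ne_zero _ h4
  rw [WeierstrassCurve.Affine.Point.add_of_X_ne' hx] at h
  have h1 := neg_injective h
  have h2 := WeierstrassCurve.Affine.Point.some.inj h1
  obtain ⟨h3, h4⟩ := h2
  set T := (Ec α B).slope x₁ x₂ y₁ y₂ with hT
  have hT2 : T * (x₁ - x₂) = y₁ - y₂ := by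
    rw [hT, WeierstrassCurve.Affine.slope_of_X_ne hx, div_mul_cancel₀ _ (sub_ne_zero.2 hx)]
  simp only [WeierstrassCurve.Affine.negAddY] at h4
  rw [h3] at h4
  simp only [WeierstrassCurve.Affine.addX] at h3
  have hy1 : y₁ = w + T * (x₁ - u) := by linear_combination h4
  have hy2 : y₂ = w + T * (x₂ - u) := by linear_combination h4 + hT2
  refine ⟨T, by linear_combination -h3, ?_, hy1, hy2⟩
  refine pen_quad q (by rw [← hy1]; exact q₁) ?_
  rintro rfl
  apply e
  have h5 : y₁ = w := by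
    rw [hy1]
    ring
  subst h5
  rfl

/-! ### Values -/

private theorem pen_place (hX : Hom X) (c : k) : ∃ V : Place k (Om k), V.At (tt k) c := by
  obtain ⟨K, y, hK, -, htt, -⟩ := exists_field hX ∅ (J := Empty) (fun e => e.elim)
  set τ : K := ⟨tt k, htt⟩ with hτ
  have hτt : Transcendental k τ := by
    intro h
    apply Pool.Agent.VFP.tt_transc (k := k)
    have h1 := (isAlgebraic_algHom_iff K.val (K.val : K →+* Om k).injective).2 h
    exact h1
  have hft : Transcendental k (τ - algebraMap k K c) := by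
    intro h
    apply hτt
    have h1 : τ = (τ - algebraMap k K c) + algebraMap k K c := by ring
    rw [h1]
    exact h.add (isAlgebraic_algebraMap c)
  have hf0 : τ - algebraMap k K c ≠ 0 := by
    intro h
    apply hft
    rw [h]
    exact isAlgebraic_zero
  have hfin : {v : Place k K | v.Vanishes (τ - algebraMap k K c)}.Finite :=
    (TInc.finite_ord hK (τ - algebraMap k K c)).subset fun v hv =>
      ne_of_gt ((TInc.vanishes_iff_ord hK hf0).1 hv)
  have hdeg := TInc.deg_zeros' hK hft hfin.toFinset fun v => by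
    rw [Set.Finite.mem_toFinset]
    rfl
  have hfd := fin_adjoin hK hft
  have hpos : 0 < Module.finrank (IntermediateField.adjoin k {τ - algebraMap k K c}) K :=
    Module.finrank_pos
  have hne : hfin.toFinset.Nonempty := by
    rw [Finset.nonempty_iff_ne_empty]
    intro h
    rw [h, Finset.sum_empty] at hdeg
    omega
  obtain ⟨v, hv⟩ := hne
  rw [Set.Finite.mem_toFinset] at hv
  obtain ⟨V, hV⟩ := TInc.exists_above hK v K.val
  refine ⟨V, ?_⟩
  have h1 : v.Vanishes (τ - algebraMap k K c) := hv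
  change V.Vanishes _
  rw [Place.vanishes_iff_or] at h1 ⊢
  rcases h1 with h1 | h1
  · exact absurd h1 hf0
  · right
    rw [← hV, ValuationSubring.mem_comap] at h1
    exact h1

omit [CharZero k] in
private theorem pen_root {V : Place k (Om k)} {b d a : Om k} {b₀ d₀ : k} (hb : V.At b b₀)
    (hd : V.At d d₀) (h : a ^ 2 + b * a + d = 0) :
    ∃ a₀, V.At a a₀ ∧ a₀ ^ 2 + b₀ * a₀ + d₀ = 0 := by
  have hmem : a ∈ V.ring := by
    rcases V.ring.mem_or_inv_mem a with h1 | h1
    · exact h1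
    · by_cases ha : a = 0
      · rw [ha]
        exact zero_mem _
      · have h2 : a = -b - d * a⁻¹ := by
          field_simp
          linear_combination h
        rw [h2]
        exact sub_mem (neg_mem hb.mem) (mul_mem hd.mem h1)
  obtain ⟨a₀, ha₀⟩ := HasRes.res V a hmem
  refine ⟨a₀, ha₀, ?_⟩
  have h1 := ((ha₀.pow 2).add (hb.mul ha₀)).add hd
  rw [h] at h1
  have h2 := Place.at_const (v := V) (0 : k)
  rw [map_zero] at h2
  exact h1.unique h2

private theorem pen_val {V : Place k (Om k)} {u w T : k} {T' a : Om k} {x₁ y₁ x₂ y₂ : k}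
    (hT : V.At T' T)
    (ha : a ^ 2 + (algebraMap k (Om k) u - T' ^ 2) * a +
      (algebraMap k (Om k) u ^ 2 - 3 * algebraMap k (Om k) α - 2 * T' * algebraMap k (Om k) w +
        T' ^ 2 * algebraMap k (Om k) u) = 0) (r : PenL α u w T x₁ y₁ x₂ y₂) :
    ((V.At a x₁ ∧ V.At (algebraMap k (Om k) w + T' * (a - algebraMap k (Om k) u)) y₁) ∧
      (V.At (T' ^ 2 - algebraMap k (Om k) u - a) x₂ ∧ V.At (algebraMap k (Om k) w + T' *
        ((T' ^ 2 - algebraMap k (Om k) u - a) - algebraMap k (Om k) u)) y₂)) ∨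
    ((V.At a x₂ ∧ V.At (algebraMap k (Om k) w + T' * (a - algebraMap k (Om k) u)) y₂) ∧
      (V.At (T' ^ 2 - algebraMap k (Om k) u - a) x₁ ∧ V.At (algebraMap k (Om k) w + T' *
        ((T' ^ 2 - algebraMap k (Om k) u - a) - algebraMap k (Om k) u)) y₁)) := by
  have c := fun x : k => Place.at_const (v := V) x
  have c3 : V.At (3 : Om k) (3 : k) := by
    have := c 3
    rwa [map_ofNat] at this
  have c2 : V.At (2 : Om k) (2 : k) := by
    have := c 2
    rwa [map_ofNat] at this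
  obtain ⟨a₀, h1, h2⟩ := pen_root ((c u).sub (hT.pow 2))
    (((((c u).pow 2).sub (c3.mul (c α))).sub ((c2.mul hT).mul (c w))).add
      ((hT.pow 2).mul (c u))) ha
  have h3 : (a₀ - x₁) * (a₀ - x₂) = 0 := by
    linear_combination h2 - a₀ * r.sum - r.quad + x₁ * r.sum
  have hy := fun {b : Om k} {b₀ : k} (hb : V.At b b₀) => (c w).add (hT.mul (hb.sub (c u)))
  have hA' := ((hT.pow 2).sub (c u)).sub h1
  rcases mul_eq_zero.1 h3 with h4 | h4
  · left
    have h5 : a₀ = x₁ := sub_eq_zero.1 h4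
    subst h5
    have h6 : T ^ 2 - u - a₀ = x₂ := by linear_combination -r.sum
    rw [h6] at hA'
    have e1 := hy h1
    have e2 := hy hA'
    rw [← r.y1] at e1
    rw [← r.y2] at e2
    exact ⟨⟨h1, e1⟩, hA', e2⟩
  · right
    have h5 : a₀ = x₂ := sub_eq_zero.1 h4
    subst h5
    have h6 : T ^ 2 - u - a₀ = x₁ := by linear_combination -r.sum
    rw [h6] at hA'
    have e1 := hy h1
    have e2 := hy hA'
    rw [← r.y2] at e1
    rw [← r.y1] at e2
    exact ⟨⟨h1, e1⟩, hA', e2⟩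

omit [IsAlgClosed k] [CharZero k] in
private theorem pen_co {V : Place k (Om k)} {a b : Om k} {x y : k} (ha : V.At a x)
    (hb : V.At b y) (i : Fin (m + 1)) :
    V.At ((M.map (algebraMap k (Om k))).co a b i) (M.co x y i) := by
  have h1 : (M.map (algebraMap k (Om k))).co a b i = aeval a (M.G i) + aeval a (M.H i) * b := by
    simp only [Mp.co, Mp.map, eval_map, aeval_def]
  rw [h1]
  exact (ha.aeval _).add ((ha.aeval _).mul hb)

private theorem pen_ne {V : Place k (Om k)} {a b : Om k} {x y : k} (ha : V.At a x)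
    (hb : V.At b y) (h : M.co x y ≠ 0) : (M.map (algebraMap k (Om k))).co a b ≠ 0 := by
  intro h0
  apply h
  funext i
  have h1 := pen_co (M := M) ha hb i
  rw [h0] at h1
  have h2 := Place.at_const (v := V) (0 : k)
  rw [map_zero] at h2
  exact h1.unique h2

/-- the limit of one point -/
private theorem pen_pv (hX : Hom X) (hM : M.Ok α B X) {V : Place k (Om k)} {a b : Om k} {x y : k}
    (ha : V.At a x) (hb : V.At b y) {n : (Ec α B).Nonsingular x y}
    (h : M.Ns (.some x y n : (Ec α B).Point))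
    (hne : (M.map (algebraMap k (Om k))).co a b ≠ 0)
    (hf : ∀ f ∈ X, MvPolynomial.aeval ((M.map (algebraMap k (Om k))).co a b) f = 0) :
    lim hX V (Finsupp.single (fun _ : Unit => mkPt hX _ hne hf) 1) =
      clp hX hM (.some x y n) := by
  have h1 : pv hX V (mkPt hX _ hne hf) = phi hX hM (.some x y n) h := by
    apply pv_eq
    refine isVal_mkPt (h' := fun f hf => hM.onX f hf x y (eqn_iff.1 n.1)) (l := 1) fun i => ?_
    rw [one_mul]
    exact pen_co ha hb i
  rw [lim_single, h1]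
  have h2 : cyc hX hM (.some x y n : (Ec α B).Point) =
      Finsupp.single (phi hX hM (.some x y n) h) 1 := by
    unfold cyc
    rw [dif_pos h]
  unfold clp
  rw [h2]
  change _ = Submodule.Quotient.mk (Finsupp.mapDomain (fun x _ => x) (Finsupp.single _ 1))
  rw [Finsupp.mapDomain_single]

/-- Let `P₁ + P₂ = P₃ + P₄ = S`, `S ≠ 0`, the points `P_i` are good (`Ns`), the `x`-coordinates of
`P₁`, `P₂` and `S` are different, and those of `P₃`, `P₄` and `S` too (so the points are not equal up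
to sign, the condition `P₁ ≠ P₂`, `P₁ + P₂ ≠ 0` etc.). Then the images of `P₁ + P₂` and `P₃ + P₄`
(as cycles) are rationally equivalent.
Proof. Let `-S = (u, w)`; `P₁ = (x₁, y₁)`, `P₂ = (x₂, y₂)` are on the line
`y = w + T₀ (x - u)`, `T₀ = (y₁ - y₂) / (x₁ - x₂)`, and `P₃`, `P₄` on the line with the slope `T₁`. If
`T₀ = T₁` then the pairs are equal. Otherwise let `T = T₀ + (T₁ - T₀) t` (`t = tt k`). On the line
`y = w + T (x - u)` there are two more points `A`, `A'` over `Om k`: `x ³ - 3 α x + B - (w + T (x - u)) ²`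
is `(x - u) (x ² + (u - T ²) x + q)`, `q ∈ k[T]`. Let `z` be the cycle `φ(A) + φ(A')` over `Om k`
(`ok_map`; the coordinates are not zero because their limits are not zero). If `t → 0` at a place then
`A`, `A'` tend to `P₁`, `P₂` (in one of the two orders), so the limit is the class of
`φ(P₁) + φ(P₂)` (`isVal_mkPt`); if `t → 1` the limit is `φ(P₃) + φ(P₄)`. Apply `bridge` with
`ι = Unit`. -/
theorem pencil (hX : Hom X) (hM : M.Ok α B X) {P₁ P₂ P₃ P₄ S : (Ec α B).Point}
    (h₁ : M.Ns P₁) (h₂ : M.Ns P₂) (h₃ : M.Ns P₃) (h₄ : M.Ns P₄) (hS : S ≠ 0)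
    (h12 : P₁ + P₂ = S) (h34 : P₃ + P₄ = S) (d12 : P₁ ≠ P₂) (d34 : P₃ ≠ P₄)
    (e₁ : P₁ ≠ -S) (e₂ : P₂ ≠ -S) (e₃ : P₃ ≠ -S) (e₄ : P₄ ≠ -S) :
    clp hX hM P₁ + clp hX hM P₂ = clp hX hM P₃ + clp hX hM P₄ := by
  -- coordinates
  obtain ⟨Q, rfl⟩ : ∃ Q, S = -Q := ⟨-S, (neg_neg S).symm⟩
  rw [neg_neg] at e₁ e₂ e₃ e₄
  rcases P₁ with _ | ⟨x₁, y₁, n₁⟩
  · exact h₁.elim
  rcases P₂ with _ | ⟨x₂, y₂, n₂⟩
  · exact h₂.elim
  rcases P₃ with _ | ⟨x₃, y₃, n₃⟩
  · exact h₃.elim
  rcases P₄ with _ | ⟨x₄, y₄, n₄⟩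
  · exact h₄.elim
  rcases Q with _ | ⟨u, w, n⟩
  · exact (hS neg_zero).elim
  obtain ⟨T₀, r₀⟩ := pen_line h12 d12 e₁
  obtain ⟨T₁, r₁⟩ := pen_line h34 d34 e₃
  have hq := eqn_iff.1 n.1
  -- the line over `Om k`
  set T' : Om k := algebraMap k (Om k) T₀ + algebraMap k (Om k) (T₁ - T₀) * tt k with hT'
  have hT0 : ∀ V : Place k (Om k), V.At (tt k) 0 → V.At T' T₀ := by
    intro V hV
    have h1 := (Place.at_const (v := V) T₀).add ((Place.at_const (v := V) (T₁ - T₀)).mul hV)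
    rw [mul_zero, add_zero] at h1
    exact h1
  have hT1 : ∀ V : Place k (Om k), V.At (tt k) 1 → V.At T' T₁ := by
    intro V hV
    have h1 := (Place.at_const (v := V) T₀).add ((Place.at_const (v := V) (T₁ - T₀)).mul hV)
    rw [mul_one, add_sub_cancel] at h1
    exact h1
  obtain ⟨a, ha⟩ : ∃ a : Om k, a ^ 2 + (algebraMap k (Om k) u - T' ^ 2) * a +
      (algebraMap k (Om k) u ^ 2 - 3 * algebraMap k (Om k) α - 2 * T' * algebraMap k (Om k) w +
        T' ^ 2 * algebraMap k (Om k) u) = 0 := by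
    set b := algebraMap k (Om k) u - T' ^ 2
    set d := algebraMap k (Om k) u ^ 2 - 3 * algebraMap k (Om k) α - 2 * T' *
      algebraMap k (Om k) w + T' ^ 2 * algebraMap k (Om k) u
    obtain ⟨s, hs⟩ := IsAlgClosed.exists_pow_nat_eq (b ^ 2 - 4 * d) (n := 2) (by norm_num)
    have h2 : (2 : Om k) ≠ 0 := two_ne_zero
    refine ⟨(s - b) / 2, ?_⟩
    field_simp
    linear_combination hs
  set a' : Om k := T' ^ 2 - algebraMap k (Om k) u - a with ha'
  have ha2 : a' ^ 2 + (algebraMap k (Om k) u - T' ^ 2) * a' +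
      (algebraMap k (Om k) u ^ 2 - 3 * algebraMap k (Om k) α - 2 * T' * algebraMap k (Om k) w +
        T' ^ 2 * algebraMap k (Om k) u) = 0 := by
    rw [ha']
    linear_combination ha
  have hqO : algebraMap k (Om k) w ^ 2 = algebraMap k (Om k) u ^ 3 -
      3 * algebraMap k (Om k) α * algebraMap k (Om k) u + algebraMap k (Om k) B := by
    have := congrArg (algebraMap k (Om k)) hq
    simpa only [map_add, map_sub, map_mul, map_pow, map_ofNat] using this
  have hM' := ok_map hM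
  have onA := fun f hf => hM'.onX f hf a (algebraMap k (Om k) w + T' *
    (a - algebraMap k (Om k) u)) (pen_cubic hqO ha)
  have onA' := fun f hf => hM'.onX f hf a' (algebraMap k (Om k) w + T' *
    (a' - algebraMap k (Om k) u)) (pen_cubic hqO ha2)
  have g₁ : M.co x₁ y₁ ≠ 0 := h₁
  have g₂ : M.co x₂ y₂ ≠ 0 := h₂
  have neA : (M.map (algebraMap k (Om k))).co a (algebraMap k (Om k) w + T' *
      (a - algebraMap k (Om k) u)) ≠ 0 ∧ (M.map (algebraMap k (Om k))).co a'
        (algebraMap k (Om k) w + T' * (a' - algebraMap k (Om k) u)) ≠ 0 := by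
    obtain ⟨V, hV⟩ := pen_place hX 0
    rcases pen_val (hT0 V hV) ha r₀ with ⟨⟨i1, i2⟩, i3, i4⟩ | ⟨⟨i1, i2⟩, i3, i4⟩
    · exact ⟨pen_ne i1 i2 g₁, pen_ne i3 i4 g₂⟩
    · exact ⟨pen_ne i1 i2 g₂, pen_ne i3 i4 g₁⟩
  obtain ⟨neA1, neA2⟩ := neA
  refine bridge hX (Finsupp.single (fun _ : Unit => mkPt hX _ neA1 onA) 1 +
    Finsupp.single (fun _ : Unit => mkPt hX _ neA2 onA') 1) (c₀ := 0) (c₁ := 1) ?_ ?_
  · intro V hV
    rw [map_add]
    rcases pen_val (hT0 V hV) ha r₀ with ⟨⟨i1, i2⟩, i3, i4⟩ | ⟨⟨i1, i2⟩, i3, i4⟩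
    · rw [pen_pv hX hM i1 i2 h₁, pen_pv hX hM i3 i4 h₂]
    · rw [pen_pv hX hM i1 i2 h₂, pen_pv hX hM i3 i4 h₁, add_comm]
  · intro V hV
    rw [map_add]
    rcases pen_val (hT1 V hV) ha r₁ with ⟨⟨i1, i2⟩, i3, i4⟩ | ⟨⟨i1, i2⟩, i3, i4⟩
    · rw [pen_pv hX hM i1 i2 h₃, pen_pv hX hM i3 i4 h₄]
    · rw [pen_pv hX hM i1 i2 h₄, pen_pv hX hM i3 i4 h₃, add_comm]

end Pool.Agent.GT
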