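import Pool.Agent.GT.RedA

/-!
# Reduction of sums of points
-/

set_option autoImplicit false

noncomputable section

namespace Pool.Agent.GT

open Pool.Agent.ZCyc Pool.Agent.Dess Polynomial
open Pool.Agent.VFP (Om tt)
open scoped Classical LinearAlgebra.Projectivization

variable {k : Type} [Field k] {m : ℕ}

variable [IsAlgClosed k] [CharZero k] {v : Place k (Om k)} {α B : Om k} {a b : k}

omit [IsAlgClosed k] [CharZero k] in
private theorem at_num (n : ℕ) [n.AtLeastTwo] :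
    v.At (OfNat.ofNat n : Om k) (OfNat.ofNat n : k) := by
  have := Place.at_const (v := v) (OfNat.ofNat n : k)
  rwa [map_ofNat] at this

omit [IsAlgClosed k] [CharZero k] in
private theorem at_one : v.At (1 : Om k) (1 : k) := by
  have := Place.at_const (v := v) (1 : k)
  rwa [map_one] at this

omit [IsAlgClosed k] [CharZero k] in
/-- the chord formulas -/
private theorem chord_eq {x₁ y₁ x₂ y₂ : Om k} (hne : x₁ ≠ x₂) :
    (Ec α B).addX x₁ x₂ ((Ec α B).slope x₁ x₂ y₁ y₂) =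
        ((y₁ - y₂) / (x₁ - x₂)) ^ 2 - x₁ - x₂ ∧
      (Ec α B).addY x₁ x₂ y₁ ((Ec α B).slope x₁ x₂ y₁ y₂) =
        -(y₁ + (y₁ - y₂) / (x₁ - x₂) * ((((y₁ - y₂) / (x₁ - x₂)) ^ 2 - x₁ - x₂) - x₁)) := by
  constructor
  · rw [WeierstrassCurve.Affine.slope_of_X_ne hne, WeierstrassCurve.Affine.addX]
    simp only
    ring
  · rw [WeierstrassCurve.Affine.slope_of_X_ne hne, WeierstrassCurve.Affine.addY,
      WeierstrassCurve.Affine.negY, WeierstrassCurve.Affine.negAddY,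
      WeierstrassCurve.Affine.addX]
    simp only
    ring

/-- Adding a point which tends to zero: if `x(P)` is not in the ring, and `Q = (u, w)` tends to
`(u', w')` then `P + Q` tends to `(u', w')`. This holds for every `α`, `B` with values (the curve
may be singular at `v`). Proof: with `P = (X, Y)`: the `x`-coordinate of the sum is
`(u X ² + (u ² - 3 α) X + B - 2 Y w + w ² - u ³) / (X - u) ²`, and `Y / X ²` vanishes at `v`, because
`Y ² / X ⁴` does. The `y`-coordinate is `-(w + λ (x₃ - u))`, `λ = (Y - w) / (X - u)`,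
`x₃ - u = ((3 u ² - 3 α) X + B - 2 Y w + w ² - 2 u ³) / (X - u) ²`, and
`λ (x₃ - u)` has the value `-2 w'` (`Y ² / X ³` has the value `1`, `Y / X ²` the value `0`). -/
theorem add_infinite (hα : v.At α a) (hB : v.At B b) {X Y u w x₃ y₃ : Om k} {u' w' : k}
    {hP : (Ec α B).Nonsingular X Y} {hQ : (Ec α B).Nonsingular u w}
    {hR : (Ec α B).Nonsingular x₃ y₃} (hX : X ∉ v.ring) (hu : v.At u u') (hw : v.At w w')
    (h : (WeierstrassCurve.Affine.Point.some X Y hP : (Ec α B).Point) +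
      WeierstrassCurve.Affine.Point.some u w hQ = WeierstrassCurve.Affine.Point.some x₃ y₃ hR) :
    v.At x₃ u' ∧ v.At y₃ w' := by
  have hne : X ≠ u := fun h => hX (h ▸ hu.mem)
  have hX0 : X ≠ 0 := fun h => hX (h ▸ v.ring.zero_mem)
  have hXu : X - u ≠ 0 := sub_ne_zero.2 hne
  rw [WeierstrassCurve.Affine.Point.add_of_X_ne hne] at h
  have h' := WeierstrassCurve.Affine.Point.some.inj h
  obtain ⟨c1, c2⟩ := chord_eq (α := α) (B := B) (y₁ := Y) (y₂ := w) hne
  have hx₃ : x₃ = ((Y - w) / (X - u)) ^ 2 - X - u := by rw [← h'.1, c1]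
  have hy₃ : y₃ = -(Y + (Y - w) / (X - u) * ((((Y - w) / (X - u)) ^ 2 - X - u) - X)) := by
    rw [← h'.2, c2]
  have hE : Y ^ 2 = X ^ 3 - 3 * α * X + B := eqn_iff.1 hP.1
  obtain ⟨ξ, hξ⟩ : ∃ ξ : Om k, ξ = X⁻¹ := ⟨_, rfl⟩
  obtain ⟨η, hη⟩ : ∃ η : Om k, η = Y / X ^ 2 := ⟨_, rfl⟩
  have hξX : X = ξ⁻¹ := by rw [hξ, inv_inv]
  have hξ0 : ξ ≠ 0 := by rw [hξ]; exact inv_ne_zero hX0
  have hYη : Y = η * X ^ 2 := by rw [hη]; field_simp
  have h3 : v.At (3 : Om k) (3 : k) := at_num 3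
  have h2 : v.At (2 : Om k) (2 : k) := at_num 2
  have hξv : v.At ξ (0 : k) := by
    rw [Place.at_zero_iff, Place.vanishes_iff_or, hξ, inv_inv]
    exact Or.inr hX
  have hη2 : η ^ 2 = ξ - 3 * α * ξ ^ 3 + B * ξ ^ 4 := by
    rw [hη, hξ, div_pow, hE]
    field_simp
  have hηv : v.At η (0 : k) := by
    rw [Place.at_zero_iff]
    refine v.vanishes_of_pow (n := 2) ?_
    rw [← Place.at_zero_iff, hη2]
    have := (hξv.sub ((h3.mul hα).mul (hξv.pow 3))).add (hB.mul (hξv.pow 4))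
    convert this using 1
    ring
  have hd : 1 - u * ξ ≠ 0 := by
    intro h0
    apply hXu
    rw [hξX]
    field_simp
    linear_combination h0
  have hdv : v.At (1 - u * ξ) (1 : k) := by
    have := (at_one (v := v)).sub (hu.mul hξv)
    rwa [mul_zero, sub_zero] at this
  have e1 : x₃ = (u + (u ^ 2 - 3 * α) * ξ + (B + w ^ 2 - u ^ 3) * ξ ^ 2 - 2 * η * w) /
      (1 - u * ξ) ^ 2 := by
    have hE' : η ^ 2 * X ^ 4 = X ^ 3 - 3 * α * X + B := by rw [← hE, hYη]; ring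
    have hd' : ξ = 1 / X := by rw [hξ, one_div]
    have hd'' : 1 - u * (1 / X) ≠ 0 := by rwa [← hd']
    have hd3 : (1 - u * (1 / X)) = (X - u) / X := by field_simp
    rw [hx₃, hd', hd3, hYη]
    field_simp
    linear_combination hE'
  have e2 : y₃ = -(w + ((3 * u ^ 2 - 3 * α) * η + (B + w ^ 2 - 2 * u ^ 3) * (η * ξ) -
      2 * w * (1 - 3 * α * ξ ^ 2 + B * ξ ^ 3) - w * ((3 * u ^ 2 - 3 * α) * ξ ^ 2 +
      (B + w ^ 2 - 2 * u ^ 3) * ξ ^ 3 - 2 * w * (η * ξ))) / (1 - u * ξ) ^ 3) := by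
    have hE' : η ^ 2 * X ^ 4 = X ^ 3 - 3 * α * X + B := by rw [← hE, hYη]; ring
    have hd' : ξ = 1 / X := by rw [hξ, one_div]
    have hd'' : 1 - u * (1 / X) ≠ 0 := by rwa [← hd']
    have hd3 : (1 - u * (1 / X)) = (X - u) / X := by field_simp
    have hlam : y₃ = -(w + (Y - w) / (X - u) * (x₃ - u)) := by
      rw [hy₃, ← hx₃]
      field_simp
      ring
    have hx3u : x₃ - u = ((3 * u ^ 2 - 3 * α) * X + B - 2 * Y * w + w ^ 2 - 2 * u ^ 3) /
        (X - u) ^ 2 := by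
      rw [hx₃]
      field_simp
      linear_combination hE
    rw [hlam, hx3u, hd', hd3, hYη]
    congr 2
    field_simp
    linear_combination (-2 * w) * hE'
  constructor
  · rw [e1]
    have := (((hu.add (((hu.pow 2).sub (h3.mul hα)).mul hξv)).add
      (((hB.add (hw.pow 2)).sub (hu.pow 3)).mul (hξv.pow 2))).sub
      ((h2.mul hηv).mul hw)).div (hdv.pow 2) (by simp)
    convert this using 1
    ring
  · rw [e2]
    have hA := ((h3.mul (hu.pow 2)).sub (h3.mul hα))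
    have hC := ((hB.add (hw.pow 2)).sub (h2.mul (hu.pow 3)))
    have := (hw.add ((((hA.mul hηv).add (hC.mul (hηv.mul hξv))).sub
      ((h2.mul hw).mul (((at_one (v := v)).sub ((h3.mul hα).mul (hξv.pow 2))).add
        (hB.mul (hξv.pow 3))))).sub (hw.mul (((hA.mul (hξv.pow 2)).add
        (hC.mul (hξv.pow 3))).sub ((h2.mul hw).mul (hηv.mul hξv)))) |>.div (hdv.pow 3)
        (by simp))).neg
    convert this using 1
    ring

/-- Adding points with different `x`-values: the chord formula. For every `α`, `B`. -/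
theorem add_chord {x₁ y₁ x₂ y₂ : Om k} {x₁' y₁' x₂' y₂' : k}
    {h₁ : (Ec α B).Nonsingular x₁ y₁} {h₂ : (Ec α B).Nonsingular x₂ y₂} (hx₁ : v.At x₁ x₁')
    (hy₁ : v.At y₁ y₁') (hx₂ : v.At x₂ x₂') (hy₂ : v.At y₂ y₂') (hne : x₁' ≠ x₂') :
    ∃ (x₃ y₃ : Om k) (h₃ : (Ec α B).Nonsingular x₃ y₃),
      (WeierstrassCurve.Affine.Point.some x₁ y₁ h₁ : (Ec α B).Point) +
        WeierstrassCurve.Affine.Point.some x₂ y₂ h₂ = WeierstrassCurve.Affine.Point.some x₃ y₃ h₃ ∧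
      v.At x₃ (((y₁' - y₂') / (x₁' - x₂')) ^ 2 - x₁' - x₂') ∧
      v.At y₃ (-(y₁' + (y₁' - y₂') / (x₁' - x₂') *
        ((((y₁' - y₂') / (x₁' - x₂')) ^ 2 - x₁' - x₂') - x₁'))) := by
  have hne' : x₁ ≠ x₂ := by
    rintro rfl
    exact hne (hx₁.unique hx₂)
  obtain ⟨c1, c2⟩ := chord_eq (α := α) (B := B) (y₁ := y₁) (y₂ := y₂) hne'
  refine ⟨_, _, _, WeierstrassCurve.Affine.Point.add_of_X_ne hne', ?_, ?_⟩
  · rw [c1]
    exact ((((hy₁.sub hy₂).div (hx₁.sub hx₂) (sub_ne_zero.2 hne)).pow 2).sub hx₁).sub hx₂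
  · rw [c2]
    have hl := (hy₁.sub hy₂).div (hx₁.sub hx₂) (sub_ne_zero.2 hne)
    exact (hy₁.add (hl.mul ((((hl.pow 2).sub hx₁).sub hx₂).sub hx₁))).neg

end Pool.Agent.GT
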