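import Pool.Agent.GT.Tr

/-!
# Equations of the image as identities of polynomials
-/

set_option autoImplicit false

noncomputable section

namespace Pool.Agent.GT

open Pool.Agent.ZCyc Pool.Agent.Dess Polynomial
open Pool.Agent.VFP (Om tt)
open scoped Classical LinearAlgebra.Projectivization

variable {k : Type} [Field k] {m : ℕ} {A : Type} [CommRing A] [Algebra k A]

/-- the value of a polynomial in `T` and `x` for a homomorphism `S`, a root `θ` and `x` -/
def ev2 {K : Type} [Field K] (S : A →+* K) (θ x : K) (p : Polynomial (Polynomial A)) : K :=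
  (p.map (Polynomial.eval₂RingHom S θ)).eval x

private theorem ev2_add {K : Type} [Field K] (S : A →+* K) (θ x : K)
    (p q : Polynomial (Polynomial A)) : ev2 S θ x (p + q) = ev2 S θ x p + ev2 S θ x q := by
  rw [ev2, Polynomial.map_add, Polynomial.eval_add]
  rfl

private theorem ev2_mul {K : Type} [Field K] (S : A →+* K) (θ x : K)
    (p q : Polynomial (Polynomial A)) : ev2 S θ x (p * q) = ev2 S θ x p * ev2 S θ x q := by
  rw [ev2, Polynomial.map_mul, Polynomial.eval_mul]
  rfl

private theorem ev2_CC {K : Type} [Field K] (S : A →+* K) (θ x : K) (r : A) :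
    ev2 S θ x (C (C r)) = S r := by
  rw [ev2, Polynomial.map_C, Polynomial.eval_C, Polynomial.coe_eval₂RingHom, Polynomial.eval₂_C]

private theorem ev2_X {K : Type} [Field K] (S : A →+* K) (θ x : K) :
    ev2 S θ x X = x := by
  rw [ev2, Polynomial.map_X, Polynomial.eval_X]

private theorem ev2_zero {K : Type} [Field K] (S : A →+* K) (θ x : K) :
    ev2 S θ x 0 = 0 := by
  rw [ev2, Polynomial.map_zero, Polynomial.eval_zero]

/-- For every polynomial `f` in the coordinates there are polynomials `a`, `b` in `T` and `x` such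
that `f(G + H y) = a + b y` on the curve, for all homomorphisms and all `θ`, `x`, `y`. Proof:
induction on `f` (`MvPolynomial.induction_on`); for products use `y ² = x ³ - 3 α x + B`. -/
theorem exists_ab (d : GD A m) (f : MvPolynomial (Fin (m + 1)) k) :
    ∃ a b : Polynomial (Polynomial A), ∀ (K : Type) [Field K] [Algebra k K] (S : A →ₐ[k] K)
      (θ x y : K), y ^ 2 = x ^ 3 - 3 * S d.α * x + S d.B →
      MvPolynomial.aeval ((d.mp (S : A →+* K) θ).co x y) f =
        ev2 (S : A →+* K) θ x a + ev2 (S : A →+* K) θ x b * y := by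
  induction f using MvPolynomial.induction_on with
  | C r =>
    refine ⟨C (C (algebraMap k A r)), 0, ?_⟩
    intro K _ _ S θ x y _
    rw [MvPolynomial.aeval_C, ev2_CC, ev2_zero, zero_mul, add_zero]
    exact (S.commutes r).symm
  | add f g hf hg =>
    obtain ⟨a, b, h1⟩ := hf
    obtain ⟨a', b', h2⟩ := hg
    refine ⟨a + a', b + b', ?_⟩
    intro K _ _ S θ x y hy
    rw [map_add, h1 K S θ x y hy, h2 K S θ x y hy, ev2_add, ev2_add]
    ring
  | mul_X f i hf =>
    obtain ⟨a, b, h1⟩ := hf
    refine ⟨a * d.G i + b * d.H i * (X * X * X + C (C (-3 * d.α)) * X + C (C d.B)),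
      a * d.H i + b * d.G i, ?_⟩
    intro K _ _ S θ x y hy
    rw [map_mul, h1 K S θ x y hy, MvPolynomial.aeval_X]
    have hco : (d.mp (S : A →+* K) θ).co x y i =
        ev2 (S : A →+* K) θ x (d.G i) + ev2 (S : A →+* K) θ x (d.H i) * y := rfl
    have hS : (S : A →+* K) (-3 * d.α) = -3 * S d.α := by
      change S (-3 * d.α) = _
      rw [map_mul, map_neg, map_ofNat]
    have hB : (S : A →+* K) d.B = S d.B := rfl
    rw [hco]
    simp only [ev2_add, ev2_mul, ev2_CC, ev2_X, hS, hB]
    linear_combination (ev2 (S : A →+* K) θ x b * ev2 (S : A →+* K) θ x (d.H i)) * hy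

/-- If `a(x) + b(x) y = 0` at all points of a curve `y ² = x ³ - 3 α x + B` over an algebraically
closed field then `a = b = 0` (`a ² - b ² (x ³ - 3 α x + B)` has infinitely many zeros; the degrees of
the terms have different parity). -/
theorem ab_zero {K : Type} [Field K] [IsAlgClosed K] (α B : K) (a b : Polynomial K)
    (h : ∀ x y : K, y ^ 2 = x ^ 3 - 3 * α * x + B → a.eval x + b.eval x * y = 0) :
    a = 0 ∧ b = 0 := by
  have hc : (X ^ 3 - C (3 * α) * X + C B : K[X]).natDegree = 3 := by
    compute_degree!
  have hc0 : (X ^ 3 - C (3 * α) * X + C B : K[X]) ≠ 0 := by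
    intro h0
    rw [h0, Polynomial.natDegree_zero] at hc
    omega
  have key : a ^ 2 = b ^ 2 * (X ^ 3 - C (3 * α) * X + C B) := by
    apply Polynomial.funext
    intro x
    obtain ⟨y, hy⟩ := IsAlgClosed.exists_pow_nat_eq (x ^ 3 - 3 * α * x + B) (n := 2) (by norm_num)
    have h1 := h x y hy
    simp only [Polynomial.eval_pow, Polynomial.eval_mul, Polynomial.eval_add, Polynomial.eval_sub,
      Polynomial.eval_X, Polynomial.eval_C]
    linear_combination (a.eval x - b.eval x * y) * h1 + b.eval x ^ 2 * hy
  have hb : b = 0 := by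
    by_contra hb
    have h1 := congrArg Polynomial.natDegree key
    rw [Polynomial.natDegree_pow, Polynomial.natDegree_mul (pow_ne_zero 2 hb) hc0,
      Polynomial.natDegree_pow, hc] at h1
    omega
  refine ⟨?_, hb⟩
  rw [hb, zero_pow two_ne_zero, zero_mul] at key
  exact pow_eq_zero_iff two_ne_zero |>.1 key

/-- `h` is monic over the domain `A ⊆ L`, separable over the field `L`; a polynomial `c` over `A`
which vanishes at all roots of `h` in an algebraic closure of `L` vanishes at all roots of `h` under
all homomorphisms of `A` to fields: `h` divides `c` over `L`, so it divides `c` over `A`. -/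
theorem dvd_of_roots {L : Type} [Field L] {Ω : Type} [Field Ω] [IsAlgClosed Ω] (i : A →+* L)
    (hi : Function.Injective i) (j : L →+* Ω) {h c : Polynomial A} (hm : h.Monic)
    (hs : (h.map i).Separable) (hc : ∀ θ : Ω, (h.map (j.comp i)).eval θ = 0 →
      (c.map (j.comp i)).eval θ = 0) : h ∣ c := by
  by_cases h1 : h = 1
  · rw [h1]
    exact one_dvd c
  have hinj : Function.Injective (j.comp i) := j.injective.comp hi
  have hsep : (h.map (j.comp i)).Separable := by
    rw [← Polynomial.map_map]
    exact hs.map
  have hcard : (h.map (j.comp i)).roots.toFinset.card = h.natDegree := by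
    rw [Multiset.toFinset_card_of_nodup (Polynomial.nodup_roots hsep),
      ← (IsAlgClosed.splits (h.map (j.comp i))).natDegree_eq_card_roots,
      Polynomial.natDegree_map_eq_of_injective hinj]
  have hr : (c %ₘ h).map (j.comp i) = 0 := by
    refine Polynomial.eq_zero_of_natDegree_lt_card_of_eval_eq_zero' _
      (h.map (j.comp i)).roots.toFinset ?_ ?_
    · intro θ hθ
      rw [Multiset.mem_toFinset, Polynomial.mem_roots', Polynomial.IsRoot.def] at hθ
      have h2 := hc θ hθ.2
      conv at h2 => lhs; rw [← Polynomial.modByMonic_add_div c h]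
      rw [Polynomial.map_add, Polynomial.map_mul, Polynomial.eval_add, Polynomial.eval_mul,
        hθ.2, zero_mul, add_zero] at h2
      exact h2
    · rw [hcard]
      exact (Polynomial.natDegree_map_le).trans_lt (Polynomial.natDegree_modByMonic_lt c hm h1)
  rw [← Polynomial.modByMonic_eq_zero_iff_dvd hm]
  exact (Polynomial.map_eq_zero_iff hinj).1 hr

end Pool.Agent.GT
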