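import Pool.Agent.GT.Curve
import Pool.Agent.ZC.Iso

/-!
# Scaling of the curve
-/

set_option autoImplicit false

noncomputable section

namespace Pool.Agent.GT

open Pool.Agent.ZCyc Pool.Agent.Dess Polynomial
open Pool.Agent.VFP (Om tt)
open scoped Classical LinearAlgebra.Projectivization

variable {K : Type} [Field K] [CharZero K] {m : ℕ} {α B : K}

omit [CharZero K] in
private theorem sclA_chg {c : K} (hc : c ≠ 0) :
    ZC.IsoChg (Ec α B) (Ec (α / c ^ 4) (B / c ^ 6)) c⁻¹ 0 0 0 where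
  w0 := inv_ne_zero hc
  e1 := by simp [Ec]
  e2 := by simp [Ec]
  e3 := by simp [Ec]
  e4 := by
    simp only [Ec]
    field_simp
    ring
  e6 := by
    simp only [Ec]
    field_simp
    ring

private theorem sclA_disc (hd : B ^ 2 ≠ 4 * α ^ 3) {c : K} (hc : c ≠ 0) :
    (B / c ^ 6) ^ 2 ≠ 4 * (α / c ^ 4) ^ 3 := by
  intro h
  apply hd
  field_simp at h
  linear_combination h

private theorem sclA_delta (hd : B ^ 2 ≠ 4 * α ^ 3) : (Ec α B : WeierstrassCurve K).Δ ≠ 0 := by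
  intro h
  apply hd
  simp only [Ec, WeierstrassCurve.Δ, WeierstrassCurve.b₂, WeierstrassCurve.b₄,
    WeierstrassCurve.b₆, WeierstrassCurve.b₈] at h
  have h432 : (-432 : K) ≠ 0 := by norm_num
  apply mul_left_cancel₀ h432
  linear_combination h

/-- The isomorphism `(x, y) ↦ (x / c ², y / c ³)` of the curve with the coefficients `α`, `B` to the
curve with the coefficients `α / c ⁴`, `B / c ⁶`. -/
theorem exists_sclEquiv (hd : B ^ 2 ≠ 4 * α ^ 3) {c : K} (hc : c ≠ 0) :
    ∃ e : (Ec α B).Point ≃+ (Ec (α / c ^ 4) (B / c ^ 6)).Point,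
      ∀ (x y : K) (h : (Ec α B).Nonsingular x y),
        ∃ h' : (Ec (α / c ^ 4) (B / c ^ 6)).Nonsingular (x / c ^ 2) (y / c ^ 3),
          e (.some x y h) = .some (x / c ^ 2) (y / c ^ 3) h' := by
  have hchg := sclA_chg (α := α) (B := B) hc
  have hW := sclA_delta (sclA_disc hd hc)
  have hx : ∀ x : K, c⁻¹ ^ 2 * x + 0 = x / c ^ 2 := fun x => by
    field_simp
    ring
  have hy : ∀ x y : K, c⁻¹ ^ 3 * y + 0 * c⁻¹ ^ 2 * x + 0 = y / c ^ 3 := fun x y => by
    field_simp
    ring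
  have hval : ∀ (x y : K) (h : (Ec α B).Nonsingular x y),
        ∃ h' : (Ec (α / c ^ 4) (B / c ^ 6)).Nonsingular (x / c ^ 2) (y / c ^ 3),
          hchg.hom hW (.some x y h) = .some (x / c ^ 2) (y / c ^ 3) h' := by
    intro x y h
    have h1 := hchg.fn_some hW h
    have h2 : (Ec (α / c ^ 4) (B / c ^ 6)).Nonsingular (x / c ^ 2) (y / c ^ 3) := by
      have h3 := (WeierstrassCurve.Affine.equation_iff_nonsingular_of_Δ_ne_zero hW).mp
        (hchg.equation h.1)
      rw [hx, hy] at h3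
      exact h3
    refine ⟨h2, ?_⟩
    refine h1.trans ?_
    rw [WeierstrassCurve.Affine.Point.some.injEq]
    exact ⟨hx x, hy x y⟩
  have hsurj : Function.Surjective (hchg.hom hW) := by
    intro Q
    rcases Q with _ | ⟨X, Y, h⟩
    · exact ⟨0, map_zero _⟩
    · have heq : (c ^ 3 * Y) ^ 2 = (c ^ 2 * X) ^ 3 - 3 * α * (c ^ 2 * X) + B := by
        have h1 := eqn_iff.1 h.1
        have h2 : c ^ 6 * Y ^ 2 = c ^ 6 * (X ^ 3 - 3 * (α / c ^ 4) * X + B / c ^ 6) := by rw [h1]
        have h3 : c ^ 6 * (X ^ 3 - 3 * (α / c ^ 4) * X + B / c ^ 6) =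
            (c ^ 2 * X) ^ 3 - 3 * α * (c ^ 2 * X) + B := by
          field_simp
        rw [h3] at h2
        rw [← h2]
        ring
      obtain ⟨h', hh'⟩ := hval (c ^ 2 * X) (c ^ 3 * Y)
        ((WeierstrassCurve.Affine.equation_iff_nonsingular_of_Δ_ne_zero (sclA_delta hd)).mp
          (eqn_iff.2 heq))
      refine ⟨_, hh'.trans ?_⟩
      rw [WeierstrassCurve.Affine.Point.some.injEq]
      constructor
      · field_simp
      · field_simp
  exact ⟨AddEquiv.ofBijective (hchg.hom hW) ⟨hchg.fn_injective hW, hsurj⟩, hval⟩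

/-- the isomorphism `(x, y) ↦ (x / c ², y / c ³)` -/
def sclE (hd : B ^ 2 ≠ 4 * α ^ 3) {c : K} (hc : c ≠ 0) :
    (Ec α B).Point ≃+ (Ec (α / c ^ 4) (B / c ^ 6)).Point := (exists_sclEquiv hd hc).choose

theorem sclE_some (hd : B ^ 2 ≠ 4 * α ^ 3) {c : K} (hc : c ≠ 0) (x y : K)
    (h : (Ec α B).Nonsingular x y) :
    ∃ h' : (Ec (α / c ^ 4) (B / c ^ 6)).Nonsingular (x / c ^ 2) (y / c ^ 3),
      sclE hd hc (.some x y h) = .some (x / c ^ 2) (y / c ^ 3) h' :=
  (exists_sclEquiv hd hc).choose_spec x y h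

/-- the coordinates of the map in the new coordinates of the curve, multiplied by a constant `l` -/
def Mp.scl (M : Mp K m) (c l : K) : Mp K m :=
  ⟨fun i => C l * (M.G i).comp (C (c ^ 2) * Polynomial.X),
    fun i => C (l * c ^ 3) * (M.H i).comp (C (c ^ 2) * Polynomial.X)⟩

theorem co_scl (M : Mp K m) {c : K} (hc : c ≠ 0) (l x y : K) (i : Fin (m + 1)) :
    (M.scl c l).co (x / c ^ 2) (y / c ^ 3) i = l * M.co x y i := by
  have h1 : c ^ 2 * (x / c ^ 2) = x := by field_simp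
  simp only [Mp.scl, Mp.co, eval_mul, eval_C, eval_comp, eval_X]
  rw [h1]
  field_simp

omit [CharZero K] in
private theorem sclA_comp {p : K[X]} {a : K} (ha : a ≠ 0)
    (h : p.comp (C a * Polynomial.X) = 0) : p = 0 := by
  have h1 : (p.comp (C a * Polynomial.X)).comp (C a⁻¹ * Polynomial.X) = p := by
    rw [comp_assoc]
    have h2 : (C a * Polynomial.X : K[X]).comp (C a⁻¹ * Polynomial.X) = Polynomial.X := by
      rw [mul_comp, C_comp, X_comp, ← mul_assoc, ← C_mul, mul_inv_cancel₀ ha, C_1, one_mul]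
    rw [h2, comp_X]
  rw [← h1, h, zero_comp]

theorem ok_scl {k : Type} [Field k] [Algebra k K] {X : Set (MvPolynomial (Fin (m + 1)) k)}
    (hX : Hom X) {M : Mp K m} (hM : M.Ok α B X) {c l : K} (hc : c ≠ 0) (hl : l ≠ 0) :
    (M.scl c l).Ok (α / c ^ 4) (B / c ^ 6) X where
  disc := sclA_disc hM.disc hc
  ne := by
    obtain ⟨i, hi⟩ := hM.ne
    refine ⟨i, ?_⟩
    rcases hi with hi | hi
    · left
      intro h0
      apply hi
      have h1 : C l * (M.G i).comp (C (c ^ 2) * Polynomial.X) = 0 := h0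
      have h2 := (mul_eq_zero.1 h1).resolve_left (fun h => hl (C_eq_zero.1 h))
      exact sclA_comp (pow_ne_zero 2 hc) h2
    · right
      intro h0
      apply hi
      have h1 : C (l * c ^ 3) * (M.H i).comp (C (c ^ 2) * Polynomial.X) = 0 := h0
      have h2 := (mul_eq_zero.1 h1).resolve_left
        (fun h => mul_ne_zero hl (pow_ne_zero 3 hc) (C_eq_zero.1 h))
      exact sclA_comp (pow_ne_zero 2 hc) h2
  onX := by
    intro f hf x y hxy
    have h1 : (M.scl c l).co x y = fun i => l * M.co (c ^ 2 * x) (c ^ 3 * y) i := by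
      funext i
      rw [← co_scl M hc l]
      congr 1
      · field_simp
      · field_simp
    have heq : (c ^ 3 * y) ^ 2 = (c ^ 2 * x) ^ 3 - 3 * α * (c ^ 2 * x) + B := by
      have h2 : c ^ 6 * y ^ 2 = c ^ 6 * (x ^ 3 - 3 * (α / c ^ 4) * x + B / c ^ 6) := by rw [hxy]
      have h3 : c ^ 6 * (x ^ 3 - 3 * (α / c ^ 4) * x + B / c ^ 6) =
          (c ^ 2 * x) ^ 3 - 3 * α * (c ^ 2 * x) + B := by
        field_simp
      rw [h3] at h2
      rw [← h2]
      ring
    obtain ⟨d, hd⟩ := hX f hf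
    rw [h1, aeval_smul_homog hd]
    rw [hM.onX f hf (c ^ 2 * x) (c ^ 3 * y) heq, mul_zero]

end Pool.Agent.GT
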