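import Pool.Agent.GT.FinI
import Pool.Agent.ZIso.SFT

/-!
# Elements of the group algebra of the symmetric group

If the alternating sums over `N` factors are zero, then every element of the group algebra of the
symmetric group `S_r` which acts as zero on the tensor power `V ^ ⊗ r` of a vector space `V` of
dimension `N - 1` acts as zero on the products of `r` cycles.
-/

set_option autoImplicit false

noncomputable section

namespace Pool.Agent.GT

open Pool.Agent.ZCyc Pool.Agent.Dess Pool.Agent.TInc Pool.Agent.ZIso
open Pool.Agent.VFP (Om tt)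
open scoped Classical LinearAlgebra.Projectivization

private theorem sf_apply {T : Type} {n : ℕ} (z : Fin n → (T →₀ ℚ)) (x : Fin n → T) :
    ext z x = ∏ j, z j (x j) := by
  unfold ext
  rw [Finsupp.finsetSum_apply]
  simp only [Finsupp.single_apply]
  rw [Finset.sum_ite_eq' (Fintype.piFinset fun j => (z j).support) x (fun x => ∏ j, z j (x j))]
  split_ifs with h
  · rfl
  · rw [Fintype.mem_piFinset] at h
    push Not at h
    obtain ⟨j, hj⟩ := h
    have h0 : z j (x j) = 0 := Finsupp.notMem_support_iff.1 hj
    exact (Finset.prod_eq_zero (Finset.mem_univ j) h0).symm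

/-- Insertion of constant factors and exterior products. -/
private theorem sf_ins {T : Type} {N r : ℕ} (e : Fin N ↪ Fin r) (c : Fin r → T)
    (z : Fin N → (T →₀ ℚ)) :
    ext (Function.extend e z fun j => Finsupp.single (c j) 1) =
      Finsupp.mapDomain (fun x => Function.extend e x c) (ext z) := by
  have hinj : Function.Injective (fun x : Fin N → T => Function.extend e x c) := by
    intro a b hab
    funext i
    have h1 := congrFun hab (e i)
    simpa [e.injective.extend_apply] using h1
  refine Finsupp.ext fun y => ?_
  rw [sf_apply]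
  by_cases hy : ∀ j, (¬ ∃ a, e a = j) → y j = c j
  · have h1 : y = Function.extend e (fun a => y (e a)) c := by
      funext j
      by_cases hj : ∃ a, e a = j
      · obtain ⟨a, rfl⟩ := hj
        rw [e.injective.extend_apply]
      · rw [Function.extend_apply' _ _ _ hj]
        exact hy j hj
    have h2 : Finsupp.mapDomain (fun x : Fin N → T => Function.extend e x c) (ext z) y =
        ext z (fun a => y (e a)) := by
      conv_lhs => rw [h1]
      exact Finsupp.mapDomain_apply hinj (ext z) (fun a => y (e a))
    rw [h2, sf_apply, ← Finset.prod_subset (Finset.subset_univ (Finset.univ.map e))]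
    · rw [Finset.prod_map]
      exact Finset.prod_congr rfl fun a _ => by rw [e.injective.extend_apply]
    · intro j _ hj
      have hj' : ¬ ∃ a, e a = j := by
        rintro ⟨a, rfl⟩
        exact hj (Finset.mem_map_of_mem e (Finset.mem_univ a))
      rw [Function.extend_apply' _ _ _ hj', hy j hj', Finsupp.single_eq_same]
  · push Not at hy
    obtain ⟨j, hj, hne⟩ := hy
    have hj' : ¬ ∃ a, e a = j := fun ⟨a, ha⟩ => hj a ha
    rw [Finset.prod_eq_zero (Finset.mem_univ j), Finsupp.mapDomain_of_notMem_range]
    · rintro ⟨x, hx⟩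
      apply hne
      rw [← hx]
      exact Function.extend_apply' _ _ _ hj'
    · rw [Function.extend_apply' _ _ _ hj']
      exact Finsupp.single_eq_of_ne hne

variable {k : Type} [Field k] {m : ℕ} {X : Set (MvPolynomial (Fin (m + 1)) k)}

/-- Insertion of constant factors and rational equivalence. -/
private theorem sf_rat (hX : Hom X) {N r : ℕ} (e : Fin N ↪ Fin r) (c : Fin r → Pt X k) :
    Rat X (Fin N) ≤ Submodule.comap
      (Finsupp.lmapDomain ℚ ℚ fun x : Fin N → Pt X k => Function.extend e x c) (Rat X (Fin r)) := by
  refine Submodule.span_le.2 ?_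
  rintro _ ⟨K, i1, i2, i3, xK, y, f, D, hf, hD, hval, rfl⟩
  change Finsupp.lmapDomain ℚ ℚ (fun x : Fin N → Pt X k => Function.extend e x c) _ ∈
    Rat X (Fin r)
  rw [map_finsuppSum]
  refine Submodule.subset_span ⟨K, i1, i2, i3, Function.extend e xK
    (fun i => (c i).map (Algebra.ofId k K) hX),
    fun v => Function.extend e (y v) c, f, D, hf, hD, fun v i => ?_, ?_⟩
  · by_cases h : ∃ a, e a = i
    · obtain ⟨a, rfl⟩ := h
      change IsVal v _ (Function.extend e (y v) c (e a))
      rw [e.injective.extend_apply, e.injective.extend_apply]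
      exact hval v a
    · change IsVal v _ (Function.extend e (y v) c i)
      rw [Function.extend_apply' _ _ _ h, Function.extend_apply' _ _ _ h]
      exact isVal_const
  · refine Finsupp.sum_congr fun v _ => ?_
    rw [Finsupp.lmapDomain_apply, Finsupp.mapDomain_single]

variable [IsAlgClosed k] [CharZero k]

omit [IsAlgClosed k] [CharZero k] in
private theorem sf_surj : Function.Surjective (cl1 X) := by
  intro c
  obtain ⟨w, rfl⟩ := Submodule.Quotient.mk_surjective _ c
  refine ⟨Finsupp.mapDomain (fun x => x ()) w, ?_⟩
  change Submodule.Quotient.mk (Finsupp.mapDomain (fun x _ => x)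
    (Finsupp.mapDomain (fun x => x ()) w)) = _
  rw [← Finsupp.mapDomain_comp]
  have h3 : ((fun (x : Pt X k) (_ : Unit) => x) ∘ fun x : Unit → Pt X k => x ()) = id := rfl
  rw [h3, Finsupp.mapDomain_id]

/-- The linear map of Chow groups for the insertion of constant factors. -/
private theorem sf_lin (hX : Hom X) {N r : ℕ} (e : Fin N ↪ Fin r) (c : Fin r → Pt X k) :
    ∃ I : CH X (Fin N) →ₗ[ℚ] CH X (Fin r), ∀ v : Fin N → CH X Unit,
      Ext hX r (Function.extend e v fun j => cl1 X (Finsupp.single (c j) 1)) =
        I (Ext hX N v) := by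
  refine ⟨(Rat X (Fin N)).mapQ (Rat X (Fin r)) _ (sf_rat hX e c), fun v => ?_⟩
  choose z hz using fun a => sf_surj (v a)
  have h1 : v = fun a => cl1 X (z a) := funext fun a => (hz a).symm
  have h2 : (Function.extend e v fun j => cl1 X (Finsupp.single (c j) 1)) =
      fun j => cl1 X (Function.extend e z (fun j => Finsupp.single (c j) 1) j) := by
    funext j
    by_cases h : ∃ a, e a = j
    · obtain ⟨a, rfl⟩ := h
      rw [e.injective.extend_apply, e.injective.extend_apply, h1]
    · rw [Function.extend_apply' _ _ _ h, Function.extend_apply' _ _ _ h]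
  rw [h2, Ext_cl, h1, Ext_cl, Submodule.mapQ_apply, sf_ins]
  rfl

private theorem sum_fixing {M : Type*} [AddCommMonoid M] {r : ℕ} {J : Finset (Fin r)} {n : ℕ}
    (hJ : J.card = n) (g : Equiv.Perm (Fin r) → M) :
    ∑ π ∈ fixing J, g π = ∑ τ : Equiv.Perm (Fin n),
      g (τ.extendDomain (J.orderIsoOfFin hJ).toEquiv) := by
  symm
  refine Finset.sum_bij (fun τ _ => τ.extendDomain (J.orderIsoOfFin hJ).toEquiv) ?_ ?_ ?_ ?_
  · intro τ _
    unfold fixing
    rw [Finset.mem_filter]
    refine ⟨Finset.mem_univ _, fun i hi => ?_⟩
    exact Equiv.Perm.extendDomain_apply_not_subtype τ _ hi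
  · intro τ _ τ' _ h
    exact Equiv.Perm.extendDomainHom_injective (J.orderIsoOfFin hJ).toEquiv h
  · intro π hπ
    unfold fixing at hπ
    rw [Finset.mem_filter] at hπ
    have hmem : ∀ i, π i ∈ J ↔ i ∈ J := by
      intro i
      constructor
      · intro h
        by_contra hn
        rw [hπ.2 i hn] at h
        exact hn h
      · intro h
        by_contra hn
        have h2 := hπ.2 _ hn
        have h3 := π.injective h2
        rw [h3] at hn
        exact hn h
    refine ⟨(J.orderIsoOfFin hJ).toEquiv.permCongr.symm (π.subtypePerm hmem),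
      Finset.mem_univ _, ?_⟩
    refine Equiv.ext fun i => ?_
    by_cases hi : i ∈ J
    · obtain ⟨a, ha⟩ := (J.orderIsoOfFin hJ).toEquiv.surjective ⟨i, hi⟩
      have h1 : i = ((J.orderIsoOfFin hJ).toEquiv a : Fin r) := by rw [ha]
      conv_lhs => rw [h1]
      rw [Equiv.Perm.extendDomain_apply_image]
      simp [Equiv.permCongr, Equiv.equivCongr, ha]
    · rw [Equiv.Perm.extendDomain_apply_not_subtype _ _ hi, hπ.2 i hi]
  · intro τ _
    rfl

/-- Alternating sums over the factors in `J`. -/
private theorem sf_fixing (hX : Hom X) {N r : ℕ} {J : Finset (Fin r)} (hJ : J.card = N)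
    (w : Fin r → CH X Unit)
    (h0 : Alt (Ext hX N) (fun a => w ((J.orderIsoOfFin hJ).toEquiv a : Fin r)) = 0) :
    ∑ π ∈ fixing J, ((Equiv.Perm.sign π : ℤ) : ℚ) • Ext hX r (w ∘ ⇑π) = 0 := by
  set e : Fin N ↪ Fin r := ⟨fun a => ((J.orderIsoOfFin hJ).toEquiv a : Fin r),
    fun _ _ h => (J.orderIsoOfFin hJ).toEquiv.injective (Subtype.ext h)⟩ with he
  have hmem : ∀ j, (∃ a, e a = j) ↔ j ∈ J := by
    intro j
    constructor
    · rintro ⟨a, rfl⟩
      exact ((J.orderIsoOfFin hJ).toEquiv a).2
    · intro hj
      obtain ⟨a, ha⟩ := (J.orderIsoOfFin hJ).toEquiv.surjective ⟨j, hj⟩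
      exact ⟨a, by show (((J.orderIsoOfFin hJ).toEquiv a : Fin r)) = j; rw [ha]⟩
  -- the outer factors are points, for `j ∉ T`
  have key : ∀ (T : Finset (Fin r)) (w : Fin r → CH X Unit),
      (∀ j ∉ T, j ∉ J → ∃ x, w j = cl1 X (Finsupp.single x 1)) →
      Alt (Ext hX N) (fun a => w (e a)) = 0 →
      ∑ τ : Equiv.Perm (Fin N), ((Equiv.Perm.sign τ : ℤ) : ℚ) •
        Ext hX r (w ∘ ⇑(τ.extendDomain (J.orderIsoOfFin hJ).toEquiv)) = 0 := by
    intro T
    induction T using Finset.induction_on with
    | empty =>
      intro w hw h0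
      by_cases hne : Nonempty (Pt X k)
      · obtain ⟨p⟩ := hne
        have h1 : ∀ j, ∃ x, j ∉ J → w j = cl1 X (Finsupp.single x 1) := by
          intro j
          by_cases h : j ∈ J
          · exact ⟨p, fun h' => absurd h h'⟩
          · obtain ⟨x, hx⟩ := hw j (Finset.notMem_empty j) h
            exact ⟨x, fun _ => hx⟩
        choose c hc using h1
        obtain ⟨I, hI⟩ := sf_lin hX e c
        have h2 : ∀ τ : Equiv.Perm (Fin N),
            w ∘ ⇑(τ.extendDomain (J.orderIsoOfFin hJ).toEquiv) =
              Function.extend e (fun a => w (e (τ a)))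
                fun j => cl1 X (Finsupp.single (c j) 1) := by
          intro τ
          funext j
          by_cases h : ∃ a, e a = j
          · obtain ⟨a, rfl⟩ := h
            rw [e.injective.extend_apply, Function.comp_apply]
            exact congrArg w (Equiv.Perm.extendDomain_apply_image τ _ a)
          · have hj : j ∉ J := fun hj => h ((hmem j).2 hj)
            rw [Function.extend_apply' _ _ _ h, Function.comp_apply,
              Equiv.Perm.extendDomain_apply_not_subtype τ _ hj]
            exact hc j hj
        rw [Finset.sum_congr rfl fun τ _ => by rw [h2 τ, hI]]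
        rw [Alt_apply] at h0
        have h3 := congrArg I h0
        rw [map_sum, map_zero] at h3
        rw [← h3]
        refine Finset.sum_congr rfl fun τ _ => ?_
        rw [map_zsmul, Int.cast_smul_eq_zsmul]
      · have hz : ∀ x : CH X Unit, x = 0 := by
          intro x
          obtain ⟨z, rfl⟩ := sf_surj x
          have : z = 0 := by
            ext q
            exact absurd ⟨q⟩ hne
          rw [this, map_zero]
        rcases Nat.eq_zero_or_pos r with hr | hr
        · subst hr
          have hJ0 : J = ∅ := by
            apply Finset.eq_empty_of_isEmpty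
          have hN : N = 0 := by rw [← hJ, hJ0, Finset.card_empty]
          subst hN
          obtain ⟨I, hI⟩ := sf_lin hX e (fun j => j.elim0)
          have h2 : ∀ τ : Equiv.Perm (Fin 0),
              w ∘ ⇑(τ.extendDomain (J.orderIsoOfFin hJ).toEquiv) =
                Function.extend e (fun a => w (e (τ a)))
                  fun j => cl1 X (Finsupp.single ((fun j => j.elim0 : Fin 0 → Pt X k) j) 1) :=
            fun τ => funext fun j => j.elim0
          rw [Finset.sum_congr rfl fun τ _ => by rw [h2 τ, hI]]
          rw [Alt_apply] at h0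
          have h3 := congrArg I h0
          rw [map_sum, map_zero] at h3
          rw [← h3]
          refine Finset.sum_congr rfl fun τ _ => ?_
          rw [map_zsmul, Int.cast_smul_eq_zsmul]
        · refine Finset.sum_eq_zero fun τ _ => ?_
          rw [MultilinearMap.map_coord_zero (Ext hX r) ⟨0, hr⟩ (hz _), smul_zero]
    | insert a T _ ih =>
      intro w hw h0
      by_cases haJ : a ∈ J
      · refine ih w (fun j hj hjJ => hw j (fun h => ?_) hjJ) h0
        rcases Finset.mem_insert.1 h with h | h
        · exact hjJ (h ▸ haJ)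
        · exact hj h
      · obtain ⟨z, hz⟩ := sf_surj (w a)
        have hna : ∀ b, e b ≠ a := fun b hb => haJ ((hmem a).1 ⟨b, hb⟩)
        have hcomp : ∀ (u : CH X Unit) (τ : Equiv.Perm (Fin N)),
            (Function.update w a u) ∘ ⇑(τ.extendDomain (J.orderIsoOfFin hJ).toEquiv) =
              Function.update (w ∘ ⇑(τ.extendDomain (J.orderIsoOfFin hJ).toEquiv)) a u := by
          intro u τ
          funext j
          rw [Function.comp_apply]
          by_cases hj : j = a
          · subst hj
            rw [Equiv.Perm.extendDomain_apply_not_subtype τ _ haJ, Function.update_self,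
              Function.update_self]
          · have h1 : τ.extendDomain (J.orderIsoOfFin hJ).toEquiv j ≠ a := by
              intro h1
              apply hj
              apply (τ.extendDomain (J.orderIsoOfFin hJ).toEquiv).injective
              rw [h1, Equiv.Perm.extendDomain_apply_not_subtype τ _ haJ]
            rw [Function.update_of_ne h1, Function.update_of_ne hj]
            rfl
        have key2 : ∀ z : Pt X k →₀ ℚ, ∑ τ : Equiv.Perm (Fin N), ((Equiv.Perm.sign τ : ℤ) : ℚ) •
            Ext hX r (Function.update (w ∘ ⇑(τ.extendDomain (J.orderIsoOfFin hJ).toEquiv)) a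
              (cl1 X z)) = 0 := by
          intro z
          induction z using Finsupp.induction_linear with
          | zero =>
            refine Finset.sum_eq_zero fun τ _ => ?_
            rw [map_zero, MultilinearMap.map_update_zero, smul_zero]
          | add u u' hu hu' =>
            rw [Finset.sum_congr rfl fun τ _ => by
              rw [map_add, MultilinearMap.map_update_add, smul_add], Finset.sum_add_distrib, hu,
              hu', add_zero]
          | single p c =>
            have h1 : Finsupp.single p c = c • Finsupp.single p (1 : ℚ) := by simp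
            rw [Finset.sum_congr rfl fun τ _ => by
              rw [h1, map_smul, MultilinearMap.map_update_smul, smul_comm], ← Finset.smul_sum]
            have h2 := ih (Function.update w a (cl1 X (Finsupp.single p 1))) (fun j hj hjJ => by
              by_cases hja : j = a
              · subst hja
                exact ⟨p, Function.update_self _ _ _⟩
              · rw [Function.update_of_ne hja]
                exact hw j (fun h => (Finset.mem_insert.1 h).elim hja hj) hjJ) (by
              rw [← h0]
              congr 1
              funext b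
              rw [Function.update_of_ne (hna b)])
            rw [Finset.sum_congr rfl fun τ _ => by rw [hcomp]] at h2
            rw [h2, smul_zero]
        have h3 := key2 z
        rw [hz] at h3
        rw [← h3]
        refine Finset.sum_congr rfl fun τ _ => ?_
        rw [← hcomp, Function.update_eq_self]
  rw [sum_fixing hJ]
  rw [Finset.sum_congr rfl fun τ _ => by rw [Equiv.Perm.sign_extendDomain]]
  exact key Finset.univ w (fun j hj => absurd (Finset.mem_univ j) hj) h0

/-- If the alternating sums of the products of `N` classes in a subspace are zero, then an element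
of the group algebra of `S_r` which kills the tensors of degree `r` in `N - 1` dimensions kills the
products of `r` of these classes. -/
theorem kill_ext (hX : Hom X) {N : ℕ} (W : Submodule ℚ (CH X Unit))
    (h0 : ∀ w : Fin (N + 1) → CH X Unit, (∀ j, w j ∈ W) → Alt (Ext hX (N + 1)) w = 0) {r : ℕ}
    {β : Equiv.Perm (Fin r) → ℚ} (hβ : KillsTensors N β) (w : Fin r → CH X Unit)
    (hw : ∀ j, w j ∈ W) : ∑ τ, β τ • Ext hX r (w ∘ ⇑τ) = 0 := by
  refine second_fundamental (f := fun τ : Equiv.Perm (Fin r) => Ext hX r (w ∘ ⇑τ))
    (fun τ J hJ => ?_) hβ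
  have h1 := sf_fixing hX hJ (w ∘ ⇑τ) (h0 _ fun a => hw _)
  exact h1

variable {L : Type} [Field L] [Algebra k L]

/-- **The theorem for the group algebra.** Let `β` be an element of the group algebra of `S_r` which
acts as zero on `V ^ ⊗ r`, `dim V + 1 = n₀ + g`. -/
theorem mainS (hX : Hom X) (hL : IsCurve k L) {d : GD L m} (hd : d.Ok X)
    {D : Place k L →₀ ℤ} {n₀ : ℕ} (hD : deg D = n₀) (hn₀ : 0 < n₀)
    (hα : d.α ≠ 0 → ∀ v, 0 ≤ ord v d.α + 4 * D v) (hB : d.B ≠ 0 → ∀ v, 0 ≤ ord v d.B + 6 * D v)
    {g : ℕ} (hg : Riemann hL g) {N : ℕ} (hN : N + 1 = n₀ + g) {δ : Place k L}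
    (hδ : BadAt δ d.α d.B) {r : ℕ} {β : Equiv.Perm (Fin r) → ℚ} (hβ : KillsTensors N β)
    (z : Fin r → (Pt X k →₀ ℚ)) (hz : ∀ j, z j ∈ Submodule.span ℚ (DiffGen d X)) :
    ∑ τ : Equiv.Perm (Fin r), β τ • ext (fun j => z (τ j)) ∈ Rat X (Fin r) := by
  have h0 := kill_ext hX (N := N) (Submodule.span ℚ (cl1 X '' DiffGen d X)) (fun w hw => ?_) hβ
    (fun j => cl1 X (z j)) (fun j => ?_)
  · rw [← Submodule.Quotient.mk_eq_zero, ← Submodule.mkQ_apply, map_sum, ← h0]
    refine Finset.sum_congr rfl fun τ _ => ?_
    rw [map_smul, Submodule.mkQ_apply, ← Ext_cl hX fun j => z (τ j)]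
    rfl
  · refine mainC hX hL hd hD hn₀ hα hB hg (by omega) hδ (cl1 X '' DiffGen d X) ?_ w hw
    rintro U d' hd' hmap _ ⟨z, hz, rfl⟩
    exact diff_class hX hd' hmap hz
  · rw [← Submodule.map_span]
    exact Submodule.mem_map_of_mem (hz j)

end Pool.Agent.GT
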