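import Pool.Agent.GT.RedA
import Pool.Agent.TInf.FamDefs

/-!
# Points of the scaled curves
-/

set_option autoImplicit false

noncomputable section

namespace Pool.Agent.GT

open Pool.Agent.ZCyc Pool.Agent.Dess Polynomial
open Pool.Agent.VFP (Om tt)
open scoped Classical LinearAlgebra.Projectivization

open Pool.Agent.TInf

/-- The point `(x / u ², y / u ³)` of the curve with the coefficients `α`, `B` for a point `(x, y)` of
the curve with the coefficients `u ⁴ α`, `u ⁶ B`. -/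
def uns {K : Type} [Field K] [CharZero K] {α B : K} (hd : B ^ 2 ≠ 4 * α ^ 3) (u : K) :
    EPt K → (Ec α B).Point
  | none => 0
  | some (x, y) => if h : (y / u ^ 3) ^ 2 = (x / u ^ 2) ^ 3 - 3 * α * (x / u ^ 2) + B then
      pt hd h else 0

theorem uns_some {K : Type} [Field K] [CharZero K] {α B : K} (hd : B ^ 2 ≠ 4 * α ^ 3) {u : K}
    (hu : u ≠ 0) {x y : K} (h : EOn (u ^ 4 * α) (u ^ 6 * B) (some (x, y))) :
    ∃ h' : (Ec α B).Nonsingular (x / u ^ 2) (y / u ^ 3),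
      uns hd u (some (x, y)) = .some (x / u ^ 2) (y / u ^ 3) h' := by
  have h0 : y ^ 2 = x ^ 3 - 3 * (u ^ 4 * α) * x + u ^ 6 * B := h
  have h1 : (y / u ^ 3) ^ 2 = (x / u ^ 2) ^ 3 - 3 * α * (x / u ^ 2) + B := by
    rw [div_pow, h0]
    field_simp
  refine ⟨nonsing hd h1, ?_⟩
  show (if h : (y / u ^ 3) ^ 2 = (x / u ^ 2) ^ 3 - 3 * α * (x / u ^ 2) + B then
      pt hd h else 0) = _
  rw [dif_pos h1]
  rfl

theorem uns_neg {K : Type} [Field K] [CharZero K] {α B : K} (hd : B ^ 2 ≠ 4 * α ^ 3) {u : K}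
    (x y : K) : uns hd u (some (x, -y)) = -uns hd u (some (x, y)) := by
  show (if h : (-y / u ^ 3) ^ 2 = (x / u ^ 2) ^ 3 - 3 * α * (x / u ^ 2) + B then
      pt hd h else 0) = -(if h : (y / u ^ 3) ^ 2 = (x / u ^ 2) ^ 3 - 3 * α * (x / u ^ 2) + B then
      pt hd h else 0)
  have h1 : (-y / u ^ 3) ^ 2 = (y / u ^ 3) ^ 2 := by
    rw [neg_div, neg_sq]
  by_cases h : (y / u ^ 3) ^ 2 = (x / u ^ 2) ^ 3 - 3 * α * (x / u ^ 2) + B
  · rw [dif_pos h, dif_pos (h1.trans h)]
    unfold pt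
    rw [WeierstrassCurve.Affine.Point.neg_some, WeierstrassCurve.Affine.Point.some.injEq]
    refine ⟨rfl, ?_⟩
    simp [WeierstrassCurve.Affine.negY, neg_div]
  · rw [dif_neg h, dif_neg (fun h2 => h (h1.symm.trans h2)), neg_zero]

/-- every point comes from a point of the scaled curve -/
theorem exists_uns {K : Type} [Field K] [CharZero K] {α B : K} (hd : B ^ 2 ≠ 4 * α ^ 3)
    (P : (Ec α B).Point) : ∃ p : EPt K, EOn α B p ∧ uns hd 1 p = P := by
  rcases P with _ | ⟨x, y, h⟩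
  · exact ⟨none, trivial, rfl⟩
  · have h1 := eqn_iff.1 h.1
    refine ⟨some (x, y), h1, ?_⟩
    obtain ⟨h', h2⟩ := uns_some hd (u := 1) one_ne_zero (x := x) (y := y) (by
      show y ^ 2 = x ^ 3 - 3 * (1 ^ 4 * α) * x + 1 ^ 6 * B
      rw [h1]
      ring)
    rw [h2, WeierstrassCurve.Affine.Point.some.injEq]
    constructor
    · simp
    · simp

/-- values of scaled points -/
theorem pred_uns {k : Type} [Field k] [IsAlgClosed k] [CharZero k] {v : Place k (Om k)}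
    {α B u : Om k} {a b w : k} (hd : B ^ 2 ≠ 4 * α ^ 3) (hd' : b ^ 2 ≠ 4 * a ^ 3)
    (hα : v.At α a) (hB : v.At B b) (hu : v.At u w) (hw : w ≠ 0) {P : EPt (Om k)} {p : EPt k}
    (hP : EOn (u ^ 4 * α) (u ^ 6 * B) P) (h : EVal v P p) :
    PRed v (uns hd u P) (uns hd' w p) := by
  have hu0 : u ≠ 0 := by
    rintro rfl
    exact hw (hu.unique (Place.at_zero_iff.2 v.vanishes_zero))
  rcases P with _ | ⟨x, y⟩
  · rcases p with _ | ⟨x', y'⟩
    · exact trivial
    · exact h.elim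
  · obtain ⟨h1, h2⟩ := uns_some hd hu0 hP
    rcases p with _ | ⟨x', y'⟩
    · have h3 : x ∉ v.ring := h
      rw [h2]
      show x / u ^ 2 ∉ v.ring
      intro h4
      apply h3
      have h5 : x = x / u ^ 2 * u ^ 2 := by field_simp
      rw [h5]
      exact v.ring.mul_mem _ _ h4 (hu.pow 2).mem
    · obtain ⟨hx, hy⟩ : v.At x x' ∧ v.At y y' := h
      have hE : y ^ 2 = x ^ 3 - 3 * (u ^ 4 * α) * x + u ^ 6 * B := hP
      have h3 : v.At (3 : Om k) (3 : k) := by
        have := Place.at_const (v := v) (3 : k)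
        rwa [map_ofNat] at this
      have h4 : v.At (x ^ 3 - 3 * (u ^ 4 * α) * x + u ^ 6 * B)
          (x' ^ 3 - 3 * (w ^ 4 * a) * x' + w ^ 6 * b) :=
        ((hx.pow 3).sub ((h3.mul ((hu.pow 4).mul hα)).mul hx)).add ((hu.pow 6).mul hB)
      have h5 : y' ^ 2 = x' ^ 3 - 3 * (w ^ 4 * a) * x' + w ^ 6 * b := by
        have h6 := hy.pow 2
        rw [hE] at h6
        exact h6.unique h4
      obtain ⟨h1', h2'⟩ := uns_some hd' hw (x := x') (y := y') h5
      rw [h2, h2']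
      exact ⟨hx.div (hu.pow 2) (pow_ne_zero 2 hw), hy.div (hu.pow 3) (pow_ne_zero 3 hw)⟩

end Pool.Agent.GT
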