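import Pool.Agent.GT.Reg
import Pool.Agent.GT.Alt
import Pool.Agent.GT.Uns
import Pool.Agent.GT.TrB
import Pool.Agent.GT.TrC
import Pool.Agent.GT.BadC

/-!
# The system of classes
-/

set_option autoImplicit false

noncomputable section

namespace Pool.Agent.GT

open Pool.Agent.ZCyc Pool.Agent.Dess Polynomial
open Pool.Agent.VFP (Om tt)
open scoped Classical LinearAlgebra.Projectivization

open Pool.Agent.TInc Pool.Agent.KFam Pool.Agent.TInf

variable {k L : Type} [Field k] [IsAlgClosed k] [CharZero k] [Field L] [Algebra k L] {m : ℕ}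
  {X : Set (MvPolynomial (Fin (m + 1)) k)} {U : Set (Place k L)} {n : ℕ}

/-- the cubic over the function field for the data over the ring of functions regular on `U` -/
def cub (d : GD (regU U) m) (D : Place k L →₀ ℤ) : Cub k L 1 :=
  ⟨fun _ => (d.α : L), fun _ => (d.B : L), fun _ => D + D⟩

omit [IsAlgClosed k] [CharZero k] in
theorem disc_ne {A : Type} [CommRing A] [Algebra k A] {d : GD A m} (hd : d.Ok X) {K : Type}
    [Field K] [Algebra k K] (S : A →ₐ[k] K) : S d.B ^ 2 ≠ 4 * S d.α ^ 3 := by
  intro h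
  have h1 := hd.disc.map S
  rw [map_sub, map_mul, map_pow, map_pow, map_ofNat, h, sub_self] at h1
  exact not_isUnit_zero h1

omit [IsAlgClosed k] [CharZero k] in
theorem scl_add {K : Type} [Field K] (l : Place k L → Kˣ) (D : Place k L →₀ ℤ) :
    scl l (D + D) = scl l D ^ 2 := by
  unfold scl
  rw [Finsupp.prod_add_index', sq]
  · intro q
    rw [zpow_zero, Units.val_one]
  · intro q a b
    rw [zpow_add, Units.val_mul]

omit [IsAlgClosed k] [CharZero k] in
theorem scl_ne {K : Type} [Field K] (l : Place k L → Kˣ) (D : Place k L →₀ ℤ) : scl l D ≠ 0 := by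
  unfold scl Finsupp.prod
  exact Finset.prod_ne_zero_iff.2 fun q _ => Units.ne_zero _

/-- The class of an `n`-tuple of points over `k` over the places `s j` with scalings: the alternating
sum of the exterior products of the `TK`. -/
def clF (hX : Hom X) (hL : IsCurve k L) {d : GD (regU U) m} (hd : d.Ok X) (D : Place k L →₀ ℤ)
    (s : Fin n → U × (Place k L → kˣ)) (p : Fin n → EPt k) : CH X (Fin n) :=
  Alt (Ext hX n) fun j => TK hX hd (evk hL (s j).1)
    (uns (disc_ne hd (evk hL (s j).1)) (scl (s j).2 D) (p j))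

/-- The class of the limit of an `n`-tuple of points over `Om k`. -/
def clV (hX : Hom X) (hL : IsCurve k L) {d : GD (regU U) m} (hd : d.Ok X) (D : Place k L →₀ ℤ)
    (v : Place k (Om k)) (S : Fin n → ((L →ₐ[k] Om k) ⊕ U) × (Place k L → (Om k)ˣ))
    (P : Fin n → EPt (Om k)) : CH X (Fin n) :=
  Alt (Ext hX n) fun j => TV hX hd (evS hL (S j).1) v
    (uns (disc_ne hd (evS hL (S j).1)) (scl (S j).2 D) (P j))

/-- the point over `k` is on the curve of the base -/
private theorem sys_on {hL : IsCurve k L} {d : GD (regU U) m} {D : Place k L →₀ ℤ}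
    {hU : ∀ c ∈ U, (cub d D).Good c} {Z : Set (Place k L)} {s : Fin n → U × (Place k L → kˣ)}
    {i : Fin 1} {j : Fin n} {p : EPt k}
    (h : EOn (((cub d D).base hL U hU fun _ => Z).ea s i j)
      (((cub d D).base hL U hU fun _ => Z).eb s i j) p) :
    EOn (scl (s j).2 D ^ 4 * evk hL (s j).1 d.α) (scl (s j).2 D ^ 6 * evk hL (s j).1 d.B) p := by
  have h1 : ((cub d D).base hL U hU fun _ => Z).ea s i j =
      scl (s j).2 D ^ 4 * evk hL (s j).1 d.α := by
    change scl (s j).2 (D + D) ^ 2 * evk hL (s j).1 d.α = _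
    rw [scl_add]
    ring
  have h2 : ((cub d D).base hL U hU fun _ => Z).eb s i j =
      scl (s j).2 D ^ 6 * evk hL (s j).1 d.B := by
    change scl (s j).2 (D + D) ^ 3 * evk hL (s j).1 d.B = _
    rw [scl_add]
    ring
  rw [← h1, ← h2]
  exact h

/-- the same over `Om k` -/
private theorem sys_onQ {hL : IsCurve k L} {d : GD (regU U) m} {D : Place k L →₀ ℤ}
    {hU : ∀ c ∈ U, (cub d D).Good c} {Z : Set (Place k L)}
    {S : Fin n → ((L →ₐ[k] Om k) ⊕ U) × (Place k L → (Om k)ˣ)}
    {i : Fin 1} {j : Fin n} {P : EPt (Om k)}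
    (h : EOn (((cub d D).base hL U hU fun _ => Z).EA S i j)
      (((cub d D).base hL U hU fun _ => Z).EB S i j) P) :
    EOn (scl (S j).2 D ^ 4 * evS hL (S j).1 d.α) (scl (S j).2 D ^ 6 * evS hL (S j).1 d.B) P := by
  have h1 : ((cub d D).base hL U hU fun _ => Z).EA S i j =
      scl (S j).2 D ^ 4 * evS hL (S j).1 d.α := by
    rw [evS_eq]
    change scl (S j).2 (D + D) ^ 2 * evO (S j).1 (d.α : L) = _
    rw [scl_add]
    ring
  have h2 : ((cub d D).base hL U hU fun _ => Z).EB S i j =
      scl (S j).2 D ^ 6 * evS hL (S j).1 d.B := by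
    rw [evS_eq]
    change scl (S j).2 (D + D) ^ 3 * evO (S j).1 (d.B : L) = _
    rw [scl_add]
    ring
  rw [← h1, ← h2]
  exact h

/-- good reduction of one factor -/
private theorem sys_red (hX : Hom X) (hL : IsCurve k L) {d : GD (regU U) m} (hd : d.Ok X)
    (D : Place k L →₀ ℤ) {v : Place k (Om k)} {S : (L →ₐ[k] Om k) ⊕ U}
    {l : Place k L → (Om k)ˣ} {c : U} {l' : Place k L → kˣ} (h : Over v S c.1)
    (hl : ∀ q, v.At (l q : Om k) (l' q : k)) {P : EPt (Om k)} {p : EPt k}
    (hP : EOn (scl l D ^ 4 * evS hL S d.α) (scl l D ^ 6 * evS hL S d.B) P) (hp : EVal v P p) :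
    TV hX hd (evS hL S) v (uns (disc_ne hd (evS hL S)) (scl l D) P) =
      TK hX hd (evk hL c) (uns (disc_ne hd (evk hL c)) (scl l' D) p) :=
  TV_eq_TK hX hd (over_ev hL h)
    (pred_uns _ _ (over_ev hL h _) (over_ev hL h _) (at_scl hl D) (scl_ne _ _) hP hp)

/-- bad reduction of one factor -/
private theorem sys_bad (hX : Hom X) (hL : IsCurve k L) {d : GD (regU U) m} (hd : d.Ok X)
    {Z : Set (Place k L)} (hZ : ∀ δ ∈ Z, BadAt δ (d.α : L) (d.B : L)) (hUZ : ∀ δ ∈ Z, δ ∉ U)
    {v : Place k (Om k)} (S : (L →ₐ[k] Om k) ⊕ U) {δ : Place k L} (hδ : δ ∈ Z)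
    (h : Over v S δ) (P : (Ec (evS hL S d.α) (evS hL S d.B)).Point) :
    TV hX hd (evS hL S) v P = 0 := by
  rcases S with σ | c
  · exact TV_bad hX hL hd h (hZ δ hδ) P
  · have h1 : c.1 = δ := h
    exact absurd (h1 ▸ c.2) (hUZ δ hδ)

/-- all classes `clV` are limits of one cycle -/
private theorem sys_cyc (hX : Hom X) (hL : IsCurve k L) {d : GD (regU U) m} (hd : d.Ok X)
    (D : Place k L →₀ ℤ) (S : Fin n → ((L →ₐ[k] Om k) ⊕ U) × (Place k L → (Om k)ˣ))
    (P : Fin n → EPt (Om k)) : ∃ z : (Fin n → Pt X (Om k)) →₀ ℚ, ∀ v : Place k (Om k),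
      lim hX v z = clV hX hL hd D v S P := by
  choose z hz using fun j : Fin n => exists_cycle hX hd (evS hL (S j).1)
    (uns (disc_ne hd (evS hL (S j).1)) (scl (S j).2 D) (P j))
  refine ⟨∑ π : Equiv.Perm (Fin n), ((Equiv.Perm.sign π : ℤˣ) : ℤ) • ext (fun j => z (π j)),
    fun v => ?_⟩
  rw [lim_alt]
  unfold clV
  congr 1
  funext j
  exact hz j v

/-- The system of classes for the base of `cub d D`: `F s p = clF` if all points are on the curves
(and `0` otherwise), `Val v S P w` means `w = clV v S P`. `U` is a set of good places, `Z` a set of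
places with bad reduction, disjoint from `U`.
`perm`: `Alt_perm`. `odd`: `uns_neg`, `Alt_neg`. `inf`: `uns none = 0`, `Alt_zero`. `fin`: `over_ev`,
`at_scl`, `pred_uns`, `TV_eq_TK`; the values of points on the curves are on the curves
(`TInf.evalue_on`). `pole`: the same with `p = 0`. `sing`: an embedding `σ` with the place `δ ∈ Z`
below: `TV_bad`, `Alt_zero`; a constant place is in `U`, not in `Z`. `bridge`: `exists_cycle` for all
points, `lim_alt`, `GT.bridge` for the cycle `∑ w x • (alternating sum)`. -/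
theorem exists_sys (hX : Hom X) (hL : IsCurve k L) {d : GD (regU U) m} (hd : d.Ok X)
    (D : Place k L →₀ ℤ) (hU : ∀ c ∈ U, (cub d D).Good c) (Z : Set (Place k L))
    (hZ : ∀ δ ∈ Z, BadAt δ (d.α : L) (d.B : L)) (hUZ : ∀ δ ∈ Z, δ ∉ U) (n : ℕ) :
    ∃ Y : SysB ((cub d D).base hL U hU fun _ => Z) n (CH X (Fin n)),
      ∀ (s : Fin n → U × (Place k L → kˣ)) (p : Fin 1 → Fin n → EPt k),
        ((cub d D).base hL U hU fun _ => Z).On s p → Y.F s p = clF hX hL hd D s (p 0) := by
  refine ⟨{
    F := fun s p => if ((cub d D).base hL U hU fun _ => Z).On s p then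
      clF hX hL hd D s (p 0) else 0
    Val := fun v S P w => w = clV hX hL hd D v S (P 0)
    perm := ?_
    odd := ?_
    inf := ?_
    off := ?_
    fin := ?_
    pole := ?_
    sing := ?_
    bridge := ?_ }, ?_⟩
  · intro s p π
    have h1 : ((cub d D).base hL U hU fun _ => Z).On (s ∘ π) (fun i => p i ∘ π) ↔
        ((cub d D).base hL U hU fun _ => Z).On s p := by
      constructor
      · intro h i j
        obtain ⟨j, rfl⟩ := π.surjective j
        exact h i j
      · intro h i j
        exact h i (π j)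
    rw [pow_one]
    by_cases h2 : ((cub d D).base hL U hU fun _ => Z).On s p
    · rw [if_pos (h1.2 h2), if_pos h2]
      exact Alt_perm (Ext hX n) (fun j => TK hX hd (evk hL (s j).1)
        (uns (disc_ne hd (evk hL (s j).1)) (scl (s j).2 D) (p 0 j))) π
    · rw [if_neg fun h => h2 (h1.1 h), if_neg h2, smul_zero]
  · intro s p i j x y hp
    obtain rfl : i = 0 := Subsingleton.elim _ _
    have h1 : ((cub d D).base hL U hU fun _ => Z).On s
        (Function.update p 0 (Function.update (p 0) j (some (x, -y)))) ↔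
        ((cub d D).base hL U hU fun _ => Z).On s p := by
      have h3 : EOn (((cub d D).base hL U hU fun _ => Z).ea s 0 j)
          (((cub d D).base hL U hU fun _ => Z).eb s 0 j) (some (x, -y)) ↔
          EOn (((cub d D).base hL U hU fun _ => Z).ea s 0 j)
          (((cub d D).base hL U hU fun _ => Z).eb s 0 j) (some (x, y)) := by
        change (-y) ^ 2 = _ ↔ y ^ 2 = _
        rw [neg_sq]
      constructor
      · intro h i j'
        obtain rfl : i = 0 := Subsingleton.elim _ _
        have h4 := h 0 j'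
        rw [Function.update_self] at h4
        by_cases hj : j' = j
        · subst hj
          rw [Function.update_self] at h4
          rw [hp]
          exact h3.1 h4
        · rw [Function.update_of_ne hj] at h4
          exact h4
      · intro h i j'
        obtain rfl : i = 0 := Subsingleton.elim _ _
        have h4 := h 0 j'
        rw [Function.update_self]
        by_cases hj : j' = j
        · subst hj
          rw [Function.update_self]
          rw [hp] at h4
          exact h3.2 h4
        · rw [Function.update_of_ne hj]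
          exact h4
    by_cases h2 : ((cub d D).base hL U hU fun _ => Z).On s p
    · rw [if_pos (h1.2 h2), if_pos h2, Function.update_self]
      have h5 := Alt_neg (Ext hX n) (fun j => TK hX hd (evk hL (s j).1)
        (uns (disc_ne hd (evk hL (s j).1)) (scl (s j).2 D) (p 0 j))) j
      unfold clF
      rw [← h5]
      congr 1
      funext j'
      by_cases hj : j' = j
      · subst hj
        rw [Function.update_self, Function.update_self, uns_neg, map_neg, hp]
      · rw [Function.update_of_ne hj, Function.update_of_ne hj]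
    · rw [if_neg fun h => h2 (h1.1 h), if_neg h2, neg_zero]
  · intro s p i j hp
    obtain rfl : i = 0 := Subsingleton.elim _ _
    by_cases h2 : ((cub d D).base hL U hU fun _ => Z).On s p
    · rw [if_pos h2]
      refine Alt_zero (Ext hX n) _ j ?_
      rw [hp]
      exact map_zero _
    · rw [if_neg h2]
  · intro s p h
    exact if_neg h
  · intro v S P hP s p hs hp
    have h1 : ((cub d D).base hL U hU fun _ => Z).On s p := fun i j =>
      evalue_on (((cub d D).base hL U hU fun _ => Z).at_al v _ _ (hs j) i)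
        (((cub d D).base hL U hU fun _ => Z).at_be v _ _ (hs j) i) (hP i j) (hp i j)
    rw [if_pos h1]
    unfold clF clV
    congr 1
    funext j
    exact (sys_red hX hL hd D (hs j).1 (hs j).2 (sys_onQ (hP 0 j)) (hp 0 j)).symm
  · intro v S P hP i j c hc hp
    obtain rfl : i = 0 := Subsingleton.elim _ _
    refine (Alt_zero (Ext hX n) _ j ?_).symm
    refine (sys_red hX hL hd D hc.1 hc.2 (sys_onQ (hP 0 j)) hp).trans ?_
    exact map_zero _
  · intro v S P hP i j hb
    obtain ⟨δ, hδ, hov⟩ := hb
    refine (Alt_zero (Ext hX n) _ j ?_).symm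
    exact sys_bad hX hL hd hZ hUZ _ hδ hov _
  · intro I _ w S P hP c₀ c₁ C₀ C₁ h₀ h₁
    choose z hz using fun x : I => sys_cyc hX hL hd D (S x) (P x 0)
    have key : ∀ v : Place k (Om k), ∀ C : I → CH X (Fin n),
        (∀ x, C x = clV hX hL hd D v (S x) (P x 0)) →
        lim hX v (∑ x, w x • z x) = ∑ x, w x • C x := by
      intro v C hC
      rw [map_sum]
      refine Finset.sum_congr rfl fun x _ => ?_
      rw [map_smul, hz, hC]
    refine bridge hX (∑ x, w x • z x) (c₀ := c₀) (c₁ := c₁) (fun v hv => ?_) fun v hv => ?_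
    · obtain ⟨C, hC, hC'⟩ := h₀ v hv
      rw [key v C hC, hC']
    · obtain ⟨C, hC, hC'⟩ := h₁ v hv
      rw [key v C hC, hC']
  · intro s p h
    exact if_pos h

end Pool.Agent.GT
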