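import Pool.Agent.GT.HomV

/-!
# Families of elliptic curves with a multi-valued map
-/

set_option autoImplicit false

noncomputable section

namespace Pool.Agent.GT

open Pool.Agent.ZCyc Pool.Agent.Dess Polynomial
open Pool.Agent.VFP (Om tt)
open scoped Classical LinearAlgebra.Projectivization

variable {k : Type} [Field k] {m : ℕ} {X : Set (MvPolynomial (Fin (m + 1)) k)} {A : Type}
  [CommRing A] [Algebra k A]

/-- An elliptic curve over the ring `A`, a polynomial `h` and the coordinates of a map, which
depend on a root `θ` of `h` (the inner variable) and `x` (the outer variable). -/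
structure GD (A : Type) [CommRing A] (m : ℕ) where
  /-- the coefficient `α` -/
  α : A
  /-- the coefficient `B` -/
  B : A
  /-- the polynomial for the multi-valued map -/
  h : Polynomial A
  /-- the coordinates without `y` -/
  G : Fin (m + 1) → Polynomial (Polynomial A)
  /-- the coordinates with `y` -/
  H : Fin (m + 1) → Polynomial (Polynomial A)

variable {K : Type} [Field K]

/-- the map for the homomorphism `S` and the root `θ` -/
def GD.mp (d : GD A m) (S : A →+* K) (θ : K) : Mp K m :=
  ⟨fun i => (d.G i).map (Polynomial.eval₂RingHom S θ),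
    fun i => (d.H i).map (Polynomial.eval₂RingHom S θ)⟩

/-- the roots of `h` -/
def GD.rts (d : GD A m) (S : A →+* K) : Finset K := (d.h.map S).roots.toFinset

/-- the conditions which hold over an open set of the curve -/
structure GD.Ok (d : GD A m) (X : Set (MvPolynomial (Fin (m + 1)) k)) : Prop where
  monic : d.h.Monic
  sep : ∃ u w : Polynomial A, u * d.h + w * Polynomial.derivative d.h = 1
  disc : IsUnit (d.B ^ 2 - 4 * d.α ^ 3)
  ne : Ideal.span ({d.h} ∪ {c | ∃ i j, c = (d.G i).coeff j ∨ c = (d.H i).coeff j}) = ⊤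
  onX : ∀ (K : Type) [Field K] [Algebra k K] (S : A →ₐ[k] K) (θ : K),
    θ ∈ d.rts (S : A →+* K) → ∀ x y : K, y ^ 2 = x ^ 3 - 3 * S d.α * x + S d.B → ∀ f ∈ X,
      MvPolynomial.aeval ((d.mp (S : A →+* K) θ).co x y) f = 0

/-- Proof of `ne`: if all `G_i`, `H_i` were zero then all elements of the ideal would have the value
zero under `eval₂ S θ`, but `1` has not. -/
theorem GD.Ok.mp_ok {d : GD A m} (hd : d.Ok X) [Algebra k K] (S : A →ₐ[k] K)
    {θ : K} (hθ : θ ∈ d.rts (S : A →+* K)) :
    (d.mp (S : A →+* K) θ).Ok (S d.α) (S d.B) X := by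
  refine ⟨?_, ?_, ?_⟩
  · intro h
    have h1 : IsUnit (S (d.B ^ 2 - 4 * d.α ^ 3)) := hd.disc.map S
    rw [map_sub, map_mul, map_pow, map_pow, map_ofNat, h, sub_self] at h1
    exact not_isUnit_zero h1
  · by_contra hne
    push Not at hne
    have h1 : Ideal.span ({d.h} ∪ {c | ∃ i j, c = (d.G i).coeff j ∨ c = (d.H i).coeff j}) ≤
        RingHom.ker (Polynomial.eval₂RingHom (S : A →+* K) θ) := by
      rw [Ideal.span_le]
      rintro c (hc | ⟨i, j, hc⟩)
      · rw [Set.mem_singleton_iff] at hc
        subst hc
        rw [SetLike.mem_coe, RingHom.mem_ker, Polynomial.coe_eval₂RingHom]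
        have h2 := hθ
        rw [GD.rts, Multiset.mem_toFinset] at h2
        have h3 := Polynomial.isRoot_of_mem_roots h2
        rw [Polynomial.IsRoot, Polynomial.eval_map] at h3
        exact h3
      · rw [SetLike.mem_coe, RingHom.mem_ker]
        rcases hc with rfl | rfl
        · rw [← Polynomial.coeff_map]
          have h2 : (d.G i).map (Polynomial.eval₂RingHom (S : A →+* K) θ) = 0 := (hne i).1
          rw [h2, Polynomial.coeff_zero]
        · rw [← Polynomial.coeff_map]
          have h2 : (d.H i).map (Polynomial.eval₂RingHom (S : A →+* K) θ) = 0 := (hne i).2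
          rw [h2, Polynomial.coeff_zero]
    rw [hd.ne, top_le_iff] at h1
    have h2 : (1 : Polynomial A) ∈ RingHom.ker (Polynomial.eval₂RingHom (S : A →+* K) θ) := by
      rw [h1]
      exact Submodule.mem_top
    rw [RingHom.mem_ker, map_one] at h2
    exact one_ne_zero h2
  · intro f hf x y h
    exact hd.onX K S θ hθ x y h f hf

variable [IsAlgClosed k] [CharZero k]

/-- the sum over all roots of the homomorphisms, over `k` -/
def TK (hX : Hom X) {d : GD A m} (hd : d.Ok X) (s : A →ₐ[k] k) :
    (Ec (s d.α) (s d.B)).Point →+ CH X Unit :=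
  ∑ θ : {θ // θ ∈ d.rts (s : A →+* k)}, hK hX (hd.mp_ok s θ.2)

/-- the sum over all roots of the limit homomorphisms -/
def TV (hX : Hom X) {d : GD A m} (hd : d.Ok X) (S : A →ₐ[k] Om k) (v : Place k (Om k)) :
    (Ec (S d.α) (S d.B)).Point →+ CH X Unit :=
  ∑ θ : {θ // θ ∈ d.rts (S : A →+* Om k)}, hV hX (hd.mp_ok S θ.2) v

end Pool.Agent.GT
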